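import Mathlib

/-!
# Iterated kernels on a compact space
-/

open MeasureTheory Filter Topology

namespace Pool.Agent.X168.PK

set_option linter.unusedSectionVars false

noncomputable section

/-- complex conjugation -/
abbrev cj : ℂ → ℂ := starRingEnd ℂ

lemma cj_cont : Continuous cj := Complex.continuous_conj

section basic

variable {X Y : Type} [TopologicalSpace X] [CompactSpace X] [T2Space X]
  [SecondCountableTopology X] [MeasurableSpace X] [BorelSpace X]
  [TopologicalSpace Y] [CompactSpace Y] [T2Space Y]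
  [SecondCountableTopology Y] [MeasurableSpace Y] [BorelSpace Y]
  (μ : Measure X) [IsFiniteMeasure μ] (ν : Measure Y) [IsFiniteMeasure ν]

lemma ic {W : Type} [NormedAddCommGroup W] [SecondCountableTopology W] {f : X → W}
    (hf : Continuous f) : Integrable f μ :=
  hf.integrable_of_hasCompactSupport (HasCompactSupport.of_compactSpace f)

/-- continuity of a parametric integral -/
lemma cpi {f : X → Y → ℂ} (hf : Continuous fun p : X × Y => f p.1 p.2) :
    Continuous fun x => ∫ y, f x y ∂ν := by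
  have h := continuous_parametric_integral_of_continuous (μ := ν) (f := f) (s := Set.univ) hf
    isCompact_univ
  simpa using h

lemma cpiR {f : X → Y → ℝ} (hf : Continuous fun p : X × Y => f p.1 p.2) :
    Continuous fun x => ∫ y, f x y ∂ν := by
  have h := continuous_parametric_integral_of_continuous (μ := ν) (f := f) (s := Set.univ) hf
    isCompact_univ
  simpa using h

/-- interchange of integrals -/
lemma sw {f : X → Y → ℂ} (hf : Continuous fun p : X × Y => f p.1 p.2) :
    ∫ x, ∫ y, f x y ∂ν ∂μ = ∫ y, ∫ x, f x y ∂μ ∂ν :=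
  integral_integral_swap (ic (μ.prod ν) hf)

lemma cbdd {f : X → ℂ} (hf : Continuous f) : ∃ C : ℝ, 0 ≤ C ∧ ∀ x, ‖f x‖ ≤ C := by
  obtain ⟨C, hC⟩ := (isCompact_univ.image hf.norm).bddAbove
  exact ⟨max C 0, le_max_right _ _, fun x => (hC ⟨x, trivial, rfl⟩).trans (le_max_left _ _)⟩

lemma cbddR {f : X → ℝ} (hf : Continuous f) : ∃ C : ℝ, 0 ≤ C ∧ ∀ x, |f x| ≤ C := by
  obtain ⟨C, hC⟩ := (isCompact_univ.image hf.abs).bddAbove
  exact ⟨max C 0, le_max_right _ _, fun x => (hC ⟨x, trivial, rfl⟩).trans (le_max_left _ _)⟩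

end basic

section kernel

variable {Ω : Type} [TopologicalSpace Ω] [CompactSpace Ω] [T2Space Ω]
  [SecondCountableTopology Ω] [MeasurableSpace Ω] [BorelSpace Ω]
  (ν : Measure Ω) [IsFiniteMeasure ν]

/-- joint continuity -/
def C2 (K : Ω → Ω → ℂ) : Prop := Continuous fun p : Ω × Ω => K p.1 p.2

/-- `n + 1` kernels `K` with `n` weights `M` between them -/
def it (K : Ω → Ω → ℂ) (M : Ω → ℝ) : ℕ → Ω → Ω → ℂ
  | 0 => K
  | n + 1 => fun U V => ∫ W, it K M n U W * (M W : ℂ) * K W V ∂ν

lemma it_cont {K : Ω → Ω → ℂ} {M : Ω → ℝ} (hK : C2 K) (hM : Continuous M) (n : ℕ) :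
    C2 (it ν K M n) := by
  induction n with
  | zero => exact hK
  | succ n ih =>
    show Continuous fun p : Ω × Ω => ∫ W, it ν K M n p.1 W * (M W : ℂ) * K W p.2 ∂ν
    refine cpi ν (X := Ω × Ω) (f := fun p W => it ν K M n p.1 W * (M W : ℂ) * K W p.2) ?_
    have h1 : Continuous fun q : (Ω × Ω) × Ω => it ν K M n q.1.1 q.2 :=
      ih.comp ((continuous_fst.comp continuous_fst).prodMk continuous_snd)
    have h2 : Continuous fun q : (Ω × Ω) × Ω => K q.2 q.1.2 :=
      hK.comp (continuous_snd.prodMk (continuous_snd.comp continuous_fst))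
    exact (h1.mul (Complex.continuous_ofReal.comp (hM.comp continuous_snd))).mul h2

/-- bound -/
lemma it_bdd {K : Ω → Ω → ℂ} {M : Ω → ℝ} {B C : ℝ} (hK : ∀ U V, ‖K U V‖ ≤ B)
    (hM : ∀ U, |M U| ≤ C) (n : ℕ) (U V : Ω) :
    ‖it ν K M n U V‖ ≤ B * (C * B * ν.real Set.univ) ^ n := by
  induction n generalizing V with
  | zero => simpa [it] using hK U V
  | succ n ih =>
    have hB : 0 ≤ B := (norm_nonneg _).trans (hK U V)
    have hC : 0 ≤ C := (abs_nonneg _).trans (hM U)
    show ‖∫ W, it ν K M n U W * (M W : ℂ) * K W V ∂ν‖ ≤ _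
    refine (norm_integral_le_of_norm_le_const (C := B * (C * B * ν.real Set.univ) ^ n * C * B)
      (Filter.Eventually.of_forall fun W => ?_)).trans (le_of_eq ?_)
    · rw [norm_mul, norm_mul, Complex.norm_real, Real.norm_eq_abs]
      refine mul_le_mul (mul_le_mul (ih W) (hM W) (abs_nonneg _) ?_) (hK W V) (norm_nonneg _) ?_
      · positivity
      · positivity
    · ring

/-- convergence of the iterated kernels -/
lemma it_tend {K : Ω → Ω → ℂ} {KJ : ℕ → Ω → Ω → ℂ} {M : Ω → ℝ} {B : ℝ}
    (hKJ : ∀ J, C2 (KJ J)) (hM : Continuous M) (hB : ∀ J U V, ‖KJ J U V‖ ≤ B)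
    (hlim : ∀ U V, Tendsto (fun J => KJ J U V) atTop (𝓝 (K U V))) (n : ℕ) (U V : Ω) :
    Tendsto (fun J => it ν (KJ J) M n U V) atTop (𝓝 (it ν K M n U V)) := by
  obtain ⟨C, hC0, hC⟩ := cbddR hM
  induction n generalizing V with
  | zero => exact hlim U V
  | succ n ih =>
    have hB0 : 0 ≤ B := (norm_nonneg _).trans (hB 0 U V)
    show Tendsto (fun J => ∫ W, it ν (KJ J) M n U W * (M W : ℂ) * KJ J W V ∂ν) atTop
      (𝓝 (∫ W, it ν K M n U W * (M W : ℂ) * K W V ∂ν))
    refine tendsto_integral_of_dominated_convergence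
      (fun _ => B * (C * B * ν.real Set.univ) ^ n * C * B) (fun J => ?_) (integrable_const _)
      (fun J => Filter.Eventually.of_forall fun W => ?_)
      (Filter.Eventually.of_forall fun W => ?_)
    · have h1 : Continuous fun W => it ν (KJ J) M n U W * (M W : ℂ) * KJ J W V := by
        have := it_cont ν (hKJ J) hM n
        have h1 : Continuous fun W => it ν (KJ J) M n U W :=
          this.comp (continuous_const.prodMk continuous_id)
        have h2 : Continuous fun W => KJ J W V := (hKJ J).comp (continuous_id.prodMk continuous_const)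
        exact (h1.mul (Complex.continuous_ofReal.comp hM)).mul h2
      exact h1.aestronglyMeasurable
    · rw [norm_mul, norm_mul, Complex.norm_real, Real.norm_eq_abs]
      refine mul_le_mul (mul_le_mul (it_bdd ν (hB J) hC n U W) (hC W) (abs_nonneg _) ?_)
        (hB J W V) (norm_nonneg _) ?_
      · positivity
      · positivity
    · exact ((ih W).mul_const _).mul (hlim W V)

end kernel

section trace

variable {Ω : Type} [TopologicalSpace Ω] [CompactSpace Ω] [T2Space Ω]
  [SecondCountableTopology Ω] [MeasurableSpace Ω] [BorelSpace Ω]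
  (ν : Measure Ω) [IsFiniteMeasure ν]
  {Γ : Type} [TopologicalSpace Γ] [CompactSpace Γ] [T2Space Γ]
  [SecondCountableTopology Γ] [MeasurableSpace Γ] [BorelSpace Γ]
  (μ : Measure Γ) [IsFiniteMeasure μ] (act : Γ → Ω → Ω)

/-- the twisted trace -/
def Zg (g : Γ → ℂ) (K : Ω → Ω → ℂ) (M : Ω → ℝ) (n : ℕ) : ℂ :=
  ∫ c, g c * ∫ U, (M U : ℂ) * it ν K M n U (act c U) ∂ν ∂μ

variable {act}

lemma tr_cont (hact : Continuous fun p : Γ × Ω => act p.1 p.2) {Q : Ω → Ω → ℂ} (hQ : C2 Q)
    {M : Ω → ℝ} (hM : Continuous M) :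
    Continuous fun c => ∫ U, (M U : ℂ) * Q U (act c U) ∂ν := by
  refine cpi ν (f := fun c U => (M U : ℂ) * Q U (act c U)) ?_
  have h1 : Continuous fun p : Γ × Ω => Q p.2 (act p.1 p.2) := hQ.comp (continuous_snd.prodMk hact)
  exact (Complex.continuous_ofReal.comp (hM.comp continuous_snd)).mul h1

lemma Zg_tend (hact : Continuous fun p : Γ × Ω => act p.1 p.2) {g : Γ → ℂ} (hg : Continuous g)
    {K : Ω → Ω → ℂ} {KJ : ℕ → Ω → Ω → ℂ} {M : Ω → ℝ} {B : ℝ}
    (hKJ : ∀ J, C2 (KJ J)) (hM : Continuous M) (hB : ∀ J U V, ‖KJ J U V‖ ≤ B)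
    (hlim : ∀ U V, Tendsto (fun J => KJ J U V) atTop (𝓝 (K U V))) (n : ℕ) :
    Tendsto (fun J => Zg ν μ act g (KJ J) M n) atTop (𝓝 (Zg ν μ act g K M n)) := by
  obtain ⟨C, hC0, hC⟩ := cbddR hM
  obtain ⟨D, hD0, hD⟩ := cbdd hg
  by_cases hne : Nonempty Ω
  swap
  · have : IsEmpty Ω := not_nonempty_iff.1 hne
    have h1 : ∀ K' : Ω → Ω → ℂ, Zg ν μ act g K' M n = Zg ν μ act g K M n := by
      intro K'
      have : K' = K := by
        funext U
        exact isEmptyElim U
      rw [this]
    simp only [h1]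
    exact tendsto_const_nhds
  obtain ⟨U0⟩ := hne
  have hB0 : 0 ≤ B := (norm_nonneg _).trans (hB 0 U0 U0)
  set b : ℝ := B * (C * B * ν.real Set.univ) ^ n with hb
  have hb0 : 0 ≤ b := by positivity
  have hin : ∀ J c, ‖∫ U, (M U : ℂ) * it ν (KJ J) M n U (act c U) ∂ν‖ ≤
      C * b * ν.real Set.univ := by
    intro J c
    refine norm_integral_le_of_norm_le_const (Filter.Eventually.of_forall fun U => ?_)
    rw [norm_mul, Complex.norm_real, Real.norm_eq_abs]
    exact mul_le_mul (hC U) (it_bdd ν (hB J) hC n U _) (norm_nonneg _) hC0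
  refine tendsto_integral_of_dominated_convergence (fun _ => D * (C * b * ν.real Set.univ))
    (fun J => ?_) (integrable_const _) (fun J => Filter.Eventually.of_forall fun c => ?_)
    (Filter.Eventually.of_forall fun c => ?_)
  · exact (hg.mul (tr_cont ν hact (it_cont ν (hKJ J) hM n) hM)).aestronglyMeasurable
  · rw [norm_mul]
    exact mul_le_mul (hD c) (hin J c) (norm_nonneg _) hD0
  · refine Tendsto.const_mul _ ?_
    refine tendsto_integral_of_dominated_convergence (fun _ => C * b)
      (fun J => ?_) (integrable_const _) (fun J => Filter.Eventually.of_forall fun U => ?_)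
      (Filter.Eventually.of_forall fun U => ?_)
    · have h1 : Continuous fun U => it ν (KJ J) M n U (act c U) :=
        (it_cont ν (hKJ J) hM n).comp (continuous_id.prodMk
          (hact.comp (continuous_const.prodMk continuous_id)))
      exact ((Complex.continuous_ofReal.comp hM).mul h1).aestronglyMeasurable
    · rw [norm_mul, Complex.norm_real, Real.norm_eq_abs]
      exact mul_le_mul (hC U) (it_bdd ν (hB J) hC n U _) (norm_nonneg _) hC0
    · exact (it_tend ν hKJ hM hB hlim n U _).const_mul _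

end trace

end

end Pool.Agent.X168.PK
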