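import Mathlib

/-!
# Monotonicity of the trace of powers
-/

open Matrix
open scoped ComplexOrder

namespace Pool.Agent.X168.PK

set_option linter.unusedSectionVars false

noncomputable section

variable {S T : Type} [Fintype S] [DecidableEq S] [Fintype T] [DecidableEq T]

lemma conj_pow {U : Matrix S S ℂ} (h1 : Uᴴ * U = 1) (h2 : U * Uᴴ = 1) (d : S → ℂ) (n : ℕ) :
    (U * diagonal d * Uᴴ) ^ n = U * diagonal (fun i => d i ^ n) * Uᴴ := by
  induction n with
  | zero =>
    simp only [pow_zero]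
    rw [show (diagonal fun _ : S => (1:ℂ)) = 1 from diagonal_one, Matrix.mul_one, h2]
  | succ n ih =>
    rw [pow_succ, ih]
    calc U * diagonal (fun i => d i ^ n) * Uᴴ * (U * diagonal d * Uᴴ)
        = U * (diagonal (fun i => d i ^ n) * (Uᴴ * U) * diagonal d) * Uᴴ := by
          simp only [Matrix.mul_assoc]
      _ = _ := by
          rw [h1, Matrix.mul_one, Matrix.diagonal_mul_diagonal]
          simp only [pow_succ]

/-- powers of a hermitian matrix in an eigenbasis -/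
lemma pow_spec {A : Matrix S S ℂ} (hA : A.IsHermitian) (n : ℕ) :
    A ^ n = (hA.eigenvectorUnitary : Matrix S S ℂ) *
      diagonal (fun i => ((hA.eigenvalues i : ℝ) : ℂ) ^ n) *
      (hA.eigenvectorUnitary : Matrix S S ℂ)ᴴ := by
  have h1 : (hA.eigenvectorUnitary : Matrix S S ℂ)ᴴ * (hA.eigenvectorUnitary : Matrix S S ℂ) = 1 :=
    Matrix.mem_unitaryGroup_iff'.1 hA.eigenvectorUnitary.2
  have h2 : (hA.eigenvectorUnitary : Matrix S S ℂ) * (hA.eigenvectorUnitary : Matrix S S ℂ)ᴴ = 1 :=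
    Matrix.mem_unitaryGroup_iff.1 hA.eigenvectorUnitary.2
  have h3 : A = (hA.eigenvectorUnitary : Matrix S S ℂ) *
      diagonal (fun i => ((hA.eigenvalues i : ℝ) : ℂ)) *
      (hA.eigenvectorUnitary : Matrix S S ℂ)ᴴ := by
    have h := hA.spectral_theorem
    rw [Unitary.conjStarAlgAut_apply] at h
    exact h
  exact (congrArg (· ^ n) h3).trans (conj_pow h1 h2 _ n)

lemma trace_pow_spec {A : Matrix S S ℂ} (hA : A.IsHermitian) (n : ℕ) :
    trace (A ^ n) = ((∑ i, hA.eigenvalues i ^ n : ℝ) : ℂ) := by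
  rw [pow_spec hA n, Matrix.trace_mul_comm, ← Matrix.mul_assoc]
  have h1 : (hA.eigenvectorUnitary : Matrix S S ℂ)ᴴ * (hA.eigenvectorUnitary : Matrix S S ℂ) = 1 :=
    Matrix.mem_unitaryGroup_iff'.1 hA.eigenvectorUnitary.2
  rw [h1, Matrix.one_mul, Matrix.trace_diagonal]
  push_cast
  rfl

/-- `tr (A ^ n) ≤ tr (B ^ n)` for `0 ≤ A ≤ V* B V`, `V* V = 1` -/
theorem trace_pow_le {A : Matrix S S ℂ} {B : Matrix T T ℂ} {V : Matrix T S ℂ}
    (hA : A.PosSemidef) (hB : B.PosSemidef) (hV : Vᴴ * V = 1)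
    (hAB : (Vᴴ * B * V - A).PosSemidef) (n : ℕ) :
    0 ≤ (trace (A ^ n)).re ∧ (trace (A ^ n)).im = 0 ∧
      (trace (A ^ (n + 1))).re ≤ (trace (B ^ (n + 1))).re := by
  have hAH := hA.1
  have hBH := hB.1
  rw [trace_pow_spec hAH, trace_pow_spec hAH, trace_pow_spec hBH]
  refine ⟨?_, Complex.ofReal_im _, ?_⟩
  · rw [Complex.ofReal_re]
    exact Finset.sum_nonneg fun i _ => pow_nonneg (hA.eigenvalues_nonneg i) n
  rw [Complex.ofReal_re, Complex.ofReal_re]
  set UA : Matrix S S ℂ := (hAH.eigenvectorUnitary : Matrix S S ℂ) with hUA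
  set UB : Matrix T T ℂ := (hBH.eigenvectorUnitary : Matrix T T ℂ) with hUB
  have a1 : UAᴴ * UA = 1 := Matrix.mem_unitaryGroup_iff'.1 hAH.eigenvectorUnitary.2
  have a2 : UA * UAᴴ = 1 := Matrix.mem_unitaryGroup_iff.1 hAH.eigenvectorUnitary.2
  have b1 : UBᴴ * UB = 1 := Matrix.mem_unitaryGroup_iff'.1 hBH.eigenvectorUnitary.2
  have b2 : UB * UBᴴ = 1 := Matrix.mem_unitaryGroup_iff.1 hBH.eigenvectorUnitary.2
  have a3 : A = UA * diagonal (fun i => ((hAH.eigenvalues i : ℝ) : ℂ)) * UAᴴ := by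
    have h := hAH.spectral_theorem
    rw [Unitary.conjStarAlgAut_apply] at h
    exact h
  have b3 : B = UB * diagonal (fun i => ((hBH.eigenvalues i : ℝ) : ℂ)) * UBᴴ := by
    have h := hBH.spectral_theorem
    rw [Unitary.conjStarAlgAut_apply] at h
    exact h
  -- `W = UB* V UA`
  set W : Matrix T S ℂ := UBᴴ * V * UA with hW
  have hWW : Wᴴ * W = 1 := by
    rw [hW, Matrix.conjTranspose_mul, Matrix.conjTranspose_mul, Matrix.conjTranspose_conjTranspose]
    calc UAᴴ * (Vᴴ * UB) * (UBᴴ * V * UA) = UAᴴ * (Vᴴ * (UB * UBᴴ) * V) * UA := by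
          simp only [Matrix.mul_assoc]
      _ = 1 := by rw [b2, Matrix.mul_one, hV, Matrix.mul_one, a1]
  have hcol : ∀ i, ∑ j, ‖W j i‖ ^ 2 = 1 := by
    intro i
    have h := congrFun (congrFun hWW i) i
    rw [Matrix.mul_apply, Matrix.one_apply_eq] at h
    have h2 : ((∑ j, ‖W j i‖ ^ 2 : ℝ) : ℂ) = 1 := by
      rw [← h]
      push_cast
      refine Finset.sum_congr rfl fun j _ => ?_
      rw [Matrix.conjTranspose_apply, ← Complex.conj_mul']
      rfl
    exact_mod_cast h2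
  have hrow : ∀ j, ∑ i, ‖W j i‖ ^ 2 ≤ 1 := by
    intro j
    -- the projection `W W*` has diagonal at most one
    have hP : (W * Wᴴ) * (W * Wᴴ) = W * Wᴴ := by
      calc (W * Wᴴ) * (W * Wᴴ) = W * (Wᴴ * W) * Wᴴ := by simp only [Matrix.mul_assoc]
        _ = _ := by rw [hWW, Matrix.mul_one]
    set P := W * Wᴴ with hPdef
    have hPH : Pᴴ = P := by
      rw [hPdef, Matrix.conjTranspose_mul, Matrix.conjTranspose_conjTranspose]
    have h1 : ((∑ i, ‖W j i‖ ^ 2 : ℝ) : ℂ) = P j j := by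
      rw [hPdef, Matrix.mul_apply]
      push_cast
      refine Finset.sum_congr rfl fun i _ => ?_
      rw [Matrix.conjTranspose_apply, ← Complex.mul_conj']
      rfl
    have h2 : P j j = ((∑ k, ‖P k j‖ ^ 2 : ℝ) : ℂ) := by
      conv_lhs => rw [← hP]
      rw [Matrix.mul_apply]
      push_cast
      refine Finset.sum_congr rfl fun k _ => ?_
      have : P j k = (starRingEnd ℂ) (P k j) := by
        conv_lhs => rw [← hPH]
        rfl
      rw [this, Complex.conj_mul']
    set s : ℝ := ∑ i, ‖W j i‖ ^ 2 with hs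
    have hs0 : 0 ≤ s := Finset.sum_nonneg fun _ _ => sq_nonneg _
    have h3 : s = ∑ k, ‖P k j‖ ^ 2 := by
      rw [h2] at h1
      exact_mod_cast h1
    have h4 : ‖P j j‖ ^ 2 ≤ s := by
      rw [h3]
      exact Finset.single_le_sum (f := fun k => ‖P k j‖ ^ 2) (fun _ _ => sq_nonneg _)
        (Finset.mem_univ j)
    have h5 : ‖P j j‖ = s := by
      rw [← h1, Complex.norm_real, Real.norm_eq_abs, abs_of_nonneg hs0]
    rw [h5] at h4
    nlinarith
  -- comparison of the eigenvalues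
  have hev : ∀ i, hAH.eigenvalues i ≤ ∑ j, ‖W j i‖ ^ 2 * hBH.eigenvalues j := by
    intro i
    have h1 := hAB.conjTranspose_mul_mul_same UA
    have h2 : UAᴴ * (Vᴴ * B * V - A) * UA = Wᴴ *
        diagonal (fun j => ((hBH.eigenvalues j : ℝ) : ℂ)) * W -
        diagonal (fun i => ((hAH.eigenvalues i : ℝ) : ℂ)) := by
      rw [Matrix.mul_sub, Matrix.sub_mul]
      congr 1
      · conv_lhs => rw [b3]
        rw [hW, Matrix.conjTranspose_mul, Matrix.conjTranspose_mul,
          Matrix.conjTranspose_conjTranspose]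
        simp only [Matrix.mul_assoc]
      · conv_lhs => rw [a3]
        calc UAᴴ * (UA * diagonal (fun i => ((hAH.eigenvalues i : ℝ) : ℂ)) * UAᴴ) * UA
            = (UAᴴ * UA) * diagonal (fun i => ((hAH.eigenvalues i : ℝ) : ℂ)) * (UAᴴ * UA) := by
              simp only [Matrix.mul_assoc]
          _ = _ := by rw [a1, Matrix.one_mul, Matrix.mul_one]
    rw [h2] at h1
    have h3 := h1.diag_nonneg (i := i)
    rw [Matrix.sub_apply, Matrix.diagonal_apply_eq] at h3
    have h4 : (Wᴴ * diagonal (fun j => ((hBH.eigenvalues j : ℝ) : ℂ)) * W) i i =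
        ((∑ j, ‖W j i‖ ^ 2 * hBH.eigenvalues j : ℝ) : ℂ) := by
      rw [Matrix.mul_apply]
      push_cast
      refine Finset.sum_congr rfl fun j _ => ?_
      rw [Matrix.mul_diagonal, Matrix.conjTranspose_apply, ← Complex.conj_mul']
      show (starRingEnd ℂ) (W j i) * _ * _ = _
      ring
    rw [h4, ← Complex.ofReal_sub] at h3
    have h5 : (0:ℝ) ≤ (∑ j, ‖W j i‖ ^ 2 * hBH.eigenvalues j) - hAH.eigenvalues i := by
      exact_mod_cast h3
    linarith
  calc ∑ i, hAH.eigenvalues i ^ (n + 1)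
      ≤ ∑ i, (∑ j, ‖W j i‖ ^ 2 * hBH.eigenvalues j) ^ (n + 1) :=
        Finset.sum_le_sum fun i _ => pow_le_pow_left₀ (hA.eigenvalues_nonneg i) (hev i) _
    _ ≤ ∑ i, ∑ j, ‖W j i‖ ^ 2 * hBH.eigenvalues j ^ (n + 1) :=
        Finset.sum_le_sum fun i _ => Real.pow_arith_mean_le_arith_mean_pow Finset.univ _ _
          (fun j _ => sq_nonneg _) (hcol i) (fun j _ => hB.eigenvalues_nonneg j) _
    _ = ∑ j, (∑ i, ‖W j i‖ ^ 2) * hBH.eigenvalues j ^ (n + 1) := by
        rw [Finset.sum_comm]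
        exact Finset.sum_congr rfl fun j _ => (Finset.sum_mul _ _ _).symm
    _ ≤ ∑ j, hBH.eigenvalues j ^ (n + 1) := by
        refine Finset.sum_le_sum fun j _ => ?_
        exact mul_le_of_le_one_left (pow_nonneg (hB.eigenvalues_nonneg j) _) (hrow j)

end

end Pool.Agent.X168.PK
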