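import Mathlib
import Pool.Agent.X168.PK.Ker1
import Pool.Agent.X168.PK.Peierls

/-!
# Monotonicity of the twisted traces
-/

open MeasureTheory Filter Topology Matrix
open scoped ComplexOrder

namespace Pool.Agent.X168.PK

set_option linter.unusedSectionVars false

noncomputable section

/-- a continuous unitary matrix representation -/
structure UR {Γ A : Type} [Group Γ] [TopologicalSpace Γ] [Fintype A] [DecidableEq A]
    (R : Γ → Matrix A A ℂ) : Prop where
  mul : ∀ a b, R (a * b) = R a * R b
  uni : ∀ a, (R a)ᴴ * R a = 1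
  cont : ∀ i j, Continuous fun a => R a i j

lemma UR.one {Γ A : Type} [Group Γ] [TopologicalSpace Γ] [Fintype A] [DecidableEq A]
    {R : Γ → Matrix A A ℂ} (h : UR R) : R 1 = 1 := by
  have h1 := h.mul 1 1
  rw [one_mul] at h1
  calc R 1 = ((R 1)ᴴ * R 1) * R 1 := by rw [h.uni, one_mul]
    _ = (R 1)ᴴ * (R 1 * R 1) := by rw [Matrix.mul_assoc]
    _ = (R 1)ᴴ * R 1 := by rw [← h1]
    _ = 1 := h.uni 1

lemma UR.inv {Γ A : Type} [Group Γ] [TopologicalSpace Γ] [Fintype A] [DecidableEq A]
    {R : Γ → Matrix A A ℂ} (h : UR R) (a : Γ) : R a⁻¹ = (R a)ᴴ := by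
  have h1 : R a * R a⁻¹ = 1 := by rw [← h.mul, mul_inv_cancel, h.one]
  calc R a⁻¹ = ((R a)ᴴ * R a) * R a⁻¹ := by rw [h.uni, one_mul]
    _ = (R a)ᴴ * (R a * R a⁻¹) := by rw [Matrix.mul_assoc]
    _ = _ := by rw [h1, mul_one]

/-- an action by measure preserving continuous maps -/
structure Act {Γ Ω : Type} [Group Γ] [TopologicalSpace Γ] [TopologicalSpace Ω]
    [MeasurableSpace Ω] (ν : Measure Ω) (act : Γ → Ω → Ω) : Prop where
  cont : Continuous fun p : Γ × Ω => act p.1 p.2
  mul : ∀ a b U, act (a * b) U = act a (act b U)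
  one : ∀ U, act 1 U = U
  mp : ∀ a, MeasurePreserving (act a) ν ν

/-- sums of squares -/
def GK {Ω : Type} [TopologicalSpace Ω] (K : Ω → Ω → ℂ) : Prop :=
  ∃ (I : Type) (_ : Fintype I) (_ : DecidableEq I) (w : I → Ω → ℂ), (∀ i, Continuous (w i)) ∧
    ∀ U V, K U V = ∑ i, w i U * cj (w i V)

variable {Ω : Type} [TopologicalSpace Ω] [CompactSpace Ω] [T2Space Ω]
  [SecondCountableTopology Ω] [MeasurableSpace Ω] [BorelSpace Ω]
  (ν : Measure Ω) [IsFiniteMeasure ν]
  {Γ : Type} [Group Γ] [TopologicalSpace Γ] [IsTopologicalGroup Γ] [CompactSpace Γ] [T2Space Γ]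
  [SecondCountableTopology Γ] [MeasurableSpace Γ] [BorelSpace Γ]
  (μ : Measure Γ) [IsProbabilityMeasure μ] [μ.IsMulLeftInvariant]
  {act : Γ → Ω → Ω} {A : Type} [Fintype A] [DecidableEq A] {R : Γ → Matrix A A ℂ}
  {I : Type} [Fintype I] [DecidableEq I]

lemma GK.c2 {K : Ω → Ω → ℂ} (h : GK K) : C2 K := by
  obtain ⟨I, _, _, w, hw, hK⟩ := h
  have : (fun p : Ω × Ω => K p.1 p.2) = fun p => ∑ i, w i p.1 * cj (w i p.2) :=
    funext fun p => hK _ _
  unfold C2
  rw [this]
  exact continuous_finsetSum _ fun i _ =>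
    ((hw i).comp continuous_fst).mul (cj_cont.comp ((hw i).comp continuous_snd))

lemma cj_int {X : Type} [MeasurableSpace X] (m : Measure X) (f : X → ℂ) :
    cj (∫ x, f x ∂m) = ∫ x, cj (f x) ∂m := integral_conj.symm

lemma cj_mul (x y : ℂ) : cj (x * y) = cj x * cj y := map_mul _ _ _

lemma cj_cj (x : ℂ) : cj (cj x) = x := Complex.conj_conj x

/-- features with values in the representation -/
def ft (act : Γ → Ω → Ω) (R : Γ → Matrix A A ℂ) (w : I → Ω → ℂ) (q : I × A) (a : A) (U : Ω) : ℂ :=
  ∫ c, w q.1 (act c U) * cj (R c q.2 a) ∂μ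

lemma ft_cont (hact : Act ν act) (hR : UR R) {w : I → Ω → ℂ} (hw : ∀ i, Continuous (w i))
    (q : I × A) (a : A) : Continuous (ft μ act R w q a) := by
  refine cpi μ (f := fun U c => w q.1 (act c U) * cj (R c q.2 a)) ?_
  have h1 : Continuous fun p : Ω × Γ => act p.2 p.1 :=
    hact.cont.comp (continuous_snd.prodMk continuous_fst)
  exact ((hw q.1).comp h1).mul (cj_cont.comp ((hR.cont _ _).comp continuous_snd))

lemma feat (hact : Act ν act) (hR : UR R) {w : I → Ω → ℂ} (hw : ∀ i, Continuous (w i))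
    {K : Ω → Ω → ℂ} (hK : ∀ U V, K U V = ∑ i, w i U * cj (w i V))
    (hinv : ∀ c U V, K (act c U) (act c V) = K U V) (U V : Ω) (a b : A) :
    ∫ c, R c a b * K U (act c V) ∂μ =
      ∑ q : I × A, ft μ act R w q a U * cj (ft μ act R w q b V) := by
  have hK2 : C2 K := GK.c2 ⟨I, inferInstance, inferInstance, w, hw, hK⟩
  have ca : ∀ W : Ω, Continuous fun c : Γ => act c W := fun W =>
    hact.cont.comp (continuous_id.prodMk continuous_const)
  symm
  have h1 : ∀ q : I × A, ft μ act R w q a U * cj (ft μ act R w q b V) =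
      ∫ c', ∫ c, (w q.1 (act c' U) * cj (R c' q.2 a)) *
        (cj (w q.1 (act c V)) * R c q.2 b) ∂μ ∂μ := by
    intro q
    unfold ft
    rw [cj_int]
    simp only [integral_const_mul]
    rw [integral_mul_const]
    congr 1
    refine integral_congr_ae (Filter.Eventually.of_forall fun c => ?_)
    show cj (w q.1 (act c V) * cj (R c q.2 b)) = _
    rw [cj_mul, cj_cj]
  have hcq : ∀ q : I × A, Continuous fun p : Γ × Γ =>
      (w q.1 (act p.1 U) * cj (R p.1 q.2 a)) * (cj (w q.1 (act p.2 V)) * R p.2 q.2 b) := by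
    intro q
    have e1 : Continuous fun p : Γ × Γ => act p.1 U := (ca U).comp continuous_fst
    have e2 : Continuous fun p : Γ × Γ => act p.2 V := (ca V).comp continuous_snd
    exact (((hw q.1).comp e1).mul (cj_cont.comp ((hR.cont _ _).comp continuous_fst))).mul
      ((cj_cont.comp ((hw q.1).comp e2)).mul ((hR.cont _ _).comp continuous_snd))
  rw [Finset.sum_congr rfl fun q _ => h1 q,
    ← integral_finsetSum _ fun q _ => ic μ (cpi μ (hcq q))]
  have h2 : ∀ c', ∑ q : I × A, ∫ c, (w q.1 (act c' U) * cj (R c' q.2 a)) *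
      (cj (w q.1 (act c V)) * R c q.2 b) ∂μ = ∫ c, R c a b * K U (act c V) ∂μ := by
    intro c'
    rw [← integral_finsetSum]
    · rw [← integral_mul_left_eq_self (fun c => R c a b * K U (act c V)) c'⁻¹]
      refine integral_congr_ae (Filter.Eventually.of_forall fun c => ?_)
      show ∑ q : I × A, (w q.1 (act c' U) * cj (R c' q.2 a)) *
        (cj (w q.1 (act c V)) * R c q.2 b) = R (c'⁻¹ * c) a b * K U (act (c'⁻¹ * c) V)
      have e1 : K U (act (c'⁻¹ * c) V) = K (act c' U) (act c V) := by
        rw [← hinv c' U, ← hact.mul, mul_inv_cancel_left]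
      rw [e1, hK, hR.mul, hR.inv, Matrix.mul_apply, Fintype.sum_prod_type, Finset.sum_mul,
        Finset.sum_comm]
      refine Finset.sum_congr rfl fun d _ => ?_
      rw [Finset.mul_sum]
      refine Finset.sum_congr rfl fun i _ => ?_
      rw [Matrix.conjTranspose_apply]
      show _ = (starRingEnd ℂ) (R c' d a) * R c d b * _
      ring
    · intro q _
      exact ic μ ((hcq q).comp (continuous_const.prodMk continuous_id))
  simp only [h2]
  simp

/-- the Gram matrix of vector features with weight `M` -/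
def Gr {S : Type} (M : Ω → ℝ) (Φ : S → A → Ω → ℂ) : Matrix S S ℂ :=
  Matrix.of fun s t => ∑ a, ∫ U, (M U : ℂ) * (cj (Φ s a U) * Φ t a U) ∂ν

/-- the iterated kernel in terms of the Gram matrix -/
def kk {S : Type} [Fintype S] [DecidableEq S] (M : Ω → ℝ) (Φ : S → A → Ω → ℂ) (n : ℕ) (U V : Ω)
    (a b : A) : ℂ :=
  ∑ s, ∑ t, Φ s a U * (Gr ν M Φ ^ n) s t * cj (Φ t b V)

lemma kk_zero {S : Type} [Fintype S] [DecidableEq S] (M : Ω → ℝ) (Φ : S → A → Ω → ℂ) (U V : Ω)
    (a b : A) : kk ν M Φ 0 U V a b = ∑ s, Φ s a U * cj (Φ s b V) := by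
  unfold kk
  refine Finset.sum_congr rfl fun s _ => ?_
  rw [pow_zero, Finset.sum_eq_single s]
  · rw [Matrix.one_apply_eq, mul_one]
  · intro t _ hts
    rw [Matrix.one_apply_ne hts.symm]
    ring
  · intro h
    exact absurd (Finset.mem_univ s) h

lemma sum3 {S T P : Type} [Fintype S] [Fintype T] [Fintype P] (x : S → T → ℂ) (m : ℂ) (y : P → ℂ) :
    (∑ s, ∑ t, x s t) * m * (∑ u, y u) = ∑ s, ∑ t, ∑ u, x s t * m * y u := by
  rw [Finset.sum_mul, Finset.sum_mul]
  refine Finset.sum_congr rfl fun s _ => ?_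
  rw [Finset.sum_mul, Finset.sum_mul]
  exact Finset.sum_congr rfl fun t _ => Finset.mul_sum _ _ _

lemma kk_succ {S : Type} [Fintype S] [DecidableEq S] {M : Ω → ℝ} (hM : Continuous M)
    {Φ : S → A → Ω → ℂ} (hΦ : ∀ s a, Continuous (Φ s a)) (n : ℕ) (U V : Ω) (a b : A) :
    ∫ W, ∑ e, kk ν M Φ n U W a e * (M W : ℂ) * kk ν M Φ 0 W V e b ∂ν =
      kk ν M Φ (n + 1) U V a b := by
  simp only [kk_zero]
  have h1 : ∀ W, ∑ e, kk ν M Φ n U W a e * (M W : ℂ) * (∑ s, Φ s e W * cj (Φ s b V)) =
      ∑ s, ∑ t, ∑ u, Φ s a U * (Gr ν M Φ ^ n) s t * cj (Φ u b V) *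
        ∑ e, (M W : ℂ) * (cj (Φ t e W) * Φ u e W) := by
    intro W
    unfold kk
    simp only [sum3]
    rw [Finset.sum_comm]
    refine Finset.sum_congr rfl fun s _ => ?_
    rw [Finset.sum_comm]
    refine Finset.sum_congr rfl fun t _ => ?_
    rw [Finset.sum_comm]
    refine Finset.sum_congr rfl fun u _ => ?_
    rw [Finset.mul_sum]
    refine Finset.sum_congr rfl fun e _ => ?_
    ring
  simp only [h1]
  have hc : ∀ t u e, Continuous fun W => (M W : ℂ) * (cj (Φ t e W) * Φ u e W) := fun t u e =>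
    (Complex.continuous_ofReal.comp hM).mul ((cj_cont.comp (hΦ t e)).mul (hΦ u e))
  have hcs : ∀ t u, Continuous fun W => ∑ e, (M W : ℂ) * (cj (Φ t e W) * Φ u e W) := fun t u =>
    continuous_finsetSum _ fun e _ => hc t u e
  have h3 : ∀ s t u, Continuous fun W => Φ s a U * (Gr ν M Φ ^ n) s t * cj (Φ u b V) *
      ∑ e, (M W : ℂ) * (cj (Φ t e W) * Φ u e W) := fun s t u => continuous_const.mul (hcs t u)
  have h4 : ∀ s t, Continuous fun W => ∑ u, Φ s a U * (Gr ν M Φ ^ n) s t * cj (Φ u b V) *
      ∑ e, (M W : ℂ) * (cj (Φ t e W) * Φ u e W) := fun s t =>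
    continuous_finsetSum _ fun u _ => h3 s t u
  have h5 : ∀ s, Continuous fun W => ∑ t, ∑ u, Φ s a U * (Gr ν M Φ ^ n) s t * cj (Φ u b V) *
      ∑ e, (M W : ℂ) * (cj (Φ t e W) * Φ u e W) := fun s =>
    continuous_finsetSum _ fun t _ => h4 s t
  rw [integral_finsetSum _ fun s _ => ic ν (h5 s)]
  unfold kk
  refine Finset.sum_congr rfl fun s _ => ?_
  rw [integral_finsetSum _ fun t _ => ic ν (h4 s t)]
  have h2 : ∀ t, ∫ W, ∑ u, Φ s a U * (Gr ν M Φ ^ n) s t * cj (Φ u b V) *
        ∑ e, (M W : ℂ) * (cj (Φ t e W) * Φ u e W) ∂ν =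
      ∑ u, Φ s a U * (Gr ν M Φ ^ n) s t * cj (Φ u b V) * Gr ν M Φ t u := by
    intro t
    rw [integral_finsetSum _ fun u _ => ic ν (h3 s t u)]
    refine Finset.sum_congr rfl fun u _ => ?_
    rw [integral_const_mul, integral_finsetSum _ fun e _ => ic ν (hc t u e)]
    rfl
  rw [Finset.sum_congr rfl fun t _ => h2 t, Finset.sum_comm]
  refine Finset.sum_congr rfl fun u _ => ?_
  rw [pow_succ, Matrix.mul_apply, Finset.mul_sum, Finset.sum_mul]
  refine Finset.sum_congr rfl fun t _ => ?_
  ring

/-- the twisted iterated kernel -/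
lemma twist (hact : Act ν act) (hR : UR R) {w : I → Ω → ℂ} (hw : ∀ i, Continuous (w i))
    {K : Ω → Ω → ℂ} (hK : ∀ U V, K U V = ∑ i, w i U * cj (w i V))
    (hinv : ∀ c U V, K (act c U) (act c V) = K U V) {M : Ω → ℝ} (hM : Continuous M)
    (hMi : ∀ c U, M (act c U) = M U) (n : ℕ) (U V : Ω) (a b : A) :
    ∫ c, R c a b * it ν K M n U (act c V) ∂μ = kk ν M (ft μ act R w) n U V a b := by
  have hK2 : C2 K := GK.c2 ⟨I, inferInstance, inferInstance, w, hw, hK⟩
  have hΦ := fun q a => ft_cont ν μ hact hR hw q a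
  have ca : ∀ W : Ω, Continuous fun c : Γ => act c W := fun W =>
    hact.cont.comp (continuous_id.prodMk continuous_const)
  have h0 : ∀ U V a b, ∫ c, R c a b * K U (act c V) ∂μ = kk ν M (ft μ act R w) 0 U V a b := by
    intro U V a b
    rw [kk_zero, feat ν μ hact hR hw hK hinv]
  induction n generalizing V b with
  | zero => exact h0 U V a b
  | succ n ih =>
    rw [← kk_succ ν hM hΦ]
    have hit := it_cont ν hK2 hM n
    -- the inner function
    set H : Ω → ℂ := fun W => it ν K M n U W * (M W : ℂ) * ∫ c', R c' a b * K W (act c' V) ∂μ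
      with hH
    have cH : Continuous H := by
      have h1 : Continuous fun W => it ν K M n U W := hit.comp (continuous_const.prodMk continuous_id)
      have h2 : Continuous fun W => ∫ c', R c' a b * K W (act c' V) ∂μ := by
        refine cpi μ (f := fun W c' => R c' a b * K W (act c' V)) ?_
        have e1 : Continuous fun p : Ω × Γ => K p.1 (act p.2 V) :=
          hK2.comp (continuous_fst.prodMk ((ca V).comp continuous_snd))
        exact ((hR.cont _ _).comp continuous_snd).mul e1
      exact (h1.mul (Complex.continuous_ofReal.comp hM)).mul h2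
    -- left-hand side
    have hL : ∫ c, R c a b * it ν K M (n + 1) U (act c V) ∂μ = ∫ W, H W ∂ν := by
      have e1 : ∀ c, R c a b * it ν K M (n + 1) U (act c V) =
          ∫ W, it ν K M n U W * (M W : ℂ) * (R c a b * K W (act c V)) ∂ν := by
        intro c
        show R c a b * ∫ W, it ν K M n U W * (M W : ℂ) * K W (act c V) ∂ν = _
        rw [← integral_const_mul]
        refine integral_congr_ae (Filter.Eventually.of_forall fun W => ?_)
        show R c a b * (it ν K M n U W * (M W : ℂ) * K W (act c V)) = _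
        ring
      simp only [e1]
      have cF : Continuous fun p : Γ × Ω =>
          it ν K M n U p.2 * (M p.2 : ℂ) * (R p.1 a b * K p.2 (act p.1 V)) := by
        have e2 : Continuous fun p : Γ × Ω => it ν K M n U p.2 :=
          hit.comp (continuous_const.prodMk continuous_snd)
        have e3 : Continuous fun p : Γ × Ω => K p.2 (act p.1 V) :=
          hK2.comp (continuous_snd.prodMk ((ca V).comp continuous_fst))
        exact (e2.mul (Complex.continuous_ofReal.comp (hM.comp continuous_snd))).mul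
          (((hR.cont _ _).comp continuous_fst).mul e3)
      rw [sw μ ν cF]
      refine integral_congr_ae (Filter.Eventually.of_forall fun W => ?_)
      show ∫ c, it ν K M n U W * (M W : ℂ) * (R c a b * K W (act c V)) ∂μ = H W
      rw [integral_const_mul]
    -- right-hand side
    have hRt : ∀ W, ∑ e, kk ν M (ft μ act R w) n U W a e * (M W : ℂ) *
        kk ν M (ft μ act R w) 0 W V e b = ∫ c, H (act c W) ∂μ := by
      intro W
      have e1 : ∀ e, kk ν M (ft μ act R w) n U W a e * (M W : ℂ) *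
          kk ν M (ft μ act R w) 0 W V e b = ∫ c, (R c a e * it ν K M n U (act c W)) *
            (M W : ℂ) * (∫ c', R c' e b * K W (act c' V) ∂μ) ∂μ := by
        intro e
        rw [← ih W e, ← h0 W V e b, integral_mul_const, integral_mul_const]
      rw [Finset.sum_congr rfl fun e _ => e1 e]
      have ci : ∀ e, Continuous fun c => (R c a e * it ν K M n U (act c W)) *
            (M W : ℂ) * (∫ c', R c' e b * K W (act c' V) ∂μ) := by
        intro e
        have e2 : Continuous fun c => it ν K M n U (act c W) :=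
          hit.comp (continuous_const.prodMk (ca W))
        exact (((hR.cont _ _).mul e2).mul continuous_const).mul continuous_const
      rw [← integral_finsetSum _ fun e _ => ic μ (ci e)]
      refine integral_congr_ae (Filter.Eventually.of_forall fun c => ?_)
      show ∑ e, (R c a e * it ν K M n U (act c W)) * (M W : ℂ) *
        (∫ c', R c' e b * K W (act c' V) ∂μ) = H (act c W)
      have e3 : ∫ c', R c' a b * K (act c W) (act c' V) ∂μ =
          ∑ e, R c a e * ∫ c', R c' e b * K W (act c' V) ∂μ := by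
        rw [← integral_mul_left_eq_self (fun c' => R c' a b * K (act c W) (act c' V)) c]
        simp only [← integral_const_mul]
        rw [← integral_finsetSum]
        · refine integral_congr_ae (Filter.Eventually.of_forall fun c' => ?_)
          show R (c * c') a b * K (act c W) (act (c * c') V) =
            ∑ e, R c a e * (R c' e b * K W (act c' V))
          rw [hact.mul, hinv, hR.mul, Matrix.mul_apply, Finset.sum_mul]
          exact Finset.sum_congr rfl fun e _ => by ring
        · intro e _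
          refine ic μ (continuous_const.mul ((hR.cont _ _).mul ?_))
          exact hK2.comp (continuous_const.prodMk (ca V))
      show _ = it ν K M n U (act c W) * (M (act c W) : ℂ) *
        ∫ c', R c' a b * K (act c W) (act c' V) ∂μ
      rw [e3, hMi, Finset.mul_sum]
      exact Finset.sum_congr rfl fun e _ => by ring
    simp only [hRt]
    rw [hL]
    have cHc : Continuous fun p : Ω × Γ => H (act p.2 p.1) :=
      cH.comp (hact.cont.comp (continuous_snd.prodMk continuous_fst))
    rw [sw ν μ cHc]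
    have e4 : ∀ c, ∫ W, H (act c W) ∂ν = ∫ W, H W ∂ν := by
      intro c
      rw [← (hact.mp c).map_eq]
      conv_rhs => rw [(hact.mp c).map_eq]
      have h := integral_map (μ := ν) (φ := act c) (hact.mp c).measurable.aemeasurable
        (f := H) (by rw [(hact.mp c).map_eq]; exact cH.aestronglyMeasurable)
      rw [(hact.mp c).map_eq] at h
      rw [(hact.mp c).map_eq]
      exact h.symm
    simp only [e4]
    simp

end

end Pool.Agent.X168.PK
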