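import Mathlib
import Pool.Agent.X168.PK.Ker2

/-!
# Monotonicity of the twisted traces
-/

open MeasureTheory Filter Topology Matrix
open scoped ComplexOrder

namespace Pool.Agent.X168.PK

set_option linter.unusedSectionVars false

noncomputable section

variable {Ω : Type} [TopologicalSpace Ω] [CompactSpace Ω] [T2Space Ω]
  [SecondCountableTopology Ω] [MeasurableSpace Ω] [BorelSpace Ω]
  (ν : Measure Ω) [IsFiniteMeasure ν]
  {Γ : Type} [Group Γ] [TopologicalSpace Γ] [IsTopologicalGroup Γ] [CompactSpace Γ] [T2Space Γ]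
  [SecondCountableTopology Γ] [MeasurableSpace Γ] [BorelSpace Γ]
  (μ : Measure Γ) [IsProbabilityMeasure μ] [μ.IsMulLeftInvariant]
  {act : Γ → Ω → Ω} {A : Type} [Fintype A] [DecidableEq A] {R : Γ → Matrix A A ℂ}
  {I : Type} [Fintype I] [DecidableEq I]

lemma tr_kk {S : Type} [Fintype S] [DecidableEq S] {M : Ω → ℝ} (hM : Continuous M)
    {Φ : S → A → Ω → ℂ} (hΦ : ∀ s a, Continuous (Φ s a)) (n : ℕ) :
    ∫ U, ∑ a, (M U : ℂ) * kk ν M Φ n U U a a ∂ν = trace (Gr ν M Φ ^ (n + 1)) := by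
  have h1 : ∀ U, ∑ a, (M U : ℂ) * kk ν M Φ n U U a a =
      ∑ s, ∑ t, (Gr ν M Φ ^ n) s t * ∑ a, (M U : ℂ) * (cj (Φ t a U) * Φ s a U) := by
    intro U
    unfold kk
    simp only [Finset.mul_sum]
    rw [Finset.sum_comm]
    refine Finset.sum_congr rfl fun s _ => ?_
    rw [Finset.sum_comm]
    refine Finset.sum_congr rfl fun t _ => ?_
    refine Finset.sum_congr rfl fun a _ => ?_
    ring
  simp only [h1]
  have hc : ∀ s t a, Continuous fun U => (M U : ℂ) * (cj (Φ t a U) * Φ s a U) := fun s t a =>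
    (Complex.continuous_ofReal.comp hM).mul ((cj_cont.comp (hΦ t a)).mul (hΦ s a))
  have hcs : ∀ s t, Continuous fun U => (Gr ν M Φ ^ n) s t *
      ∑ a, (M U : ℂ) * (cj (Φ t a U) * Φ s a U) := fun s t =>
    continuous_const.mul (continuous_finsetSum _ fun a _ => hc s t a)
  have hct : ∀ s, Continuous fun U => ∑ t, (Gr ν M Φ ^ n) s t *
      ∑ a, (M U : ℂ) * (cj (Φ t a U) * Φ s a U) := fun s =>
    continuous_finsetSum _ fun t _ => hcs s t
  rw [integral_finsetSum _ fun s _ => ic ν (hct s), pow_succ, Matrix.trace]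
  refine Finset.sum_congr rfl fun s _ => ?_
  rw [integral_finsetSum _ fun t _ => ic ν (hcs s t), Matrix.diag_apply, Matrix.mul_apply]
  refine Finset.sum_congr rfl fun t _ => ?_
  rw [integral_const_mul, integral_finsetSum _ fun a _ => ic ν (hc s t a)]
  rfl

/-- the twisted trace as the trace of a power of the Gram matrix -/
lemma Zg_eq (hact : Act ν act) (hR : UR R) {w : I → Ω → ℂ} (hw : ∀ i, Continuous (w i))
    {K : Ω → Ω → ℂ} (hK : ∀ U V, K U V = ∑ i, w i U * cj (w i V))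
    (hinv : ∀ c U V, K (act c U) (act c V) = K U V) {M : Ω → ℝ} (hM : Continuous M)
    (hMi : ∀ c U, M (act c U) = M U) (n : ℕ) :
    Zg ν μ act (fun c => trace (R c)) K M n =
      trace (Gr ν M (ft μ act R w) ^ (n + 1)) := by
  have hK2 : C2 K := GK.c2 ⟨I, inferInstance, inferInstance, w, hw, hK⟩
  have hΦ := fun q a => ft_cont ν μ hact hR hw q a
  rw [← tr_kk ν hM hΦ n]
  unfold Zg
  have h1 : ∀ c, trace (R c) * ∫ U, (M U : ℂ) * it ν K M n U (act c U) ∂ν =
      ∫ U, ∑ a, (M U : ℂ) * (R c a a * it ν K M n U (act c U)) ∂ν := by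
    intro c
    rw [← integral_const_mul]
    refine integral_congr_ae (Filter.Eventually.of_forall fun U => ?_)
    show trace (R c) * ((M U : ℂ) * it ν K M n U (act c U)) = _
    rw [Matrix.trace, Finset.sum_mul]
    refine Finset.sum_congr rfl fun a _ => ?_
    rw [Matrix.diag_apply]
    ring
  simp only [h1]
  have hit := it_cont ν hK2 hM n
  have ci : ∀ a, Continuous fun p : Γ × Ω => (M p.2 : ℂ) * (R p.1 a a *
      it ν K M n p.2 (act p.1 p.2)) := fun a =>
    (Complex.continuous_ofReal.comp (hM.comp continuous_snd)).mul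
      (((hR.cont _ _).comp continuous_fst).mul (hit.comp (continuous_snd.prodMk hact.cont)))
  rw [sw μ ν (f := fun c U => ∑ a, (M U : ℂ) * (R c a a * it ν K M n U (act c U)))
    (continuous_finsetSum _ fun a _ => ci a)]
  refine integral_congr_ae (Filter.Eventually.of_forall fun U => ?_)
  show ∫ c, ∑ a, (M U : ℂ) * (R c a a * it ν K M n U (act c U)) ∂μ =
    ∑ a, (M U : ℂ) * kk ν M (ft μ act R w) n U U a a
  rw [integral_finsetSum]
  · refine Finset.sum_congr rfl fun a _ => ?_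
    rw [integral_const_mul, twist ν μ hact hR hw hK hinv hM hMi]
  · intro a _
    exact ic μ ((ci a).comp (continuous_id.prodMk continuous_const))

lemma Gr_psd {S : Type} [Fintype S] [DecidableEq S] {M : Ω → ℝ} (hM : Continuous M)
    (hM0 : ∀ U, 0 ≤ M U) {Φ : S → A → Ω → ℂ} (hΦ : ∀ s a, Continuous (Φ s a)) :
    (Gr ν M Φ).PosSemidef := by
  rw [Matrix.posSemidef_iff_dotProduct_mulVec]
  have hc : ∀ s t a, Continuous fun U => (M U : ℂ) * (cj (Φ s a U) * Φ t a U) := fun s t a =>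
    (Complex.continuous_ofReal.comp hM).mul ((cj_cont.comp (hΦ s a)).mul (hΦ t a))
  constructor
  · ext s t
    rw [Matrix.conjTranspose_apply]
    show cj (∑ a, ∫ U, (M U : ℂ) * (cj (Φ t a U) * Φ s a U) ∂ν) =
      ∑ a, ∫ U, (M U : ℂ) * (cj (Φ s a U) * Φ t a U) ∂ν
    rw [show cj (∑ a, ∫ U, (M U : ℂ) * (cj (Φ t a U) * Φ s a U) ∂ν) =
      ∑ a, cj (∫ U, (M U : ℂ) * (cj (Φ t a U) * Φ s a U) ∂ν) from map_sum _ _ _]
    refine Finset.sum_congr rfl fun a _ => ?_
    rw [cj_int]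
    refine integral_congr_ae (Filter.Eventually.of_forall fun U => ?_)
    show cj ((M U : ℂ) * (cj (Φ t a U) * Φ s a U)) = (M U : ℂ) * (cj (Φ s a U) * Φ t a U)
    rw [cj_mul, cj_mul, cj_cj, show cj (M U : ℂ) = (M U : ℂ) from Complex.conj_ofReal _]
    ring
  · intro x
    have h1 : star x ⬝ᵥ (Gr ν M Φ *ᵥ x) =
        ((∑ a, ∫ U, M U * ‖∑ t, Φ t a U * x t‖ ^ 2 ∂ν : ℝ) : ℂ) := by
      simp only [dotProduct, mulVec, Finset.mul_sum]
      have h2 : ∀ s t, star x s * (Gr ν M Φ s t * x t) =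
          ∑ a, ∫ U, (M U : ℂ) * (cj (Φ s a U) * Φ t a U) * (cj (x s) * x t) ∂ν := by
        intro s t
        show cj (x s) * ((∑ a, ∫ U, (M U : ℂ) * (cj (Φ s a U) * Φ t a U) ∂ν) * x t) = _
        rw [Finset.sum_mul, Finset.mul_sum]
        refine Finset.sum_congr rfl fun a _ => ?_
        rw [integral_mul_const]
        ring
      simp only [h2]
      have h3 : (∑ s, ∑ t, ∑ a, ∫ U, (M U : ℂ) * (cj (Φ s a U) * Φ t a U) * (cj (x s) * x t) ∂ν) =
          ∑ a, ∑ s, ∑ t, ∫ U, (M U : ℂ) * (cj (Φ s a U) * Φ t a U) * (cj (x s) * x t) ∂ν := by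
        rw [Finset.sum_comm]
        rw [Finset.sum_congr rfl fun t _ => Finset.sum_comm]
        rw [Finset.sum_comm]
        exact Finset.sum_congr rfl fun a _ => Finset.sum_comm
      rw [h3]
      push_cast
      refine Finset.sum_congr rfl fun a _ => ?_
      rw [← integral_complex_ofReal]
      have hcc : ∀ s t, Continuous fun U => (M U : ℂ) * (cj (Φ s a U) * Φ t a U) *
          (cj (x s) * x t) := fun s t => (hc s t a).mul continuous_const
      have hcd : ∀ s, Continuous fun U => ∑ t, (M U : ℂ) * (cj (Φ s a U) * Φ t a U) *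
          (cj (x s) * x t) := fun s => continuous_finsetSum _ fun t _ => hcc s t
      have h4 : ∀ s, ∑ t, ∫ U, (M U : ℂ) * (cj (Φ s a U) * Φ t a U) * (cj (x s) * x t) ∂ν =
          ∫ U, ∑ t, (M U : ℂ) * (cj (Φ s a U) * Φ t a U) * (cj (x s) * x t) ∂ν := fun s =>
        (integral_finsetSum _ fun t _ => ic ν (hcc s t)).symm
      simp only [h4]
      rw [← integral_finsetSum _ fun s _ => ic ν (hcd s)]
      refine integral_congr_ae (Filter.Eventually.of_forall fun U => ?_)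
      show ∑ s, ∑ t, (M U : ℂ) * (cj (Φ s a U) * Φ t a U) * (cj (x s) * x t) =
        ((M U * ‖∑ t, Φ t a U * x t‖ ^ 2 : ℝ) : ℂ)
      push_cast
      rw [← Complex.conj_mul', map_sum, Finset.sum_mul, Finset.mul_sum]
      refine Finset.sum_congr rfl fun s _ => ?_
      rw [Finset.mul_sum, Finset.mul_sum]
      refine Finset.sum_congr rfl fun t _ => ?_
      rw [map_mul]
      show _ = (M U : ℂ) * (cj (Φ s a U) * cj (x s) * (Φ t a U * x t))
      ring
    rw [h1]
    have h5 : (0:ℝ) ≤ ∑ a, ∫ U, M U * ‖∑ t, Φ t a U * x t‖ ^ 2 ∂ν :=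
      Finset.sum_nonneg fun a _ => integral_nonneg fun U => mul_nonneg (hM0 U) (sq_nonneg _)
    exact_mod_cast h5

lemma Gr_sub {S : Type} {M M' : Ω → ℝ} (hM : Continuous M) (hM' : Continuous M')
    {Φ : S → A → Ω → ℂ} (hΦ : ∀ s a, Continuous (Φ s a)) :
    Gr ν M' Φ - Gr ν M Φ = Gr ν (fun U => M' U - M U) Φ := by
  ext s t
  show (∑ a, ∫ U, (M' U : ℂ) * (cj (Φ s a U) * Φ t a U) ∂ν) -
    (∑ a, ∫ U, (M U : ℂ) * (cj (Φ s a U) * Φ t a U) ∂ν) =
    ∑ a, ∫ U, ((M' U - M U : ℝ) : ℂ) * (cj (Φ s a U) * Φ t a U) ∂ν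
  rw [← Finset.sum_sub_distrib]
  refine Finset.sum_congr rfl fun a _ => ?_
  rw [← integral_sub]
  · refine integral_congr_ae (Filter.Eventually.of_forall fun U => ?_)
    show _ = ((M' U - M U : ℝ) : ℂ) * _
    push_cast
    ring
  · exact ic ν ((Complex.continuous_ofReal.comp hM').mul ((cj_cont.comp (hΦ s a)).mul (hΦ t a)))
  · exact ic ν ((Complex.continuous_ofReal.comp hM).mul ((cj_cont.comp (hΦ s a)).mul (hΦ t a)))

/-- **Monotonicity.** -/
theorem mono (hact : Act ν act) (hR : UR R) {K K' : Ω → Ω → ℂ} (hK : GK K)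
    (hD : GK fun U V => K' U V - K U V)
    (hinv : ∀ c U V, K (act c U) (act c V) = K U V)
    (hinv' : ∀ c U V, K' (act c U) (act c V) = K' U V)
    {M M' : Ω → ℝ} (hM : Continuous M) (hM' : Continuous M')
    (hMi : ∀ c U, M (act c U) = M U) (hMi' : ∀ c U, M' (act c U) = M' U)
    (h0 : ∀ U, 0 ≤ M U) (hle : ∀ U, M U ≤ M' U) (n : ℕ) :
    0 ≤ (Zg ν μ act (fun c => trace (R c)) K M n).re ∧
    (Zg ν μ act (fun c => trace (R c)) K M n).im = 0 ∧
    (Zg ν μ act (fun c => trace (R c)) K M n).re ≤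
      (Zg ν μ act (fun c => trace (R c)) K' M' n).re := by
  obtain ⟨I, _, _, w, hw, hKw⟩ := hK
  obtain ⟨I', _, _, w', hw', hDw⟩ := hD
  set W : I ⊕ I' → Ω → ℂ := Sum.elim w w' with hW
  have hWc : ∀ i, Continuous (W i) := by
    rintro (i | i)
    · exact hw i
    · exact hw' i
  have hK'W : ∀ U V, K' U V = ∑ i, W i U * cj (W i V) := by
    intro U V
    rw [Fintype.sum_sum_type]
    simp only [hW, Sum.elim_inl, Sum.elim_inr]
    rw [← hKw, ← hDw]
    ring
  rw [Zg_eq ν μ hact hR hw hKw hinv hM hMi, Zg_eq ν μ hact hR hWc hK'W hinv' hM' hMi']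
  set Φ := ft μ act R w with hΦdef
  set Φ' := ft μ act R W with hΦ'def
  have hΦ : ∀ q a, Continuous (Φ q a) := fun q a => ft_cont ν μ hact hR hw q a
  have hΦ' : ∀ q a, Continuous (Φ' q a) := fun q a => ft_cont ν μ hact hR hWc q a
  let f : I × A → (I ⊕ I') × A := fun q => (Sum.inl q.1, q.2)
  have hf : Function.Injective f := by
    rintro ⟨i, a⟩ ⟨j, b⟩ h
    simp only [f, Prod.mk.injEq, Sum.inl.injEq] at h
    exact Prod.ext h.1 h.2
  have hΦf : ∀ q a, Φ' (f q) a = Φ q a := fun q a => rfl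
  have hsub : (Gr ν M' Φ').submatrix f f = Gr ν M' Φ := rfl
  let V : Matrix ((I ⊕ I') × A) (I × A) ℂ := (1 : Matrix _ _ ℂ).submatrix id f
  have hV1 : ∀ B : Matrix ((I ⊕ I') × A) ((I ⊕ I') × A) ℂ, Vᴴ * B * V = B.submatrix f f := by
    intro B
    have e1 : Vᴴ = (1 : Matrix _ _ ℂ).submatrix f id := by
      ext q s
      show star ((1 : Matrix _ _ ℂ) s (f q)) = (1 : Matrix _ _ ℂ) (f q) s
      rw [Matrix.one_apply, Matrix.one_apply]
      by_cases h : s = f q
      · simp [h]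
      · simp [h, Ne.symm h]
    rw [e1]
    ext q s
    rw [Matrix.mul_apply]
    simp only [Matrix.mul_apply, V, Matrix.submatrix_apply, id_eq, Matrix.one_apply]
    simp
  have hV2 : Vᴴ * V = 1 := by
    have e := hV1 1
    rw [Matrix.mul_one] at e
    rw [e]
    ext q s
    rw [Matrix.submatrix_apply, Matrix.one_apply, Matrix.one_apply]
    simp only [hf.eq_iff]
  have hM'0 : ∀ U, 0 ≤ M' U := fun U => (h0 U).trans (hle U)
  have hdiff : (Vᴴ * Gr ν M' Φ' * V - Gr ν M Φ).PosSemidef := by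
    rw [hV1, hsub, Gr_sub ν hM hM' hΦ]
    exact Gr_psd ν (hM'.sub hM) (fun U => sub_nonneg.2 (hle U)) hΦ
  have h1 := trace_pow_le (Gr_psd ν hM h0 hΦ) (Gr_psd ν hM' hM'0 hΦ') hV2 hdiff n
  have h2 := trace_pow_le (Gr_psd ν hM h0 hΦ) (Gr_psd ν hM' hM'0 hΦ') hV2 hdiff (n + 1)
  exact ⟨h2.1, h2.2.1, h1.2.2⟩

end

end Pool.Agent.X168.PK
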