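import Mathlib
import Pool.Agent.X168.PK.Ker3

/-!
# Positivity of the twisted traces
-/

open MeasureTheory Filter Topology Matrix
open scoped ComplexOrder

namespace Pool.Agent.X168.PK

set_option linter.unusedSectionVars false

noncomputable section

section gram

variable {Γ : Type} [Group Γ] [TopologicalSpace Γ]

/-- positive definite functions of finite type -/
def Gm (F : Γ → ℂ) : Prop :=
  ∃ (Q : Type) (_ : Fintype Q) (h : Q → Γ → ℂ), (∀ q, Continuous (h q)) ∧
    ∀ c c', F (c⁻¹ * c') = ∑ q, cj (h q c) * h q c'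

lemma Gm.mul {F F' : Γ → ℂ} (h : Gm F) (h' : Gm F') : Gm fun c => F c * F' c := by
  obtain ⟨Q, _, f, hf, hF⟩ := h
  obtain ⟨Q', _, f', hf', hF'⟩ := h'
  refine ⟨Q × Q', inferInstance, fun q c => f q.1 c * f' q.2 c,
    fun q => (hf q.1).mul (hf' q.2), fun c c' => ?_⟩
  show F (c⁻¹ * c') * F' (c⁻¹ * c') = _
  rw [hF, hF', Fintype.sum_prod_type, Finset.sum_mul_sum]
  refine Finset.sum_congr rfl fun q _ => Finset.sum_congr rfl fun q' _ => ?_
  show _ = (starRingEnd ℂ) (f q c * f' q' c) * _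
  rw [map_mul]
  ring

lemma Gm.cont {F : Γ → ℂ} (h : Gm F) : Continuous F := by
  obtain ⟨Q, _, f, hf, hF⟩ := h
  have : F = fun c => ∑ q, cj (f q 1) * f q c := by
    funext c
    rw [← hF, inv_one, one_mul]
  rw [this]
  exact continuous_finsetSum _ fun q _ => continuous_const.mul (hf q)

lemma Gm.tr {A B : Type} [Fintype A] [DecidableEq A] [Fintype B] {R : Γ → Matrix A A ℂ}
    (hR : UR R) (C : Matrix B A ℂ) : Gm fun c => trace (Cᴴ * C * R c) := by
  refine ⟨A × B, inferInstance, fun q c => (R c * Cᴴ) q.1 q.2, fun q => ?_, fun c c' => ?_⟩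
  · have : (fun c => (R c * Cᴴ) q.1 q.2) = fun c => ∑ j, R c q.1 j * Cᴴ j q.2 := by
      funext c
      rw [Matrix.mul_apply]
    show Continuous fun c => (R c * Cᴴ) q.1 q.2
    rw [this]
    exact continuous_finsetSum _ fun j _ => (hR.cont _ _).mul continuous_const
  · show trace (Cᴴ * C * R (c⁻¹ * c')) = _
    rw [hR.mul, hR.inv]
    have h1 : trace (Cᴴ * C * ((R c)ᴴ * R c')) = trace ((R c * Cᴴ)ᴴ * (R c' * Cᴴ)) := by
      rw [Matrix.conjTranspose_mul, Matrix.conjTranspose_conjTranspose, ← Matrix.mul_assoc,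
        Matrix.mul_assoc Cᴴ, Matrix.mul_assoc Cᴴ, Matrix.trace_mul_comm]
      simp only [Matrix.mul_assoc]
    rw [h1, Matrix.trace, Fintype.sum_prod_type, Finset.sum_comm]
    refine Finset.sum_congr rfl fun b _ => ?_
    rw [Matrix.diag_apply, Matrix.mul_apply]
    rfl

lemma Gm.tr1 {A : Type} [Fintype A] [DecidableEq A] {R : Γ → Matrix A A ℂ}
    (hR : UR R) : Gm fun c => trace (R c) := by
  have h := Gm.tr hR (1 : Matrix A A ℂ)
  simpa using h

end gram

variable {Ω : Type} [TopologicalSpace Ω] [CompactSpace Ω] [T2Space Ω]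
  [SecondCountableTopology Ω] [MeasurableSpace Ω] [BorelSpace Ω]
  (ν : Measure Ω) [IsFiniteMeasure ν]
  {Γ : Type} [Group Γ] [TopologicalSpace Γ] [IsTopologicalGroup Γ] [CompactSpace Γ] [T2Space Γ]
  [SecondCountableTopology Γ] [MeasurableSpace Γ] [BorelSpace Γ]
  (μ : Measure Γ) [IsProbabilityMeasure μ] [μ.IsMulLeftInvariant]
  {act : Γ → Ω → Ω} {A : Type} [Fintype A] [DecidableEq A] {R : Γ → Matrix A A ℂ}
  {I : Type} [Fintype I] [DecidableEq I]

lemma int_act (hact : Act ν act) (c : Γ) {H : Ω → ℂ} (hH : Continuous H) :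
    ∫ W, H (act c W) ∂ν = ∫ W, H W ∂ν := by
  have h := integral_map (μ := ν) (φ := act c) (hact.mp c).measurable.aemeasurable
    (f := H) (by rw [(hact.mp c).map_eq]; exact hH.aestronglyMeasurable)
  rw [(hact.mp c).map_eq] at h
  exact h.symm

lemma it_inv (hact : Act ν act) {K : Ω → Ω → ℂ} (hK : C2 K)
    (hinv : ∀ c U V, K (act c U) (act c V) = K U V) {M : Ω → ℝ} (hM : Continuous M)
    (hMi : ∀ c U, M (act c U) = M U) (n : ℕ) (c : Γ) (U V : Ω) :
    it ν K M n (act c U) (act c V) = it ν K M n U V := by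
  induction n generalizing V with
  | zero => exact hinv c U V
  | succ n ih =>
    show ∫ W, it ν K M n (act c U) W * (M W : ℂ) * K W (act c V) ∂ν =
      ∫ W, it ν K M n U W * (M W : ℂ) * K W V ∂ν
    have hcont : Continuous fun W => it ν K M n (act c U) W * (M W : ℂ) * K W (act c V) :=
      (((it_cont ν hK hM n).comp (continuous_const.prodMk continuous_id)).mul
        (Complex.continuous_ofReal.comp hM)).mul
        (hK.comp (continuous_id.prodMk continuous_const))
    rw [← int_act ν hact c hcont]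
    refine integral_congr_ae (Filter.Eventually.of_forall fun W => ?_)
    show it ν K M n (act c U) (act c W) * (M (act c W) : ℂ) * K (act c W) (act c V) = _
    rw [ih, hMi, hinv]

lemma it_kk {w : I → Ω → ℂ} (hw : ∀ i, Continuous (w i))
    {K : Ω → Ω → ℂ} (hK : ∀ U V, K U V = ∑ i, w i U * cj (w i V))
    {M : Ω → ℝ} (hM : Continuous M) (n : ℕ) (U V : Ω) :
    it ν K M n U V = kk ν M (fun i (_ : Unit) => w i) n U V () () := by
  have h0 : ∀ U V, K U V = kk ν M (fun i (_ : Unit) => w i) 0 U V () () := by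
    intro U V
    rw [kk_zero, hK]
  induction n generalizing V with
  | zero => exact h0 U V
  | succ n ih =>
    rw [← kk_succ ν hM (fun s _ => hw s)]
    show ∫ W, it ν K M n U W * (M W : ℂ) * K W V ∂ν = _
    refine integral_congr_ae (Filter.Eventually.of_forall fun W => ?_)
    show it ν K M n U W * (M W : ℂ) * K W V = ∑ e : Unit, kk ν M (fun i (_ : Unit) => w i) n U W () e
      * (M W : ℂ) * kk ν M (fun i (_ : Unit) => w i) 0 W V e ()
    rw [ih, h0 W V, Fintype.sum_unique]

/-- the twisted kernel as a sum of squares -/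
lemma tw_gram (hact : Act ν act) {Q : Type} [Fintype Q] {h : Q → Γ → ℂ}
    (hh : ∀ q, Continuous (h q)) {F : Γ → ℂ}
    (hF : ∀ c c', F (c⁻¹ * c') = ∑ q, cj (h q c) * h q c')
    {w : I → Ω → ℂ} (hw : ∀ i, Continuous (w i)) {B : Matrix I I ℂ} {K : Ω → Ω → ℂ}
    (hK : ∀ U V, K U V = ∑ i, ∑ j, w i U * B i j * cj (w j V))
    (hinv : ∀ c U V, K (act c U) (act c V) = K U V) (U V : Ω) :
    ∫ c, F c * K U (act c V) ∂μ = ∑ q, ∑ i, ∑ j,
      (∫ c, cj (h q c) * w i (act c U) ∂μ) * B i j * cj (∫ c, cj (h q c) * w j (act c V) ∂μ) := by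
  have ca : ∀ W : Ω, Continuous fun c : Γ => act c W := fun W =>
    hact.cont.comp (continuous_id.prodMk continuous_const)
  symm
  have h1 : ∀ q i j, (∫ c, cj (h q c) * w i (act c U) ∂μ) * B i j *
      cj (∫ c, cj (h q c) * w j (act c V) ∂μ) =
      ∫ c', ∫ c, (cj (h q c') * w i (act c' U)) * B i j * (h q c * cj (w j (act c V))) ∂μ ∂μ := by
    intro q i j
    rw [cj_int]
    simp only [integral_const_mul]
    rw [integral_mul_const, integral_mul_const]
    congr 1
    refine integral_congr_ae (Filter.Eventually.of_forall fun c => ?_)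
    show cj (cj (h q c) * w j (act c V)) = _
    rw [cj_mul, cj_cj]
  have hc : ∀ q i j, Continuous fun p : Γ × Γ =>
      (cj (h q p.1) * w i (act p.1 U)) * B i j * (h q p.2 * cj (w j (act p.2 V))) := by
    intro q i j
    have e1 : Continuous fun p : Γ × Γ => act p.1 U := (ca U).comp continuous_fst
    have e2 : Continuous fun p : Γ × Γ => act p.2 V := (ca V).comp continuous_snd
    exact (((cj_cont.comp ((hh q).comp continuous_fst)).mul ((hw i).comp e1)).mul
      continuous_const).mul (((hh q).comp continuous_snd).mul (cj_cont.comp ((hw j).comp e2)))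
  -- collect the sums
  have h2 : (∑ q, ∑ i, ∑ j, (∫ c, cj (h q c) * w i (act c U) ∂μ) * B i j *
      cj (∫ c, cj (h q c) * w j (act c V) ∂μ)) =
      ∑ r : Q × I × I, ∫ c', ∫ c, (cj (h r.1 c') * w r.2.1 (act c' U)) * B r.2.1 r.2.2 *
        (h r.1 c * cj (w r.2.2 (act c V))) ∂μ ∂μ := by
    rw [Fintype.sum_prod_type]
    refine Finset.sum_congr rfl fun q _ => ?_
    rw [Fintype.sum_prod_type]
    exact Finset.sum_congr rfl fun i _ => Finset.sum_congr rfl fun j _ => h1 q i j
  rw [h2, ← integral_finsetSum _ fun (r : Q × I × I) _ => ic μ (cpi μ (hc r.1 r.2.1 r.2.2))]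
  have h3 : ∀ c', ∑ r : Q × I × I, ∫ c, (cj (h r.1 c') * w r.2.1 (act c' U)) * B r.2.1 r.2.2 *
        (h r.1 c * cj (w r.2.2 (act c V))) ∂μ = ∫ c, F c * K U (act c V) ∂μ := by
    intro c'
    rw [← integral_finsetSum]
    · rw [← integral_mul_left_eq_self (fun c => F c * K U (act c V)) c'⁻¹]
      refine integral_congr_ae (Filter.Eventually.of_forall fun c => ?_)
      show ∑ r : Q × I × I, (cj (h r.1 c') * w r.2.1 (act c' U)) * B r.2.1 r.2.2 *
        (h r.1 c * cj (w r.2.2 (act c V))) = F (c'⁻¹ * c) * K U (act (c'⁻¹ * c) V)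
      have e1 : K U (act (c'⁻¹ * c) V) = K (act c' U) (act c V) := by
        rw [← hinv c' U, ← hact.mul, mul_inv_cancel_left]
      rw [e1, hK, hF, Fintype.sum_prod_type, Finset.sum_mul]
      refine Finset.sum_congr rfl fun q _ => ?_
      rw [Fintype.sum_prod_type, Finset.mul_sum]
      refine Finset.sum_congr rfl fun i _ => ?_
      rw [Finset.mul_sum]
      refine Finset.sum_congr rfl fun j _ => ?_
      show (cj (h q c') * w i (act c' U)) * B i j * (h q c * cj (w j (act c V))) = _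
      ring
    · intro r _
      have e3 : Continuous fun c : Γ => ((c', c) : Γ × Γ) := continuous_const.prodMk continuous_id
      have e2 := (hc r.1 r.2.1 r.2.2).comp e3
      exact ic μ e2
  simp only [h3]
  simp

/-- **Positivity.** -/
theorem Zg_pos (hact : Act ν act) {F : Γ → ℂ} (hF : Gm F) {K : Ω → Ω → ℂ} (hK : GK K)
    (hinv : ∀ c U V, K (act c U) (act c V) = K U V)
    {M : Ω → ℝ} (hM : Continuous M) (hMi : ∀ c U, M (act c U) = M U) (h0 : ∀ U, 0 ≤ M U) (n : ℕ) :
    0 ≤ (Zg ν μ act F K M n).re := by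
  have hFc := hF.cont
  have hK2 := hK.c2
  obtain ⟨I, _, _, w, hw, hKw⟩ := hK
  obtain ⟨Q, _, h, hh, hFh⟩ := hF
  have hit := it_cont ν hK2 hM n
  have hinv' := it_inv ν hact hK2 hinv hM hMi n
  set G := Gr ν M (fun i (_ : Unit) => w i) with hG
  have hGp : (G ^ n).PosSemidef := (Gr_psd ν hM h0 (fun i _ => hw i)).pow n
  have hiK : ∀ U V, it ν K M n U V = ∑ i, ∑ j, w i U * (G ^ n) i j * cj (w j V) := fun U V =>
    it_kk ν hw hKw hM n U V
  have hcF : Continuous fun p : Γ × Ω => F p.1 * ((M p.2 : ℂ) * it ν K M n p.2 (act p.1 p.2)) :=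
    (hFc.comp continuous_fst).mul ((Complex.continuous_ofReal.comp (hM.comp continuous_snd)).mul
      (hit.comp (continuous_snd.prodMk hact.cont)))
  have h1 : Zg ν μ act F K M n = ∫ U, ∫ c, F c * ((M U : ℂ) * it ν K M n U (act c U)) ∂μ ∂ν := by
    unfold Zg
    simp only [← integral_const_mul]
    exact sw μ ν hcF
  have h2 : ∀ U, ∫ c, F c * ((M U : ℂ) * it ν K M n U (act c U)) ∂μ = (M U : ℂ) * ∑ q, ∑ i, ∑ j,
      (∫ c, cj (h q c) * w i (act c U) ∂μ) * (G ^ n) i j *
        cj (∫ c, cj (h q c) * w j (act c U) ∂μ) := by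
    intro U
    rw [← tw_gram ν μ hact hh hFh hw hiK hinv' U U, ← integral_const_mul]
    refine integral_congr_ae (Filter.Eventually.of_forall fun c => ?_)
    show F c * ((M U : ℂ) * it ν K M n U (act c U)) = _
    ring
  have h3 : ∀ U, 0 ≤ (∫ c, F c * ((M U : ℂ) * it ν K M n U (act c U)) ∂μ).re := by
    intro U
    rw [h2, Complex.re_ofReal_mul]
    refine mul_nonneg (h0 U) ?_
    rw [Complex.re_sum]
    refine Finset.sum_nonneg fun q _ => ?_
    have h4 := (Matrix.posSemidef_iff_dotProduct_mulVec.1 hGp).2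
      (fun i => cj (∫ c, cj (h q c) * w i (act c U) ∂μ))
    have h5 : (star fun i => cj (∫ c, cj (h q c) * w i (act c U) ∂μ)) ⬝ᵥ
        (G ^ n *ᵥ fun i => cj (∫ c, cj (h q c) * w i (act c U) ∂μ)) =
        ∑ i, ∑ j, (∫ c, cj (h q c) * w i (act c U) ∂μ) * (G ^ n) i j *
          cj (∫ c, cj (h q c) * w j (act c U) ∂μ) := by
      simp only [dotProduct, mulVec, Finset.mul_sum]
      refine Finset.sum_congr rfl fun i _ => Finset.sum_congr rfl fun j _ => ?_
      show cj (cj _) * _ = _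
      rw [cj_cj]
      ring
    rw [h5] at h4
    exact (Complex.nonneg_iff.1 h4).1
  rw [h1]
  have hcU : Continuous fun U => ∫ c, F c * ((M U : ℂ) * it ν K M n U (act c U)) ∂μ :=
    cpi μ (f := fun U c => F c * ((M U : ℂ) * it ν K M n U (act c U)))
      (hcF.comp (continuous_snd.prodMk continuous_fst))
  have h6 : (∫ U, ∫ c, F c * ((M U : ℂ) * it ν K M n U (act c U)) ∂μ ∂ν).re =
      ∫ U, (∫ c, F c * ((M U : ℂ) * it ν K M n U (act c U)) ∂μ).re ∂ν := by
    have := integral_re (𝕜 := ℂ) (ic ν hcU)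
    exact this.symm
  rw [h6]
  exact integral_nonneg h3

end

end Pool.Agent.X168.PK
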