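import Mathlib
import Pool.Agent.X168.PK.Ker3

/-!
# An orthonormal basis of a finite dimensional space of continuous functions
-/

open MeasureTheory Filter Topology Matrix
open scoped ComplexOrder

namespace Pool.Agent.X168.PK

set_option linter.unusedSectionVars false

noncomputable section

variable {Ω : Type} [TopologicalSpace Ω] [CompactSpace Ω] [T2Space Ω]
  [SecondCountableTopology Ω] [MeasurableSpace Ω] [BorelSpace Ω]
  (ν : Measure Ω) [IsFiniteMeasure ν]

/-- an orthonormal system `p` diagonalising the kernel `∑ d_q(U) conj d_q(V)` -/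
structure ONB {J : Type} [Fintype J] (d : J → Ω → ℂ) (ι : Type) [Fintype ι] [DecidableEq ι]
    (p : ι → Ω → ℂ) (lam : ι → ℝ) : Prop where
  cont : ∀ k, Continuous (p k)
  pos : ∀ k, 0 < lam k
  orth : ∀ k l, ∫ U, cj (p k U) * p l U ∂ν = if k = l then 1 else 0
  ker : ∀ U V, ∑ q, d q U * cj (d q V) = ∑ k, (lam k : ℂ) * (p k U * cj (p k V))
  fwd : ∃ C : J → ι → ℂ, ∀ q U, d q U = ∑ k, C q k * p k U
  bwd : ∃ C : ι → J → ℂ, ∀ k U, p k U = ∑ q, C k q * d q U
  card : Fintype.card ι ≤ Fintype.card J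

lemma zero_of_int [ν.IsOpenPosMeasure] {f : Ω → ℂ} (hf : Continuous f)
    (h : ∫ U, ‖f U‖ ^ 2 ∂ν = 0) (U : Ω) : f U = 0 := by
  have hc : Continuous fun U => ‖f U‖ ^ 2 := hf.norm.pow 2
  have h1 := (integral_eq_zero_iff_of_nonneg (fun U => sq_nonneg ‖f U‖) (ic ν hc)).1 h
  have h2 : (fun U => ‖f U‖ ^ 2) = 0 := (Continuous.ae_eq_iff_eq ν hc continuous_const).1 h1
  have h3 : ‖f U‖ ^ 2 = 0 := congrFun h2 U
  exact norm_eq_zero.1 (pow_eq_zero_iff two_ne_zero |>.1 h3)

theorem exists_onb [ν.IsOpenPosMeasure] {J : Type} [Fintype J] [DecidableEq J] {d : J → Ω → ℂ}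
    (hd : ∀ q, Continuous (d q)) :
    ∃ (ι : Type) (_ : Fintype ι) (_ : DecidableEq ι) (p : ι → Ω → ℂ) (lam : ι → ℝ),
      ONB ν d ι p lam := by
  classical
  set E : Matrix J J ℂ := Gr ν (fun _ => 1) (fun q (_ : Unit) => d q) with hE
  have hEp : E.PosSemidef := Gr_psd ν continuous_const (fun _ => zero_le_one) (fun q _ => hd q)
  have hEe : ∀ q r, E q r = ∫ U, cj (d q U) * d r U ∂ν := by
    intro q r
    show ∑ a : Unit, ∫ U, ((1:ℝ) : ℂ) * (cj (d q U) * d r U) ∂ν = _
    rw [Fintype.sum_unique]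
    simp
  have hH := hEp.1
  set V : Matrix J J ℂ := (hH.eigenvectorUnitary : Matrix J J ℂ) with hV
  have v1 : Vᴴ * V = 1 := Matrix.mem_unitaryGroup_iff'.1 hH.eigenvectorUnitary.2
  have v2 : V * Vᴴ = 1 := Matrix.mem_unitaryGroup_iff.1 hH.eigenvectorUnitary.2
  have v3 : E = V * diagonal (fun i => ((hH.eigenvalues i : ℝ) : ℂ)) * Vᴴ := by
    have h := hH.spectral_theorem
    rw [Unitary.conjStarAlgAut_apply] at h
    exact h
  have v4 : Vᴴ * E * V = diagonal (fun i => ((hH.eigenvalues i : ℝ) : ℂ)) := by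
    calc Vᴴ * E * V = Vᴴ * (V * diagonal (fun i => ((hH.eigenvalues i : ℝ) : ℂ)) * Vᴴ) * V :=
          congrArg (fun X => Vᴴ * X * V) v3
      _ = (Vᴴ * V) * diagonal (fun i => ((hH.eigenvalues i : ℝ) : ℂ)) * (Vᴴ * V) := by
          simp only [Matrix.mul_assoc]
      _ = _ := by rw [v1, Matrix.one_mul, Matrix.mul_one]
  -- the functions
  set f : J → Ω → ℂ := fun k U => ∑ q, V q k * d q U with hf
  have hfc : ∀ k, Continuous (f k) := fun k =>
    continuous_finsetSum _ fun q _ => continuous_const.mul (hd q)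
  have hdf : ∀ q U, d q U = ∑ k, cj (V q k) * f k U := by
    intro q U
    have h1 : ∑ k, cj (V q k) * f k U = ∑ r, (V * Vᴴ) r q * d r U := by
      simp only [hf, Finset.mul_sum, Matrix.mul_apply, Finset.sum_mul, Matrix.conjTranspose_apply]
      rw [Finset.sum_comm]
      refine Finset.sum_congr rfl fun r _ => Finset.sum_congr rfl fun k _ => ?_
      show cj (V q k) * (V r k * d r U) = V r k * cj (V q k) * d r U
      ring
    rw [h1, v2, Finset.sum_eq_single q]
    · rw [Matrix.one_apply_eq, one_mul]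
    · intro r _ hr
      rw [Matrix.one_apply_ne hr, zero_mul]
    · intro h
      exact absurd (Finset.mem_univ q) h
  have hint : ∀ k l, ∫ U, cj (f k U) * f l U ∂ν =
      if k = l then ((hH.eigenvalues k : ℝ) : ℂ) else 0 := by
    intro k l
    have h1 : (Vᴴ * E * V) k l = ∫ U, cj (f k U) * f l U ∂ν := by
      have hcc : ∀ q r, Continuous fun U => cj (V q k * d q U) * (V r l * d r U) := fun q r =>
        (cj_cont.comp (continuous_const.mul (hd q))).mul (continuous_const.mul (hd r))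
      have h2 : ∀ U, cj (f k U) * f l U = ∑ q, ∑ r, cj (V q k * d q U) * (V r l * d r U) := by
        intro U
        show (starRingEnd ℂ) (∑ q, V q k * d q U) * (∑ r, V r l * d r U) = _
        rw [map_sum, Finset.sum_mul_sum]
      simp only [h2]
      have hcd : ∀ q, Continuous fun U => ∑ r, cj (V q k * d q U) * (V r l * d r U) := fun q =>
        continuous_finsetSum _ fun r _ => hcc q r
      rw [integral_finsetSum _ fun q _ => ic ν (hcd q), Matrix.mul_apply]
      simp only [Matrix.mul_apply, Finset.sum_mul]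
      rw [Finset.sum_comm]
      refine Finset.sum_congr rfl fun q _ => ?_
      rw [integral_finsetSum _ fun r _ => ic ν (hcc q r)]
      refine Finset.sum_congr rfl fun r _ => ?_
      rw [hEe, Matrix.conjTranspose_apply]
      have h3 : ∀ U, cj (V q k * d q U) * (V r l * d r U) =
          (cj (V q k) * V r l) * (cj (d q U) * d r U) := by
        intro U
        rw [cj_mul]
        ring
      simp only [h3]
      rw [integral_const_mul]
      show cj (V q k) * _ * V r l = _
      ring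
    rw [← h1, v4, Matrix.diagonal_apply]
  have hzero : ∀ k, hH.eigenvalues k = 0 → ∀ U, f k U = 0 := by
    intro k hk U
    refine zero_of_int ν (hfc k) ?_ U
    have h1 := hint k k
    rw [if_pos rfl, hk, Complex.ofReal_zero] at h1
    have h2 : ∀ U, cj (f k U) * f k U = ((‖f k U‖ ^ 2 : ℝ) : ℂ) := by
      intro U
      rw [show cj (f k U) * f k U = (starRingEnd ℂ) (f k U) * f k U from rfl, Complex.conj_mul']
      push_cast
      rfl
    simp only [h2] at h1
    rw [integral_complex_ofReal] at h1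
    exact_mod_cast h1
  -- restrict to the nonzero eigenvalues
  let ι : Type := {k : J // hH.eigenvalues k ≠ 0}
  have hpos : ∀ k : ι, 0 < hH.eigenvalues k.1 := fun k =>
    lt_of_le_of_ne (hEp.eigenvalues_nonneg k.1) (Ne.symm k.2)
  have hsum : ∀ g : J → ℂ, (∀ k, hH.eigenvalues k = 0 → g k = 0) → ∑ k, g k = ∑ k : ι, g k.1 := by
    intro g hg
    rw [← Finset.sum_subtype (Finset.univ.filter fun k => hH.eigenvalues k ≠ 0) (by simp) g,
      Finset.sum_filter]
    refine Finset.sum_congr rfl fun k _ => ?_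
    by_cases hk : hH.eigenvalues k = 0
    · rw [hg k hk]
      simp
    · rw [if_pos hk]
  let p : ι → Ω → ℂ := fun k U => ((√(hH.eigenvalues k.1))⁻¹ : ℝ) * f k.1 U
  refine ⟨ι, inferInstance, inferInstance, p, fun k => hH.eigenvalues k.1, ?_, hpos, ?_, ?_, ?_,
    ?_, ?_⟩
  · exact fun k => continuous_const.mul (hfc k.1)
  · intro k l
    have h1 : ∀ U, cj (p k U) * p l U =
        (((√(hH.eigenvalues k.1))⁻¹ * (√(hH.eigenvalues l.1))⁻¹ : ℝ) : ℂ) *
          (cj (f k.1 U) * f l.1 U) := by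
      intro U
      show cj (((√(hH.eigenvalues k.1))⁻¹ : ℝ) * f k.1 U) *
        (((√(hH.eigenvalues l.1))⁻¹ : ℝ) * f l.1 U) = _
      rw [cj_mul, show cj (((√(hH.eigenvalues k.1))⁻¹ : ℝ) : ℂ) = _ from Complex.conj_ofReal _]
      push_cast
      ring
    simp only [h1]
    rw [integral_const_mul, hint]
    by_cases hkl : k = l
    · subst hkl
      rw [if_pos rfl, if_pos rfl, ← Complex.ofReal_mul]
      have h2 := hpos k
      have h3 : (√(hH.eigenvalues k.1))⁻¹ * (√(hH.eigenvalues k.1))⁻¹ * hH.eigenvalues k.1 = 1 := by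
        rw [← mul_inv, Real.mul_self_sqrt h2.le, inv_mul_cancel₀ h2.ne']
      rw [h3, Complex.ofReal_one]
    · have : k.1 ≠ l.1 := fun h => hkl (Subtype.ext h)
      rw [if_neg this, if_neg hkl, mul_zero]
  · intro U W
    have h1 : ∑ q, d q U * cj (d q W) = ∑ k, f k U * cj (f k W) := by
      have h2 : ∑ k, f k U * cj (f k W) = ∑ q, d q U * ∑ k, V q k * cj (f k W) := by
        simp only [Finset.mul_sum]
        rw [Finset.sum_comm]
        refine Finset.sum_congr rfl fun k _ => ?_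
        show (∑ q, V q k * d q U) * _ = _
        rw [Finset.sum_mul]
        exact Finset.sum_congr rfl fun q _ => by ring
      rw [h2]
      refine Finset.sum_congr rfl fun q _ => ?_
      congr 1
      rw [hdf q W, show cj (∑ k, cj (V q k) * f k W) = ∑ k, cj (cj (V q k) * f k W) from
        map_sum _ _ _]
      refine Finset.sum_congr rfl fun k _ => ?_
      rw [cj_mul, cj_cj]
    rw [h1, hsum _ fun k hk => by rw [hzero k hk U, zero_mul]]
    refine Finset.sum_congr rfl fun k _ => ?_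
    show f k.1 U * cj (f k.1 W) = (hH.eigenvalues k.1 : ℂ) *
      ((((√(hH.eigenvalues k.1))⁻¹ : ℝ) * f k.1 U) * cj (((√(hH.eigenvalues k.1))⁻¹ : ℝ) * f k.1 W))
    rw [cj_mul, show cj (((√(hH.eigenvalues k.1))⁻¹ : ℝ) : ℂ) = _ from Complex.conj_ofReal _]
    have h2 := hpos k
    have h3 : hH.eigenvalues k.1 * ((√(hH.eigenvalues k.1))⁻¹ * (√(hH.eigenvalues k.1))⁻¹) = 1 := by
      rw [← mul_inv, Real.mul_self_sqrt h2.le, mul_inv_cancel₀ h2.ne']
    have h4 : (hH.eigenvalues k.1 : ℂ) * ((((√(hH.eigenvalues k.1))⁻¹ : ℝ) : ℂ) *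
        (((√(hH.eigenvalues k.1))⁻¹ : ℝ) : ℂ)) = 1 := by
      rw [← Complex.ofReal_mul, ← Complex.ofReal_mul, h3, Complex.ofReal_one]
    calc f k.1 U * cj (f k.1 W) = ((hH.eigenvalues k.1 : ℂ) *
        ((((√(hH.eigenvalues k.1))⁻¹ : ℝ) : ℂ) * (((√(hH.eigenvalues k.1))⁻¹ : ℝ) : ℂ))) *
          (f k.1 U * cj (f k.1 W)) := by rw [h4, one_mul]
      _ = _ := by ring
  · refine ⟨fun q k => cj (V q k.1) * ((√(hH.eigenvalues k.1) : ℝ) : ℂ), fun q U => ?_⟩
    rw [hdf q U, hsum _ fun k hk => by rw [hzero k hk U, mul_zero]]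
    refine Finset.sum_congr rfl fun k _ => ?_
    show _ = cj (V q k.1) * ((√(hH.eigenvalues k.1) : ℝ) : ℂ) *
      ((((√(hH.eigenvalues k.1))⁻¹ : ℝ) : ℂ) * f k.1 U)
    have h2 := Real.sqrt_pos.2 (hpos k)
    have h4 : ((√(hH.eigenvalues k.1) : ℝ) : ℂ) * (((√(hH.eigenvalues k.1))⁻¹ : ℝ) : ℂ) = 1 := by
      rw [← Complex.ofReal_mul, mul_inv_cancel₀ h2.ne', Complex.ofReal_one]
    calc cj (V q k.1) * f k.1 U = cj (V q k.1) * (((√(hH.eigenvalues k.1) : ℝ) : ℂ) *
        (((√(hH.eigenvalues k.1))⁻¹ : ℝ) : ℂ)) * f k.1 U := by rw [h4, mul_one]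
      _ = _ := by ring
  · refine ⟨fun k q => (((√(hH.eigenvalues k.1))⁻¹ : ℝ) : ℂ) * V q k.1, fun k U => ?_⟩
    show (((√(hH.eigenvalues k.1))⁻¹ : ℝ) : ℂ) * ∑ q, V q k.1 * d q U = _
    rw [Finset.mul_sum]
    exact Finset.sum_congr rfl fun q _ => by ring
  · exact Fintype.card_subtype_le _

end

end Pool.Agent.X168.PK
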