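import Mathlib
import Pool.Agent.X168.PK.Onb
import Pool.Agent.X168.PK.Ker4

/-!
# Bounds for the eigenvalues of the kernel of a character
-/

open MeasureTheory Filter Topology Matrix
open scoped ComplexOrder

namespace Pool.Agent.X168.PK

set_option linter.unusedSectionVars false

noncomputable section

variable {H : Type} [Group H] [TopologicalSpace H] [IsTopologicalGroup H] [CompactSpace H]
  [T2Space H] [SecondCountableTopology H] [MeasurableSpace H] [BorelSpace H]
  (μ : Measure H) [IsProbabilityMeasure μ] [μ.IsMulLeftInvariant]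

/-- the integral of a positive definite function -/
lemma gm_int {F : H → ℂ} (hFc : Continuous F) {Q : Type} [Fintype Q] {h : Q → H → ℂ}
    (hh : ∀ q, Continuous (h q)) (hF : ∀ c c', F (c⁻¹ * c') = ∑ q, cj (h q c) * h q c') :
    ∫ c, F c ∂μ = ((∑ q, ‖∫ c, h q c ∂μ‖ ^ 2 : ℝ) : ℂ) := by
  have h1 : ∀ c', ∫ c, F c ∂μ = ∫ c, F (c'⁻¹ * c) ∂μ := fun c' =>
    (integral_mul_left_eq_self F c'⁻¹).symm
  have h2 : ∫ c, F c ∂μ = ∫ c', ∫ c, F (c'⁻¹ * c) ∂μ ∂μ := by
    rw [← integral_congr_ae (Filter.Eventually.of_forall h1)]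
    simp
  rw [h2]
  simp only [hF]
  have h3 : ∀ c', ∫ c, ∑ q, cj (h q c') * h q c ∂μ = ∑ q, cj (h q c') * ∫ c, h q c ∂μ := by
    intro c'
    have e1 : ∀ q, Continuous fun c => cj (h q c') * h q c := fun q => continuous_const.mul (hh q)
    rw [integral_finsetSum _ fun q _ => ic μ (e1 q)]
    exact Finset.sum_congr rfl fun q _ => integral_const_mul _ _
  simp only [h3]
  have e2 : ∀ q, Continuous fun c' => cj (h q c') * ∫ c, h q c ∂μ := fun q =>
    (cj_cont.comp (hh q)).mul continuous_const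
  rw [integral_finsetSum _ fun q _ => ic μ (e2 q)]
  push_cast
  refine Finset.sum_congr rfl fun q _ => ?_
  rw [integral_mul_const]
  show (∫ c, cj (h q c) ∂μ) * _ = _
  rw [← cj_int, ← Complex.conj_mul']

variable {B : Type} [Fintype B] [DecidableEq B] {D : H → Matrix B B ℂ}

/-- the matrix coefficients -/
def mc (D : H → Matrix B B ℂ) (q : B × B) (U : H) : ℂ := D U q.1 q.2

lemma mc_ker (hD : UR D) (U V : H) :
    ∑ q, mc D q U * cj (mc D q V) = trace (D (U * V⁻¹)) := by
  rw [hD.mul, hD.inv, Matrix.trace, Fintype.sum_prod_type]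
  refine Finset.sum_congr rfl fun a _ => ?_
  rw [Matrix.diag_apply, Matrix.mul_apply]
  exact Finset.sum_congr rfl fun b _ => rfl

/-- the lower bound for the averaged matrix -/
lemma z_lower (hD : UR D) (x : B → ℂ) :
    (1 / (Fintype.card B : ℝ)) * ∑ b, ‖x b‖ ^ 2 ≤
      (∫ g, cj (trace (D g)) * ∑ b, cj (x b) * (D g *ᵥ x) b ∂μ).re := by
  set h : (B × B) × B → H → ℂ := fun q g => cj (D g q.1.1 q.1.2) * (D g *ᵥ x) q.2 with hh
  have hcx : ∀ b, Continuous fun g => (D g *ᵥ x) b := by
    intro b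
    simp only [mulVec, dotProduct]
    exact continuous_finsetSum _ fun c _ => (hD.cont b c).mul continuous_const
  have hhc : ∀ q, Continuous (h q) := fun q => (cj_cont.comp (hD.cont _ _)).mul (hcx _)
  have hct : Continuous fun g => trace (D g) := by
    simp only [Matrix.trace, Matrix.diag_apply]
    exact continuous_finsetSum _ fun c _ => hD.cont c c
  have hFc : Continuous fun g => cj (trace (D g)) * ∑ b, cj (x b) * (D g *ᵥ x) b :=
    (cj_cont.comp hct).mul (continuous_finsetSum _ fun b _ => continuous_const.mul (hcx b))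
  have hF : ∀ c c', (fun g => cj (trace (D g)) * ∑ b, cj (x b) * (D g *ᵥ x) b) (c⁻¹ * c') =
      ∑ q, cj (h q c) * h q c' := by
    intro c c'
    show cj (trace (D (c⁻¹ * c'))) * ∑ b, cj (x b) * (D (c⁻¹ * c') *ᵥ x) b = _
    have e1 : cj (trace (D (c⁻¹ * c'))) = ∑ a, ∑ e, D c a e * cj (D c' a e) := by
      rw [hD.mul, hD.inv, Matrix.trace_mul_comm, Matrix.trace]
      rw [show cj (∑ i, (D c' * (D c)ᴴ).diag i) = ∑ i, cj ((D c' * (D c)ᴴ).diag i) from
        map_sum _ _ _]
      refine Finset.sum_congr rfl fun a _ => ?_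
      rw [Matrix.diag_apply, Matrix.mul_apply, show cj (∑ j, D c' a j * (D c)ᴴ j a) =
        ∑ j, cj (D c' a j * (D c)ᴴ j a) from map_sum _ _ _]
      refine Finset.sum_congr rfl fun e _ => ?_
      rw [cj_mul, Matrix.conjTranspose_apply]
      show _ * cj (cj (D c a e)) = _
      rw [cj_cj]
      ring
    have e2 : ∑ b, cj (x b) * (D (c⁻¹ * c') *ᵥ x) b = ∑ b, cj ((D c *ᵥ x) b) * (D c' *ᵥ x) b := by
      have e3 : ∀ y z : B → ℂ, ∑ b, cj (y b) * z b = star y ⬝ᵥ z := fun y z => rfl
      rw [e3, e3, hD.mul, hD.inv, ← Matrix.mulVec_mulVec, Matrix.star_mulVec,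
        ← Matrix.dotProduct_mulVec]
    rw [e1, e2, Fintype.sum_prod_type, Fintype.sum_prod_type, Finset.sum_mul]
    refine Finset.sum_congr rfl fun a _ => ?_
    rw [Finset.sum_mul]
    refine Finset.sum_congr rfl fun e _ => ?_
    rw [Finset.mul_sum]
    refine Finset.sum_congr rfl fun b _ => ?_
    show _ = cj (cj (D c a e) * (D c *ᵥ x) b) * (cj (D c' a e) * (D c' *ᵥ x) b)
    rw [cj_mul, cj_cj]
    ring
  rw [gm_int μ hFc hhc hF, Complex.ofReal_re]
  -- keep the diagonal terms
  have h1 : ∑ e, ∑ a, ‖∫ c, h ((a, e), a) c ∂μ‖ ^ 2 ≤ ∑ q, ‖∫ c, h q c ∂μ‖ ^ 2 := by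
    rw [Finset.sum_comm, Fintype.sum_prod_type (f := fun q : (B × B) × B => ‖∫ c, h q c ∂μ‖ ^ 2),
      Fintype.sum_prod_type]
    refine Finset.sum_le_sum fun a _ => Finset.sum_le_sum fun e _ => ?_
    exact Finset.single_le_sum (f := fun b => ‖∫ c, h ((a, e), b) c ∂μ‖ ^ 2)
      (fun _ _ => sq_nonneg _) (Finset.mem_univ a)
  refine le_trans ?_ h1
  rw [Finset.mul_sum]
  refine Finset.sum_le_sum fun e _ => ?_
  have h2 : ∑ a, ∫ c, h ((a, e), a) c ∂μ = x e := by
    rw [← integral_finsetSum _ fun a _ => ic μ (hhc _)]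
    have h3 : ∀ c, ∑ a, h ((a, e), a) c = x e := by
      intro c
      have h4 : ∑ a, h ((a, e), a) c = ((D c)ᴴ *ᵥ (D c *ᵥ x)) e := rfl
      rw [h4, Matrix.mulVec_mulVec, hD.uni, Matrix.one_mulVec]
    simp only [h3]
    simp
  have h5 : ‖x e‖ ^ 2 ≤ (Fintype.card B : ℝ) * ∑ a, ‖∫ c, h ((a, e), a) c ∂μ‖ ^ 2 := by
    have h6 : ‖x e‖ ≤ ∑ a, ‖∫ c, h ((a, e), a) c ∂μ‖ := by
      rw [← h2]
      exact norm_sum_le _ _
    calc ‖x e‖ ^ 2 ≤ (∑ a, ‖∫ c, h ((a, e), a) c ∂μ‖) ^ 2 :=
          pow_le_pow_left₀ (norm_nonneg _) h6 2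
      _ ≤ _ := by
        have := sq_sum_le_card_mul_sum_sq (s := (Finset.univ : Finset B))
          (f := fun a => ‖∫ c, h ((a, e), a) c ∂μ‖)
        simpa using this
  have hB : (0:ℝ) < Fintype.card B := by
    exact_mod_cast Fintype.card_pos_iff.2 ⟨e⟩
  rw [div_mul_eq_mul_div, one_mul, div_le_iff₀ hB]
  linarith

variable [μ.IsMulRightInvariant] {ι : Type} [Fintype ι] [DecidableEq ι] {p : ι → H → ℂ}
  {lam : ι → ℝ}

lemma onb_eig (hp : ONB μ (mc D) ι p lam) (k : ι) (U : H) :
    ∫ V, (∑ q, mc D q U * cj (mc D q V)) * p k V ∂μ = (lam k : ℂ) * p k U := by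
  have h1 : ∀ V, (∑ q, mc D q U * cj (mc D q V)) * p k V =
      ∑ l, ((lam l : ℂ) * p l U) * (cj (p l V) * p k V) := by
    intro V
    rw [hp.ker, Finset.sum_mul]
    exact Finset.sum_congr rfl fun l _ => by ring
  simp only [h1]
  have hcl : ∀ l, Continuous fun V => ((lam l : ℂ) * p l U) * (cj (p l V) * p k V) := fun l =>
    continuous_const.mul ((cj_cont.comp (hp.cont l)).mul (hp.cont k))
  rw [integral_finsetSum _ fun l _ => ic μ (hcl l), Finset.sum_eq_single k]
  · rw [integral_const_mul, hp.orth, if_pos rfl, mul_one]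
  · intro l _ hl
    rw [integral_const_mul, hp.orth, if_neg hl, mul_zero]
  · intro h
    exact absurd (Finset.mem_univ k) h

lemma lam_upper (hD : UR D) (hp : ONB μ (mc D) ι p lam) (k : ι) :
    lam k ≤ Fintype.card B := by
  have h1 : (∑ l, (lam l : ℂ)) = Fintype.card B := by
    have h2 : ∫ U, ∑ q, mc D q U * cj (mc D q U) ∂μ = Fintype.card B := by
      have h3 : ∀ U : H, ∑ q, mc D q U * cj (mc D q U) = Fintype.card B := by
        intro U
        rw [mc_ker hD, mul_inv_cancel, hD.one, Matrix.trace_one]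
      simp only [h3]
      simp
    rw [← h2]
    simp only [hp.ker]
    have hcl : ∀ l, Continuous fun U => (lam l : ℂ) * (p l U * cj (p l U)) := fun l =>
      continuous_const.mul ((hp.cont l).mul (cj_cont.comp (hp.cont l)))
    rw [integral_finsetSum _ fun l _ => ic μ (hcl l)]
    refine Finset.sum_congr rfl fun l _ => ?_
    rw [integral_const_mul]
    have h4 := hp.orth l l
    rw [if_pos rfl] at h4
    have h5 : ∫ U, p l U * cj (p l U) ∂μ = 1 := by
      rw [← h4]
      exact integral_congr_ae (Filter.Eventually.of_forall fun U => mul_comm _ _)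
    rw [h5, mul_one]
  have h2 : (∑ l, lam l) = Fintype.card B := by exact_mod_cast h1
  rw [← h2]
  exact Finset.single_le_sum (f := lam) (fun l _ => (hp.pos l).le) (Finset.mem_univ k)

theorem lam_lower (hD : UR D) (hp : ONB μ (mc D) ι p lam) (k : ι) :
    1 / (Fintype.card B : ℝ) ≤ lam k := by
  set c : B → B → ℂ := fun a b => ∫ V, cj (D V a b) * p k V ∂μ with hc
  have hpc := hp.cont k
  have hct : Continuous fun g => trace (D g) := by
    simp only [Matrix.trace, Matrix.diag_apply]
    exact continuous_finsetSum _ fun c _ => hD.cont c c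
  -- (a)
  have ha : ∀ U, ∑ a, ∑ b, D U a b * c a b = (lam k : ℂ) * p k U := by
    intro U
    rw [← onb_eig μ hp k U]
    have h1 : ∀ V, (∑ q, mc D q U * cj (mc D q V)) * p k V =
        ∑ q : B × B, D U q.1 q.2 * (cj (D V q.1 q.2) * p k V) := by
      intro V
      rw [Finset.sum_mul]
      exact Finset.sum_congr rfl fun q _ => by
        show D U q.1 q.2 * cj (D V q.1 q.2) * p k V = _
        ring
    simp only [h1]
    have hcq : ∀ q : B × B, Continuous fun V => D U q.1 q.2 * (cj (D V q.1 q.2) * p k V) :=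
      fun q => continuous_const.mul ((cj_cont.comp (hD.cont _ _)).mul hpc)
    rw [integral_finsetSum _ fun q _ => ic μ (hcq q), Fintype.sum_prod_type]
    refine Finset.sum_congr rfl fun a _ => Finset.sum_congr rfl fun b _ => ?_
    rw [integral_const_mul]
  -- the character average of `p`
  have hb : ∀ V, ∫ g, cj (trace (D g)) * p k (V * g) ∂μ = (lam k : ℂ) * p k V := by
    intro V
    rw [← onb_eig μ hp k V,
      ← integral_mul_left_eq_self (fun g => cj (trace (D g)) * p k (V * g)) V⁻¹]
    refine integral_congr_ae (Filter.Eventually.of_forall fun g => ?_)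
    show cj (trace (D (V⁻¹ * g))) * p k (V * (V⁻¹ * g)) =
      (∑ q, mc D q V * cj (mc D q g)) * p k g
    rw [mul_inv_cancel_left, mc_ker hD]
    congr 1
    have h1 : V * g⁻¹ = (g * V⁻¹)⁻¹ := by group
    rw [h1, hD.inv (g * V⁻¹), Matrix.trace_conjTranspose, hD.mul, hD.mul, Matrix.trace_mul_comm]
    rfl
  -- (c)
  have hcc : ∀ a b, ∑ e, c a e * ∫ g, cj (trace (D g)) * D g b e ∂μ = (lam k : ℂ) * c a b := by
    intro a b
    have h1 : ∀ e, c a e * ∫ g, cj (trace (D g)) * D g b e ∂μ =
        ∫ g, ∫ V, (cj (D V a e) * p k V) * (cj (trace (D g)) * D g b e) ∂μ ∂μ := by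
      intro e
      simp only [integral_mul_const]
      rw [integral_const_mul]
    rw [Finset.sum_congr rfl fun e _ => h1 e]
    have hce : ∀ e, Continuous fun q : H × H =>
        (cj (D q.2 a e) * p k q.2) * (cj (trace (D q.1)) * D q.1 b e) := fun e =>
      (((cj_cont.comp ((hD.cont _ _).comp continuous_snd)).mul (hpc.comp continuous_snd))).mul
        ((cj_cont.comp (hct.comp continuous_fst)).mul ((hD.cont _ _).comp continuous_fst))
    rw [← integral_finsetSum _ fun e _ => ic μ (cpi μ (hce e))]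
    have h2 : ∀ g, ∑ e, ∫ V, (cj (D V a e) * p k V) * (cj (trace (D g)) * D g b e) ∂μ =
        ∫ V, cj (D V a b) * (cj (trace (D g)) * p k (V * g)) ∂μ := by
      intro g
      rw [← integral_finsetSum]
      · rw [← integral_mul_right_eq_self (fun V => ∑ e, (cj (D V a e) * p k V) *
          (cj (trace (D g)) * D g b e)) g]
        refine integral_congr_ae (Filter.Eventually.of_forall fun V => ?_)
        show ∑ e, (cj (D (V * g) a e) * p k (V * g)) * (cj (trace (D g)) * D g b e) =
          cj (D V a b) * (cj (trace (D g)) * p k (V * g))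
        have h3 : ∑ e, cj (D (V * g) a e) * D g b e = cj (D V a b) := by
          have h4 : D (V * g) * (D g)ᴴ = D V := by
            rw [← hD.inv, ← hD.mul, mul_inv_cancel_right]
          conv_rhs => rw [← h4]
          rw [Matrix.mul_apply, show cj (∑ j, D (V * g) a j * (D g)ᴴ j b) =
            ∑ j, cj (D (V * g) a j * (D g)ᴴ j b) from map_sum _ _ _]
          refine Finset.sum_congr rfl fun e _ => ?_
          rw [cj_mul, Matrix.conjTranspose_apply]
          show _ = _ * cj (cj (D g b e))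
          rw [cj_cj]
        rw [← h3, Finset.sum_mul]
        exact Finset.sum_congr rfl fun e _ => by ring
      · intro e _
        exact ic μ (((cj_cont.comp (hD.cont _ _)).mul hpc).mul continuous_const)
    simp only [h2]
    have hcs : Continuous fun q : H × H =>
        cj (D q.2 a b) * (cj (trace (D q.1)) * p k (q.2 * q.1)) :=
      (cj_cont.comp ((hD.cont _ _).comp continuous_snd)).mul
        ((cj_cont.comp (hct.comp continuous_fst)).mul
          (hpc.comp (continuous_snd.mul continuous_fst)))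
    rw [sw μ μ hcs]
    have h5 : ∀ V, ∫ g, cj (D V a b) * (cj (trace (D g)) * p k (V * g)) ∂μ =
        (lam k : ℂ) * (cj (D V a b) * p k V) := by
      intro V
      rw [integral_const_mul, hb]
      ring
    simp only [h5]
    rw [integral_const_mul]
  -- a nonzero row
  have hrow : ∃ a, ∃ b, c a b ≠ 0 := by
    by_contra hne
    push Not at hne
    have h1 : ∀ U, p k U = 0 := by
      intro U
      have h2 := ha U
      simp only [hne, mul_zero, Finset.sum_const_zero] at h2
      have h3 : (lam k : ℂ) ≠ 0 := by exact_mod_cast (hp.pos k).ne'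
      exact (mul_eq_zero.1 h2.symm).resolve_left h3
    have h4 := hp.orth k k
    simp [h1] at h4
  obtain ⟨a, b0, hb0⟩ := hrow
  set x : B → ℂ := fun e => c a e with hx
  have hpos : 0 < ∑ b, ‖x b‖ ^ 2 := by
    refine Finset.sum_pos' (fun _ _ => sq_nonneg _) ⟨b0, Finset.mem_univ _, ?_⟩
    exact pow_pos (norm_pos_iff.2 hb0) 2
  have h1 := z_lower μ hD x
  have h2 : ∫ g, cj (trace (D g)) * ∑ b, cj (x b) * (D g *ᵥ x) b ∂μ =
      ((lam k * ∑ b, ‖x b‖ ^ 2 : ℝ) : ℂ) := by
    have h3 : ∀ g, cj (trace (D g)) * ∑ b, cj (x b) * (D g *ᵥ x) b =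
        ∑ b, cj (x b) * ∑ e, x e * (cj (trace (D g)) * D g b e) := by
      intro g
      rw [Finset.mul_sum]
      refine Finset.sum_congr rfl fun b _ => ?_
      simp only [mulVec, dotProduct, Finset.mul_sum]
      exact Finset.sum_congr rfl fun e _ => by ring
    simp only [h3]
    have hce : ∀ b e, Continuous fun g => x e * (cj (trace (D g)) * D g b e) := fun b e =>
      continuous_const.mul ((cj_cont.comp hct).mul (hD.cont b e))
    have hcb : ∀ b, Continuous fun g => ∑ e, x e * (cj (trace (D g)) * D g b e) := fun b =>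
      continuous_finsetSum _ fun e _ => hce b e
    have hcx : ∀ b, Continuous fun g => cj (x b) * ∑ e, x e * (cj (trace (D g)) * D g b e) :=
      fun b => continuous_const.mul (hcb b)
    rw [integral_finsetSum _ fun b _ => ic μ (hcx b)]
    push_cast
    rw [Finset.mul_sum]
    refine Finset.sum_congr rfl fun b _ => ?_
    rw [integral_const_mul, integral_finsetSum _ fun e _ => ic μ (hce b e)]
    simp only [integral_const_mul]
    rw [hcc a b, ← Complex.conj_mul']
    show cj (x b) * ((lam k : ℂ) * x b) = (lam k : ℂ) * (cj (x b) * x b)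
    ring
  rw [h2, Complex.ofReal_re] at h1
  exact le_of_mul_le_mul_right h1 hpos

end

end Pool.Agent.X168.PK
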