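import Mathlib
import Pool.Agent.X168.PK.Sch

/-!
# Comparison of the characters of two representations
-/

open MeasureTheory Filter Topology Matrix
open scoped ComplexOrder Kronecker

namespace Pool.Agent.X168.PK

set_option linter.unusedSectionVars false

noncomputable section

section la

variable {Γ : Type} [Group Γ] [TopologicalSpace Γ] {E E' : Type} [Fintype E] [DecidableEq E]
  [Fintype E'] [DecidableEq E'] {R : Γ → Matrix E E ℂ} {R' : Γ → Matrix E' E' ℂ}

lemma UR.kron (h : UR R) (h' : UR R') : UR fun c => R c ⊗ₖ R' c := by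
  refine ⟨fun a b => ?_, fun a => ?_, fun i j => ?_⟩
  · show R (a * b) ⊗ₖ R' (a * b) = (R a ⊗ₖ R' a) * (R b ⊗ₖ R' b)
    rw [h.mul, h'.mul, Matrix.mul_kronecker_mul]
  · show (R a ⊗ₖ R' a)ᴴ * (R a ⊗ₖ R' a) = 1
    rw [Matrix.conjTranspose_kronecker, ← Matrix.mul_kronecker_mul, h.uni, h'.uni,
      Matrix.one_kronecker_one]
  · exact (h.cont _ _).mul (h'.cont _ _)

lemma UR.triv : UR fun _ : Γ => (1 : Matrix E E ℂ) :=
  ⟨fun _ _ => by rw [Matrix.one_mul], fun _ => by rw [Matrix.conjTranspose_one, Matrix.one_mul],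
    fun _ _ => continuous_const⟩

/-- an injective intertwiner: the difference of the characters is positive definite -/
theorem gm_sub (hR : UR R) (hR' : UR R') {Θ : Matrix E' E ℂ} (hΘ : ∀ c, Θ * R c = R' c * Θ)
    (hinj : ∀ v : E → ℂ, Θ *ᵥ v = 0 → v = 0) : Gm fun c => trace (R' c) - trace (R c) := by
  set B : Matrix E E ℂ := Θᴴ * Θ with hB
  have hBu : IsUnit B := by
    rw [← Matrix.mulVec_injective_iff_isUnit]
    intro v w hvw
    have h1 : B *ᵥ (v - w) = 0 := by rw [Matrix.mulVec_sub, sub_eq_zero]; exact hvw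
    have h2 : Θ *ᵥ (v - w) = 0 := by
      have h3 : star (Θ *ᵥ (v - w)) ⬝ᵥ (Θ *ᵥ (v - w)) = 0 := by
        rw [Matrix.star_mulVec, ← Matrix.dotProduct_mulVec, Matrix.mulVec_mulVec, h1,
          dotProduct_zero]
      exact dotProduct_star_self_eq_zero.1 h3
    exact sub_eq_zero.1 (hinj _ h2)
  have hdet : IsUnit B.det := (Matrix.isUnit_iff_isUnit_det B).1 hBu
  have b1 : B⁻¹ * B = 1 := Matrix.nonsing_inv_mul B hdet
  have b2 : B * B⁻¹ = 1 := Matrix.mul_nonsing_inv B hdet
  have bH : Bᴴ = B := by rw [hB, Matrix.conjTranspose_mul, Matrix.conjTranspose_conjTranspose]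
  have biH : (B⁻¹)ᴴ = B⁻¹ := by rw [Matrix.conjTranspose_nonsing_inv, bH]
  set P : Matrix E' E' ℂ := Θ * B⁻¹ * Θᴴ with hP
  have hPP : P * P = P := by
    calc P * P = Θ * B⁻¹ * (Θᴴ * Θ) * B⁻¹ * Θᴴ := by rw [hP]; simp only [Matrix.mul_assoc]
      _ = Θ * (B⁻¹ * B) * B⁻¹ * Θᴴ := by rw [← hB]; simp only [Matrix.mul_assoc]
      _ = P := by rw [b1, Matrix.mul_one]
  have hPH : Pᴴ = P := by
    rw [hP, Matrix.conjTranspose_mul, Matrix.conjTranspose_mul, Matrix.conjTranspose_conjTranspose,
      biH, Matrix.mul_assoc]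
  have hC : (1 - P)ᴴ * (1 - P) = 1 - P := by
    rw [Matrix.conjTranspose_sub, Matrix.conjTranspose_one, hPH, Matrix.mul_sub, Matrix.mul_one,
      Matrix.sub_mul, Matrix.one_mul, hPP]
    abel
  have key : ∀ c, trace (R c) = trace (P * R' c) := by
    intro c
    calc trace (R c) = trace (B⁻¹ * B * R c) := by rw [b1, Matrix.one_mul]
      _ = trace (B⁻¹ * Θᴴ * (Θ * R c)) := by rw [hB]; simp only [Matrix.mul_assoc]
      _ = trace (B⁻¹ * Θᴴ * (R' c * Θ)) := by rw [hΘ]
      _ = trace (B⁻¹ * Θᴴ * R' c * Θ) := by simp only [Matrix.mul_assoc]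
      _ = trace (Θ * (B⁻¹ * Θᴴ * R' c)) := Matrix.trace_mul_comm _ _
      _ = trace (P * R' c) := by rw [hP]; simp only [Matrix.mul_assoc]
  have h1 := Gm.tr hR' (1 - P)
  have h2 : (fun c => trace (R' c) - trace (R c)) =
      fun c => trace ((1 - P)ᴴ * (1 - P) * R' c) := by
    funext c
    rw [hC, Matrix.sub_mul, Matrix.one_mul, Matrix.trace_sub, key]
  rw [h2]
  exact h1

end la

variable {H : Type} [Group H] [TopologicalSpace H] [IsTopologicalGroup H] [CompactSpace H]
  [T2Space H] [SecondCountableTopology H] [MeasurableSpace H] [BorelSpace H]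
  (μ : Measure H) [IsProbabilityMeasure μ] [μ.IsMulLeftInvariant] [μ.IsMulRightInvariant]
  {Γ : Type} [Group Γ] [TopologicalSpace Γ] [IsTopologicalGroup Γ] [CompactSpace Γ]
  [T2Space Γ] [SecondCountableTopology Γ] [MeasurableSpace Γ] [BorelSpace Γ]
  {s t : Γ →* H} (hs : Continuous s) (ht : Continuous t)

/-- the action of `Γ` on `H` from both sides -/
def la (s t : Γ →* H) (c : Γ) (U : H) : H := s c * U * (t c)⁻¹

include hs ht in
lemma la_act : Act μ (la s t) := by
  refine ⟨?_, fun a b U => ?_, fun U => ?_, fun a => ?_⟩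
  · exact ((hs.comp continuous_fst).mul continuous_snd).mul (ht.comp continuous_fst).inv
  · unfold la
    rw [map_mul, map_mul]
    group
  · unfold la
    simp
  · exact (measurePreserving_mul_right μ (t a)⁻¹).comp (measurePreserving_mul_left μ (s a))

lemma la_inv_act (c : Γ) (U : H) : la s t c (la s t c⁻¹ U) = U := by
  unfold la
  simp only [map_inv]
  group

variable {B : Type} [Fintype B] [DecidableEq B] {D : H → Matrix B B ℂ}
  {ι : Type} [Fintype ι] [DecidableEq ι] {p : ι → H → ℂ} {lam : ι → ℝ}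

/-- functions in the span of the matrix coefficients -/
def SP (D : H → Matrix B B ℂ) (f : H → ℂ) : Prop := ∃ C : B × B → ℂ, ∀ U, f U = ∑ q, C q * mc D q U

lemma SP.cont (hD : UR D) {f : H → ℂ} (hf : SP D f) : Continuous f := by
  obtain ⟨C, hC⟩ := hf
  have : f = fun U => ∑ q, C q * mc D q U := funext hC
  rw [this]
  exact continuous_finsetSum _ fun q _ => continuous_const.mul (hD.cont _ _)

lemma onb_SP (hp : ONB μ (mc D) ι p lam) (k : ι) : SP D (p k) := by
  obtain ⟨C, hC⟩ := hp.bwd
  exact ⟨C k, hC k⟩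

/-- expansion in the orthonormal basis -/
lemma onb_exp (hp : ONB μ (mc D) ι p lam) {f : H → ℂ} (hf : SP D f) (U : H) :
    f U = ∑ k, (∫ V, cj (p k V) * f V ∂μ) * p k U := by
  obtain ⟨C, hC⟩ := hf
  obtain ⟨C', hC'⟩ := hp.fwd
  have h1 : ∀ U, f U = ∑ k, (∑ q, C q * C' q k) * p k U := by
    intro U
    rw [hC]
    simp only [hC', Finset.mul_sum, Finset.sum_mul]
    rw [Finset.sum_comm]
    exact Finset.sum_congr rfl fun k _ => Finset.sum_congr rfl fun q _ => by ring
  have h2 : ∀ k, ∫ V, cj (p k V) * f V ∂μ = ∑ q, C q * C' q k := by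
    intro k
    have h3 : ∀ V, cj (p k V) * f V = ∑ l, (∑ q, C q * C' q l) * (cj (p k V) * p l V) := by
      intro V
      rw [h1, Finset.mul_sum]
      exact Finset.sum_congr rfl fun l _ => by ring
    simp only [h3]
    have hcl : ∀ l, Continuous fun V => (∑ q, C q * C' q l) * (cj (p k V) * p l V) := fun l =>
      continuous_const.mul ((cj_cont.comp (hp.cont k)).mul (hp.cont l))
    rw [integral_finsetSum _ fun l _ => ic μ (hcl l), Finset.sum_eq_single k]
    · rw [integral_const_mul, hp.orth, if_pos rfl, mul_one]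
    · intro l _ hl
      rw [integral_const_mul, hp.orth, if_neg hl.symm, mul_zero]
    · intro h
      exact absurd (Finset.mem_univ k) h
  rw [h1 U]
  exact Finset.sum_congr rfl fun k _ => by rw [h2]

lemma SP_act (hD : UR D) {f : H → ℂ} (hf : SP D f) (c : Γ) : SP D fun U => f (la s t c U) := by
  obtain ⟨C, hC⟩ := hf
  refine ⟨fun r => ∑ q : B × B, C q * (D (s c) q.1 r.1 * (D (t c))ᴴ r.2 q.2), fun U => ?_⟩
  show f (la s t c U) = _
  rw [hC]
  simp only [Finset.sum_mul]
  rw [Finset.sum_comm]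
  refine Finset.sum_congr rfl fun q _ => ?_
  have h1 : mc D q (la s t c U) = ∑ r : B × B, (D (s c) q.1 r.1 * (D (t c))ᴴ r.2 q.2) *
      mc D r U := by
    unfold mc la
    rw [hD.mul, hD.mul, hD.inv, Matrix.mul_apply, Fintype.sum_prod_type, Finset.sum_comm]
    simp only [Matrix.mul_apply, Finset.sum_mul]
    exact Finset.sum_congr rfl fun b _ => Finset.sum_congr rfl fun a _ => by ring
  rw [h1, Finset.mul_sum]
  exact Finset.sum_congr rfl fun r _ => by ring

/-- the matrices of the action in the orthonormal basis -/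
def pim (s t : Γ →* H) (p : ι → H → ℂ) (c : Γ) : Matrix ι ι ℂ :=
  Matrix.of fun k l => ∫ U, cj (p k U) * p l (la s t c⁻¹ U) ∂μ

lemma pim_spec (hD : UR D) (hp : ONB μ (mc D) ι p lam) (c : Γ) (l : ι) (U : H) :
    p l (la s t c⁻¹ U) = ∑ k, pim μ s t p c k l * p k U :=
  onb_exp μ hp (SP_act hD (onb_SP μ hp l) c⁻¹) U

lemma onb_ext (hp : ONB μ (mc D) ι p lam) {a b : ι → ℂ}
    (h : ∀ U, ∑ k, a k * p k U = ∑ k, b k * p k U) : a = b := by
  have h1 : ∀ (a : ι → ℂ) k, ∫ U, cj (p k U) * ∑ l, a l * p l U ∂μ = a k := by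
    intro a k
    have h3 : ∀ V, cj (p k V) * ∑ l, a l * p l V = ∑ l, a l * (cj (p k V) * p l V) := by
      intro V
      rw [Finset.mul_sum]
      exact Finset.sum_congr rfl fun l _ => by ring
    simp only [h3]
    have hcl : ∀ l, Continuous fun V => a l * (cj (p k V) * p l V) := fun l =>
      continuous_const.mul ((cj_cont.comp (hp.cont k)).mul (hp.cont l))
    rw [integral_finsetSum _ fun l _ => ic μ (hcl l), Finset.sum_eq_single k]
    · rw [integral_const_mul, hp.orth, if_pos rfl, mul_one]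
    · intro l _ hl
      rw [integral_const_mul, hp.orth, if_neg hl.symm, mul_zero]
    · intro h
      exact absurd (Finset.mem_univ k) h
  funext k
  rw [← h1 a k, ← h1 b k]
  simp only [h]

include hs ht in
lemma pim_UR (hD : UR D) (hp : ONB μ (mc D) ι p lam) : UR (pim μ s t p) := by
  have hact := la_act μ hs ht
  have hmul : ∀ a b, pim μ s t p (a * b) = pim μ s t p a * pim μ s t p b := by
    intro a b
    ext j l
    have h := onb_ext μ hp (a := fun j => pim μ s t p (a * b) j l)
      (b := fun j => (pim μ s t p a * pim μ s t p b) j l) (fun U => ?_)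
    · exact congrFun h j
    show ∑ j, pim μ s t p (a * b) j l * p j U = ∑ j, (pim μ s t p a * pim μ s t p b) j l * p j U
    rw [← pim_spec μ hD hp, _root_.mul_inv_rev, hact.mul, pim_spec μ hD hp]
    simp only [pim_spec μ hD hp a, Matrix.mul_apply, Finset.mul_sum, Finset.sum_mul]
    rw [Finset.sum_comm]
    exact Finset.sum_congr rfl fun k _ => Finset.sum_congr rfl fun i _ => by ring
  refine ⟨hmul, fun c => ?_, fun k l => ?_⟩
  · ext k l
    have h1 : ((pim μ s t p c)ᴴ * pim μ s t p c) k l =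
        ∫ U, cj (p k (la s t c⁻¹ U)) * p l (la s t c⁻¹ U) ∂μ := by
      have h2 : ∀ U, cj (p k (la s t c⁻¹ U)) * p l (la s t c⁻¹ U) =
          ∑ i, ∑ j, cj (pim μ s t p c i k) * pim μ s t p c j l * (cj (p i U) * p j U) := by
        intro U
        rw [pim_spec μ hD hp c k U, pim_spec μ hD hp c l U,
          show cj (∑ i, pim μ s t p c i k * p i U) = ∑ i, cj (pim μ s t p c i k * p i U) from
            map_sum _ _ _, Finset.sum_mul_sum]
        refine Finset.sum_congr rfl fun i _ => Finset.sum_congr rfl fun j _ => ?_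
        rw [cj_mul]
        ring
      simp only [h2]
      have c1 : ∀ i j, Continuous fun U => cj (pim μ s t p c i k) * pim μ s t p c j l *
          (cj (p i U) * p j U) := fun i j =>
        continuous_const.mul ((cj_cont.comp (hp.cont i)).mul (hp.cont j))
      have c2 : ∀ i, Continuous fun U => ∑ j, cj (pim μ s t p c i k) * pim μ s t p c j l *
          (cj (p i U) * p j U) := fun i => continuous_finsetSum _ fun j _ => c1 i j
      rw [integral_finsetSum _ fun i _ => ic μ (c2 i), Matrix.mul_apply]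
      refine Finset.sum_congr rfl fun i _ => ?_
      rw [integral_finsetSum _ fun j _ => ic μ (c1 i j), Finset.sum_eq_single i]
      · rw [integral_const_mul, hp.orth, if_pos rfl, mul_one, Matrix.conjTranspose_apply]
        rfl
      · intro j _ hj
        rw [integral_const_mul, hp.orth, if_neg hj.symm, mul_zero]
      · intro h
        exact absurd (Finset.mem_univ i) h
    rw [h1, int_act μ hact c⁻¹ (H := fun U => cj (p k U) * p l U)
      ((cj_cont.comp (hp.cont k)).mul (hp.cont l)), hp.orth, Matrix.one_apply]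
  · show Continuous fun c => ∫ U, cj (p k U) * p l (la s t c⁻¹ U) ∂μ
    refine cpi μ (f := fun c U => cj (p k U) * p l (la s t c⁻¹ U)) ?_
    exact (cj_cont.comp ((hp.cont k).comp continuous_snd)).mul
      ((hp.cont l).comp (hact.cont.comp (continuous_fst.inv.prodMk continuous_snd)))

/-- the reproducing kernel -/
def ek (p : ι → H → ℂ) (U V : H) : ℂ := ∑ k, p k U * cj (p k V)

include hs ht in
lemma ek_inv (hD : UR D) (hp : ONB μ (mc D) ι p lam) (c : Γ) (U V : H) :
    ek p (la s t c U) (la s t c V) = ek p U V := by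
  have hu := pim_UR μ hs ht hD hp
  have h1 : ∀ U, ∀ k, p k (la s t c U) = ∑ j, pim μ s t p c⁻¹ j k * p j U := by
    intro U k
    have := pim_spec μ hD hp c⁻¹ k U (s := s) (t := t)
    rwa [inv_inv] at this
  have h2 : pim μ s t p c⁻¹ * (pim μ s t p c⁻¹)ᴴ = 1 := by
    rw [← hu.inv, ← hu.mul, inv_inv, inv_mul_cancel, hu.one]
  unfold ek
  simp only [h1]
  have h3 : ∀ k, (∑ j, pim μ s t p c⁻¹ j k * p j U) * cj (∑ j, pim μ s t p c⁻¹ j k * p j V) =
      ∑ i, ∑ j, (pim μ s t p c⁻¹ i k * (pim μ s t p c⁻¹)ᴴ k j) * (p i U * cj (p j V)) := by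
    intro k
    rw [show cj (∑ j, pim μ s t p c⁻¹ j k * p j V) = ∑ j, cj (pim μ s t p c⁻¹ j k * p j V) from
      map_sum _ _ _, Finset.sum_mul_sum]
    refine Finset.sum_congr rfl fun i _ => Finset.sum_congr rfl fun j _ => ?_
    rw [cj_mul, Matrix.conjTranspose_apply]
    show _ = _ * cj (pim μ s t p c⁻¹ j k) * _
    ring
  simp only [h3]
  rw [Finset.sum_comm]
  refine Finset.sum_congr rfl fun i _ => ?_
  rw [Finset.sum_comm, Finset.sum_eq_single i]
  · rw [← Finset.sum_mul, ← Matrix.mul_apply, h2, Matrix.one_apply_eq, one_mul]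
  · intro j _ hj
    rw [← Finset.sum_mul, ← Matrix.mul_apply, h2, Matrix.one_apply_ne hj.symm, zero_mul]
  · intro h
    exact absurd (Finset.mem_univ i) h

/-- the trace of the reproducing kernel -/
lemma ek_trace (hs : Continuous s) (ht : Continuous t) (hD : UR D)
    (hp : ONB μ (mc D) ι p lam) (c : Γ) :
    ∫ U, ek p U (la s t c U) ∂μ = trace (pim μ s t p c) := by
  have hu := pim_UR μ hs ht hD hp
  have hact := la_act μ hs ht
  have h1 : ∀ U, ∀ k, p k (la s t c U) = ∑ j, pim μ s t p c⁻¹ j k * p j U := by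
    intro U k
    have := pim_spec μ hD hp c⁻¹ k U (s := s) (t := t)
    rwa [inv_inv] at this
  unfold ek
  have hc1 : ∀ k, Continuous fun U => p k U * cj (p k (la s t c U)) := fun k =>
    (hp.cont k).mul (cj_cont.comp ((hp.cont k).comp
      (hact.cont.comp (continuous_const.prodMk continuous_id))))
  rw [integral_finsetSum _ fun k _ => ic μ (hc1 k), Matrix.trace]
  refine Finset.sum_congr rfl fun k _ => ?_
  have h2 : ∀ U, p k U * cj (p k (la s t c U)) =
      ∑ j, cj (pim μ s t p c⁻¹ j k) * cj (cj (p k U) * p j U) := by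
    intro U
    rw [h1, show cj (∑ j, pim μ s t p c⁻¹ j k * p j U) = ∑ j, cj (pim μ s t p c⁻¹ j k * p j U)
      from map_sum _ _ _, Finset.mul_sum]
    refine Finset.sum_congr rfl fun j _ => ?_
    rw [cj_mul, cj_mul, cj_cj]
    ring
  simp only [h2]
  have hc2 : ∀ j, Continuous fun U => cj (pim μ s t p c⁻¹ j k) * cj (cj (p k U) * p j U) :=
    fun j => continuous_const.mul (cj_cont.comp ((cj_cont.comp (hp.cont k)).mul (hp.cont j)))
  rw [integral_finsetSum _ fun j _ => ic μ (hc2 j), Finset.sum_eq_single k]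
  · rw [integral_const_mul, ← cj_int, hp.orth, if_pos rfl,
      show cj (1:ℂ) = 1 from map_one _, mul_one, Matrix.diag_apply, hu.inv,
      Matrix.conjTranspose_apply]
    exact cj_cj _
  · intro j _ hj
    rw [integral_const_mul, ← cj_int, hp.orth, if_neg hj.symm,
      show cj (0:ℂ) = 0 from map_zero _, mul_zero]
  · intro h
    exact absurd (Finset.mem_univ k) h

/-- **Comparison of the characters**: `φ` are equivariant multipliers -/
theorem compare {B' : Type} [Fintype B'] [DecidableEq B'] {D' : H → Matrix B' B' ℂ}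
    {ι' : Type} [Fintype ι'] [DecidableEq ι'] {p' : ι' → H → ℂ} {lam' : ι' → ℝ}
    (hs : Continuous s) (ht : Continuous t)
    (hD : UR D) (hp : ONB μ (mc D) ι p lam) (hD' : UR D') (hp' : ONB μ (mc D') ι' p' lam')
    {κ κ' : Type} [Fintype κ] [DecidableEq κ] [Fintype κ'] [DecidableEq κ']
    {P : Γ → Matrix κ κ ℂ} {P' : Γ → Matrix κ' κ' ℂ} (hP : UR P) (hP' : UR P')
    {A : Type} [Fintype A] [DecidableEq A] {φ : A → H → Matrix κ' κ ℂ}
    (heq : ∀ a c U, φ a (la s t c U) = P' c * φ a U * (P c)ᴴ)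
    (hdeg : ∀ a i j f, SP D f → SP D' fun U => φ a U i j * f U)
    (hinj : ∀ F : κ → H → ℂ, (∀ j, SP D (F j)) → (∀ a U i, ∑ j, φ a U i j * F j U = 0) →
      ∀ j U, F j U = 0) :
    Gm fun c => (Fintype.card A : ℂ) * (trace (pim μ s t p' c) * trace (P' c)) -
      trace (pim μ s t p c) * trace (P c) := by
  have hu := pim_UR μ hs ht hD hp
  have hu' := pim_UR μ hs ht hD' hp'
  have hact := la_act μ hs ht
  -- the two representations
  have hR := hu.kron hP
  have hR' := (UR.triv (Γ := Γ) (E := A)).kron (hu'.kron hP')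
  let Θ : Matrix (A × (ι' × κ')) (ι × κ) ℂ := Matrix.of fun q r =>
    ∫ U, cj (p' q.2.1 U) * (φ q.1 U q.2.2 r.2 * p r.1 U) ∂μ
  have hΘs : ∀ a i j k U, φ a U i j * p k U = ∑ l, Θ (a, (l, i)) (k, j) * p' l U :=
    fun a i j k U => onb_exp μ hp' (hdeg a i j (p k) (onb_SP μ hp k)) U
  have h := gm_sub hR hR' (Θ := Θ) (fun c => ?_) (fun v hv => ?_)
  · have e1 : (fun c => (Fintype.card A : ℂ) * (trace (pim μ s t p' c) * trace (P' c)) -
        trace (pim μ s t p c) * trace (P c)) = fun c =>
        trace ((1 : Matrix A A ℂ) ⊗ₖ (pim μ s t p' c ⊗ₖ P' c)) -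
          trace (pim μ s t p c ⊗ₖ P c) := by
      funext c
      rw [Matrix.trace_kronecker, Matrix.trace_kronecker, Matrix.trace_kronecker, Matrix.trace_one]
    rw [e1]
    exact h
  · -- intertwining
    show Θ * (pim μ s t p c ⊗ₖ P c) = ((1 : Matrix A A ℂ) ⊗ₖ (pim μ s t p' c ⊗ₖ P' c)) * Θ
    ext ⟨a, l, i⟩ ⟨k, j⟩
    -- compare as functions of `U`
    have hL : ∀ l, (Θ * (pim μ s t p c ⊗ₖ P c)) (a, (l, i)) (k, j) =
        ∑ j', P c j' j * ∑ k', Θ (a, (l, i)) (k', j') * pim μ s t p c k' k := by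
      intro l
      rw [Matrix.mul_apply, Fintype.sum_prod_type, Finset.sum_comm]
      refine Finset.sum_congr rfl fun j' _ => ?_
      rw [Finset.mul_sum]
      refine Finset.sum_congr rfl fun k' _ => ?_
      rw [Matrix.kroneckerMap_apply]
      ring
    have hRr : ∀ l, (((1 : Matrix A A ℂ) ⊗ₖ (pim μ s t p' c ⊗ₖ P' c)) * Θ) (a, (l, i)) (k, j) =
        ∑ i', P' c i i' * ∑ l', pim μ s t p' c l l' * Θ (a, (l', i')) (k, j) := by
      intro l
      rw [Matrix.mul_apply, Fintype.sum_prod_type, Finset.sum_eq_single a]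
      · rw [Fintype.sum_prod_type, Finset.sum_comm]
        refine Finset.sum_congr rfl fun i' _ => ?_
        rw [Finset.mul_sum]
        refine Finset.sum_congr rfl fun l' _ => ?_
        rw [Matrix.kroneckerMap_apply, Matrix.kroneckerMap_apply, Matrix.one_apply_eq]
        ring
      · intro b _ hb
        refine Finset.sum_eq_zero fun q _ => ?_
        rw [Matrix.kroneckerMap_apply, Matrix.one_apply_ne hb.symm]
        ring
      · intro h
        exact absurd (Finset.mem_univ a) h
    have h1 := onb_ext μ hp' (a := fun l => (Θ * (pim μ s t p c ⊗ₖ P c)) (a, (l, i)) (k, j))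
      (b := fun l => (((1 : Matrix A A ℂ) ⊗ₖ (pim μ s t p' c ⊗ₖ P' c)) * Θ) (a, (l, i)) (k, j))
      (fun U => ?_)
    · exact congrFun h1 l
    simp only [hL, hRr]
    -- left: `∑_j' φ_{i j'}(U) P_{j' j} p_k(c⁻¹ U)`
    have e1 : ∑ l, (∑ j', P c j' j * ∑ k', Θ (a, (l, i)) (k', j') * pim μ s t p c k' k) * p' l U =
        ∑ j', P c j' j * (φ a U i j' * p k (la s t c⁻¹ U)) := by
      rw [pim_spec μ hD hp c k U]
      simp only [Finset.mul_sum, Finset.sum_mul]
      rw [Finset.sum_comm]
      refine Finset.sum_congr rfl fun j' _ => ?_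
      rw [Finset.sum_comm]
      refine Finset.sum_congr rfl fun k' _ => ?_
      have e2 : P c j' j * (φ a U i j' * (pim μ s t p c k' k * p k' U)) =
          P c j' j * pim μ s t p c k' k * (φ a U i j' * p k' U) := by ring
      rw [e2, hΘs, Finset.mul_sum]
      exact Finset.sum_congr rfl fun l _ => by ring
    -- right: `∑_i' P'_{i i'} (φ_{i' j} p_k)(c⁻¹ U)`
    have e3 : ∑ l, (∑ i', P' c i i' * ∑ l', pim μ s t p' c l l' * Θ (a, (l', i')) (k, j)) *
        p' l U = ∑ i', P' c i i' * (φ a (la s t c⁻¹ U) i' j * p k (la s t c⁻¹ U)) := by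
      simp only [hΘs, Finset.mul_sum, Finset.sum_mul]
      rw [Finset.sum_comm]
      refine Finset.sum_congr rfl fun i' _ => ?_
      rw [Finset.sum_comm]
      refine Finset.sum_congr rfl fun l' _ => ?_
      rw [pim_spec μ hD' hp' c l' U, Finset.mul_sum, Finset.mul_sum]
      exact Finset.sum_congr rfl fun l _ => by ring
    rw [e1, e3]
    have e4 : P' c * φ a (la s t c⁻¹ U) = φ a U * P c := by
      have h2 := heq a c (la s t c⁻¹ U)
      rw [la_inv_act] at h2
      rw [h2, Matrix.mul_assoc, hP.uni, Matrix.mul_one]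
    have e5 := congrFun (congrFun e4 i) j
    rw [Matrix.mul_apply, Matrix.mul_apply] at e5
    calc ∑ j', P c j' j * (φ a U i j' * p k (la s t c⁻¹ U))
        = (∑ j', φ a U i j' * P c j' j) * p k (la s t c⁻¹ U) := by
          rw [Finset.sum_mul]
          exact Finset.sum_congr rfl fun _ _ => by ring
      _ = (∑ i', P' c i i' * φ a (la s t c⁻¹ U) i' j) * p k (la s t c⁻¹ U) := by rw [e5]
      _ = _ := by
          rw [Finset.sum_mul]
          exact Finset.sum_congr rfl fun _ _ => by ring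
  · -- injectivity
    have h1 := hinj (fun j U => ∑ k, v (k, j) * p k U) (fun j => ?_) (fun a U i => ?_)
    · funext ⟨k, j⟩
      have h2 := onb_ext μ hp (a := fun k => v (k, j)) (b := fun _ => 0) (fun U => by
        have := h1 j U
        rw [this]
        simp)
      exact congrFun h2 k
    · obtain ⟨C, hC⟩ := hp.bwd
      refine ⟨fun q => ∑ k, v (k, j) * C k q, fun U => ?_⟩
      simp only [hC, Finset.mul_sum, Finset.sum_mul]
      rw [Finset.sum_comm]
      exact Finset.sum_congr rfl fun q _ => Finset.sum_congr rfl fun k _ => by ring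
    · show ∑ j, φ a U i j * ∑ k, v (k, j) * p k U = 0
      have h2 : ∑ j, φ a U i j * ∑ k, v (k, j) * p k U =
          ∑ l, (Θ *ᵥ v) (a, (l, i)) * p' l U := by
        simp only [mulVec, dotProduct, Finset.mul_sum, Finset.sum_mul]
        have e6 : ∀ j k, φ a U i j * (v (k, j) * p k U) =
            ∑ l, Θ (a, (l, i)) (k, j) * v (k, j) * p' l U := by
          intro j k
          have e7 : φ a U i j * (v (k, j) * p k U) = v (k, j) * (φ a U i j * p k U) := by ring
          rw [e7, hΘs, Finset.mul_sum]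
          exact Finset.sum_congr rfl fun l _ => by ring
        simp only [e6]
        have e8 : (∑ j, ∑ k, ∑ l, Θ (a, (l, i)) (k, j) * v (k, j) * p' l U) =
            ∑ q : ι × κ, ∑ l, Θ (a, (l, i)) q * v q * p' l U := by
          rw [Fintype.sum_prod_type, Finset.sum_comm]
        rw [e8, Finset.sum_comm]
      rw [h2, hv]
      simp

end

end Pool.Agent.X168.PK
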