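import Mathlib
import Pool.Agent.X168.PK.Loc
import Pool.Agent.X168.NA.Word

/-!
# Polynomials in the link variables
-/

open MeasureTheory Filter Topology Matrix
open scoped ComplexOrder Kronecker

namespace Pool.Agent.X168.PK

set_option linter.unusedSectionVars false

noncomputable section

open NA (UU Mat)

section tp

variable {I : Type} [Fintype I] [DecidableEq I]

/-- tensor powers of a matrix -/
def tp (m : ℕ) (B : Matrix I I ℂ) : Matrix (Fin m → I) (Fin m → I) ℂ :=
  Matrix.of fun i j => ∏ t, B (i t) (j t)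

lemma tp_mul (m : ℕ) (A B : Matrix I I ℂ) : tp m (A * B) = tp m A * tp m B := by
  ext i j
  rw [Matrix.mul_apply]
  show ∏ t, (A * B) (i t) (j t) = ∑ k : Fin m → I, (∏ t, A (i t) (k t)) * ∏ t, B (k t) (j t)
  simp only [Matrix.mul_apply, ← Finset.prod_mul_distrib]
  rw [Finset.prod_univ_sum, Fintype.piFinset_univ]

lemma tp_one (m : ℕ) : tp m (1 : Matrix I I ℂ) = 1 := by
  ext i j
  show ∏ t, (1 : Matrix I I ℂ) (i t) (j t) = (1 : Matrix _ _ ℂ) i j
  simp only [Matrix.one_apply]
  by_cases h : i = j
  · subst h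
    simp
  · rw [if_neg h]
    obtain ⟨t, ht⟩ := Function.ne_iff.1 h
    exact Finset.prod_eq_zero (Finset.mem_univ t) (if_neg ht)

lemma tp_conj (m : ℕ) (A : Matrix I I ℂ) : tp m Aᴴ = (tp m A)ᴴ := by
  ext i j
  rw [Matrix.conjTranspose_apply]
  show ∏ t, Aᴴ (i t) (j t) = (starRingEnd ℂ) (∏ t, A (j t) (i t))
  rw [map_prod]
  rfl

lemma trace_tp (m : ℕ) (A : Matrix I I ℂ) : trace (tp m A) = (trace A) ^ m := by
  show ∑ i : Fin m → I, ∏ t, A (i t) (i t) = (∑ x, A x x) ^ m
  have h := Finset.prod_univ_sum (fun _ : Fin m => (Finset.univ : Finset I)) (fun _ x => A x x)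
  rw [Fintype.piFinset_univ, Finset.prod_const, Finset.card_univ, Fintype.card_fin] at h
  exact h.symm

lemma UR.tp {Γ : Type} [Group Γ] [TopologicalSpace Γ] {R : Γ → Matrix I I ℂ} (h : UR R) (m : ℕ) :
    UR fun c => tp m (R c) := by
  refine ⟨fun a b => ?_, fun a => ?_, fun i j => ?_⟩
  · show PK.tp m (R (a * b)) = PK.tp m (R a) * PK.tp m (R b)
    rw [h.mul, tp_mul]
  · show (PK.tp m (R a))ᴴ * PK.tp m (R a) = 1
    rw [← tp_conj, ← tp_mul, h.uni, tp_one]
  · show Continuous fun a => ∏ t, R a (i t) (j t)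
    exact continuous_finsetProd _ fun t _ => h.cont _ _

end tp

section D1

variable {G : Type} [Group G] [TopologicalSpace G] {N : ℕ} (π : G →* UU N)
  {E : Type} [Fintype E] [DecidableEq E]

/-- the indices of the entries -/
abbrev I1 (E : Type) (N : ℕ) := Unit ⊕ ((Fin N × E) ⊕ (Fin N × E))

/-- the sum of the trivial representation, the link variables and their conjugates -/
def D1 (U : E → G) : Matrix (I1 E N) (I1 E N) ℂ :=
  fromBlocks 1 0 0 (fromBlocks (blockDiagonal fun e => (π (U e) : Mat N)) 0 0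
    (blockDiagonal fun e => ((π (U e) : Mat N)).map (starRingEnd ℂ)))

lemma D1_UR (hπ : Continuous π) : UR (D1 π : (E → G) → _) := by
  refine ⟨fun U V => ?_, fun U => ?_, fun i j => ?_⟩
  · unfold D1
    rw [fromBlocks_multiply, fromBlocks_multiply, ← blockDiagonal_mul, ← blockDiagonal_mul]
    simp only [Matrix.mul_zero, Matrix.zero_mul, add_zero, zero_add, Matrix.one_mul]
    congr 2
    · congr 1
      funext e
      show (π (U e * V e) : Mat N) = _
      rw [map_mul]
      rfl
    · congr 1
      funext e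
      show ((π (U e * V e) : Mat N)).map (starRingEnd ℂ) = _
      rw [map_mul]
      show ((π (U e) : Mat N) * (π (V e) : Mat N)).map (starRingEnd ℂ) = _
      rw [Matrix.map_mul]
  · unfold D1
    have h0 : ∀ e, (π (U e) : Mat N)ᴴ * (π (U e) : Mat N) = 1 := fun e =>
      Matrix.mem_unitaryGroup_iff'.1 (π (U e)).2
    rw [fromBlocks_conjTranspose, fromBlocks_conjTranspose, fromBlocks_multiply,
      fromBlocks_multiply, blockDiagonal_conjTranspose, blockDiagonal_conjTranspose,
      ← blockDiagonal_mul, ← blockDiagonal_mul]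
    simp only [Matrix.mul_zero, Matrix.zero_mul, add_zero, zero_add,
      Matrix.conjTranspose_one, Matrix.conjTranspose_zero, Matrix.mul_one]
    have h1 : (fun e => (π (U e) : Mat N)ᴴ * (π (U e) : Mat N)) = 1 := funext h0
    have h2 : (fun e => (((π (U e) : Mat N)).map (starRingEnd ℂ))ᴴ *
        ((π (U e) : Mat N)).map (starRingEnd ℂ)) = 1 := by
      funext e
      have h3 : (((π (U e) : Mat N)).map (starRingEnd ℂ))ᴴ =
          ((π (U e) : Mat N)ᴴ).map (starRingEnd ℂ) := by
        ext i j
        rfl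
      rw [h3, ← Matrix.map_mul, h0, Matrix.map_one _ (map_zero _) (map_one _)]
      rfl
    rw [h1, h2, blockDiagonal_one, fromBlocks_one, fromBlocks_one]
  · have hc : ∀ e a b, Continuous fun U : E → G => (π (U e) : Mat N) a b := fun e a b =>
      ((continuous_subtype_val.comp (hπ.comp (continuous_apply e))).matrix_elem a b)
    rcases i with i | i | i <;> rcases j with j | j | j
    · exact continuous_const
    · exact continuous_const
    · exact continuous_const
    · exact continuous_const
    · show Continuous fun U : E → G => if i.2 = j.2 then (π (U i.2) : Mat N) i.1 j.1 else 0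
      split_ifs
      · exact hc _ _ _
      · exact continuous_const
    · exact continuous_const
    · exact continuous_const
    · exact continuous_const
    · show Continuous fun U : E → G =>
        if i.2 = j.2 then cj ((π (U i.2) : Mat N) i.1 j.1) else 0
      split_ifs
      · exact cj_cont.comp (hc _ _ _)
      · exact continuous_const

omit [TopologicalSpace G] [Fintype E] [DecidableEq E] in
lemma trace_fb {m n : Type} [Fintype m] [Fintype n] (A : Matrix m m ℂ) (B : Matrix m n ℂ)
    (C : Matrix n m ℂ) (D : Matrix n n ℂ) : trace (fromBlocks A B C D) = trace A + trace D := by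
  simp [Matrix.trace, Fintype.sum_sum_type]

/-- `Re tr` of the link variables -/
def rt (U : E → G) : ℝ := ∑ e, (trace (π (U e) : Mat N)).re

lemma trace_D1 (U : E → G) : trace (D1 π U) = ((1 + 2 * rt π U : ℝ) : ℂ) := by
  unfold D1 rt
  rw [trace_fb, trace_fb, Matrix.trace_one, trace_blockDiagonal,
    trace_blockDiagonal, Fintype.card_unit, ← Finset.sum_add_distrib]
  push_cast
  rw [Finset.mul_sum]
  congr 1
  refine Finset.sum_congr rfl fun e _ => ?_
  have h1 : trace (((π (U e) : Mat N)).map (starRingEnd ℂ)) =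
      (starRingEnd ℂ) (trace (π (U e) : Mat N)) := by
    rw [Matrix.trace, Matrix.trace, map_sum]
    rfl
  rw [h1, Complex.add_conj]
  push_cast
  rfl

/-- the representation on the polynomials of degree `m` -/
def Dm (m : ℕ) (U : E → G) : Matrix (Fin m → I1 E N) (Fin m → I1 E N) ℂ := tp m (D1 π U)

lemma Dm_UR (hπ : Continuous π) (m : ℕ) : UR (Dm π m : (E → G) → _) := (D1_UR π hπ).tp m

lemma trace_Dm (m : ℕ) (U : E → G) : trace (Dm π m U) = ((1 + 2 * rt π U : ℝ) : ℂ) ^ m := by
  unfold Dm
  rw [trace_tp, trace_D1]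

lemma card_I1 : Fintype.card (I1 E N) = 1 + 2 * (N * Fintype.card E) := by
  simp [I1, Fintype.card_sum, Fintype.card_prod]
  ring

end D1

section SP

variable {H : Type} {B : Type} [Fintype B] [DecidableEq B] {D : H → Matrix B B ℂ}

lemma SP.add {f g : H → ℂ} (hf : SP D f) (hg : SP D g) : SP D fun U => f U + g U := by
  obtain ⟨C, hC⟩ := hf
  obtain ⟨C', hC'⟩ := hg
  refine ⟨fun q => C q + C' q, fun U => ?_⟩
  show f U + g U = _
  rw [hC, hC', ← Finset.sum_add_distrib]
  exact Finset.sum_congr rfl fun q _ => by ring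

lemma SP.smul {f : H → ℂ} (c : ℂ) (hf : SP D f) : SP D fun U => c * f U := by
  obtain ⟨C, hC⟩ := hf
  refine ⟨fun q => c * C q, fun U => ?_⟩
  show c * f U = _
  rw [hC, Finset.mul_sum]
  exact Finset.sum_congr rfl fun q _ => by ring

lemma SP.zero : SP D fun _ => 0 := ⟨fun _ => 0, fun U => by simp⟩

lemma SP.sum {κ : Type} (S : Finset κ) {f : κ → H → ℂ} (hf : ∀ k ∈ S, SP D (f k)) :
    SP D fun U => ∑ k ∈ S, f k U := by
  classical
  induction S using Finset.induction_on with
  | empty => simpa using SP.zero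
  | insert a S ha ih =>
    have h := (hf a (Finset.mem_insert_self a S)).add (ih fun k hk => hf k (Finset.mem_insert_of_mem hk))
    simpa only [Finset.sum_insert ha] using h

lemma SP.mc (q : B × B) : SP D (mc D q) := by
  refine ⟨fun r => if r = q then 1 else 0, fun U => ?_⟩
  rw [Finset.sum_eq_single q]
  · simp
  · intro r _ hr
    show (if r = q then (1:ℂ) else 0) * _ = 0
    rw [if_neg hr, zero_mul]
  · intro h
    exact absurd (Finset.mem_univ q) h

end SP

section deg

variable {G : Type} [Group G] [TopologicalSpace G] {N : ℕ} (π : G →* UU N)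
  {E : Type} [Fintype E] [DecidableEq E]

/-- polynomials of degree `≤ m` -/
abbrev Pl (m : ℕ) (f : (E → G) → ℂ) : Prop := SP (Dm π m) f

lemma Pl.mul {m n : ℕ} {f g : (E → G) → ℂ} (hf : Pl π m f) (hg : Pl π n g) :
    Pl π (m + n) fun U => f U * g U := by
  obtain ⟨C, hC⟩ := hf
  obtain ⟨C', hC'⟩ := hg
  have h1 : (fun U => f U * g U) = fun U => ∑ q, ∑ r, (C q * C' r) *
      mc (Dm π (m + n)) (Fin.append q.1 r.1, Fin.append q.2 r.2) U := by
    funext U
    rw [hC, hC', Finset.sum_mul_sum]
    refine Finset.sum_congr rfl fun q _ => Finset.sum_congr rfl fun r _ => ?_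
    have h2 : mc (Dm π (m + n)) (Fin.append q.1 r.1, Fin.append q.2 r.2) U =
        mc (Dm π m) q U * mc (Dm π n) r U := by
      show ∏ t, D1 π U (Fin.append q.1 r.1 t) (Fin.append q.2 r.2 t) =
        (∏ t, D1 π U (q.1 t) (q.2 t)) * ∏ t, D1 π U (r.1 t) (r.2 t)
      rw [Fin.prod_univ_add]
      simp only [Fin.append_left, Fin.append_right]
    rw [h2]
    ring
  show SP (Dm π (m + n)) fun U => f U * g U
  rw [h1]
  exact SP.sum _ fun q _ => SP.sum _ fun r _ => (SP.mc _).smul _

lemma Pl.one (m : ℕ) : Pl π m (fun _ : E → G => 1) := by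
  have h : (fun _ : E → G => (1:ℂ)) = mc (Dm π m) (fun _ => Sum.inl (), fun _ => Sum.inl ()) := by
    funext U
    show (1:ℂ) = ∏ t : Fin m, D1 π U (Sum.inl ()) (Sum.inl ())
    symm
    refine Finset.prod_eq_one fun t _ => ?_
    show (1 : Matrix Unit Unit ℂ) () () = 1
    rfl
  show SP (Dm π m) _
  rw [h]
  exact SP.mc _

lemma Pl.const (m : ℕ) (c : ℂ) : Pl π m (fun _ : E → G => c) := by
  have h := (Pl.one π (E := E) m).smul c
  simpa using h

lemma Pl.mono {m n : ℕ} (hmn : m ≤ n) {f : (E → G) → ℂ} (hf : Pl π m f) : Pl π n f := by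
  obtain ⟨k, rfl⟩ := Nat.exists_eq_add_of_le hmn
  have h := hf.mul π (Pl.one π k)
  simpa using h

lemma Pl.d1 (i j : I1 E N) : Pl π 1 (fun U : E → G => D1 π U i j) := by
  have h : (fun U : E → G => D1 π U i j) = mc (Dm π 1) (fun _ => i, fun _ => j) := by
    funext U
    show _ = ∏ t : Fin 1, D1 π U i j
    simp
  show SP (Dm π 1) _
  rw [h]
  exact SP.mc _

lemma Pl.ent (e : E) (i j : Fin N) : Pl π 1 (fun U : E → G => (π (U e) : Mat N) i j) := by
  have h := Pl.d1 π (Sum.inr (Sum.inl (i, e)) : I1 E N) (Sum.inr (Sum.inl (j, e)))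
  have h2 : (fun U : E → G => D1 π U (Sum.inr (Sum.inl (i, e))) (Sum.inr (Sum.inl (j, e)))) =
      fun U => (π (U e) : Mat N) i j := by
    funext U
    show (if e = e then (π (U e) : Mat N) i j else 0) = _
    rw [if_pos rfl]
  rw [h2] at h
  exact h

/-- exchange of the link variables and their conjugates -/
def flp : I1 E N → I1 E N
  | Sum.inl x => Sum.inl x
  | Sum.inr (Sum.inl x) => Sum.inr (Sum.inr x)
  | Sum.inr (Sum.inr x) => Sum.inr (Sum.inl x)

lemma D1_flp (U : E → G) (i j : I1 E N) : cj (D1 π U i j) = D1 π U (flp i) (flp j) := by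
  rcases i with i | i | i <;> rcases j with j | j | j
  · show cj ((1 : Matrix Unit Unit ℂ) i j) = (1 : Matrix Unit Unit ℂ) i j
    rw [Matrix.one_apply]
    split_ifs
    · exact map_one _
    · exact map_zero _
  · exact map_zero _
  · exact map_zero _
  · exact map_zero _
  · show cj (if i.2 = j.2 then (π (U i.2) : Mat N) i.1 j.1 else 0) =
      if i.2 = j.2 then cj ((π (U i.2) : Mat N) i.1 j.1) else 0
    split_ifs
    · rfl
    · exact map_zero _
  · exact map_zero _
  · exact map_zero _
  · exact map_zero _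
  · show cj (if i.2 = j.2 then cj ((π (U i.2) : Mat N) i.1 j.1) else 0) =
      if i.2 = j.2 then (π (U i.2) : Mat N) i.1 j.1 else 0
    split_ifs
    · exact cj_cj _
    · exact map_zero _

lemma Pl.cj {m : ℕ} {f : (E → G) → ℂ} (hf : Pl π m f) : Pl π m fun U => cj (f U) := by
  obtain ⟨C, hC⟩ := hf
  have h1 : (fun U => PK.cj (f U)) = fun U => ∑ q, PK.cj (C q) *
      mc (Dm π m) (fun t => flp (q.1 t), fun t => flp (q.2 t)) U := by
    funext U
    rw [hC]
    show (starRingEnd ℂ) _ = _
    rw [map_sum]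
    refine Finset.sum_congr rfl fun q _ => ?_
    rw [map_mul]
    congr 1
    show (starRingEnd ℂ) (∏ t, D1 π U (q.1 t) (q.2 t)) = ∏ t, D1 π U (flp (q.1 t)) (flp (q.2 t))
    rw [map_prod]
    exact Finset.prod_congr rfl fun t _ => D1_flp π U _ _
  show SP (Dm π m) _
  rw [h1]
  exact SP.sum _ fun q _ => (SP.mc _).smul _

lemma Pl.prod {m l : ℕ} {f : Fin m → (E → G) → ℂ} (hf : ∀ t, Pl π l (f t)) :
    Pl π (m * l) fun U => ∏ t, f t U := by
  induction m with
  | zero =>
    simp only [Finset.univ_eq_empty, Finset.prod_empty, Nat.zero_mul]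
    exact Pl.one π 0
  | succ m ih =>
    have h := (hf 0).mul π (ih fun t => hf t.succ)
    simp only [Fin.prod_univ_succ]
    rwa [show (m + 1) * l = l + m * l by ring]

/-- composition -/
lemma Pl.comp {K : Type} [Fintype K] [DecidableEq K] {m l : ℕ} {f : (K → G) → ℂ}
    (hf : Pl π m f) {h : (E → G) → (K → G)}
    (hh : ∀ k i j, Pl π l fun U => (π (h U k) : Mat N) i j) : Pl π (m * l) fun U => f (h U) := by
  obtain ⟨C, hC⟩ := hf
  have h1 : (fun U => f (h U)) = fun U => ∑ q : (Fin m → I1 K N) × (Fin m → I1 K N), C q *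
      ∏ t, D1 π (h U) (q.1 t) (q.2 t) := by
    funext U
    rw [hC]
    rfl
  show SP (Dm π (m * l)) _
  rw [h1]
  refine SP.sum _ fun q _ => SP.smul _ ?_
  refine Pl.prod π fun t => ?_
  have key : ∀ i j : I1 K N, Pl π l fun U => D1 π (h U) i j := by
    intro i j
    rcases i with i | i | i <;> rcases j with j | j | j
    · exact Pl.const π l _
    · exact Pl.const π l _
    · exact Pl.const π l _
    · exact Pl.const π l _
    · show Pl π l fun U => if i.2 = j.2 then (π (h U i.2) : Mat N) i.1 j.1 else 0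
      split_ifs
      · exact hh _ _ _
      · exact Pl.const π l _
    · exact Pl.const π l _
    · exact Pl.const π l _
    · exact Pl.const π l _
    · show Pl π l fun U => if i.2 = j.2 then PK.cj ((π (h U i.2) : Mat N) i.1 j.1) else 0
      split_ifs
      · exact (hh _ _ _).cj π
      · exact Pl.const π l _
  exact key _ _

/-- holonomies -/
lemma Pl.hol (w : List (E × Bool)) (i j : Fin N) :
    Pl π w.length fun U : E → G => (π (NA.hol w U) : Mat N) i j := by
  induction w generalizing i with
  | nil =>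
    show Pl π 0 fun _ : E → G => (π (1 : G) : Mat N) i j
    exact Pl.const π 0 _
  | cons x w ih =>
    obtain ⟨e, b⟩ := x
    rw [List.length_cons, Nat.add_comm]
    have hm : ∀ (g : (E → G) → G), (∀ i k, Pl π 1 fun U => (π (g U) : Mat N) i k) →
        Pl π (1 + w.length) fun U : E → G => (π (g U * NA.hol w U) : Mat N) i j := by
      intro g hg
      have h1 : (fun U : E → G => (π (g U * NA.hol w U) : Mat N) i j) = fun U =>
          ∑ k, (π (g U) : Mat N) i k * (π (NA.hol w U) : Mat N) k j := by
        funext U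
        rw [map_mul]
        rfl
      show SP (Dm π (1 + w.length)) _
      rw [h1]
      exact SP.sum _ fun k _ => (hg i k).mul π (ih k)
    cases b
    · refine hm (fun U => (U e)⁻¹) fun i k => ?_
      have h2 : (fun U : E → G => (π (U e)⁻¹ : Mat N) i k) = fun U =>
          PK.cj ((π (U e) : Mat N) k i) := by
        funext U
        rw [map_inv]
        rfl
      show SP (Dm π 1) _
      rw [h2]
      exact (Pl.ent π e k i).cj π
    · exact hm (fun U => U e) fun i k => Pl.ent π e i k

end deg

end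

end Pool.Agent.X168.PK
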