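import Mathlib
import Pool.Agent.X168.PK.Pol

/-!
# Products of kernels
-/

open MeasureTheory Filter Topology Matrix
open scoped ComplexOrder

namespace Pool.Agent.X168.PK

set_option linter.unusedSectionVars false

noncomputable section

variable {X : Type} [TopologicalSpace X] [CompactSpace X] [T2Space X]
  [SecondCountableTopology X] [MeasurableSpace X] [BorelSpace X]
  (μX : Measure X) [IsFiniteMeasure μX]
  {Ω : Type} [TopologicalSpace Ω] [CompactSpace Ω] [T2Space Ω]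
  [SecondCountableTopology Ω] [MeasurableSpace Ω] [BorelSpace Ω]
  (ν : Measure Ω) [IsFiniteMeasure ν]
  {Γ : Type} [Group Γ] [TopologicalSpace Γ] [IsTopologicalGroup Γ] [CompactSpace Γ] [T2Space Γ]
  [SecondCountableTopology Γ] [MeasurableSpace Γ] [BorelSpace Γ]
  (μ : Measure Γ) [IsProbabilityMeasure μ] [μ.IsMulLeftInvariant]
  {a₁ : Γ → X → X} {a₂ : Γ → Ω → Ω}

/-- product of kernels -/
def pk (A : X → X → ℂ) (B : Ω → Ω → ℂ) (U V : X × Ω) : ℂ := A U.1 V.1 * B U.2 V.2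

/-- product of actions -/
def pa (a₁ : Γ → X → X) (a₂ : Γ → Ω → Ω) (c : Γ) (U : X × Ω) : X × Ω := (a₁ c U.1, a₂ c U.2)

lemma pa_act (h₁ : Act μX a₁) (h₂ : Act ν a₂) : Act (μX.prod ν) (pa a₁ a₂) := by
  refine ⟨?_, fun a b U => ?_, fun U => ?_, fun a => ?_⟩
  · exact (h₁.cont.comp (continuous_fst.prodMk (continuous_fst.comp continuous_snd))).prodMk
      (h₂.cont.comp (continuous_fst.prodMk (continuous_snd.comp continuous_snd)))
  · exact Prod.ext (h₁.mul a b _) (h₂.mul a b _)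
  · exact Prod.ext (h₁.one _) (h₂.one _)
  · exact (h₁.mp a).prod (h₂.mp a)

lemma pk_gk {A : X → X → ℂ} {B : Ω → Ω → ℂ} (hA : GK A) (hB : GK B) : GK (pk A B) := by
  obtain ⟨I, _, _, w, hw, hK⟩ := hA
  obtain ⟨I', _, _, w', hw', hK'⟩ := hB
  refine ⟨I × I', inferInstance, inferInstance, fun q U => w q.1 U.1 * w' q.2 U.2,
    fun q => ((hw _).comp continuous_fst).mul ((hw' _).comp continuous_snd), fun U V => ?_⟩
  show A U.1 V.1 * B U.2 V.2 = _
  rw [hK, hK', Fintype.sum_prod_type, Finset.sum_mul_sum]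
  refine Finset.sum_congr rfl fun q _ => Finset.sum_congr rfl fun q' _ => ?_
  rw [cj_mul]
  ring

lemma pk_c2 {A : X → X → ℂ} {B : Ω → Ω → ℂ} (hA : C2 A) (hB : C2 B) : C2 (pk A B) := by
  have h1 : Continuous fun p : (X × Ω) × (X × Ω) => A p.1.1 p.2.1 :=
    hA.comp ((continuous_fst.comp continuous_fst).prodMk (continuous_fst.comp continuous_snd))
  have h2 : Continuous fun p : (X × Ω) × (X × Ω) => B p.1.2 p.2.2 :=
    hB.comp ((continuous_snd.comp continuous_fst).prodMk (continuous_snd.comp continuous_snd))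
  exact h1.mul h2

lemma it_pk {A : X → X → ℂ} {B : Ω → Ω → ℂ} (M : Ω → ℝ) (n : ℕ) (U V : X × Ω) :
    it (μX.prod ν) (pk A B) (fun U => M U.2) n U V =
      it μX A (fun _ => 1) n U.1 V.1 * it ν B M n U.2 V.2 := by
  induction n generalizing V with
  | zero => rfl
  | succ n ih =>
    show ∫ W, it (μX.prod ν) (pk A B) (fun U => M U.2) n U W * (M W.2 : ℂ) * pk A B W V
      ∂(μX.prod ν) = (∫ W, it μX A (fun _ => 1) n U.1 W * ((1:ℝ) : ℂ) * A W V.1 ∂μX) *
        ∫ W, it ν B M n U.2 W * (M W : ℂ) * B W V.2 ∂ν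
    rw [← integral_prod_mul]
    refine integral_congr_ae (Filter.Eventually.of_forall fun W => ?_)
    show it (μX.prod ν) (pk A B) (fun U => M U.2) n U W * (M W.2 : ℂ) * (A W.1 V.1 * B W.2 V.2) =
      (it μX A (fun _ => 1) n U.1 W.1 * ((1:ℝ) : ℂ) * A W.1 V.1) *
        (it ν B M n U.2 W.2 * (M W.2 : ℂ) * B W.2 V.2)
    rw [ih]
    push_cast
    ring

/-- the twisted trace of a product kernel -/
lemma Zg_pk {A : X → X → ℂ} {B : Ω → Ω → ℂ} (g : Γ → ℂ) (M : Ω → ℝ) (n : ℕ) :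
    Zg (μX.prod ν) μ (pa a₁ a₂) g (pk A B) (fun U => M U.2) n =
      Zg ν μ a₂ (fun c => g c * ∫ U, it μX A (fun _ => 1) n U (a₁ c U) ∂μX) B M n := by
  unfold Zg
  refine integral_congr_ae (Filter.Eventually.of_forall fun c => ?_)
  show g c * ∫ U, ((M U.2 : ℝ) : ℂ) * it (μX.prod ν) (pk A B) (fun U => M U.2) n U
    (pa a₁ a₂ c U) ∂(μX.prod ν) = (g c * ∫ U, it μX A (fun _ => 1) n U (a₁ c U) ∂μX) *
    ∫ U, (M U : ℂ) * it ν B M n U (a₂ c U) ∂ν
  rw [mul_assoc, ← integral_prod_mul]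
  congr 1
  refine integral_congr_ae (Filter.Eventually.of_forall fun W => ?_)
  show ((M W.2 : ℝ) : ℂ) * it (μX.prod ν) (pk A B) (fun U => M U.2) n W (pa a₁ a₂ c W) = _
  rw [it_pk]
  show _ = it μX A (fun _ => 1) n W.1 (a₁ c W.1) * ((M W.2 : ℂ) * it ν B M n W.2 (a₂ c W.2))
  unfold pa
  ring

/-- limits of sums of squares -/
def LK (act : Γ → Ω → Ω) (K : Ω → Ω → ℂ) : Prop :=
  ∃ (KJ : ℕ → Ω → Ω → ℂ) (B : ℝ), (∀ J, GK (KJ J)) ∧
    (∀ J c U V, KJ J (act c U) (act c V) = KJ J U V) ∧ (∀ J U V, ‖KJ J U V‖ ≤ B) ∧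
    ∀ U V, Tendsto (fun J => KJ J U V) atTop (𝓝 (K U V))

variable {A : Type} [Fintype A] [DecidableEq A] {R : Γ → Matrix A A ℂ}

lemma re_tend {x : ℕ → ℂ} {y : ℂ} (h : Tendsto x atTop (𝓝 y)) :
    Tendsto (fun J => (x J).re) atTop (𝓝 y.re) := (Complex.continuous_re.tendsto y).comp h

lemma tr_UR_cont (hR : UR R) : Continuous fun c => trace (R c) := by
  simp only [Matrix.trace, Matrix.diag_apply]
  exact continuous_finsetSum _ fun c _ => hR.cont c c

/-- positivity for limits -/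
theorem pos_L (h₂ : Act ν a₂) {F : Γ → ℂ} (hF : Gm F) {K : Ω → Ω → ℂ} (hK : LK a₂ K)
    {M : Ω → ℝ} (hM : Continuous M) (hMi : ∀ c U, M (a₂ c U) = M U) (h0 : ∀ U, 0 ≤ M U) (n : ℕ) :
    0 ≤ (Zg ν μ a₂ F K M n).re := by
  obtain ⟨KJ, B, hg, hi, hB, hlim⟩ := hK
  have h1 := Zg_tend ν μ h₂.cont hF.cont (fun J => (hg J).c2) hM hB hlim n
  exact ge_of_tendsto' (re_tend h1) fun J => Zg_pos ν μ h₂ hF (hg J) (hi J) hM hMi h0 n

/-- monotonicity for products with limits -/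
theorem mono_L (h₁ : Act μX a₁) (h₂ : Act ν a₂) (hR : UR R) {K K' : X → X → ℂ} (hK : GK K)
    (hD : GK fun U V => K' U V - K U V)
    (hinv : ∀ c U V, K (a₁ c U) (a₁ c V) = K U V)
    (hinv' : ∀ c U V, K' (a₁ c U) (a₁ c V) = K' U V) {K₂ : Ω → Ω → ℂ} (hK₂ : LK a₂ K₂)
    {M M' : X × Ω → ℝ} (hM : Continuous M) (hM' : Continuous M')
    (hMi : ∀ c U, M (pa a₁ a₂ c U) = M U) (hMi' : ∀ c U, M' (pa a₁ a₂ c U) = M' U)
    (h0 : ∀ U, 0 ≤ M U) (hle : ∀ U, M U ≤ M' U) (n : ℕ) :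
    0 ≤ (Zg (μX.prod ν) μ (pa a₁ a₂) (fun c => trace (R c)) (pk K K₂) M n).re ∧
    (Zg (μX.prod ν) μ (pa a₁ a₂) (fun c => trace (R c)) (pk K K₂) M n).im = 0 ∧
    (Zg (μX.prod ν) μ (pa a₁ a₂) (fun c => trace (R c)) (pk K K₂) M n).re ≤
      (Zg (μX.prod ν) μ (pa a₁ a₂) (fun c => trace (R c)) (pk K' K₂) M' n).re := by
  obtain ⟨KJ, B, hg, hi, hB, hlim⟩ := hK₂
  have hact := pa_act μX ν h₁ h₂
  have hK'g : C2 K' := by
    have h1 := hK.c2
    have h2 := hD.c2
    have h3 : (fun p : X × X => K' p.1 p.2) = fun p => (K' p.1 p.2 - K p.1 p.2) + K p.1 p.2 := by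
      funext p
      ring
    unfold C2
    rw [h3]
    exact Continuous.add h2 h1
  have bd : ∀ {Q : X → X → ℂ}, C2 Q → ∃ C : ℝ, ∀ J (U V : X × Ω), ‖pk Q (KJ J) U V‖ ≤ C := by
    intro Q hQ
    obtain ⟨C, hC0, hC⟩ := cbdd (X := X × X) hQ
    refine ⟨C * B, fun J U V => ?_⟩
    unfold pk
    rw [norm_mul]
    exact mul_le_mul (hC (U.1, V.1)) (hB J _ _) (norm_nonneg _) hC0
  have lim : ∀ {Q : X → X → ℂ}, C2 Q → ∀ {M : X × Ω → ℝ}, Continuous M →
      Tendsto (fun J => Zg (μX.prod ν) μ (pa a₁ a₂) (fun c => trace (R c)) (pk Q (KJ J)) M n)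
        atTop (𝓝 (Zg (μX.prod ν) μ (pa a₁ a₂) (fun c => trace (R c)) (pk Q K₂) M n)) := by
    intro Q hQ M hM
    obtain ⟨C, hC⟩ := bd hQ
    exact Zg_tend (μX.prod ν) μ hact.cont (tr_UR_cont hR) (fun J => pk_c2 hQ (hg J).c2) hM hC
      (fun U V => (hlim _ _).const_mul _) n
  have l1 := lim hK.c2 hM
  have l2 := lim hK'g hM'
  have hm : ∀ J, _ := fun J => mono (μX.prod ν) μ hact hR (K := pk K (KJ J)) (K' := pk K' (KJ J))
    (pk_gk hK (hg J)) (by
      have h3 : (fun U V => pk K' (KJ J) U V - pk K (KJ J) U V) =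
          pk (fun U V => K' U V - K U V) (KJ J) := by
        funext U V
        unfold pk
        ring
      rw [h3]
      exact pk_gk hD (hg J))
    (fun c U V => by
      show K (a₁ c U.1) (a₁ c V.1) * KJ J (a₂ c U.2) (a₂ c V.2) = _
      rw [hinv, hi]
      rfl)
    (fun c U V => by
      show K' (a₁ c U.1) (a₁ c V.1) * KJ J (a₂ c U.2) (a₂ c V.2) = _
      rw [hinv', hi]
      rfl) hM hM' hMi hMi' h0 hle n
  refine ⟨ge_of_tendsto' (re_tend l1) fun J => (hm J).1, ?_,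
    le_of_tendsto_of_tendsto' (re_tend l1) (re_tend l2) fun J => (hm J).2.2⟩
  have h4 := (Complex.continuous_im.tendsto _).comp l1
  refine tendsto_nhds_unique h4 ?_
  have h5 : (Complex.im ∘ fun J => Zg (μX.prod ν) μ (pa a₁ a₂) (fun c => trace (R c))
      (pk K (KJ J)) M n) = fun _ => 0 := funext fun J => (hm J).2.1
  rw [h5]
  exact tendsto_const_nhds

/-- multiplication of the weight by a constant -/
lemma Zg_smulM {act : Γ → Ω → Ω} (g : Γ → ℂ) (K : Ω → Ω → ℂ) (M : Ω → ℝ) (b : ℝ) (n : ℕ) :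
    Zg ν μ act g K (fun U => b * M U) n = (b : ℂ) ^ (n + 1) * Zg ν μ act g K M n := by
  have h1 : ∀ n U V, it ν K (fun U => b * M U) n U V = (b : ℂ) ^ n * it ν K M n U V := by
    intro n
    induction n with
    | zero =>
      intro U V
      rw [pow_zero, one_mul]
      rfl
    | succ n ih =>
      intro U V
      show ∫ W, it ν K (fun U => b * M U) n U W * ((b * M W : ℝ) : ℂ) * K W V ∂ν =
        (b : ℂ) ^ (n + 1) * ∫ W, it ν K M n U W * (M W : ℂ) * K W V ∂ν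
      rw [← integral_const_mul]
      refine integral_congr_ae (Filter.Eventually.of_forall fun W => ?_)
      show it ν K (fun U => b * M U) n U W * ((b * M W : ℝ) : ℂ) * K W V = _
      rw [ih]
      push_cast
      ring
  unfold Zg
  rw [← integral_const_mul]
  refine integral_congr_ae (Filter.Eventually.of_forall fun c => ?_)
  show g c * ∫ U, ((b * M U : ℝ) : ℂ) * it ν K (fun U => b * M U) n U (act c U) ∂ν = _
  have h2 : ∫ U, ((b * M U : ℝ) : ℂ) * it ν K (fun U => b * M U) n U (act c U) ∂ν =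
      (b : ℂ) ^ (n + 1) * ∫ U, (M U : ℂ) * it ν K M n U (act c U) ∂ν := by
    rw [← integral_const_mul]
    refine integral_congr_ae (Filter.Eventually.of_forall fun U => ?_)
    show ((b * M U : ℝ) : ℂ) * it ν K (fun U => b * M U) n U (act c U) = _
    rw [h1]
    push_cast
    ring
  rw [h2]
  ring

/-- multiplication of the kernel by a constant -/
lemma it_smulK (K : Ω → Ω → ℂ) (M : Ω → ℝ) (b : ℂ) (n : ℕ) (U V : Ω) :
    it ν (fun U V => b * K U V) M n U V = b ^ (n + 1) * it ν K M n U V := by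
  induction n generalizing V with
  | zero =>
    show b * K U V = b ^ (0 + 1) * K U V
    ring
  | succ n ih =>
    show ∫ W, it ν (fun U V => b * K U V) M n U W * (M W : ℂ) * (b * K W V) ∂ν =
      b ^ (n + 1 + 1) * ∫ W, it ν K M n U W * (M W : ℂ) * K W V ∂ν
    rw [← integral_const_mul]
    refine integral_congr_ae (Filter.Eventually.of_forall fun W => ?_)
    show it ν (fun U V => b * K U V) M n U W * (M W : ℂ) * (b * K W V) = _
    rw [ih]
    ring

end

end Pool.Agent.X168.PK
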