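import Mathlib
import Pool.Agent.X168.PK.Prd

/-!
# The filtration by the degree
-/

open MeasureTheory Filter Topology Matrix
open scoped ComplexOrder

namespace Pool.Agent.X168.PK

set_option linter.unusedSectionVars false

noncomputable section

open NA (UU Mat)

section gk

variable {Ω : Type} [TopologicalSpace Ω]

lemma GK.add {K K' : Ω → Ω → ℂ} (h : GK K) (h' : GK K') : GK fun U V => K U V + K' U V := by
  obtain ⟨I, _, _, w, hw, hK⟩ := h
  obtain ⟨I', _, _, w', hw', hK'⟩ := h'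
  refine ⟨I ⊕ I', inferInstance, inferInstance, Sum.elim w w', ?_, fun U V => ?_⟩
  · rintro (i | i)
    · exact hw i
    · exact hw' i
  · show K U V + K' U V = _
    rw [Fintype.sum_sum_type, hK, hK']
    rfl

lemma GK.zero : GK fun _ _ : Ω => (0:ℂ) :=
  ⟨Empty, inferInstance, inferInstance, fun i => i.elim, fun i => i.elim, fun U V => by simp⟩

lemma GK.sum {κ : Type} (S : Finset κ) {K : κ → Ω → Ω → ℂ} (h : ∀ k ∈ S, GK (K k)) :
    GK fun U V => ∑ k ∈ S, K k U V := by
  classical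
  induction S using Finset.induction_on with
  | empty => simpa using GK.zero
  | insert a S ha ih =>
    have h1 := (h a (Finset.mem_insert_self a S)).add
      (ih fun k hk => h k (Finset.mem_insert_of_mem hk))
    simpa only [Finset.sum_insert ha] using h1

/-- nonnegative combinations -/
lemma gk_comb {I : Type} [Fintype I] [DecidableEq I] {w : I → Ω → ℂ} (hw : ∀ i, Continuous (w i))
    {c : I → ℝ} (hc : ∀ i, 0 ≤ c i) :
    GK fun U V => ∑ i, (c i : ℂ) * (w i U * cj (w i V)) := by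
  refine ⟨I, inferInstance, inferInstance, fun i U => ((Real.sqrt (c i) : ℝ) : ℂ) * w i U,
    fun i => continuous_const.mul (hw i), fun U V => ?_⟩
  refine Finset.sum_congr rfl fun i _ => ?_
  have h1 : ((Real.sqrt (c i) : ℝ) : ℂ) * ((Real.sqrt (c i) : ℝ) : ℂ) = (c i : ℂ) := by
    rw [← Complex.ofReal_mul, Real.mul_self_sqrt (hc i)]
  rw [cj_mul, show cj ((Real.sqrt (c i) : ℝ) : ℂ) = ((Real.sqrt (c i) : ℝ) : ℂ) from
    Complex.conj_ofReal _, ← h1]
  ring

lemma GK.smul {K : Ω → Ω → ℂ} (h : GK K) {c : ℝ} (hc : 0 ≤ c) :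
    GK fun U V => (c : ℂ) * K U V := by
  obtain ⟨I, _, _, w, hw, hK⟩ := h
  have h1 := gk_comb hw (c := fun _ => c) fun _ => hc
  have h2 : (fun U V => (c : ℂ) * K U V) = fun U V => ∑ i, (c : ℂ) * (w i U * cj (w i V)) := by
    funext U V
    rw [hK, Finset.mul_sum]
  rw [h2]
  exact h1

end gk

variable {G : Type} [Group G] [TopologicalSpace G] [IsTopologicalGroup G] [CompactSpace G]
  [T2Space G] [SecondCountableTopology G] [MeasurableSpace G] [BorelSpace G]
  {N : ℕ} (π : G →* UU N) (hπ : Continuous π)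
  {E : Type} [Fintype E] [DecidableEq E]
  (μ : Measure (E → G)) [IsProbabilityMeasure μ] [μ.IsMulLeftInvariant] [μ.IsMulRightInvariant]
  {Γ : Type} [Group Γ] [TopologicalSpace Γ] [IsTopologicalGroup Γ] [CompactSpace Γ]
  [T2Space Γ] [SecondCountableTopology Γ] [MeasurableSpace Γ] [BorelSpace Γ]
  {s t : Γ →* (E → G)} (hs : Continuous s) (ht : Continuous t)

/-- orthonormal bases for all degrees -/
structure Ld where
  ι : ℕ → Type
  fi : ∀ j, Fintype (ι j)
  de : ∀ j, DecidableEq (ι j)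
  p : ∀ j, ι j → (E → G) → ℂ
  lam : ∀ j, ι j → ℝ
  onb : ∀ j, ONB μ (mc (Dm π j)) (ι j) (p j) (lam j)

attribute [instance] Ld.fi Ld.de

include hπ in
lemma exists_Ld [μ.IsOpenPosMeasure] : Nonempty (Ld π μ) := by
  classical
  have h1 := fun j : ℕ => exists_onb μ (d := mc (Dm π j : (E → G) → _))
    fun q => (Dm_UR π hπ j).cont _ _
  choose ι fi de p lam h using h1
  exact ⟨⟨ι, fi, de, p, lam, h⟩⟩

variable {π μ} (Λ : Ld π μ)

/-- the reproducing kernel of degree `j` -/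
def Ld.e (j : ℕ) (U V : E → G) : ℂ := ek (Λ.p j) U V

lemma e_gk (j : ℕ) : GK (Λ.e j) :=
  ⟨Λ.ι j, inferInstance, inferInstance, Λ.p j, (Λ.onb j).cont, fun _ _ => rfl⟩

lemma e_cj (j : ℕ) (U V : E → G) : Λ.e j U V = cj (Λ.e j V U) := by
  unfold Ld.e ek
  rw [show cj (∑ k, Λ.p j k V * cj (Λ.p j k U)) = ∑ k, cj (Λ.p j k V * cj (Λ.p j k U)) from
    map_sum _ _ _]
  refine Finset.sum_congr rfl fun k _ => ?_
  rw [cj_mul, cj_cj]
  ring

/-- the reproducing property -/
lemma e_rep {j : ℕ} {f : (E → G) → ℂ} (hf : Pl π j f) (U : E → G) :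
    ∫ W, Λ.e j U W * f W ∂μ = f U := by
  have hp := Λ.onb j
  by_cases hfc : Continuous f
  swap
  · exact absurd (by
      obtain ⟨C, hC⟩ := hf
      obtain ⟨C', hC'⟩ := hp.fwd
      have h1 : f = fun U => ∑ q, C q * ∑ k, C' q k * Λ.p j k U := by
        funext U
        rw [hC]
        simp only [hC']
      rw [h1]
      exact continuous_finsetSum _ fun q _ => continuous_const.mul
        (continuous_finsetSum _ fun k _ => continuous_const.mul (hp.cont k))) hfc
  rw [onb_exp μ hp hf U]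
  unfold Ld.e ek
  have h1 : ∀ W, (∑ k, Λ.p j k U * cj (Λ.p j k W)) * f W =
      ∑ k, Λ.p j k U * (cj (Λ.p j k W) * f W) := by
    intro W
    rw [Finset.sum_mul]
    exact Finset.sum_congr rfl fun k _ => by ring
  simp only [h1]
  rw [integral_finsetSum]
  · refine Finset.sum_congr rfl fun k _ => ?_
    rw [integral_const_mul, mul_comm]
  · intro k _
    exact ic μ (continuous_const.mul ((cj_cont.comp (hp.cont k)).mul hfc))

lemma e_right (j : ℕ) (V : E → G) : Pl π j fun U => Λ.e j U V := by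
  have h : (fun U => Λ.e j U V) = fun U => ∑ k, cj (Λ.p j k V) * Λ.p j k U := by
    funext U
    unfold Ld.e ek
    exact Finset.sum_congr rfl fun k _ => mul_comm _ _
  show SP (Dm π j) _
  rw [h]
  exact SP.sum _ fun k _ => (onb_SP μ (Λ.onb j) k).smul _

lemma e_comp1 {i j : ℕ} (hij : i ≤ j) (U V : E → G) :
    ∫ W, Λ.e j U W * Λ.e i W V ∂μ = Λ.e i U V :=
  e_rep Λ ((e_right Λ i V).mono π hij) U

lemma e_comp (i j : ℕ) (U V : E → G) :
    ∫ W, Λ.e i U W * Λ.e j W V ∂μ = Λ.e (min i j) U V := by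
  rcases le_total j i with h | h
  · rw [min_eq_right h]
    exact e_comp1 Λ h U V
  · rw [min_eq_left h, e_cj, ← e_comp1 Λ h V U, cj_int]
    refine integral_congr_ae (Filter.Eventually.of_forall fun W => ?_)
    show Λ.e i U W * Λ.e j W V = cj (Λ.e j V W * Λ.e i W U)
    rw [cj_mul, ← e_cj, ← e_cj, mul_comm]

/-- differences -/
def Ld.f : ℕ → (E → G) → (E → G) → ℂ
  | 0 => Λ.e 0
  | m + 1 => fun U V => Λ.e (m + 1) U V - Λ.e m U V

lemma e_cont (j : ℕ) : C2 (Λ.e j) := (e_gk Λ j).c2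

lemma f_comp (i j : ℕ) (U V : E → G) :
    ∫ W, Λ.f i U W * Λ.f j W V ∂μ = if i = j then Λ.f i U V else 0 := by
  have c1 : ∀ i j, Integrable (fun W => Λ.e i U W * Λ.e j W V) μ := fun i j =>
    ic μ (((e_cont Λ i).comp (continuous_const.prodMk continuous_id)).mul
      ((e_cont Λ j).comp (continuous_id.prodMk continuous_const)))
  rcases i with _ | i <;> rcases j with _ | j
  · show ∫ W, Λ.e 0 U W * Λ.e 0 W V ∂μ = _
    rw [e_comp, if_pos rfl]
    rfl
  · show ∫ W, Λ.e 0 U W * (Λ.e (j + 1) W V - Λ.e j W V) ∂μ = _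
    simp only [mul_sub]
    rw [integral_sub (c1 _ _) (c1 _ _), e_comp, e_comp, if_neg (by omega)]
    simp
  · show ∫ W, (Λ.e (i + 1) U W - Λ.e i U W) * Λ.e 0 W V ∂μ = _
    simp only [sub_mul]
    rw [integral_sub (c1 _ _) (c1 _ _), e_comp, e_comp, if_neg (by omega)]
    simp
  · show ∫ W, (Λ.e (i + 1) U W - Λ.e i U W) * (Λ.e (j + 1) W V - Λ.e j W V) ∂μ = _
    have h1 : ∀ W, (Λ.e (i + 1) U W - Λ.e i U W) * (Λ.e (j + 1) W V - Λ.e j W V) =
        (Λ.e (i + 1) U W * Λ.e (j + 1) W V - Λ.e (i + 1) U W * Λ.e j W V) -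
          (Λ.e i U W * Λ.e (j + 1) W V - Λ.e i U W * Λ.e j W V) := fun W => by ring
    simp only [h1]
    have i1 : Integrable (fun W => Λ.e (i + 1) U W * Λ.e (j + 1) W V -
      Λ.e (i + 1) U W * Λ.e j W V) μ := (c1 _ _).sub (c1 _ _)
    have i2 : Integrable (fun W => Λ.e i U W * Λ.e (j + 1) W V - Λ.e i U W * Λ.e j W V) μ :=
      (c1 _ _).sub (c1 _ _)
    rw [integral_sub i1 i2, integral_sub (c1 _ _) (c1 _ _), integral_sub (c1 _ _) (c1 _ _),
      e_comp, e_comp, e_comp, e_comp]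
    by_cases h : i = j
    · subst h
      rw [if_pos rfl, min_self, min_self, min_eq_right (Nat.le_succ i),
        min_eq_left (Nat.le_succ i)]
      show _ = Λ.e (i + 1) U V - Λ.e i U V
      ring
    · rw [if_neg (by omega)]
      rcases lt_or_gt_of_ne h with h' | h'
      · rw [min_eq_left (by omega : i + 1 ≤ j + 1), min_eq_left (by omega : i + 1 ≤ j),
          min_eq_left (by omega : i ≤ j + 1), min_eq_left (by omega : i ≤ j)]
        ring
      · rw [min_eq_right (by omega : j + 1 ≤ i + 1), min_eq_right (by omega : j ≤ i + 1),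
          min_eq_right (by omega : j + 1 ≤ i), min_eq_right (by omega : j ≤ i)]
        ring

lemma f_cont (j : ℕ) : C2 (Λ.f j) := by
  cases j with
  | zero => exact e_cont Λ 0
  | succ j => exact Continuous.sub (e_cont Λ (j + 1)) (e_cont Λ j)

/-- iteration of a combination of projections -/
lemma it_f (b : ℕ → ℂ) (J n : ℕ) (U V : E → G) :
    it μ (fun U V => ∑ m ∈ Finset.range J, b m * Λ.f m U V) (fun _ => 1) n U V =
      ∑ m ∈ Finset.range J, b m ^ (n + 1) * Λ.f m U V := by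
  induction n generalizing V with
  | zero =>
    show ∑ m ∈ Finset.range J, b m * Λ.f m U V = _
    exact Finset.sum_congr rfl fun m _ => by rw [zero_add, pow_one]
  | succ n ih =>
    show ∫ W, it μ (fun U V => ∑ m ∈ Finset.range J, b m * Λ.f m U V) (fun _ => 1) n U W *
      ((1:ℝ) : ℂ) * (∑ m ∈ Finset.range J, b m * Λ.f m W V) ∂μ = _
    simp only [ih, Complex.ofReal_one, mul_one, Finset.sum_mul_sum]
    have c1 : ∀ i j, Integrable (fun W => Λ.f i U W * Λ.f j W V) μ := fun i j =>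
      ic μ (((f_cont Λ i).comp (continuous_const.prodMk continuous_id)).mul
        ((f_cont Λ j).comp (continuous_id.prodMk continuous_const)))
    have h1 : ∀ W, (∑ i ∈ Finset.range J, ∑ j ∈ Finset.range J,
        b i ^ (n + 1) * Λ.f i U W * (b j * Λ.f j W V)) =
        ∑ i ∈ Finset.range J, ∑ j ∈ Finset.range J,
          (b i ^ (n + 1) * b j) * (Λ.f i U W * Λ.f j W V) := fun W =>
      Finset.sum_congr rfl fun i _ => Finset.sum_congr rfl fun j _ => by ring
    simp only [h1]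
    rw [integral_finsetSum _ fun i _ => integrable_finsetSum _ fun j _ => (c1 i j).const_mul _]
    refine Finset.sum_congr rfl fun i hi => ?_
    rw [integral_finsetSum _ fun j _ => (c1 i j).const_mul _, Finset.sum_eq_single i]
    · rw [integral_const_mul, f_comp, if_pos rfl]
      ring
    · intro j _ hj
      rw [integral_const_mul, f_comp, if_neg hj.symm, mul_zero]
    · intro h
      exact absurd hi h

lemma e_eq (j : ℕ) (U V : E → G) : Λ.e j U V = ∑ m ∈ Finset.range (j + 1), Λ.f m U V := by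
  induction j with
  | zero => simp [Ld.f]
  | succ j ih =>
    rw [Finset.sum_range_succ, ← ih]
    show _ = Λ.e j U V + (Λ.e (j + 1) U V - Λ.e j U V)
    ring

/-- tails -/
def tl (c : ℕ → ℝ) (J m : ℕ) : ℝ := ∑ j ∈ Finset.Ico m J, c j

lemma sum_e (c : ℕ → ℝ) (J : ℕ) (U V : E → G) :
    ∑ j ∈ Finset.range J, (c j : ℂ) * Λ.e j U V =
      ∑ m ∈ Finset.range J, ((tl c J m : ℝ) : ℂ) * Λ.f m U V := by
  simp only [e_eq, Finset.mul_sum]
  rw [Finset.sum_comm' (t' := Finset.range J) (s' := fun m => Finset.Ico m J)]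
  · refine Finset.sum_congr rfl fun m _ => ?_
    rw [← Finset.sum_mul]
    unfold tl
    push_cast
    rfl
  · intro j m
    simp only [Finset.mem_range, Finset.mem_Ico]
    omega

/-! ### the kernels of the powers -/

variable (π) in
/-- the number of entries -/
def RR (_ : G →* UU N) (E : Type) [Fintype E] : ℝ := Fintype.card (I1 E N)

variable (π) in
/-- the kernel of the `j`-th power -/
def XX (j : ℕ) (U V : E → G) : ℂ := ((1 + 2 * rt π (U * V⁻¹) : ℝ) : ℂ) ^ j

include hπ in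
lemma XX_eq (j : ℕ) (U V : E → G) : XX π j U V =
    ∑ k, (Λ.lam j k : ℂ) * (Λ.p j k U * cj (Λ.p j k V)) := by
  unfold XX
  rw [← trace_Dm, ← mc_ker (Dm_UR π hπ j), (Λ.onb j).ker]

lemma card_pow (j : ℕ) : (Fintype.card (Fin j → I1 E N) : ℝ) = (Fintype.card (I1 E N) : ℝ) ^ j := by
  rw [Fintype.card_fun, Fintype.card_fin]
  push_cast
  rfl

lemma RR_pos : 1 ≤ (Fintype.card (I1 E N) : ℝ) := by
  rw [card_I1]
  push_cast
  have : (0:ℝ) ≤ 2 * (N * Fintype.card E) := by positivity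
  linarith

include hπ in
/-- upper bound -/
lemma XX_le (j : ℕ) {R : ℝ} (hR : (Fintype.card (I1 E N) : ℝ) ≤ R) :
    GK fun U V : E → G => ((R ^ j : ℝ) : ℂ) * Λ.e j U V - XX π j U V := by
  have h1 : (fun U V : E → G => ((R ^ j : ℝ) : ℂ) * Λ.e j U V - XX π j U V) =
      fun U V => ∑ k, ((R ^ j - Λ.lam j k : ℝ) : ℂ) * (Λ.p j k U * cj (Λ.p j k V)) := by
    funext U V
    rw [XX_eq hπ Λ]
    unfold Ld.e ek
    rw [Finset.mul_sum, ← Finset.sum_sub_distrib]
    refine Finset.sum_congr rfl fun k _ => ?_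
    push_cast
    ring
  rw [h1]
  refine gk_comb (Λ.onb j).cont fun k => sub_nonneg.2 ?_
  have h2 := lam_upper μ (Dm_UR π hπ j) (Λ.onb j) k
  rw [card_pow] at h2
  exact h2.trans (pow_le_pow_left₀ (by positivity) hR j)

include hπ in
/-- lower bound -/
lemma XX_ge (j : ℕ) {R : ℝ} (hR : (Fintype.card (I1 E N) : ℝ) ≤ R) :
    GK fun U V : E → G => XX π j U V - (((R ^ j)⁻¹ : ℝ) : ℂ) * Λ.e j U V := by
  have h1 : (fun U V : E → G => XX π j U V - (((R ^ j)⁻¹ : ℝ) : ℂ) * Λ.e j U V) =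
      fun U V => ∑ k, ((Λ.lam j k - (R ^ j)⁻¹ : ℝ) : ℂ) * (Λ.p j k U * cj (Λ.p j k V)) := by
    funext U V
    rw [XX_eq hπ Λ]
    unfold Ld.e ek
    rw [Finset.mul_sum, ← Finset.sum_sub_distrib]
    refine Finset.sum_congr rfl fun k _ => ?_
    push_cast
    ring
  rw [h1]
  refine gk_comb (Λ.onb j).cont fun k => sub_nonneg.2 ?_
  have h2 := lam_lower μ (Dm_UR π hπ j) (Λ.onb j) k
  rw [card_pow] at h2
  refine le_trans ?_ h2
  rw [one_div]
  have h3 := RR_pos (E := E) (N := N)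
  exact inv_anti₀ (by positivity) (pow_le_pow_left₀ (by positivity) hR j)

include hπ Λ in
lemma XX_gk (j : ℕ) : GK (XX π j : (E → G) → (E → G) → ℂ) := by
  have h1 : (XX π j : (E → G) → (E → G) → ℂ) =
      fun U V => ∑ k, (Λ.lam j k : ℂ) * (Λ.p j k U * cj (Λ.p j k V)) := by
    funext U V
    exact XX_eq hπ Λ j U V
  rw [h1]
  exact gk_comb (Λ.onb j).cont fun k => ((Λ.onb j).pos k).le

lemma rt_conj (c U : E → G) : rt π (c * U * c⁻¹) = rt π U := by
  unfold rt
  refine Finset.sum_congr rfl fun e _ => ?_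
  have h1 : (π ((c * U * c⁻¹) e) : Mat N) = (π (c e) : Mat N) * (π (U e) : Mat N) *
      (π (c e)⁻¹ : Mat N) := by
    show (π (c e * U e * (c e)⁻¹) : Mat N) = _
    rw [map_mul, map_mul]
    rfl
  rw [h1, Matrix.trace_mul_comm, ← Matrix.mul_assoc]
  have h2 : (π (c e)⁻¹ : Mat N) * (π (c e) : Mat N) = 1 := by
    have h3 : (π (c e)⁻¹ * π (c e) : UU N) = 1 := by rw [← map_mul, inv_mul_cancel, map_one]
    exact congrArg Subtype.val h3
  rw [h2, Matrix.one_mul]

lemma rt_la (c : Γ) (U V : E → G) :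
    rt π (la s t c U * (la s t c V)⁻¹) = rt π (U * V⁻¹) := by
  have h1 : la s t c U * (la s t c V)⁻¹ = s c * (U * V⁻¹) * (s c)⁻¹ := by
    unfold la
    group
  rw [h1, rt_conj]

lemma XX_inv (j : ℕ) (c : Γ) (U V : E → G) :
    XX π j (la s t c U) (la s t c V) = XX π j U V := by
  unfold XX
  rw [rt_la]

/-! ### the exponential kernel -/

/-- coefficients -/
def aj (β : ℝ) (j : ℕ) : ℝ := Real.exp (-(β / 2)) * ((β / 2) ^ j / j.factorial)

lemma aj_pos {β : ℝ} (hβ : 0 < β) (j : ℕ) : 0 < aj β j := by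
  unfold aj
  positivity

variable (π) in
/-- the truncated kernel -/
def kJ (β : ℝ) (J : ℕ) (U V : E → G) : ℂ := ∑ j ∈ Finset.range J, (aj β j : ℂ) * XX π j U V

variable (π) in
/-- the kernel -/
def kE (β : ℝ) (U V : E → G) : ℂ := ((Real.exp (β * rt π (U * V⁻¹)) : ℝ) : ℂ)

include hπ Λ in
lemma kJ_gk {β : ℝ} (hβ : 0 < β) (J : ℕ) : GK (kJ π β J : (E → G) → (E → G) → ℂ) :=
  GK.sum _ fun j _ => (XX_gk hπ Λ j).smul (aj_pos hβ j).le

include hπ in
lemma kJ_le {β : ℝ} (hβ : 0 < β) (J : ℕ) {R : ℝ} (hR : (Fintype.card (I1 E N) : ℝ) ≤ R) :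
    GK fun U V : E → G => (∑ m ∈ Finset.range J,
      ((tl (fun j => aj β j * R ^ j) J m : ℝ) : ℂ) * Λ.f m U V) - kJ π β J U V := by
  have h1 := GK.sum (Finset.range J) (K := fun j U V => (aj β j : ℂ) *
    (((R ^ j : ℝ) : ℂ) * Λ.e j U V - XX π j U V)) fun j _ =>
      (XX_le hπ Λ j hR).smul (aj_pos hβ j).le
  have h2 : (fun U V : E → G => (∑ m ∈ Finset.range J,
      ((tl (fun j => aj β j * R ^ j) J m : ℝ) : ℂ) * Λ.f m U V) - kJ π β J U V) =
      fun U V => ∑ j ∈ Finset.range J, (aj β j : ℂ) *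
        (((R ^ j : ℝ) : ℂ) * Λ.e j U V - XX π j U V) := by
    funext U V
    rw [← sum_e]
    unfold kJ
    rw [← Finset.sum_sub_distrib]
    refine Finset.sum_congr rfl fun j _ => ?_
    push_cast
    ring
  rw [h2]
  exact h1

include hπ in
lemma kJ_ge {β : ℝ} (hβ : 0 < β) {J m : ℕ} (hm : m < J) {R : ℝ}
    (hR : (Fintype.card (I1 E N) : ℝ) ≤ R) :
    GK fun U V : E → G => kJ π β J U V - ((aj β m * (R ^ m)⁻¹ : ℝ) : ℂ) * Λ.e m U V := by
  have h1 := GK.sum ((Finset.range J).erase m) (K := fun j U V => (aj β j : ℂ) * XX π j U V)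
    fun j _ => (XX_gk hπ Λ j).smul (aj_pos hβ j).le
  have h2 := (XX_ge hπ Λ m hR).smul (aj_pos hβ m).le
  have h3 : (fun U V : E → G => kJ π β J U V - ((aj β m * (R ^ m)⁻¹ : ℝ) : ℂ) * Λ.e m U V) =
      fun U V => (∑ j ∈ (Finset.range J).erase m, (aj β j : ℂ) * XX π j U V) +
        (aj β m : ℂ) * (XX π m U V - (((R ^ m)⁻¹ : ℝ) : ℂ) * Λ.e m U V) := by
    funext U V
    unfold kJ
    rw [← Finset.sum_erase_add _ _ (Finset.mem_range.2 hm)]
    push_cast
    ring
  rw [h3]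
  exact h1.add h2

lemma rt_bdd (U : E → G) : |1 + 2 * rt π U| ≤ (Fintype.card (I1 E N) : ℝ) := by
  have h0 : ∀ g : G, |(trace (π g : Mat N)).re| ≤ N := by
    intro g
    rw [Matrix.trace, Complex.re_sum]
    refine (Finset.abs_sum_le_sum_abs _ _).trans ?_
    have h1 : ∀ i : Fin N, |((π g : Mat N).diag i).re| ≤ 1 := by
      intro i
      refine (Complex.abs_re_le_norm _).trans ?_
      have h2 := Matrix.mem_unitaryGroup_iff.1 (π g).2
      have h3 := congrFun (congrFun h2 i) i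
      rw [Matrix.mul_apply, Matrix.one_apply_eq] at h3
      have h4 : ∑ j, ‖(π g : Mat N) i j‖ ^ 2 = 1 := by
        have h5 : ((∑ j, ‖(π g : Mat N) i j‖ ^ 2 : ℝ) : ℂ) = 1 := by
          rw [← h3]
          push_cast
          refine Finset.sum_congr rfl fun j _ => ?_
          rw [← Complex.mul_conj']
          rfl
        exact_mod_cast h5
      have h6 : ‖(π g : Mat N) i i‖ ^ 2 ≤ 1 := by
        rw [← h4]
        exact Finset.single_le_sum (f := fun j => ‖(π g : Mat N) i j‖ ^ 2)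
          (fun _ _ => sq_nonneg _) (Finset.mem_univ i)
      rw [Matrix.diag_apply]
      nlinarith [norm_nonneg ((π g : Mat N) i i)]
    refine (Finset.sum_le_sum fun i _ => h1 i).trans (le_of_eq ?_)
    simp
  have h1 : |rt π U| ≤ N * Fintype.card E := by
    unfold rt
    refine (Finset.abs_sum_le_sum_abs _ _).trans ?_
    refine (Finset.sum_le_sum fun e _ => h0 (U e)).trans (le_of_eq ?_)
    simp
    ring
  rw [card_I1]
  push_cast
  rw [abs_le] at h1 ⊢
  constructor <;> linarith [h1.1, h1.2]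

lemma kJ_bdd {β : ℝ} (hβ : 0 < β) (J : ℕ) (U V : E → G) :
    ‖kJ π β J U V‖ ≤ Real.exp (-(β / 2)) * Real.exp (β / 2 * (Fintype.card (I1 E N) : ℝ)) := by
  unfold kJ
  refine (norm_sum_le _ _).trans ?_
  have h1 : ∀ j ∈ Finset.range J, ‖(aj β j : ℂ) * XX π j U V‖ ≤
      Real.exp (-(β / 2)) * ((β / 2 * (Fintype.card (I1 E N) : ℝ)) ^ j / j.factorial) := by
    intro j _
    unfold XX
    rw [norm_mul, norm_pow, Complex.norm_real, Complex.norm_real, Real.norm_eq_abs,
      Real.norm_eq_abs, abs_of_pos (aj_pos hβ j)]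
    unfold aj
    rw [mul_pow, mul_assoc, div_mul_eq_mul_div]
    have h2 := pow_le_pow_left₀ (abs_nonneg _) (rt_bdd (π := π) (U * V⁻¹)) j
    gcongr
  refine (Finset.sum_le_sum h1).trans ?_
  rw [← Finset.mul_sum]
  refine mul_le_mul_of_nonneg_left ?_ (Real.exp_pos _).le
  exact Real.sum_le_exp_of_nonneg (by positivity) J

lemma kJ_tend {β : ℝ} (U V : E → G) :
    Tendsto (fun J => kJ π β J U V) atTop (𝓝 (kE π β U V)) := by
  set x : ℝ := 1 + 2 * rt π (U * V⁻¹) with hx
  have h1 : HasSum (fun j : ℕ => (β / 2 * x) ^ j / j.factorial) (Real.exp (β / 2 * x)) := by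
    rw [Real.exp_eq_exp_ℝ]
    exact NormedSpace.expSeries_div_hasSum_exp (β / 2 * x)
  have h2 := (h1.mul_left (Real.exp (-(β / 2)))).tendsto_sum_nat
  have h3 : Real.exp (-(β / 2)) * Real.exp (β / 2 * x) = Real.exp (β * rt π (U * V⁻¹)) := by
    rw [← Real.exp_add, hx]
    congr 1
    ring
  rw [h3] at h2
  have h4 : (fun J => kJ π β J U V) = fun J => ((∑ j ∈ Finset.range J,
      Real.exp (-(β / 2)) * ((β / 2 * x) ^ j / j.factorial) : ℝ) : ℂ) := by
    funext J
    unfold kJ XX aj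
    push_cast
    refine Finset.sum_congr rfl fun j _ => ?_
    rw [hx]
    push_cast
    rw [mul_pow]
    ring
  rw [h4]
  exact (Complex.continuous_ofReal.tendsto _).comp h2

lemma kJ_inv (β : ℝ) (J : ℕ) (c : Γ) (U V : E → G) :
    kJ π β J (la s t c U) (la s t c V) = kJ π β J U V := by
  unfold kJ
  exact Finset.sum_congr rfl fun j _ => by rw [XX_inv]

include hπ Λ in
lemma kE_lk {β : ℝ} (hβ : 0 < β) : LK (la s t) (kE π β : (E → G) → (E → G) → ℂ) :=
  ⟨kJ π β, _, kJ_gk hπ Λ hβ, fun J c U V => kJ_inv β J c U V, fun J U V => kJ_bdd hβ J U V,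
    fun U V => kJ_tend U V⟩

end

end Pool.Agent.X168.PK
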