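import Mathlib
import Pool.Agent.X168.PK.Lad

/-!
# The chain of inequalities
-/

open MeasureTheory Filter Topology Matrix
open scoped ComplexOrder

namespace Pool.Agent.X168.PK

set_option linter.unusedSectionVars false

noncomputable section

open NA (UU Mat)

section gen

variable {Ω : Type} [TopologicalSpace Ω] [CompactSpace Ω] [T2Space Ω]
  [SecondCountableTopology Ω] [MeasurableSpace Ω] [BorelSpace Ω]
  (ν : Measure Ω) [IsFiniteMeasure ν]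
  {Γ : Type} [TopologicalSpace Γ] [CompactSpace Γ] [T2Space Γ]
  [SecondCountableTopology Γ] [MeasurableSpace Γ] [BorelSpace Γ]
  (μ : Measure Γ) [IsProbabilityMeasure μ]
  {act : Γ → Ω → Ω}

/-- linearity in the weight -/
lemma Zg_sum (hact : Continuous fun p : Γ × Ω => act p.1 p.2) {K : Ω → Ω → ℂ} (hK : C2 K)
    {M : Ω → ℝ} (hM : Continuous M) (n : ℕ) {κ : Type} (S : Finset κ) {h : κ → Γ → ℂ}
    (hh : ∀ k, Continuous (h k)) (b : κ → ℂ) :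
    Zg ν μ act (fun c => ∑ k ∈ S, b k * h k c) K M n = ∑ k ∈ S, b k * Zg ν μ act (h k) K M n := by
  have hc := tr_cont ν hact (it_cont ν hK hM n) hM
  unfold Zg
  simp only [Finset.sum_mul]
  rw [integral_finsetSum]
  · refine Finset.sum_congr rfl fun k _ => ?_
    rw [← integral_const_mul]
    exact integral_congr_ae (Filter.Eventually.of_forall fun c => by
      show b k * h k c * _ = b k * (h k c * _)
      ring)
  · intro k _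
    exact ic μ ((continuous_const.mul (hh k)).mul hc)

/-- nonnegative kernels -/
def NK (K : Ω → Ω → ℂ) : Prop := ∀ U V, ∃ r : ℝ, 0 ≤ r ∧ K U V = (r : ℂ)

lemma nn_int {X : Type} [MeasurableSpace X] (m : Measure X) {f : X → ℂ}
    (h : ∀ x, ∃ r : ℝ, 0 ≤ r ∧ f x = (r : ℂ)) : ∃ r : ℝ, 0 ≤ r ∧ ∫ x, f x ∂m = (r : ℂ) := by
  choose r h0 hr using h
  refine ⟨∫ x, r x ∂m, integral_nonneg h0, ?_⟩
  simp only [hr]
  exact integral_complex_ofReal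

lemma nn_mul {x y : ℂ} (h : ∃ r : ℝ, 0 ≤ r ∧ x = (r : ℂ)) (h' : ∃ r : ℝ, 0 ≤ r ∧ y = (r : ℂ)) :
    ∃ r : ℝ, 0 ≤ r ∧ x * y = (r : ℂ) := by
  obtain ⟨r, h0, hr⟩ := h
  obtain ⟨r', h0', hr'⟩ := h'
  exact ⟨r * r', mul_nonneg h0 h0', by rw [hr, hr']; push_cast; rfl⟩

lemma it_nn {K : Ω → Ω → ℂ} (hK : NK K) {M : Ω → ℝ} (h0 : ∀ U, 0 ≤ M U) (n : ℕ) :
    NK (it ν K M n) := by
  induction n with
  | zero => exact hK
  | succ n ih =>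
    intro U V
    exact nn_int ν fun W => nn_mul (nn_mul (ih U W) ⟨M W, h0 W, rfl⟩) (hK W V)

/-- trivial bound -/
lemma Zg_triv (hact : Continuous fun p : Γ × Ω => act p.1 p.2) {K : Ω → Ω → ℂ} (hK : C2 K)
    (hKn : NK K) {M : Ω → ℝ} (hM : Continuous M) (h0 : ∀ U, 0 ≤ M U) (n : ℕ) {h : Γ → ℂ}
    (hh : Continuous h) {C : ℝ} (hC : ∀ c, ‖h c‖ ≤ C) :
    (Zg ν μ act h K M n).re ≤ C * (Zg ν μ act (fun _ => 1) K M n).re := by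
  have hc := tr_cont ν hact (it_cont ν hK hM n) hM
  have hn : ∀ c, ∃ r : ℝ, 0 ≤ r ∧ ∫ U, (M U : ℂ) * it ν K M n U (act c U) ∂ν = (r : ℂ) := fun c =>
    nn_int ν fun U => nn_mul ⟨M U, h0 U, rfl⟩ (it_nn ν hKn h0 n U _)
  set z : Γ → ℂ := fun c => ∫ U, (M U : ℂ) * it ν K M n U (act c U) ∂ν with hz
  have h1 : (Zg ν μ act h K M n).re ≤ ‖Zg ν μ act h K M n‖ := Complex.re_le_norm _
  refine h1.trans ?_
  have h2 : ‖Zg ν μ act h K M n‖ ≤ ∫ c, ‖h c * z c‖ ∂μ := norm_integral_le_integral_norm _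
  refine h2.trans ?_
  have h3 : (Zg ν μ act (fun _ => 1) K M n).re = ∫ c, (z c).re ∂μ := by
    have h4 : Zg ν μ act (fun _ => 1) K M n = ∫ c, z c ∂μ := by
      unfold Zg
      exact integral_congr_ae (Filter.Eventually.of_forall fun c => one_mul _)
    rw [h4]
    exact (integral_re (𝕜 := ℂ) (ic μ hc)).symm
  rw [h3, ← integral_const_mul]
  refine integral_mono (ic μ (hh.mul hc).norm) (ic μ (continuous_const.mul
    (Complex.continuous_re.comp hc))) fun c => ?_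
  show ‖h c * z c‖ ≤ C * (z c).re
  obtain ⟨r, hr0, hr⟩ := hn c
  have hr' : z c = (r : ℂ) := hr
  rw [hr', norm_mul, Complex.norm_real, Complex.ofReal_re, Real.norm_eq_abs, abs_of_nonneg hr0]
  exact mul_le_mul_of_nonneg_right (hC c) hr0

end gen

variable {G : Type} [Group G] [TopologicalSpace G] [IsTopologicalGroup G] [CompactSpace G]
  [T2Space G] [SecondCountableTopology G] [MeasurableSpace G] [BorelSpace G]
  {N : ℕ} {π : G →* UU N} (hπ : Continuous π)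
  {E₁ : Type} [Fintype E₁] [DecidableEq E₁] {E₂ : Type} [Fintype E₂] [DecidableEq E₂]
  {μ₁ : Measure (E₁ → G)} [IsProbabilityMeasure μ₁] [μ₁.IsMulLeftInvariant]
  [μ₁.IsMulRightInvariant]
  {μ₂ : Measure (E₂ → G)} [IsProbabilityMeasure μ₂] [μ₂.IsMulLeftInvariant]
  [μ₂.IsMulRightInvariant]
  {Γ : Type} [Group Γ] [TopologicalSpace Γ] [IsTopologicalGroup Γ] [CompactSpace Γ]
  [T2Space Γ] [SecondCountableTopology Γ] [MeasurableSpace Γ] [BorelSpace Γ]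
  (μ : Measure Γ) [IsProbabilityMeasure μ] [μ.IsMulLeftInvariant]
  {s₁ t₁ : Γ →* (E₁ → G)} (hs₁ : Continuous s₁) (ht₁ : Continuous t₁)
  {s₂ t₂ : Γ →* (E₂ → G)} (hs₂ : Continuous s₂) (ht₂ : Continuous t₂)
  (Λ₁ : Ld π μ₁) (Λ₂ : Ld π μ₂)

/-- the traces of the action on the polynomials of degree `m` -/
def Ld.τ (Λ₁ : Ld π μ₁) (s₁ t₁ : Γ →* (E₁ → G)) (m : ℕ) (c : Γ) : ℂ :=
  trace (pim μ₁ s₁ t₁ (Λ₁.p m) c)

include hπ hs₁ ht₁ in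
lemma τ_UR (m : ℕ) : UR (pim μ₁ s₁ t₁ (Λ₁.p m)) := pim_UR μ₁ hs₁ ht₁ (Dm_UR π hπ m) (Λ₁.onb m)

include hπ hs₁ ht₁ in
lemma τ_gm (m : ℕ) : Gm (Λ₁.τ s₁ t₁ m) := Gm.tr1 (τ_UR hπ hs₁ ht₁ Λ₁ m)

include hπ in
lemma kE_cont (β : ℝ) : C2 (kE π β : (E₁ → G) → (E₁ → G) → ℂ) := by
  unfold C2 kE
  refine Complex.continuous_ofReal.comp (Real.continuous_exp.comp (continuous_const.mul ?_))
  unfold rt
  refine continuous_finsetSum _ fun e _ => Complex.continuous_re.comp ?_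
  have h1 : Continuous fun p : (E₁ → G) × (E₁ → G) => (π ((p.1 * p.2⁻¹) e) : Mat N) :=
    continuous_subtype_val.comp (hπ.comp ((continuous_apply e).comp
      (continuous_fst.mul continuous_snd.inv)))
  exact h1.matrix_trace

lemma kE_nk (β : ℝ) : NK (kE π β : (E₁ → G) → (E₁ → G) → ℂ) := fun _ _ =>
  ⟨_, (Real.exp_pos _).le, rfl⟩

lemma kE_inv (β : ℝ) (c : Γ) (U V : E₁ → G) :
    kE π β (la s₁ t₁ c U) (la s₁ t₁ c V) = kE π β U V := by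
  unfold kE
  rw [rt_la]

lemma it_e (b : ℂ) (m n : ℕ) (U V : E₁ → G) :
    it μ₁ (fun U V => b * Λ₁.e m U V) (fun _ => 1) n U V = b ^ (n + 1) * Λ₁.e m U V := by
  rw [it_smulK]
  congr 1
  induction n generalizing V with
  | zero => rfl
  | succ n ih =>
    show ∫ W, it μ₁ (Λ₁.e m) (fun _ => 1) n U W * ((1:ℝ) : ℂ) * Λ₁.e m W V ∂μ₁ = _
    have h1 : ∀ W, it μ₁ (fun U V => Λ₁.e m U V) (fun _ => 1) n U W = Λ₁.e m U W := fun W => ih W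
    have h2 : ∀ W, it μ₁ (Λ₁.e m) (fun _ => 1) n U W * ((1:ℝ) : ℂ) * Λ₁.e m W V =
        Λ₁.e m U W * Λ₁.e m W V := by
      intro W
      have h3 : it μ₁ (Λ₁.e m) (fun _ => 1) n U W = Λ₁.e m U W := h1 W
      rw [h3, Complex.ofReal_one, mul_one]
    simp only [h2]
    rw [e_comp, min_self]

include hπ hs₁ ht₁ in
lemma e_inv (m : ℕ) (c : Γ) (U V : E₁ → G) :
    Λ₁.e m (la s₁ t₁ c U) (la s₁ t₁ c V) = Λ₁.e m U V :=
  ek_inv μ₁ hs₁ ht₁ (Dm_UR π hπ m) (Λ₁.onb m) c U V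

include hπ hs₁ ht₁ in
lemma f_inv (m : ℕ) (c : Γ) (U V : E₁ → G) :
    Λ₁.f m (la s₁ t₁ c U) (la s₁ t₁ c V) = Λ₁.f m U V := by
  cases m with
  | zero => exact e_inv hπ hs₁ ht₁ Λ₁ 0 c U V
  | succ m =>
    show Λ₁.e (m + 1) _ _ - Λ₁.e m _ _ = Λ₁.e (m + 1) _ _ - Λ₁.e m _ _
    rw [e_inv hπ hs₁ ht₁, e_inv hπ hs₁ ht₁]

include hπ hs₁ ht₁ in
lemma e_tr (m : ℕ) (c : Γ) : ∫ U, Λ₁.e m U (la s₁ t₁ c U) ∂μ₁ = Λ₁.τ s₁ t₁ m c :=
  ek_trace μ₁ hs₁ ht₁ (Dm_UR π hπ m) (Λ₁.onb m) c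

/-- the traces of the differences -/
def Ld.σ (Λ₁ : Ld π μ₁) (s₁ t₁ : Γ →* (E₁ → G)) : ℕ → Γ → ℂ
  | 0 => Λ₁.τ s₁ t₁ 0
  | m + 1 => fun c => Λ₁.τ s₁ t₁ (m + 1) c - Λ₁.τ s₁ t₁ m c

include hπ hs₁ ht₁ in
lemma σ_cont (m : ℕ) : Continuous (Λ₁.σ s₁ t₁ m) := by
  cases m with
  | zero => exact (τ_gm hπ hs₁ ht₁ Λ₁ 0).cont
  | succ m => exact (τ_gm hπ hs₁ ht₁ Λ₁ (m + 1)).cont.sub (τ_gm hπ hs₁ ht₁ Λ₁ m).cont

include hπ hs₁ ht₁ in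
lemma f_tr (m : ℕ) (c : Γ) : ∫ U, Λ₁.f m U (la s₁ t₁ c U) ∂μ₁ = Λ₁.σ s₁ t₁ m c := by
  have hact := la_act μ₁ hs₁ ht₁
  have c1 : ∀ j, Integrable (fun U => Λ₁.e j U (la s₁ t₁ c U)) μ₁ := fun j =>
    ic μ₁ ((e_cont Λ₁ j).comp (continuous_id.prodMk
      (hact.cont.comp (continuous_const.prodMk continuous_id))))
  cases m with
  | zero => exact e_tr hπ hs₁ ht₁ Λ₁ 0 c
  | succ m =>
    show ∫ U, (Λ₁.e (m + 1) U (la s₁ t₁ c U) - Λ₁.e m U (la s₁ t₁ c U)) ∂μ₁ = _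
    rw [integral_sub (c1 _) (c1 _), e_tr hπ hs₁ ht₁, e_tr hπ hs₁ ht₁]
    rfl

variable {A : Type} [Fintype A] [DecidableEq A] {Q : Γ → Matrix A A ℂ} (hQ : UR Q)
  {M₂ : (E₂ → G) → ℝ} (hM₂ : Continuous M₂) (hMi₂ : ∀ c U, M₂ (la s₂ t₂ c U) = M₂ U)
  (h0₂ : ∀ U, 0 ≤ M₂ U) {β : ℝ} (hβ : 0 < β)

/-- the twisted traces of the complement with the weight `g τ_m` -/
def ww (Λ₁ : Ld π μ₁) (μ₂ : Measure (E₂ → G)) (s₁ t₁ : Γ →* (E₁ → G)) (s₂ t₂ : Γ →* (E₂ → G))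
    (g : Γ → ℂ) (M₂ : (E₂ → G) → ℝ) (β : ℝ) (n m : ℕ) : ℝ :=
  (Zg μ₂ μ (la s₂ t₂) (fun c => g c * Λ₁.τ s₁ t₁ m c) (kE π β) M₂ n).re

/-- the twisted traces of the whole system -/
def zz (μ₁ : Measure (E₁ → G)) (μ₂ : Measure (E₂ → G)) (π : G →* UU N)
    (s₁ t₁ : Γ →* (E₁ → G)) (s₂ t₂ : Γ →* (E₂ → G))
    (g : Γ → ℂ) (M : (E₁ → G) × (E₂ → G) → ℝ) (β : ℝ) (n : ℕ) : ℝ :=
  (Zg (μ₁.prod μ₂) μ (pa (la s₁ t₁) (la s₂ t₂)) g (pk (kE π β) (kE π β)) M n).re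

include hπ hs₁ ht₁ hs₂ ht₂ hQ hM₂ hMi₂ h0₂ hβ Λ₂ in
lemma ww_nn (n m : ℕ) : 0 ≤ ww μ Λ₁ μ₂ s₁ t₁ s₂ t₂ (fun c => trace (Q c)) M₂ β n m :=
  pos_L μ₂ μ (la_act μ₂ hs₂ ht₂) ((Gm.tr1 hQ).mul (τ_gm hπ hs₁ ht₁ Λ₁ m))
    (kE_lk hπ Λ₂ hβ) hM₂ hMi₂ h0₂ n

lemma tl_nn {c : ℕ → ℝ} (hc : ∀ j, 0 ≤ c j) (J m : ℕ) : 0 ≤ tl c J m :=
  Finset.sum_nonneg fun j _ => hc j

include hπ hs₁ ht₁ hs₂ ht₂ hQ hM₂ hMi₂ h0₂ hβ Λ₂ in
/-- upper bound -/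
theorem up {R : ℝ} (hR : (Fintype.card (I1 E₁ N) : ℝ) ≤ R) (n J : ℕ) :
    (Zg (μ₁.prod μ₂) μ (pa (la s₁ t₁) (la s₂ t₂)) (fun c => trace (Q c))
      (pk (kJ π β J) (kE π β)) (fun U => M₂ U.2) n).re ≤
    ∑ m ∈ Finset.range J, tl (fun j => aj β j * R ^ j) J m ^ (n + 1) *
      ww μ Λ₁ μ₂ s₁ t₁ s₂ t₂ (fun c => trace (Q c)) M₂ β n m := by
  have h₁ := la_act μ₁ hs₁ ht₁
  have h₂ := la_act μ₂ hs₂ ht₂
  have hMc : Continuous fun U : (E₁ → G) × (E₂ → G) => M₂ U.2 := hM₂.comp continuous_snd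
  have h1 := (mono_L μ₁ μ₂ μ h₁ h₂ hQ (kJ_gk hπ Λ₁ hβ J) (kJ_le hπ Λ₁ hβ J hR)
    (fun c U V => kJ_inv β J c U V) (fun c U V => by
      refine Finset.sum_congr rfl fun m _ => ?_
      rw [f_inv hπ hs₁ ht₁]) (kE_lk hπ Λ₂ hβ (s := s₂) (t := t₂)) hMc hMc
      (fun c U => hMi₂ c U.2) (fun c U => hMi₂ c U.2)
    (fun U => h0₂ _) (fun U => le_refl _) n).2.2
  refine h1.trans ?_
  rw [Zg_pk]
  have h2 : (fun c => trace (Q c) * ∫ U, it μ₁ (fun U V => ∑ m ∈ Finset.range J,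
      ((tl (fun j => aj β j * R ^ j) J m : ℝ) : ℂ) * Λ₁.f m U V) (fun _ => 1) n U
        (la s₁ t₁ c U) ∂μ₁) = fun c => ∑ m ∈ Finset.range J,
      ((tl (fun j => aj β j * R ^ j) J m : ℝ) : ℂ) ^ (n + 1) *
        (trace (Q c) * Λ₁.σ s₁ t₁ m c) := by
    funext c
    simp only [it_f]
    rw [integral_finsetSum]
    · rw [Finset.mul_sum]
      refine Finset.sum_congr rfl fun m _ => ?_
      rw [integral_const_mul, f_tr hπ hs₁ ht₁]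
      ring
    · intro m _
      exact ic μ₁ (continuous_const.mul ((f_cont Λ₁ m).comp (continuous_id.prodMk
        (h₁.cont.comp (continuous_const.prodMk continuous_id)))))
  rw [h2, Zg_sum μ₂ μ h₂.cont (kE_cont hπ β) hM₂ n (Finset.range J)
    (h := fun m c => trace (Q c) * Λ₁.σ s₁ t₁ m c)
    (fun m => (tr_UR_cont hQ).mul (σ_cont hπ hs₁ ht₁ Λ₁ m)), Complex.re_sum]
  refine Finset.sum_le_sum fun m _ => ?_
  rw [← Complex.ofReal_pow, Complex.re_ofReal_mul]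
  refine mul_le_mul_of_nonneg_left ?_ (pow_nonneg (tl_nn (fun j => ?_) J m) _)
  swap
  · have := (aj_pos hβ j).le
    have hR0 : 0 ≤ R := by
      have := RR_pos (E := E₁) (N := N)
      linarith
    positivity
  cases m with
  | zero => exact le_refl _
  | succ m =>
    have h3 := Zg_sum μ₂ μ h₂.cont (kE_cont hπ β) hM₂ n (Finset.univ : Finset (Fin 2))
      (h := fun k c => trace (Q c) * Λ₁.τ s₁ t₁ (m + k) c)
      (fun k => (tr_UR_cont hQ).mul (τ_gm hπ hs₁ ht₁ Λ₁ (m + k)).cont) (fun k => if k = 0 then -1 else 1)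
    have h4 : (fun c => trace (Q c) * Λ₁.σ s₁ t₁ (m + 1) c) = fun c =>
        ∑ k : Fin 2, (if k = 0 then (-1:ℂ) else 1) * (trace (Q c) * Λ₁.τ s₁ t₁ (m + k) c) := by
      funext c
      rw [Fin.sum_univ_two]
      simp only [Ld.σ, Fin.val_zero, Fin.val_one, add_zero, if_true, one_ne_zero, if_false]
      ring
    show (Zg μ₂ μ (la s₂ t₂) (fun c => trace (Q c) * Λ₁.σ s₁ t₁ (m + 1) c) (kE π β) M₂ n).re ≤ _
    rw [h4, h3, Fin.sum_univ_two]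
    simp only [Fin.val_zero, Fin.val_one, add_zero, if_true, one_ne_zero, if_false]
    have h5 := ww_nn hπ μ hs₁ ht₁ hs₂ ht₂ Λ₁ Λ₂ hQ hM₂ hMi₂ h0₂ hβ n m
    unfold ww at h5 ⊢
    rw [Complex.add_re, neg_one_mul, one_mul, Complex.neg_re]
    linarith

include hπ hs₁ ht₁ hs₂ ht₂ hQ in
lemma kk_tend {M : (E₁ → G) × (E₂ → G) → ℝ} (hM : Continuous M) (hβ : 0 < β) (n : ℕ) :
    Tendsto (fun J => (Zg (μ₁.prod μ₂) μ (pa (la s₁ t₁) (la s₂ t₂)) (fun c => trace (Q c))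
      (pk (kJ π β J) (kE π β)) M n).re) atTop
      (𝓝 (zz μ μ₁ μ₂ π s₁ t₁ s₂ t₂ (fun c => trace (Q c)) M β n)) := by
  have h₁ := la_act μ₁ hs₁ ht₁
  have h₂ := la_act μ₂ hs₂ ht₂
  obtain ⟨C, hC0, hC⟩ := cbdd (X := (E₂ → G) × (E₂ → G)) (kE_cont hπ β)
  have hkc : ∀ J, C2 (kJ π β J : (E₁ → G) → (E₁ → G) → ℂ) := by
    intro J
    unfold C2 kJ XX
    refine continuous_finsetSum _ fun j _ => continuous_const.mul (Continuous.pow ?_ j)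
    refine Complex.continuous_ofReal.comp (continuous_const.add (continuous_const.mul ?_))
    unfold rt
    refine continuous_finsetSum _ fun e _ => Complex.continuous_re.comp ?_
    have h1 : Continuous fun p : (E₁ → G) × (E₁ → G) => (π ((p.1 * p.2⁻¹) e) : Mat N) :=
      continuous_subtype_val.comp (hπ.comp ((continuous_apply e).comp
        (continuous_fst.mul continuous_snd.inv)))
    exact h1.matrix_trace
  refine re_tend (Zg_tend (μ₁.prod μ₂) μ (pa_act μ₁ μ₂ h₁ h₂).cont (tr_UR_cont hQ)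
    (fun J => pk_c2 (hkc J) (kE_cont hπ β)) hM
    (B := Real.exp (-(β / 2)) * Real.exp (β / 2 * (Fintype.card (I1 E₁ N) : ℝ)) * C)
    (fun J U V => ?_) (fun U V => (kJ_tend U.1 V.1).mul_const _) n)
  unfold pk
  rw [norm_mul]
  exact mul_le_mul (kJ_bdd hβ J _ _) (hC (U.2, V.2)) (norm_nonneg _) (by positivity)

include hπ hs₁ ht₁ hs₂ ht₂ hQ hβ Λ₁ Λ₂ in
/-- positivity and monotonicity in the weight -/
theorem zz_mono {M M' : (E₁ → G) × (E₂ → G) → ℝ} (hM : Continuous M) (hM' : Continuous M')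
    (hMi : ∀ c U, M (pa (la s₁ t₁) (la s₂ t₂) c U) = M U)
    (hMi' : ∀ c U, M' (pa (la s₁ t₁) (la s₂ t₂) c U) = M' U)
    (h0 : ∀ U, 0 ≤ M U) (hle : ∀ U, M U ≤ M' U) (n : ℕ) :
    0 ≤ zz μ μ₁ μ₂ π s₁ t₁ s₂ t₂ (fun c => trace (Q c)) M β n ∧
    zz μ μ₁ μ₂ π s₁ t₁ s₂ t₂ (fun c => trace (Q c)) M β n ≤
      zz μ μ₁ μ₂ π s₁ t₁ s₂ t₂ (fun c => trace (Q c)) M' β n := by
  have h₁ := la_act μ₁ hs₁ ht₁
  have h₂ := la_act μ₂ hs₂ ht₂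
  have h1 := fun J => mono_L μ₁ μ₂ μ h₁ h₂ hQ (kJ_gk hπ Λ₁ hβ J) (K' := kJ π β J) (by
      simp only [sub_self]
      exact GK.zero)
    (fun c U V => kJ_inv β J c U V) (fun c U V => kJ_inv β J c U V)
    (kE_lk hπ Λ₂ hβ (s := s₂) (t := t₂)) hM hM' hMi hMi' h0 hle n
  have h2 := kk_tend hπ μ hs₁ ht₁ hs₂ ht₂ hQ (μ₁ := μ₁) (μ₂ := μ₂) hM hβ n
  have h3 := kk_tend hπ μ hs₁ ht₁ hs₂ ht₂ hQ (μ₁ := μ₁) (μ₂ := μ₂) hM' hβ n
  exact ⟨ge_of_tendsto' h2 fun J => (h1 J).1, le_of_tendsto_of_tendsto' h2 h3 fun J => (h1 J).2.2⟩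

include hπ hs₁ ht₁ hs₂ ht₂ hQ hM₂ hMi₂ h0₂ hβ Λ₂ in
/-- lower bound by a smaller kernel -/
theorem low {K : (E₁ → G) → (E₁ → G) → ℂ} (hK : GK K) (hKi : ∀ c U V,
      K (la s₁ t₁ c U) (la s₁ t₁ c V) = K U V) {J₀ : ℕ}
    (hKJ : ∀ J, J₀ < J → GK fun U V => kJ π β J U V - K U V) (n : ℕ) :
    (Zg μ₂ μ (la s₂ t₂) (fun c => trace (Q c) * ∫ U, it μ₁ K (fun _ => 1) n U (la s₁ t₁ c U) ∂μ₁)
      (kE π β) M₂ n).re ≤
    zz μ μ₁ μ₂ π s₁ t₁ s₂ t₂ (fun c => trace (Q c)) (fun U => M₂ U.2) β n := by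
  have h₁ := la_act μ₁ hs₁ ht₁
  have h₂ := la_act μ₂ hs₂ ht₂
  have hMc : Continuous fun U : (E₁ → G) × (E₂ → G) => M₂ U.2 := hM₂.comp continuous_snd
  have h2 := kk_tend hπ μ hs₁ ht₁ hs₂ ht₂ hQ (μ₁ := μ₁) (μ₂ := μ₂) hMc hβ n
  rw [← Zg_pk μ₁ μ₂ μ (a₁ := la s₁ t₁) (a₂ := la s₂ t₂) (A := K) (B := kE π β)
    (fun c => trace (Q c)) M₂ n]
  refine ge_of_tendsto h2 ?_
  filter_upwards [eventually_gt_atTop J₀] with J hJ
  exact (mono_L μ₁ μ₂ μ h₁ h₂ hQ hK (hKJ J hJ) hKi (fun c U V => kJ_inv β J c U V)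
    (kE_lk hπ Λ₂ hβ (s := s₂) (t := t₂)) hMc hMc
      (fun c U => hMi₂ c U.2) (fun c U => hMi₂ c U.2)
    (fun U => h0₂ _) (fun U => le_refl _) n).2.2

include hπ hs₁ ht₁ hs₂ ht₂ hQ hM₂ hMi₂ h0₂ hβ Λ₂ in
/-- lower bound by the projections -/
theorem low_e {R : ℝ} (hR : (Fintype.card (I1 E₁ N) : ℝ) ≤ R) (n m : ℕ) :
    (aj β m * (R ^ m)⁻¹) ^ (n + 1) *
      ww μ Λ₁ μ₂ s₁ t₁ s₂ t₂ (fun c => trace (Q c)) M₂ β n m ≤
    zz μ μ₁ μ₂ π s₁ t₁ s₂ t₂ (fun c => trace (Q c)) (fun U => M₂ U.2) β n := by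
  have hR0 : 0 ≤ R := by
    have := RR_pos (E := E₁) (N := N)
    linarith
  have hc0 : 0 ≤ aj β m * (R ^ m)⁻¹ := mul_nonneg (aj_pos hβ m).le (by positivity)
  have h1 := low hπ μ hs₁ ht₁ hs₂ ht₂ Λ₂ hQ hM₂ hMi₂ h0₂ hβ (μ₁ := μ₁)
    (K := fun U V => ((aj β m * (R ^ m)⁻¹ : ℝ) : ℂ) * Λ₁.e m U V)
    ((e_gk Λ₁ m).smul hc0) (fun c U V => by rw [e_inv hπ hs₁ ht₁]) (J₀ := m)
    (fun J hJ => kJ_ge hπ Λ₁ hβ hJ hR) n
  refine le_trans (le_of_eq ?_) h1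
  have h2 : (fun c => trace (Q c) * ∫ U, it μ₁ (fun U V => ((aj β m * (R ^ m)⁻¹ : ℝ) : ℂ) *
      Λ₁.e m U V) (fun _ => 1) n U (la s₁ t₁ c U) ∂μ₁) = fun c =>
      ∑ k ∈ {()}, (((aj β m * (R ^ m)⁻¹ : ℝ) : ℂ) ^ (n + 1)) * (trace (Q c) * Λ₁.τ s₁ t₁ m c) := by
    funext c
    simp only [it_e]
    rw [integral_const_mul, e_tr hπ hs₁ ht₁, Finset.sum_singleton]
    ring
  have h₂ := la_act μ₂ hs₂ ht₂
  rw [h2, Zg_sum μ₂ μ h₂.cont (kE_cont hπ β) hM₂ n ({()} : Finset Unit)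
    (h := fun _ c => trace (Q c) * Λ₁.τ s₁ t₁ m c)
    (fun _ => (tr_UR_cont hQ).mul (τ_gm hπ hs₁ ht₁ Λ₁ m).cont), Finset.sum_singleton,
    ← Complex.ofReal_pow, Complex.re_ofReal_mul]
  rfl

include hπ hs₁ ht₁ hs₂ ht₂ hM₂ hMi₂ h0₂ hβ Λ₁ Λ₂ in
/-- lower bound for the partition function -/
theorem low_1 (n : ℕ) :
    (aj β 0) ^ (n + 1) * (Zg μ₂ μ (la s₂ t₂) (fun _ => 1) (kE π β) M₂ n).re ≤
    zz μ μ₁ μ₂ π s₁ t₁ s₂ t₂ (fun _ => 1) (fun U => M₂ U.2) β n := by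
  have hQ1 : UR fun _ : Γ => (1 : Matrix Unit Unit ℂ) := UR.triv
  have ht1 : trace (1 : Matrix Unit Unit ℂ) = 1 := by
    rw [Matrix.trace_one]
    simp
  have h1 := low hπ μ hs₁ ht₁ hs₂ ht₂ Λ₂ hQ1 hM₂ hMi₂ h0₂ hβ (μ₁ := μ₁)
    (K := fun _ _ => ((aj β 0 : ℝ) : ℂ)) (by
      have := gk_comb (I := Unit) (w := fun _ (_ : E₁ → G) => (1:ℂ)) (fun _ => continuous_const)
        (c := fun _ => aj β 0) (fun _ => (aj_pos hβ 0).le)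
      simpa using this) (fun c U V => rfl) (J₀ := 0)
    (fun J hJ => by
      have h1 := GK.sum ((Finset.range J).erase 0) (K := fun j U V => (aj β j : ℂ) * XX π j U V)
        fun j _ => (XX_gk hπ Λ₁ j).smul (aj_pos hβ j).le
      have h3 : (fun U V : E₁ → G => kJ π β J U V - ((aj β 0 : ℝ) : ℂ)) =
          fun U V => (∑ j ∈ (Finset.range J).erase 0, (aj β j : ℂ) * XX π j U V) := by
        funext U V
        unfold kJ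
        rw [← Finset.sum_erase_add _ _ (Finset.mem_range.2 hJ)]
        unfold XX
        rw [pow_zero, mul_one]
        ring
      rw [h3]
      exact h1) n
  simp only [ht1] at h1
  refine le_trans (le_of_eq ?_) h1
  have hit : ∀ n (U V : E₁ → G), it μ₁ (fun _ _ => ((aj β 0 : ℝ) : ℂ)) (fun _ => 1) n U V =
      ((aj β 0 : ℝ) : ℂ) ^ (n + 1) := by
    intro n
    induction n with
    | zero =>
      intro U V
      rw [zero_add, pow_one]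
      rfl
    | succ n ih =>
      intro U V
      show ∫ W, it μ₁ (fun _ _ => ((aj β 0 : ℝ) : ℂ)) (fun _ => 1) n U W * ((1:ℝ) : ℂ) *
        ((aj β 0 : ℝ) : ℂ) ∂μ₁ = _
      simp only [ih, Complex.ofReal_one, mul_one]
      rw [integral_const]
      simp [pow_succ]
  have h2 : (fun c : Γ => (1:ℂ) * ∫ U, it μ₁ (fun _ _ => ((aj β 0 : ℝ) : ℂ))
      (fun _ => 1) n U (la s₁ t₁ c U) ∂μ₁) = fun c =>
      ∑ k ∈ {()}, (((aj β 0 : ℝ) : ℂ) ^ (n + 1)) * (1:ℂ) := by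
    funext c
    simp only [hit]
    rw [integral_const, Finset.sum_singleton]
    simp
  have h₂ := la_act μ₂ hs₂ ht₂
  rw [h2, Zg_sum μ₂ μ h₂.cont (kE_cont hπ β) hM₂ n ({()} : Finset Unit)
    (h := fun _ _ => (1:ℂ)) (fun _ => continuous_const), Finset.sum_singleton,
    ← Complex.ofReal_pow, Complex.re_ofReal_mul]

end

end Pool.Agent.X168.PK
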