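import Mathlib
import Pool.Agent.X168.PK.Chn

/-!
# Numerical estimates
-/

open MeasureTheory Filter Topology Matrix
open scoped ComplexOrder

namespace Pool.Agent.X168.PK

set_option linter.unusedSectionVars false

noncomputable section

lemma fac_le (m d : ℕ) : ((m + d).factorial : ℝ) ≤ 2 ^ (m + d) * m.factorial * d.factorial := by
  have h1 := Nat.add_choose_mul_factorial_mul_factorial m d
  have h2 := Nat.choose_le_two_pow (m + d) d
  have h3 : (m + d).factorial ≤ 2 ^ (m + d) * m.factorial * d.factorial := by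
    rw [← h1]
    gcongr
  exact_mod_cast h3

lemma fac_ge (m i : ℕ) : ((m.factorial : ℝ) * i.factorial) ≤ (m + i).factorial := by
  exact_mod_cast Nat.le_of_dvd (Nat.factorial_pos _) (Nat.factorial_mul_factorial_dvd_factorial_add m i)

/-- majorant of the tails -/
def BB (β R : ℝ) (m : ℕ) : ℝ := (β / 2 * R) ^ m / m.factorial * Real.exp (β / 2 * R)

lemma tl_le {β R : ℝ} (hβ : 0 < β) (hR : 1 ≤ R) (J m : ℕ) :
    tl (fun j => aj β j * R ^ j) J m ≤ BB β R m := by
  unfold tl BB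
  have hx : 0 ≤ β / 2 * R := by positivity
  have h1 : ∑ j ∈ Finset.Ico m J, aj β j * R ^ j ≤
      ∑ j ∈ Finset.Ico m J, (β / 2 * R) ^ j / j.factorial := by
    refine Finset.sum_le_sum fun j _ => ?_
    unfold aj
    have h2 : Real.exp (-(β / 2)) ≤ 1 := Real.exp_le_one_iff.2 (by linarith)
    have h3 : Real.exp (-(β / 2)) * ((β / 2) ^ j / j.factorial) * R ^ j =
        Real.exp (-(β / 2)) * ((β / 2 * R) ^ j / j.factorial) := by
      rw [mul_pow]
      ring
    rw [h3]
    exact mul_le_of_le_one_left (by positivity) h2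
  refine h1.trans ?_
  rw [Finset.sum_Ico_eq_sum_range]
  have h4 : ∑ i ∈ Finset.range (J - m), (β / 2 * R) ^ (m + i) / ((m + i).factorial : ℝ) ≤
      ∑ i ∈ Finset.range (J - m), (β / 2 * R) ^ m / m.factorial *
        ((β / 2 * R) ^ i / i.factorial) := by
    refine Finset.sum_le_sum fun i _ => ?_
    rw [pow_add, div_mul_div_comm]
    exact div_le_div_of_nonneg_left (by positivity) (by positivity) (fac_ge m i)
  refine h4.trans ?_
  rw [← Finset.mul_sum]
  exact mul_le_mul_of_nonneg_left (Real.sum_le_exp_of_nonneg hx _) (by positivity)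

/-- first bound -/
def UB (β R b a : ℝ) (d m : ℕ) : ℝ := a * (aj β (m + d) * (R ^ (m + d))⁻¹)⁻¹ * b

/-- second bound -/
def VB (β R b q : ℝ) (m : ℕ) : ℝ := q * R ^ (2 * m) * (aj β 0)⁻¹ * b

theorem hbound {β R b a q : ℝ} (hβ : 0 < β) (hR : 1 ≤ R) (hb : 0 ≤ b) (ha : 0 ≤ a) (hq : 0 ≤ q)
    (d k : ℕ) : ∃ H : ℝ, 1 ≤ H ∧ ∀ m : ℕ, ((2:ℝ) ^ (m + 1)) ^ (k + 1) * (BB β R m) ^ (k + 1) *
      (UB β R b a d m) ^ k * VB β R b q m ≤ H := by
  set x : ℝ := β / 2 * R with hx
  have hx0 : 0 < x := by positivity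
  set z : ℝ := 4 * R / β with hz
  have hz0 : 0 < z := by positivity
  set e : ℝ := Real.exp (β / 2) with he
  have he0 : 0 < e := Real.exp_pos _
  set y : ℝ := 2 ^ (k + 1) * x ^ (k + 1) * z ^ k * R ^ 2 with hy
  have hy0 : 0 < y := by positivity
  set C : ℝ := 2 ^ (k + 1) * Real.exp x ^ (k + 1) * (a * e * b * d.factorial * z ^ d) ^ k *
    (q * e * b) with hC
  have hC0 : 0 ≤ C := by positivity
  refine ⟨C * Real.exp y + 1, by have := Real.exp_pos y; nlinarith, fun m => ?_⟩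
  have hU : UB β R b a d m ≤ (a * e * b * d.factorial * z ^ d) * (z ^ m * m.factorial) := by
    unfold UB aj
    have h1 : (Real.exp (-(β / 2)) * ((β / 2) ^ (m + d) / ((m + d).factorial : ℝ)) *
        (R ^ (m + d))⁻¹)⁻¹ = e * ((m + d).factorial * (R / (β / 2)) ^ (m + d)) := by
      rw [Real.exp_neg, ← he]
      have : (0:ℝ) < (m + d).factorial := by positivity
      have hR' : (0:ℝ) < R := by linarith
      have hb2 : (0:ℝ) < β / 2 := by positivity
      generalize β / 2 = c at hb2 ⊢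
      rw [div_pow]
      field_simp
    rw [h1]
    have h2 : ((m + d).factorial : ℝ) * (R / (β / 2)) ^ (m + d) ≤
        (m.factorial * d.factorial) * z ^ (m + d) := by
      have h3 : z ^ (m + d) = 2 ^ (m + d) * (R / (β / 2)) ^ (m + d) := by
        rw [← mul_pow, hz]
        congr 1
        field_simp
        ring
      rw [h3]
      have h4 := mul_le_mul_of_nonneg_right (fac_le m d)
        (by positivity : (0:ℝ) ≤ (R / (β / 2)) ^ (m + d))
      refine h4.trans (le_of_eq ?_)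
      ring
    have h5 : a * (e * (((m + d).factorial : ℝ) * (R / (β / 2)) ^ (m + d))) * b ≤
        a * (e * ((m.factorial * d.factorial) * z ^ (m + d))) * b := by
      gcongr
    refine h5.trans (le_of_eq ?_)
    rw [pow_add]
    ring
  have hU0 : 0 ≤ UB β R b a d m := by
    unfold UB
    have := aj_pos hβ (m + d)
    positivity
  have hV : VB β R b q m = (q * e * b) * (R ^ 2) ^ m := by
    unfold VB aj
    rw [pow_zero, Nat.factorial_zero, Nat.cast_one, div_one, mul_one, Real.exp_neg, inv_inv,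
      ← he, pow_mul]
    ring
  have hB : BB β R m = (x ^ m / m.factorial) * Real.exp x := rfl
  have hUk := pow_le_pow_left₀ hU0 hU k
  have hB0 : 0 ≤ BB β R m := by rw [hB]; positivity
  have hV0 : 0 ≤ VB β R b q m := by rw [hV]; positivity
  calc ((2:ℝ) ^ (m + 1)) ^ (k + 1) * (BB β R m) ^ (k + 1) * (UB β R b a d m) ^ k * VB β R b q m
      ≤ ((2:ℝ) ^ (m + 1)) ^ (k + 1) * (BB β R m) ^ (k + 1) *
        ((a * e * b * d.factorial * z ^ d) * (z ^ m * m.factorial)) ^ k * VB β R b q m := by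
        gcongr
    _ = C * (y ^ m / m.factorial) := by
        rw [hB, hV, hC, hy]
        have hm : (0:ℝ) < m.factorial := by positivity
        rw [mul_pow (x ^ m / _), div_pow, mul_pow _ (z ^ m * _), mul_pow (z ^ m)]
        rw [pow_succ (m.factorial : ℝ) k]
        rw [mul_pow _ (R ^ 2) m, mul_pow _ (z ^ k) m, mul_pow _ (x ^ (k + 1)) m, ← pow_mul 2,
          ← pow_mul 2, ← pow_mul x, ← pow_mul x, ← pow_mul z, ← pow_mul z]
        have e1 : (2:ℝ) ^ ((m + 1) * (k + 1)) = 2 ^ (k + 1) * 2 ^ ((k + 1) * m) := by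
          rw [← pow_add]
          congr 1
          ring
        rw [e1, mul_comm m (k + 1), mul_comm m k]
        field_simp
    _ ≤ C * Real.exp y := by
        refine mul_le_mul_of_nonneg_left ?_ hC0
        exact Real.pow_div_factorial_le_exp y hy0.le m
    _ ≤ C * Real.exp y + 1 := by linarith

/-- summation -/
theorem summ {k T J : ℕ} (hT : T ≠ 0) {w B U V t : ℕ → ℝ} {S Z H : ℝ} (hS : 0 ≤ S) (hZ : 0 ≤ Z)
    (hw : ∀ m, 0 ≤ w m) (hB : ∀ m, 0 ≤ B m) (hU : ∀ m, 0 ≤ U m) (hV : ∀ m, 0 ≤ V m)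
    (ht : ∀ m, 0 ≤ t m) (htB : ∀ m, t m ≤ B m)
    (h1 : ∀ m, w m ≤ U m ^ T * S) (h2 : ∀ m, w m ≤ V m ^ T * Z) (hH : 0 ≤ H)
    (h3 : ∀ m : ℕ, ((2:ℝ) ^ (m + 1)) ^ (k + 1) * (B m) ^ (k + 1) * (U m) ^ k * V m ≤ H) :
    (∑ m ∈ Finset.range J, t m ^ T * w m) ^ (k + 1) ≤ H ^ T * (S ^ k * Z) := by
  set X : ℝ := (H ^ T * (S ^ k * Z)) ^ ((1:ℝ) / (k + 1 : ℕ)) with hX
  have hX0 : 0 ≤ X := by positivity
  have hXk : X ^ (k + 1) = H ^ T * (S ^ k * Z) := by
    rw [hX, ← Real.rpow_natCast, ← Real.rpow_mul (by positivity), one_div,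
      inv_mul_cancel₀ (by positivity), Real.rpow_one]
  have h4 : ∀ m, t m ^ T * w m ≤ X * ((1:ℝ) / 2 ^ (m + 1)) := by
    intro m
    have h5 : (2 ^ (m + 1) * (B m ^ T * w m)) ^ (k + 1) ≤ X ^ (k + 1) := by
      rw [hXk]
      have h6 : w m ^ (k + 1) ≤ (U m ^ T * S) ^ k * (V m ^ T * Z) := by
        rw [pow_succ]
        exact mul_le_mul (pow_le_pow_left₀ (hw m) (h1 m) k) (h2 m) (hw m) (by
          have := hU m
          positivity)
      have h7 : ((2:ℝ) ^ (m + 1)) ^ (k + 1) ≤ (((2:ℝ) ^ (m + 1)) ^ (k + 1)) ^ T := by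
        refine le_self_pow₀ ?_ hT
        exact one_le_pow₀ (one_le_pow₀ one_le_two)
      have hBm := hB m
      have hUm := hU m
      have hVm := hV m
      calc (2 ^ (m + 1) * (B m ^ T * w m)) ^ (k + 1)
          = ((2:ℝ) ^ (m + 1)) ^ (k + 1) * ((B m ^ (k + 1)) ^ T * w m ^ (k + 1)) := by
            rw [mul_pow, mul_pow, ← pow_mul (B m), ← pow_mul (B m), mul_comm T]
        _ ≤ (((2:ℝ) ^ (m + 1)) ^ (k + 1)) ^ T * ((B m ^ (k + 1)) ^ T *
            ((U m ^ T * S) ^ k * (V m ^ T * Z))) := by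
            have hwm := hw m
            gcongr
        _ = (((2:ℝ) ^ (m + 1)) ^ (k + 1) * (B m) ^ (k + 1) * (U m) ^ k * V m) ^ T *
            (S ^ k * Z) := by
            rw [mul_pow (U m ^ T), ← pow_mul (U m), mul_comm T k, pow_mul (U m)]
            rw [mul_pow _ (V m), mul_pow _ (U m ^ k), mul_pow _ (B m ^ (k + 1))]
            ring
        _ ≤ H ^ T * (S ^ k * Z) := by
            refine mul_le_mul_of_nonneg_right (pow_le_pow_left₀ (by positivity) (h3 m) T)
              (by positivity)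
    have h8 : 2 ^ (m + 1) * (B m ^ T * w m) ≤ X :=
      le_of_pow_le_pow_left₀ (Nat.succ_ne_zero k) hX0 h5
    have h9 : t m ^ T * w m ≤ B m ^ T * w m :=
      mul_le_mul_of_nonneg_right (pow_le_pow_left₀ (ht m) (htB m) T) (hw m)
    refine h9.trans ?_
    rw [mul_one_div, le_div_iff₀ (by positivity)]
    linarith
  have h10 : ∑ m ∈ Finset.range J, t m ^ T * w m ≤ X := by
    refine (Finset.sum_le_sum fun m _ => h4 m).trans ?_
    rw [← Finset.mul_sum]
    have h11 : ∑ m ∈ Finset.range J, (1:ℝ) / 2 ^ (m + 1) ≤ 1 := by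
      have h12 : ∀ J : ℕ, ∑ m ∈ Finset.range J, (1:ℝ) / 2 ^ (m + 1) = 1 - 1 / 2 ^ J := by
        intro J
        induction J with
        | zero => simp
        | succ J ih =>
          rw [Finset.sum_range_succ, ih, pow_succ]
          field_simp
          ring
      rw [h12]
      have : (0:ℝ) < 1 / 2 ^ J := by positivity
      linarith
    calc X * _ ≤ X * 1 := mul_le_mul_of_nonneg_left h11 hX0
      _ = X := mul_one X
  rw [← hXk]
  exact pow_le_pow_left₀ (Finset.sum_nonneg fun m _ => mul_nonneg (pow_nonneg (ht m) _) (hw m))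
    h10 (k + 1)

end

end Pool.Agent.X168.PK
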