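import Mathlib
import Pool.Agent.X168.PK.Num

/-!
# The abstract comparison theorem
-/

open MeasureTheory Filter Topology Matrix
open scoped ComplexOrder Kronecker

namespace Pool.Agent.X168.PK

set_option linter.unusedSectionVars false

noncomputable section

open NA (UU Mat)

lemma tr_norm {Γ A : Type} [Group Γ] [TopologicalSpace Γ] [Fintype A] [DecidableEq A]
    {R : Γ → Matrix A A ℂ} (hR : UR R) (c : Γ) : ‖trace (R c)‖ ≤ Fintype.card A := by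
  rw [Matrix.trace]
  refine (norm_sum_le _ _).trans ?_
  have h1 : ∀ i : A, ‖(R c).diag i‖ ≤ 1 := by
    intro i
    have h3 := congrFun (congrFun (hR.uni c) i) i
    rw [Matrix.mul_apply, Matrix.one_apply_eq] at h3
    have h4 : ∑ j, ‖(R c) j i‖ ^ 2 = 1 := by
      have h5 : ((∑ j, ‖(R c) j i‖ ^ 2 : ℝ) : ℂ) = 1 := by
        rw [← h3]
        push_cast
        refine Finset.sum_congr rfl fun j _ => ?_
        rw [← Complex.conj_mul', Matrix.conjTranspose_apply]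
        rfl
      exact_mod_cast h5
    have h6 : ‖(R c) i i‖ ^ 2 ≤ 1 := by
      rw [← h4]
      exact Finset.single_le_sum (f := fun j => ‖(R c) j i‖ ^ 2)
        (fun _ _ => sq_nonneg _) (Finset.mem_univ i)
    rw [Matrix.diag_apply]
    nlinarith [norm_nonneg ((R c) i i)]
  refine (Finset.sum_le_sum fun i _ => h1 i).trans (le_of_eq ?_)
  simp

variable {G : Type} [Group G] [TopologicalSpace G] [IsTopologicalGroup G] [CompactSpace G]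
  [T2Space G] [SecondCountableTopology G] [MeasurableSpace G] [BorelSpace G]
  {N : ℕ} {π : G →* UU N} (hπ : Continuous π)
  {E₁ : Type} [Fintype E₁] [DecidableEq E₁] {E₂ : Type} [Fintype E₂] [DecidableEq E₂]
  {μ₁ : Measure (E₁ → G)} [IsProbabilityMeasure μ₁] [μ₁.IsMulLeftInvariant]
  [μ₁.IsMulRightInvariant]
  {μ₂ : Measure (E₂ → G)} [IsProbabilityMeasure μ₂] [μ₂.IsMulLeftInvariant]
  [μ₂.IsMulRightInvariant]
  {Γ : Type} [Group Γ] [TopologicalSpace Γ] [IsTopologicalGroup Γ] [CompactSpace Γ]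
  [T2Space Γ] [SecondCountableTopology Γ] [MeasurableSpace Γ] [BorelSpace Γ]
  (μ : Measure Γ) [IsProbabilityMeasure μ] [μ.IsMulLeftInvariant]
  {s₁ t₁ : Γ →* (E₁ → G)} (hs₁ : Continuous s₁) (ht₁ : Continuous t₁)
  {s₂ t₂ : Γ →* (E₂ → G)} (hs₂ : Continuous s₂) (ht₂ : Continuous t₂)
  (Λ₁ : Ld π μ₁) (Λ₂ : Ld π μ₂)
  {M₂ : (E₂ → G) → ℝ} (hM₂ : Continuous M₂) (hMi₂ : ∀ c U, M₂ (la s₂ t₂ c U) = M₂ U)
  (h0₂ : ∀ U, 0 ≤ M₂ U) {β : ℝ} (hβ : 0 < β)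

lemma zz_smulM (g : Γ → ℂ) (M : (E₁ → G) × (E₂ → G) → ℝ) (b : ℝ) (n : ℕ) :
    zz μ μ₁ μ₂ π s₁ t₁ s₂ t₂ g (fun U => b * M U) β n =
      b ^ (n + 1) * zz μ μ₁ μ₂ π s₁ t₁ s₂ t₂ g M β n := by
  unfold zz
  rw [Zg_smulM, ← Complex.ofReal_pow, Complex.re_ofReal_mul]

include hπ hs₁ ht₁ in
lemma τ_norm {R : ℝ} (hR : (Fintype.card (I1 E₁ N) : ℝ) ≤ R) (m : ℕ) (c : Γ) :
    ‖Λ₁.τ s₁ t₁ m c‖ ≤ R ^ (2 * m) := by
  refine (tr_norm (τ_UR hπ hs₁ ht₁ Λ₁ m) c).trans ?_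
  have h1 := (Λ₁.onb m).card
  have h2 : (Fintype.card (Λ₁.ι m) : ℝ) ≤
      Fintype.card ((Fin m → I1 E₁ N) × (Fin m → I1 E₁ N)) := by exact_mod_cast h1
  refine h2.trans ?_
  rw [Fintype.card_prod]
  push_cast
  rw [card_pow, ← pow_add, ← two_mul]
  exact pow_le_pow_left₀ (by positivity) hR _

include hπ hs₁ ht₁ hs₂ ht₂ hM₂ hMi₂ h0₂ hβ Λ₂ in
/-- **The abstract comparison theorem.** -/
theorem main_abs {κ κ' A : Type} [Fintype κ] [DecidableEq κ] [Fintype κ'] [DecidableEq κ']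
    [Fintype A] [DecidableEq A] {P : Γ → Matrix κ κ ℂ} {P' : Γ → Matrix κ' κ' ℂ}
    {Q : Γ → Matrix A A ℂ} (hP : UR P) (hP' : UR P') (hQ : UR Q) {R b : ℝ}
    (hR : (Fintype.card (I1 E₁ N) : ℝ) ≤ R) (hb : 0 < b)
    {M : (E₁ → G) × (E₂ → G) → ℝ} (hM : Continuous M)
    (hMi : ∀ c U, M (pa (la s₁ t₁) (la s₂ t₂) c U) = M U) (h0 : ∀ U, 0 ≤ M U)
    (hle : ∀ U, M U ≤ b * M₂ U.2) (hge : ∀ U, M₂ U.2 ≤ b * M U)
    {a d q : ℕ} (hcmp : ∀ m, Gm fun c => (a : ℂ) * (Λ₁.τ s₁ t₁ (m + d) c * trace (P' c)) -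
      Λ₁.τ s₁ t₁ m c * trace (P c)) (hq : Fintype.card κ * Fintype.card A ≤ q)
    {k : ℕ} {H : ℝ} (hH0 : 0 ≤ H) (hH : ∀ m : ℕ, ((2:ℝ) ^ (m + 1)) ^ (k + 1) *
      (BB β R m) ^ (k + 1) * (UB β R b a d m) ^ k * VB β R b q m ≤ H) (n : ℕ) :
    (zz μ μ₁ μ₂ π s₁ t₁ s₂ t₂ (fun c => trace (P c) * trace (Q c)) M β n) ^ (k + 1) ≤
      (b ^ (k + 1) * H) ^ (n + 1) *
        ((zz μ μ₁ μ₂ π s₁ t₁ s₂ t₂ (fun c => trace (P' c) * trace (Q c)) M β n) ^ k *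
          zz μ μ₁ μ₂ π s₁ t₁ s₂ t₂ (fun _ => 1) M β n) := by
  have h₁ := la_act μ₁ hs₁ ht₁
  have h₂ := la_act μ₂ hs₂ ht₂
  have hR1 : 1 ≤ R := (RR_pos (E := E₁) (N := N)).trans hR
  have hPQ := hP.kron hQ
  have hPQ' := hP'.kron hQ
  have hQ1 : UR fun _ : Γ => (1 : Matrix Unit Unit ℂ) := UR.triv
  have ht1 : trace (1 : Matrix Unit Unit ℂ) = 1 := by
    rw [Matrix.trace_one]
    simp
  have hMc : Continuous fun U : (E₁ → G) × (E₂ → G) => M₂ U.2 := hM₂.comp continuous_snd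
  have hbM : Continuous fun U : (E₁ → G) × (E₂ → G) => b * M U := continuous_const.mul hM
  have hbM₂ : Continuous fun U : (E₁ → G) × (E₂ → G) => b * M₂ U.2 := continuous_const.mul hMc
  have hbMi : ∀ c U, b * M (pa (la s₁ t₁) (la s₂ t₂) c U) = b * M U := fun c U => by rw [hMi]
  have hbMi₂ : ∀ c (U : (E₁ → G) × (E₂ → G)), b * M₂ (pa (la s₁ t₁) (la s₂ t₂) c U).2 =
      b * M₂ U.2 := fun c U => by
    show b * M₂ (la s₂ t₂ c U.2) = _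
    rw [hMi₂]
  -- abbreviations
  set g' : Γ → ℂ := fun c => trace (P c) * trace (Q c) with hg'
  set g : Γ → ℂ := fun c => trace (P' c) * trace (Q c) with hg
  have eg' : (fun c => trace (P c ⊗ₖ Q c)) = g' := funext fun c => Matrix.trace_kronecker _ _
  have eg : (fun c => trace (P' c ⊗ₖ Q c)) = g := funext fun c => Matrix.trace_kronecker _ _
  set S := zz μ μ₁ μ₂ π s₁ t₁ s₂ t₂ g M β n with hS
  set Z := zz μ μ₁ μ₂ π s₁ t₁ s₂ t₂ (fun _ => 1) M β n with hZ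
  have m1 := zz_mono hπ μ hs₁ ht₁ hs₂ ht₂ Λ₁ Λ₂ hPQ' hβ hM hM hMi hMi h0 (fun U => le_refl _) n
  have m2 := zz_mono hπ μ hs₁ ht₁ hs₂ ht₂ Λ₁ Λ₂ hQ1 hβ hM hM hMi hMi h0 (fun U => le_refl _) n
  have m3 := zz_mono hπ μ hs₁ ht₁ hs₂ ht₂ Λ₁ Λ₂ hPQ' hβ hMc hbM (fun c U => hMi₂ c U.2) hbMi
    (fun U => h0₂ _) hge n
  have m4 := zz_mono hπ μ hs₁ ht₁ hs₂ ht₂ Λ₁ Λ₂ hQ1 hβ hMc hbM (fun c U => hMi₂ c U.2) hbMi
    (fun U => h0₂ _) hge n
  have m5 := zz_mono hπ μ hs₁ ht₁ hs₂ ht₂ Λ₁ Λ₂ hPQ hβ hM hbM₂ hMi hbMi₂ h0 hle n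
  have m6 := zz_mono hπ μ hs₁ ht₁ hs₂ ht₂ Λ₁ Λ₂ hPQ hβ hMc hbM (fun c U => hMi₂ c U.2) hbMi
    (fun U => h0₂ _) hge n
  rw [eg] at m1 m3
  simp only [ht1] at m2 m4
  rw [eg'] at m5 m6
  have hS0 : 0 ≤ S := m1.1
  have hZ0 : 0 ≤ Z := m2.1
  have hSM : zz μ μ₁ μ₂ π s₁ t₁ s₂ t₂ g (fun U => M₂ U.2) β n ≤ b ^ (n + 1) * S := by
    have := m3.2
    rwa [zz_smulM μ g M b n] at this
  have hZM : zz μ μ₁ μ₂ π s₁ t₁ s₂ t₂ (fun _ => 1) (fun U => M₂ U.2) β n ≤ b ^ (n + 1) * Z := by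
    have := m4.2
    rwa [zz_smulM μ (fun _ => 1) M b n] at this
  -- the terms
  set w : ℕ → ℝ := fun m => ww μ Λ₁ μ₂ s₁ t₁ s₂ t₂ g' M₂ β n m with hw
  have hw0 : ∀ m, 0 ≤ w m := fun m => by
    have := ww_nn hπ μ hs₁ ht₁ hs₂ ht₂ Λ₁ Λ₂ hPQ hM₂ hMi₂ h0₂ hβ n m
    rwa [eg'] at this
  have hub0 : ∀ m, 0 ≤ UB β R b a d m := fun m => by
    unfold UB
    have := aj_pos hβ (m + d)
    positivity
  have hvb0 : ∀ m, 0 ≤ VB β R b q m := fun m => by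
    unfold VB
    have := aj_pos hβ 0
    positivity
  have hbb0 : ∀ m, 0 ≤ BB β R m := fun m => by
    unfold BB
    positivity
  have h1 : ∀ m, w m ≤ UB β R b a d m ^ (n + 1) * S := by
    intro m
    -- comparison
    have hc := pos_L μ₂ μ h₂ ((hcmp m).mul (Gm.tr1 hQ)) (kE_lk hπ Λ₂ hβ (s := s₂) (t := t₂))
      hM₂ hMi₂ h0₂ n
    have hsum := Zg_sum μ₂ μ h₂.cont (kE_cont hπ β) hM₂ n (Finset.univ : Finset (Fin 2))
      (h := fun i c => if i = 0 then g c * Λ₁.τ s₁ t₁ (m + d) c else g' c * Λ₁.τ s₁ t₁ m c)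
      (fun i => by
        have c1 := (τ_gm hπ hs₁ ht₁ Λ₁ (m + d)).cont
        have c2 := (τ_gm hπ hs₁ ht₁ Λ₁ m).cont
        have c3 : Continuous g := (tr_UR_cont hP').mul (tr_UR_cont hQ)
        have c4 : Continuous g' := (tr_UR_cont hP).mul (tr_UR_cont hQ)
        split_ifs
        · exact c3.mul c1
        · exact c4.mul c2) (fun i => if i = 0 then (a : ℂ) else -1)
    have e1 : (fun c => ((a : ℂ) * (Λ₁.τ s₁ t₁ (m + d) c * trace (P' c)) -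
        Λ₁.τ s₁ t₁ m c * trace (P c)) * trace (Q c)) = fun c => ∑ i : Fin 2,
        (if i = 0 then (a : ℂ) else -1) *
          (if i = 0 then g c * Λ₁.τ s₁ t₁ (m + d) c else g' c * Λ₁.τ s₁ t₁ m c) := by
      funext c
      rw [Fin.sum_univ_two, hg, hg']
      simp only [if_true, one_ne_zero, if_false]
      ring
    rw [e1, hsum, Fin.sum_univ_two] at hc
    simp only [if_true, one_ne_zero, if_false] at hc
    have hc2 : w m ≤ a * ww μ Λ₁ μ₂ s₁ t₁ s₂ t₂ g M₂ β n (m + d) := by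
      have e2 : ((a : ℂ) * Zg μ₂ μ (la s₂ t₂) (fun c => g c * Λ₁.τ s₁ t₁ (m + d) c)
          (kE π β) M₂ n).re = a * ww μ Λ₁ μ₂ s₁ t₁ s₂ t₂ g M₂ β n (m + d) := by
        unfold ww
        have : (a : ℂ) = ((a : ℝ) : ℂ) := by push_cast; rfl
        rw [this, Complex.re_ofReal_mul]
      rw [Complex.add_re, neg_one_mul, Complex.neg_re, e2] at hc
      have e3 : w m = (Zg μ₂ μ (la s₂ t₂) (fun c => g' c * Λ₁.τ s₁ t₁ m c) (kE π β) M₂ n).re :=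
        rfl
      rw [e3]
      linarith
    have hl := low_e hπ μ hs₁ ht₁ hs₂ ht₂ Λ₁ Λ₂ hPQ' hM₂ hMi₂ h0₂ hβ hR n (m + d)
    rw [eg] at hl
    have hv : 0 < aj β (m + d) * (R ^ (m + d))⁻¹ := by
      have := aj_pos hβ (m + d)
      positivity
    have hl2 : ww μ Λ₁ μ₂ s₁ t₁ s₂ t₂ g M₂ β n (m + d) ≤
        ((aj β (m + d) * (R ^ (m + d))⁻¹)⁻¹) ^ (n + 1) * (b ^ (n + 1) * S) := by
      rw [inv_pow, ← div_eq_inv_mul, le_div_iff₀ (by positivity), mul_comm]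
      exact hl.trans hSM
    have ha : (a : ℝ) ≤ (a : ℝ) ^ (n + 1) := by
      have := Nat.le_self_pow (Nat.succ_ne_zero n) a
      exact_mod_cast this
    calc w m ≤ a * ww μ Λ₁ μ₂ s₁ t₁ s₂ t₂ g M₂ β n (m + d) := hc2
      _ ≤ (a : ℝ) ^ (n + 1) * (((aj β (m + d) * (R ^ (m + d))⁻¹)⁻¹) ^ (n + 1) *
          (b ^ (n + 1) * S)) := by
        refine mul_le_mul ha hl2 ?_ (by positivity)
        have := ww_nn hπ μ hs₁ ht₁ hs₂ ht₂ Λ₁ Λ₂ hPQ' hM₂ hMi₂ h0₂ hβ n (m + d)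
        rwa [eg] at this
      _ = UB β R b a d m ^ (n + 1) * S := by
        unfold UB
        rw [mul_pow, mul_pow]
        ring
  have h2 : ∀ m, w m ≤ VB β R b q m ^ (n + 1) * Z := by
    intro m
    have hgn : ∀ c, ‖g' c * Λ₁.τ s₁ t₁ m c‖ ≤ (q : ℝ) * R ^ (2 * m) := by
      intro c
      rw [norm_mul, hg', norm_mul]
      have e1 := tr_norm hP c
      have e2 := tr_norm hQ c
      have e3 := τ_norm hπ hs₁ ht₁ Λ₁ hR m c
      have e4 : ‖trace (P c)‖ * ‖trace (Q c)‖ ≤ q := by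
        refine (mul_le_mul e1 e2 (norm_nonneg _) (by positivity)).trans ?_
        exact_mod_cast hq
      exact mul_le_mul e4 e3 (norm_nonneg _) (by positivity)
    have ht := Zg_triv μ₂ μ h₂.cont (kE_cont hπ β) (kE_nk β) hM₂ h0₂ n
      (h := fun c => g' c * Λ₁.τ s₁ t₁ m c)
      (((tr_UR_cont hP).mul (tr_UR_cont hQ)).mul (τ_gm hπ hs₁ ht₁ Λ₁ m).cont) hgn
    have hl := low_1 hπ μ hs₁ ht₁ hs₂ ht₂ Λ₁ Λ₂ hM₂ hMi₂ h0₂ hβ n
    have hv : 0 < aj β 0 := aj_pos hβ 0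
    have hl2 : (Zg μ₂ μ (la s₂ t₂) (fun _ => 1) (kE π β) M₂ n).re ≤
        ((aj β 0)⁻¹) ^ (n + 1) * (b ^ (n + 1) * Z) := by
      rw [inv_pow, ← div_eq_inv_mul, le_div_iff₀ (by positivity), mul_comm]
      exact hl.trans hZM
    have hqq : (q : ℝ) ≤ (q : ℝ) ^ (n + 1) := by
      have := Nat.le_self_pow (Nat.succ_ne_zero n) q
      exact_mod_cast this
    have hRR : R ^ (2 * m) ≤ (R ^ (2 * m)) ^ (n + 1) :=
      le_self_pow₀ (one_le_pow₀ hR1) (Nat.succ_ne_zero n)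
    calc w m ≤ (q : ℝ) * R ^ (2 * m) * (Zg μ₂ μ (la s₂ t₂) (fun _ => 1) (kE π β) M₂ n).re := ht
      _ ≤ (q : ℝ) * R ^ (2 * m) * (((aj β 0)⁻¹) ^ (n + 1) * (b ^ (n + 1) * Z)) :=
        mul_le_mul_of_nonneg_left hl2 (by positivity)
      _ ≤ ((q : ℝ) ^ (n + 1) * (R ^ (2 * m)) ^ (n + 1)) *
          (((aj β 0)⁻¹) ^ (n + 1) * (b ^ (n + 1) * Z)) := by
        refine mul_le_mul_of_nonneg_right ?_ (by positivity)
        exact mul_le_mul hqq hRR (by positivity) (by positivity)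
      _ = VB β R b q m ^ (n + 1) * Z := by
        unfold VB
        rw [mul_pow, mul_pow, mul_pow]
        ring
  -- the sum
  obtain ⟨X, hX0, hXk⟩ : ∃ X : ℝ, 0 ≤ X ∧ X ^ (k + 1) = H ^ (n + 1) * (S ^ k * Z) := by
    refine ⟨(H ^ (n + 1) * (S ^ k * Z)) ^ ((1:ℝ) / (k + 1 : ℕ)), by positivity, ?_⟩
    rw [← Real.rpow_natCast, ← Real.rpow_mul (by positivity), one_div,
      inv_mul_cancel₀ (by positivity), Real.rpow_one]
  have h3 : ∀ J, ∑ m ∈ Finset.range J, tl (fun j => aj β j * R ^ j) J m ^ (n + 1) * w m ≤ X := by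
    intro J
    have h4 := summ (k := k) (T := n + 1) (J := J) (Nat.succ_ne_zero n) (w := w)
      (B := BB β R) (U := UB β R b a d) (V := VB β R b q)
      (t := fun m => tl (fun j => aj β j * R ^ j) J m) hS0 hZ0 hw0 hbb0 hub0 hvb0
      (fun m => tl_nn (fun j => mul_nonneg (aj_pos hβ j).le (by positivity)) J m)
      (fun m => tl_le hβ hR1 J m) h1 h2 hH0 hH
    rw [← hXk] at h4
    exact le_of_pow_le_pow_left₀ (Nat.succ_ne_zero k) hX0 h4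
  have h5 : zz μ μ₁ μ₂ π s₁ t₁ s₂ t₂ g' (fun U => M₂ U.2) β n ≤ X := by
    have h6 := kk_tend hπ μ hs₁ ht₁ hs₂ ht₂ hPQ (μ₁ := μ₁) (μ₂ := μ₂) hMc hβ n
    rw [eg'] at h6
    refine le_of_tendsto' h6 fun J => ?_
    have h7 := up hπ μ hs₁ ht₁ hs₂ ht₂ Λ₁ Λ₂ hPQ hM₂ hMi₂ h0₂ hβ hR n J
    rw [eg'] at h7
    exact h7.trans (h3 J)
  have h8 : zz μ μ₁ μ₂ π s₁ t₁ s₂ t₂ g' M β n ≤ b ^ (n + 1) * X := by
    have h9 := m5.2
    rw [zz_smulM μ g' (fun U => M₂ U.2) b n] at h9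
    exact h9.trans (mul_le_mul_of_nonneg_left h5 (by positivity))
  calc (zz μ μ₁ μ₂ π s₁ t₁ s₂ t₂ g' M β n) ^ (k + 1) ≤ (b ^ (n + 1) * X) ^ (k + 1) :=
        pow_le_pow_left₀ m5.1 h8 _
    _ = (b ^ (k + 1) * H) ^ (n + 1) * (S ^ k * Z) := by
        rw [mul_pow, hXk, mul_pow, ← pow_mul, ← pow_mul, mul_comm (n + 1) (k + 1)]
        ring

end

end Pool.Agent.X168.PK
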