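import Mathlib
import Pool.Agent.X168.PK.Pol

/-!
# The identity theorem for matrix coefficients on a connected group
-/

open MeasureTheory Filter Topology Matrix

namespace Pool.Agent.X168.PK

set_option linter.unusedSectionVars false

noncomputable section

variable {H : Type} [Group H] [TopologicalSpace H] [IsTopologicalGroup H]
  {B : Type} [Fintype B] [DecidableEq B] {D : H → Matrix B B ℂ}

lemma SP.left (hD : UR D) {f : H → ℂ} (hf : SP D f) (g : H) : SP D fun U => f (g * U) := by
  obtain ⟨C, hC⟩ := hf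
  have h1 : (fun U => f (g * U)) = fun U => ∑ q : B × B, ∑ k, (C q * D g q.1 k) * PK.mc D (k, q.2) U := by
    funext U
    rw [hC]
    refine Finset.sum_congr rfl fun q _ => ?_
    show C q * D (g * U) q.1 q.2 = ∑ k, (C q * D g q.1 k) * D U k q.2
    rw [hD.mul, Matrix.mul_apply, Finset.mul_sum]
    exact Finset.sum_congr rfl fun k _ => by ring
  rw [h1]
  exact SP.sum _ fun q _ => SP.sum _ fun k _ => (SP.mc _).smul _

/-- the matrix coefficients vanishing near the identity -/
def Wg (D : H → Matrix B B ℂ) : Submodule ℂ (H → ℂ) where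
  carrier := {f | SP D f ∧ ∀ᶠ U in 𝓝 (1 : H), f U = 0}
  add_mem' := by
    rintro f g ⟨hf, hf'⟩ ⟨hg, hg'⟩
    refine ⟨hf.add hg, ?_⟩
    filter_upwards [hf', hg'] with U h1 h2
    show f U + g U = 0
    rw [h1, h2, add_zero]
  zero_mem' := ⟨SP.zero, Filter.Eventually.of_forall fun _ => rfl⟩
  smul_mem' := by
    rintro c f ⟨hf, hf'⟩
    refine ⟨hf.smul c, ?_⟩
    filter_upwards [hf'] with U h1
    show c * f U = 0
    rw [h1, mul_zero]

lemma Wg_fg (D : H → Matrix B B ℂ) : (Wg D).FG := by
  have h1 : IsNoetherian ℂ (Submodule.span ℂ (Set.range (mc D))) :=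
    isNoetherian_span_of_finite ℂ (Set.finite_range _)
  refine isNoetherian_submodule.1 h1 _ ?_
  rintro f ⟨⟨C, hC⟩, _⟩
  have h2 : f = ∑ q, C q • mc D q := by
    funext U
    rw [hC, Finset.sum_apply]
    rfl
  rw [h2]
  exact Submodule.sum_mem _ fun q _ => Submodule.smul_mem _ _ (Submodule.subset_span ⟨q, rfl⟩)

/-- **Identity theorem.** -/
theorem ident2 [PreconnectedSpace H] (hD : UR D) {f : H → ℂ} (hf : SP D f) {O : Set H}
    (hO : IsOpen O) (hne : O.Nonempty) (h0 : ∀ U ∈ O, f U = 0) (U : H) : f U = 0 := by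
  obtain ⟨S, hS⟩ := Wg_fg D
  have hOS : ∀ᶠ U in 𝓝 (1 : H), ∀ f ∈ Wg D, f U = 0 := by
    have h1 : ∀ᶠ U in 𝓝 (1 : H), ∀ f ∈ S, f U = 0 := by
      rw [Filter.eventually_all_finset]
      intro f hf
      have : f ∈ Wg D := by
        rw [← hS]
        exact Submodule.subset_span hf
      exact this.2
    filter_upwards [h1] with U hU f hf
    have h2 : Wg D ≤ LinearMap.ker (LinearMap.proj (R := ℂ) (φ := fun _ : H => ℂ) U) := by
      rw [← hS, Submodule.span_le]
      intro f hf
      exact hU f hf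
    exact h2 hf
  have near : ∀ᶠ g in 𝓝 (1 : H), ∀ f ∈ Wg D, (fun U => f (g * U)) ∈ Wg D := by
    have h1 := eventually_eventually_nhds.2 hOS
    filter_upwards [h1] with g hg f hf
    refine ⟨hf.1.left hD g, ?_⟩
    have h2 : Tendsto (fun U : H => g * U) (𝓝 1) (𝓝 g) := by
      have := (continuous_const_mul g).tendsto (1 : H)
      rwa [mul_one] at this
    filter_upwards [h2.eventually hg] with U hU
    exact hU f hf
  let S' : Subgroup H :=
    { carrier := {g | ∀ f : H → ℂ, f ∈ Wg D ↔ (fun U => f (g * U)) ∈ Wg D}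
      mul_mem' := by
        intro a b ha hb f
        rw [ha f, hb (fun U => f (a * U))]
        simp only [mul_assoc]
      one_mem' := by
        intro f
        simp only [one_mul]
      inv_mem' := by
        intro a ha f
        have h := ha (fun U => f (a⁻¹ * U))
        simp only [inv_mul_cancel_left] at h
        exact h.symm }
  have hSn : (S' : Set H) ∈ 𝓝 (1 : H) := by
    have hinv : ∀ᶠ g in 𝓝 (1 : H), ∀ f ∈ Wg D, (fun U => f (g⁻¹ * U)) ∈ Wg D := by
      have h1 : Tendsto (fun g : H => g⁻¹) (𝓝 1) (𝓝 1) := by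
        have := (continuous_inv (G := H)).tendsto 1
        rwa [inv_one] at this
      exact h1.eventually near
    filter_upwards [near, hinv] with g hg hg' f
    refine ⟨hg f, fun h => ?_⟩
    have h1 := hg' _ h
    simp only [mul_inv_cancel_left] at h1
    exact h1
  have hSo : IsOpen (S' : Set H) := Subgroup.isOpen_of_mem_nhds S' hSn
  have hSu : (S' : Set H) = Set.univ :=
    IsClopen.eq_univ ⟨Subgroup.isClosed_of_isOpen S' hSo, hSo⟩ ⟨1, S'.one_mem⟩
  have hall : ∀ (g : H) (f : H → ℂ), f ∈ Wg D ↔ (fun U => f (g * U)) ∈ Wg D := by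
    intro g
    have hg : g ∈ (S' : Set H) := by rw [hSu]; trivial
    exact hg
  obtain ⟨U0, hU0⟩ := hne
  have h1 : (fun U => f (U0 * U)) ∈ Wg D := by
    refine ⟨hf.left hD U0, ?_⟩
    have h2 : Tendsto (fun U : H => U0 * U) (𝓝 1) (𝓝 U0) := by
      have := (continuous_const_mul U0).tendsto (1 : H)
      rwa [mul_one] at this
    filter_upwards [h2.eventually (hO.mem_nhds hU0)] with U hU
    exact h0 _ hU
  have h2 : f ∈ Wg D := (hall U0 f).2 h1
  have h3 := ((hall U f).1 h2).2.self_of_nhds
  simpa using h3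

end

end Pool.Agent.X168.PK
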