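import Mathlib
import Pool.Agent.X168.PK.Gen0
import Pool.Agent.X168.PK.Idt2

/-!
# The family of equivariant polynomial maps
-/

open MeasureTheory Filter Topology Matrix
open scoped ComplexOrder

namespace Pool.Agent.X168.PK

set_option linter.unusedSectionVars false

noncomputable section

open NA (UU Mat cc cc_mul cut rr)

variable {G : Type} [Group G] [TopologicalSpace G] [IsTopologicalGroup G] [CompactSpace G]
  [T2Space G] [SecondCountableTopology G] [MeasurableSpace G] [BorelSpace G]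
  {N : ℕ} (L : Emb G N) (μ : Measure G) [IsProbabilityMeasure μ] [μ.IsMulLeftInvariant]
  {k : ℕ} {p q : ℕ} (ρ₁ : G →* UU p) (ρ₂ : G →* UU q)

lemma ent_cont {p : ℕ} {ρ : G →* UU p} (h : Continuous ρ) (i j : Fin p) :
    Continuous fun g => (ρ g : Mat p) i j :=
  (continuous_subtype_val.comp h).matrix_elem i j

lemma cc_ent (h₁ : Continuous ρ₁) (h₂ : Continuous ρ₂) (B : Matrix (Fin q) (Fin p) ℂ)
    (i : Fin q) (j : Fin p) : Continuous fun g => cc ρ₁ ρ₂ B g i j := by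
  have h : (fun g => cc ρ₁ ρ₂ B g i j) = fun g =>
      ∑ b, (∑ a, (ρ₂ g : Mat q) i a * B a b) * cj ((ρ₁ g : Mat p) j b) := by
    funext g
    unfold cc
    rw [Matrix.mul_apply]
    refine Finset.sum_congr rfl fun b _ => ?_
    rw [Matrix.mul_apply]
    rfl
  rw [h]
  exact continuous_finsetSum _ fun b _ => (continuous_finsetSum _ fun a _ =>
    (ent_cont h₂ i a).mul continuous_const).mul (cj_cont.comp (ent_cont h₁ j b))

/-- matrices of a tuple -/
def mts (h : Fin k → G) : Fin k → Mat N := fun s => (L.rho (h s) : Mat N)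

lemma cj_conj_cont (h : Fin k → G) : Continuous fun g : G => fun s => g⁻¹ * h s * g :=
  continuous_pi fun _ => (continuous_inv.mul continuous_const).mul continuous_id

lemma rr_cont (M0 : Fin k → Mat N) : Continuous fun h : Fin k → G => rr M0 (mts L h) := by
  unfold rr mts
  refine continuous_finsetSum _ fun s _ => continuous_finsetSum _ fun i _ =>
    continuous_finsetSum _ fun j _ => ?_
  have h1 : Continuous fun h : Fin k → G => (L.rho (h s) : Mat N) i j :=
    (ent_cont L.cont i j).comp (continuous_apply s)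
  exact ((h1.sub continuous_const).norm).pow 2

lemma cut_cont (M0 : Fin k → Mat N) (δ : ℝ) :
    Continuous fun h : Fin k → G => cut M0 δ (mts L h) := by
  unfold cut
  exact Real.smoothTransition.continuous.comp
    (continuous_const.sub ((rr_cont L M0).div_const δ))

/-- averages -/
def AP (P : (Fin k → G) → ℂ) (B : Matrix (Fin q) (Fin p) ℂ) (κ' : Fin q) (κ : Fin p)
    (h : Fin k → G) : ℂ :=
  ∫ g, P (fun s => g⁻¹ * h s * g) * cc ρ₁ ρ₂ B g κ' κ ∂μ

variable {ρ₁ ρ₂}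

lemma AP_equi (h₁ : Continuous ρ₁) (h₂ : Continuous ρ₂) {P : (Fin k → G) → ℂ}
    (hP : Continuous P) (B : Matrix (Fin q) (Fin p) ℂ) (a : G) (h : Fin k → G) :
    (Matrix.of fun κ' κ => AP μ ρ₁ ρ₂ P B κ' κ (fun s => a * h s * a⁻¹)) =
      (ρ₂ a : Mat q) * (Matrix.of fun κ' κ => AP μ ρ₁ ρ₂ P B κ' κ h) * (ρ₁ a : Mat p)ᴴ := by
  ext κ' κ
  rw [Matrix.of_apply]
  unfold AP
  rw [← integral_mul_left_eq_self (μ := μ) (fun g => P (fun s =>
    g⁻¹ * (a * h s * a⁻¹) * g) * cc ρ₁ ρ₂ B g κ' κ) a]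
  have h3 : ∀ g, (fun s => (a * g)⁻¹ * (a * h s * a⁻¹) * (a * g)) = fun s => g⁻¹ * h s * g := by
    intro g; funext s; group
  simp only [h3, cc_mul, Matrix.mul_apply, Matrix.of_apply, Finset.mul_sum, Finset.sum_mul]
  have hPc : Continuous fun g : G => P (fun s => g⁻¹ * h s * g) := hP.comp (cj_conj_cont h)
  have hci : ∀ j i, Continuous fun g : G => P (fun s => g⁻¹ * h s * g) *
      ((ρ₂ a : Mat q) κ' i * cc ρ₁ ρ₂ B g i j * (ρ₁ a : Mat p)ᴴ j κ) := fun j i =>
    hPc.mul ((continuous_const.mul (cc_ent ρ₁ ρ₂ h₁ h₂ B i j)).mul continuous_const)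
  rw [integral_finsetSum]
  · refine Finset.sum_congr rfl fun j _ => ?_
    rw [integral_finsetSum]
    · refine Finset.sum_congr rfl fun i _ => ?_
      rw [← integral_const_mul, ← integral_mul_const]
      refine integral_congr_ae (Eventually.of_forall fun g => ?_)
      show _ = _
      ring
    · intro i _
      exact ic μ (hci j i)
  · intro j _
    exact ic μ (continuous_finsetSum _ fun i _ => hci j i)

/-- the diagonal -/
def dg (G : Type) [Group G] (k : ℕ) : G →* (Fin k → G) where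
  toFun := fun g _ => g
  map_one' := rfl
  map_mul' := fun _ _ => rfl

lemma dg_cont : Continuous (dg G k) := continuous_pi fun _ => continuous_id

lemma AP_Pl (h₁ : Continuous ρ₁) (h₂ : Continuous ρ₂) {P : (Fin k → G) → ℂ} {m : ℕ}
    (hP : Pl L.rho m P) (B : Matrix (Fin q) (Fin p) ℂ) (κ' : Fin q) (κ : Fin p) :
    Pl L.rho m (AP μ ρ₁ ρ₂ P B κ' κ) := by
  obtain ⟨C, hC⟩ := hP
  have hD := Dm_UR (E := Fin k) L.rho L.cont m
  set c : ((Fin m → I1 (Fin k) N) × (Fin m → I1 (Fin k) N)) → G → ℂ := fun r g =>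
    (∑ x, C x * (Dm L.rho m (dg G k g⁻¹) x.1 r.1 * Dm L.rho m (dg G k g) r.2 x.2)) *
      cc ρ₁ ρ₂ B g κ' κ with hc
  have hcc : ∀ r, Continuous (c r) := by
    intro r
    refine Continuous.mul (continuous_finsetSum _ fun x _ => continuous_const.mul ?_)
      (cc_ent ρ₁ ρ₂ h₁ h₂ B κ' κ)
    exact ((hD.cont _ _).comp (dg_cont.comp continuous_inv)).mul ((hD.cont _ _).comp dg_cont)
  refine ⟨fun r => ∫ g, c r g ∂μ, fun h => ?_⟩
  unfold AP
  have h1 : ∀ g, P (fun s => g⁻¹ * h s * g) * cc ρ₁ ρ₂ B g κ' κ =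
      ∑ r, c r g * mc (Dm L.rho m) r h := by
    intro g
    have h2 : (fun s => g⁻¹ * h s * g) = dg G k g⁻¹ * h * dg G k g := rfl
    rw [h2, hC]
    have h3 : ∀ x, mc (Dm L.rho m) x (dg G k g⁻¹ * h * dg G k g) =
        ∑ r : (Fin m → I1 (Fin k) N) × (Fin m → I1 (Fin k) N),
          (Dm L.rho m (dg G k g⁻¹) x.1 r.1 * Dm L.rho m (dg G k g) r.2 x.2) *
            mc (Dm L.rho m) r h := by
      intro x
      unfold mc
      rw [hD.mul, hD.mul, Matrix.mul_apply, Fintype.sum_prod_type, Finset.sum_comm]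
      refine Finset.sum_congr rfl fun b _ => ?_
      rw [Matrix.mul_apply, Finset.sum_mul]
      exact Finset.sum_congr rfl fun a _ => by ring
    simp only [h3, Finset.mul_sum, Finset.sum_mul]
    rw [Finset.sum_comm]
    refine Finset.sum_congr rfl fun r _ => ?_
    rw [hc]
    simp only [Finset.sum_mul]
    exact Finset.sum_congr rfl fun x _ => by ring
  simp only [h1]
  have hcm : ∀ r, Continuous fun g => c r g * mc (Dm L.rho m) r h := fun r =>
    (hcc r).mul continuous_const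
  rw [integral_finsetSum _ fun r _ => ic μ (hcm r)]
  exact Finset.sum_congr rfl fun r _ => integral_mul_const _ _

/-- the polynomials as a star algebra -/
def PA (L : Emb G N) (k : ℕ) : StarSubalgebra ℂ C(Fin k → G, ℂ) where
  carrier := {f | ∃ m, Pl L.rho m (f : (Fin k → G) → ℂ)}
  mul_mem' := by
    rintro f g ⟨m, hf⟩ ⟨n, hg⟩
    exact ⟨m + n, hf.mul L.rho hg⟩
  one_mem' := ⟨0, Pl.one L.rho 0⟩
  add_mem' := by
    rintro f g ⟨m, hf⟩ ⟨n, hg⟩
    exact ⟨max m n, (hf.mono L.rho (le_max_left _ _)).add (hg.mono L.rho (le_max_right _ _))⟩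
  zero_mem' := ⟨0, SP.zero⟩
  algebraMap_mem' := fun c => ⟨0, Pl.const L.rho 0 c⟩
  star_mem' := by
    rintro f ⟨m, hf⟩
    exact ⟨m, hf.cj L.rho⟩

lemma approx (L : Emb G N) {F : (Fin k → G) → ℂ} (hF : Continuous F) {ε : ℝ} (hε : 0 < ε) :
    ∃ (m : ℕ) (P : (Fin k → G) → ℂ), Pl L.rho m P ∧ Continuous P ∧ ∀ h, ‖P h - F h‖ < ε := by
  have hsep : (PA L k).SeparatesPoints := by
    intro x y hxy
    obtain ⟨s, hs⟩ := Function.ne_iff.1 hxy
    have h1 : (L.rho (x s) : Mat N) ≠ (L.rho (y s) : Mat N) := fun h =>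
      hs (L.inj (Subtype.ext h))
    obtain ⟨i, j, hij⟩ : ∃ i j, (L.rho (x s) : Mat N) i j ≠ (L.rho (y s) : Mat N) i j := by
      by_contra hcon
      push Not at hcon
      exact h1 (Matrix.ext hcon)
    let f : C(Fin k → G, ℂ) :=
      ⟨fun h => (L.rho (h s) : Mat N) i j, (ent_cont L.cont i j).comp (continuous_apply s)⟩
    refine ⟨f, ⟨f, ?_, rfl⟩, hij⟩
    exact ⟨1, Pl.ent L.rho s i j⟩
  have hd := ContinuousMap.starSubalgebra_topologicalClosure_eq_top_of_separatesPoints (PA L k) hsep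
  have h1 : (⟨F, hF⟩ : C(Fin k → G, ℂ)) ∈ (PA L k).topologicalClosure := by
    rw [hd]
    trivial
  have h2 : (⟨F, hF⟩ : C(Fin k → G, ℂ)) ∈ closure (PA L k : Set C(Fin k → G, ℂ)) := h1
  obtain ⟨P, ⟨m, hm⟩, hP⟩ := Metric.mem_closure_iff.1 h2 ε hε
  refine ⟨m, P, hm, P.continuous, fun h => ?_⟩
  have h3 := ContinuousMap.dist_lt_iff hε |>.1 hP h
  rw [dist_comm, dist_eq_norm] at h3
  exact h3

/-- at a generic tuple, `A(h) v ≠ 0` for some `A` of the family -/
lemma AP_pos [μ.IsOpenPosMeasure] [NeZero q] (h₁ : Continuous ρ₁) (h₂ : Continuous ρ₂)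
    (hcen : ∀ z ∈ Subgroup.center G, ∃ c : ℂ, (ρ₁ z : Mat p) = c • 1 ∧ (ρ₂ z : Mat q) = c • 1)
    {h0 : Fin k → G} (hh0 : ∀ g : G, (∀ s, g * h0 s = h0 s * g) → g ∈ Subgroup.center G)
    {v : Fin p → ℂ} (hv : v ≠ 0) :
    ∃ (m : ℕ) (P : (Fin k → G) → ℂ) (B : Matrix (Fin q) (Fin p) ℂ), Pl L.rho m P ∧
      Continuous P ∧ ∑ κ, AP μ ρ₁ ρ₂ P B 0 κ h0 * v κ ≠ 0 := by
  set B : Matrix (Fin q) (Fin p) ℂ := Matrix.of fun i j =>
    if i = 0 then (starRingEnd ℂ) (v j) else 0 with hB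
  set D : G → ℂ := fun g => ∑ κ, cc ρ₁ ρ₂ B g 0 κ * v κ with hD
  have hDc : Continuous D := continuous_finsetSum _ fun κ _ =>
    (cc_ent ρ₁ ρ₂ h₁ h₂ B 0 κ).mul continuous_const
  -- the value on the centre
  have hccz : ∀ z ∈ Subgroup.center G, cc ρ₁ ρ₂ B z = B := by
    intro z hz
    obtain ⟨c, hc1, hc2⟩ := hcen z hz
    have hunit : (ρ₂ z : Mat q)ᴴ * (ρ₂ z : Mat q) = 1 := by
      have := (ρ₂ z).2
      rw [Matrix.mem_unitaryGroup_iff'] at this
      exact this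
    have hcc : (starRingEnd ℂ) c * c = 1 := by
      rw [hc2] at hunit
      have h3 := congrFun (congrFun hunit 0) 0
      rw [Matrix.conjTranspose_smul, Matrix.conjTranspose_one, Matrix.smul_mul, Matrix.one_mul,
        smul_smul] at h3
      simpa using h3
    unfold cc
    rw [hc1, hc2, Matrix.conjTranspose_smul, Matrix.conjTranspose_one, Matrix.smul_mul,
      Matrix.one_mul, Matrix.mul_smul, Matrix.mul_one, smul_smul]
    show ((starRingEnd ℂ) c * c) • B = B
    rw [hcc, one_smul]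
  have hvpos : 0 < ∑ κ, ‖v κ‖ ^ 2 := by
    refine lt_of_le_of_ne (Finset.sum_nonneg fun _ _ => sq_nonneg _) fun h => hv ?_
    funext κ
    have := (Finset.sum_eq_zero_iff_of_nonneg fun κ _ => sq_nonneg ‖v κ‖).1 h.symm κ
      (Finset.mem_univ _)
    exact norm_eq_zero.1 (pow_eq_zero_iff two_ne_zero |>.1 this)
  have hDz : ∀ z ∈ Subgroup.center G, 0 < (D z).re := by
    intro z hz
    have : D z = ((∑ κ, ‖v κ‖ ^ 2 : ℝ) : ℂ) := by
      have hB0 : ∀ κ, cc ρ₁ ρ₂ B z 0 κ = (starRingEnd ℂ) (v κ) := by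
        intro κ
        rw [hccz z hz, hB, Matrix.of_apply, if_pos rfl]
      simp only [hD, hB0]
      rw [Complex.ofReal_sum]
      refine Finset.sum_congr rfl fun κ _ => ?_
      rw [mul_comm, Complex.mul_conj, Complex.normSq_eq_norm_sq]
    rw [this, Complex.ofReal_re]
    exact hvpos
  -- the radius of the cut-off
  obtain ⟨δ, hδ, hδO⟩ : ∃ δ : ℝ, 0 < δ ∧ ∀ g : G,
      rr (mts L h0) (mts L fun s => g⁻¹ * h0 s * g) < δ → 0 < (D g).re := by
    have hrc : Continuous fun g : G => rr (mts L h0) (mts L fun s => g⁻¹ * h0 s * g) :=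
      (rr_cont L _).comp (cj_conj_cont h0)
    have hKc : IsCompact {g : G | (D g).re ≤ 0} :=
      (isClosed_le (Complex.continuous_re.comp hDc) continuous_const).isCompact
    by_cases hK : ({g : G | (D g).re ≤ 0}).Nonempty
    · obtain ⟨g0, hg0, hmin⟩ := hKc.exists_isMinOn hK hrc.continuousOn
      refine ⟨rr (mts L h0) (mts L fun s => g0⁻¹ * h0 s * g0), ?_, fun g hg => ?_⟩
      · refine lt_of_le_of_ne (NA.rr_nonneg _ _) fun h => ?_
        have h3 := NA.rr_zero h.symm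
        have h4 : ∀ s, g0 * h0 s = h0 s * g0 := by
          intro s
          have h5 : g0⁻¹ * h0 s * g0 = h0 s := by
            apply L.inj
            apply Subtype.ext
            exact congrFun h3 s
          calc g0 * h0 s = g0 * (g0⁻¹ * h0 s * g0) := by rw [h5]
            _ = h0 s * g0 := by group
        have h6 := hDz g0 (hh0 g0 h4)
        exact absurd hg0 (not_le.2 h6)
      · by_contra hc
        push Not at hc
        exact absurd (hmin hc) (not_le.2 hg)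
    · refine ⟨1, one_pos, fun g _ => ?_⟩
      by_contra hc
      push Not at hc
      exact hK ⟨g, hc⟩
  -- the integral with the cut-off
  set w : G → ℝ := fun g => cut (mts L h0) δ (mts L fun s => g⁻¹ * h0 s * g) with hw
  have hwc : Continuous w := (cut_cont L (mts L h0) δ).comp (cj_conj_cont h0)
  have hfc : Continuous fun g : G => (w g : ℂ) * D g :=
    (Complex.continuous_ofReal.comp hwc).mul hDc
  have h6 : 0 < ∫ g, ((w g : ℂ) * D g).re ∂μ := by
    have hrc : Continuous fun g : G => ((w g : ℂ) * D g).re := Complex.continuous_re.comp hfc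
    refine hrc.integral_pos_of_hasCompactSupport_nonneg_nonzero
      (HasCompactSupport.of_compactSpace _) (fun g => ?_) (x := 1) ?_
    · show 0 ≤ ((w g : ℂ) * D g).re
      rw [Complex.re_ofReal_mul]
      by_cases hc : w g = 0
      · rw [hc, zero_mul]
      · exact mul_nonneg (NA.cut_nonneg _ _ _) (hδO g (NA.cut_ne hδ hc)).le
    · show ((w 1 : ℂ) * D 1).re ≠ 0
      have h7 : (fun s => (1 : G)⁻¹ * h0 s * 1) = h0 := by funext s; group
      have h8 : w 1 = 1 := by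
        rw [hw]
        show cut (mts L h0) δ (mts L fun s => (1 : G)⁻¹ * h0 s * 1) = 1
        rw [h7]
        exact NA.cut_self _ _
      rw [h8, Complex.ofReal_one, one_mul]
      exact (hDz 1 (Subgroup.one_mem _)).ne'
  have h7 : ∫ g, ((w g : ℂ) * D g).re ∂μ = (∫ g, (w g : ℂ) * D g ∂μ).re :=
    integral_re (𝕜 := ℂ) (ic μ hfc)
  rw [h7] at h6
  set I := (∫ g, (w g : ℂ) * D g ∂μ).re with hI
  obtain ⟨K, hK0, hK⟩ := cbdd hDc
  -- approximation
  obtain ⟨m, P, hPm, hPc, hPa⟩ := approx L (F := fun h => (cut (mts L h0) δ (mts L h) : ℂ))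
    (Complex.continuous_ofReal.comp (cut_cont L _ δ)) (ε := I / (K + 1)) (by positivity)
  refine ⟨m, P, B, hPm, hPc, fun hz => ?_⟩
  have h5 : ∑ κ, AP μ ρ₁ ρ₂ P B 0 κ h0 * v κ =
      ∫ g, P (fun s => g⁻¹ * h0 s * g) * D g ∂μ := by
    unfold AP
    simp only [hD, Finset.mul_sum]
    rw [integral_finsetSum]
    · refine Finset.sum_congr rfl fun κ _ => ?_
      rw [← integral_mul_const]
      refine integral_congr_ae (Eventually.of_forall fun g => ?_)
      show _ = _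
      ring
    · intro κ _
      exact ic μ ((hPc.comp (cj_conj_cont h0)).mul
        ((cc_ent ρ₁ ρ₂ h₁ h₂ B 0 κ).mul continuous_const))
  rw [h5] at hz
  have h8 : ∫ g, (w g : ℂ) * D g ∂μ =
      ∫ g, ((w g : ℂ) - P (fun s => g⁻¹ * h0 s * g)) * D g ∂μ := by
    have e1 : ∀ g, ((w g : ℂ) - P (fun s => g⁻¹ * h0 s * g)) * D g =
        (w g : ℂ) * D g - P (fun s => g⁻¹ * h0 s * g) * D g := fun g => by ring
    simp only [e1]
    have hPD : Continuous fun g : G => P (fun s => g⁻¹ * h0 s * g) * D g :=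
      (hPc.comp (cj_conj_cont h0)).mul hDc
    rw [integral_sub (ic μ hfc) (ic μ hPD), hz, sub_zero]
  have h9 : ‖∫ g, (w g : ℂ) * D g ∂μ‖ ≤ I / (K + 1) * K := by
    rw [h8]
    refine (norm_integral_le_of_norm_le_const (C := I / (K + 1) * K)
      (Filter.Eventually.of_forall fun g => ?_)).trans (le_of_eq ?_)
    · rw [norm_mul]
      refine mul_le_mul ?_ (hK g) (norm_nonneg _) (by positivity)
      rw [norm_sub_rev]
      exact (hPa _).le
    · simp
  have h10 : I ≤ ‖∫ g, (w g : ℂ) * D g ∂μ‖ := Complex.re_le_norm _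
  have h11 : I / (K + 1) * K < I := by
    rw [div_mul_eq_mul_div, div_lt_iff₀ (by positivity)]
    nlinarith
  linarith

/-- **The equivariant family.** -/
theorem family2 [μ.IsOpenPosMeasure] [NeZero q] (h₁ : Continuous ρ₁) (h₂ : Continuous ρ₂)
    (hcen : ∀ z ∈ Subgroup.center G, ∃ c : ℂ, (ρ₁ z : Mat p) = c • 1 ∧ (ρ₂ z : Mat q) = c • 1)
    {h0 : Fin k → G} (hh0 : ∀ g : G, (∀ s, g * h0 s = h0 s * g) → g ∈ Subgroup.center G) :
    ∃ (A : Type) (_ : Fintype A) (_ : DecidableEq A) (d : ℕ)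
      (φ : A → (Fin k → G) → Matrix (Fin q) (Fin p) ℂ),
      (∀ a i j, Pl L.rho d fun h => φ a h i j) ∧
      (∀ a (g : G) h, φ a (fun s => g * h s * g⁻¹) =
        (ρ₂ g : Mat q) * φ a h * (ρ₁ g : Mat p)ᴴ) ∧
      ∀ᶠ h in 𝓝 h0, ∀ v : Fin p → ℂ, (∀ a i, ∑ j, φ a h i j * v j = 0) → v = 0 := by
  classical
  set S : Set (Fin p → ℂ) := Metric.sphere 0 1 with hS
  have hSc : IsCompact S := isCompact_sphere _ _
  have hex : ∀ v : S, ∃ (m : ℕ) (P : (Fin k → G) → ℂ) (B : Matrix (Fin q) (Fin p) ℂ),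
      Pl L.rho m P ∧ Continuous P ∧ ∑ κ, AP μ ρ₁ ρ₂ P B 0 κ h0 * v.1 κ ≠ 0 := by
    rintro ⟨v, hv⟩
    refine AP_pos L μ h₁ h₂ hcen hh0 ?_
    rintro rfl
    have : ‖(0 : Fin p → ℂ)‖ = 1 := mem_sphere_zero_iff_norm.1 hv
    rw [norm_zero] at this
    exact zero_ne_one this
  choose m P B hm hP hB using hex
  have hnc : ∀ x : S, Continuous fun y : Fin p → ℂ =>
      ∑ κ, AP μ ρ₁ ρ₂ (P x) (B x) 0 κ h0 * y κ := fun x => continuous_finsetSum _ fun κ _ =>
    continuous_const.mul (continuous_apply κ)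
  obtain ⟨t, ht⟩ := hSc.elim_finite_subcover
    (fun x : S => {y : Fin p → ℂ | ∑ κ, AP μ ρ₁ ρ₂ (P x) (B x) 0 κ h0 * y κ ≠ 0})
    (fun x => isOpen_ne_fun (hnc x) continuous_const)
    (fun y hy => Set.mem_iUnion.2 ⟨⟨y, hy⟩, hB ⟨y, hy⟩⟩)
  set d := t.sup m with hd
  set φ : t → (Fin k → G) → Matrix (Fin q) (Fin p) ℂ := fun x h =>
    Matrix.of fun i j => AP μ ρ₁ ρ₂ (P x) (B x) i j h with hφ
  have hφP : ∀ a i j, Pl L.rho d fun h => φ a h i j := fun a i j =>
    (AP_Pl L μ h₁ h₂ (hm a) (B a) i j).mono L.rho (Finset.le_sup a.2)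
  have hφc : ∀ a i j, Continuous fun h => φ a h i j := fun a i j =>
    SP.cont (Dm_UR L.rho L.cont d) (hφP a i j)
  refine ⟨t, inferInstance, inferInstance, d, φ, hφP, fun a g h => ?_, ?_⟩
  · exact AP_equi μ h₁ h₂ (hP a) (B a) g h
  · -- injectivity near `h0`
    have h1 : ∀ᶠ h in 𝓝 h0, ∀ v ∈ S, ∃ a i, ∑ j, φ a h i j * v j ≠ 0 := by
      refine hSc.eventually_forall_of_forall_eventually fun v hv => ?_
      obtain ⟨x, hx⟩ := Set.mem_iUnion.1 (ht hv)
      obtain ⟨hxt, hxy⟩ := Set.mem_iUnion.1 hx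
      have hcont : Continuous fun z : (Fin k → G) × (Fin p → ℂ) =>
          ∑ j, φ ⟨x, hxt⟩ z.1 0 j * z.2 j := continuous_finsetSum _ fun j _ =>
        ((hφc _ _ _).comp continuous_fst).mul ((continuous_apply j).comp continuous_snd)
      have h2 : ∀ᶠ z : (Fin k → G) × (Fin p → ℂ) in 𝓝 (h0, v),
          ∑ j, φ ⟨x, hxt⟩ z.1 0 j * z.2 j ≠ 0 :=
        hcont.continuousAt.eventually_ne hxy
      filter_upwards [h2] with z hz
      exact ⟨⟨x, hxt⟩, 0, hz⟩
    filter_upwards [h1] with h hh v hv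
    by_contra hv0
    have hvn : ‖v‖ ≠ 0 := norm_ne_zero_iff.2 hv0
    obtain ⟨a, i, hai⟩ := hh (((‖v‖⁻¹ : ℝ) : ℂ) • v) (by
      rw [hS, mem_sphere_zero_iff_norm, norm_smul, Complex.norm_real, norm_inv, norm_norm]
      exact inv_mul_cancel₀ hvn)
    apply hai
    have h3 : ∑ j, φ a h i j * (((‖v‖⁻¹ : ℝ) : ℂ) • v) j =
        ((‖v‖⁻¹ : ℝ) : ℂ) * ∑ j, φ a h i j * v j := by
      rw [Finset.mul_sum]
      refine Finset.sum_congr rfl fun j _ => ?_
      rw [Pi.smul_apply, smul_eq_mul]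
      ring
    rw [h3, hv a i, mul_zero]

end

end Pool.Agent.X168.PK
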