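import Mathlib
import Pool.Agent.X168.PK.Fam
import Pool.Agent.X168.PK.Abs

/-!
# Gauge theory on a graph: the comparison of the characters, and the splitting of the links
-/

open MeasureTheory Filter Topology Matrix
open scoped ComplexOrder

namespace Pool.Agent.X168.PK

set_option linter.unusedSectionVars false

noncomputable section

open NA (UU Mat hol IsPath gt)

variable {G : Type} [Group G] [TopologicalSpace G] [IsTopologicalGroup G] [CompactSpace G]
  [T2Space G] [SecondCountableTopology G] [MeasurableSpace G] [BorelSpace G]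
  {N : ℕ} (L : Emb G N)
  {E X : Type} [Fintype E] [DecidableEq E] [Fintype X] [DecidableEq X]

/-- evaluation of the gauge transformation -/
def ev (G : Type) [Group G] {E X : Type} (f : E → X) : (X → G) →* (E → G) where
  toFun := fun γ e => γ (f e)
  map_one' := rfl
  map_mul' := fun _ _ => rfl

lemma ev_cont (f : E → X) : Continuous (ev G f) := continuous_pi fun e => continuous_apply (f e)

lemma la_ev (src tgt : E → X) (γ : X → G) (U : E → G) :
    la (ev G src) (ev G tgt) γ U = gt src tgt γ U := rfl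

lemma hol_cont (w : List (E × Bool)) : Continuous fun U : E → G => hol w U := by
  induction w with
  | nil => exact continuous_const
  | cons x w ih =>
    obtain ⟨e, b⟩ := x
    cases b
    · exact (continuous_apply e).inv.mul ih
    · exact (continuous_apply e).mul ih

variable (Λ : E → Prop) [DecidablePred Λ]

/-- extension by `1` -/
def ext (Λ : E → Prop) [DecidablePred Λ] (U : {e // Λ e} → G) (e : E) : G :=
  if h : Λ e then U ⟨e, h⟩ else 1

lemma ext_cont : Continuous (ext Λ : ({e // Λ e} → G) → (E → G)) := by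
  refine continuous_pi fun e => ?_
  unfold ext
  by_cases h : Λ e
  · simp only [h, dif_pos]
    exact continuous_apply _
  · simp only [h, dif_neg, not_false_iff]
    exact continuous_const

lemma ext_ent (e : E) (i j : Fin N) :
    Pl L.rho 1 fun U : {e // Λ e} → G => (L.rho (ext Λ U e) : Mat N) i j := by
  unfold ext
  by_cases h : Λ e
  · simp only [h, dif_pos]
    exact Pl.ent L.rho _ i j
  · simp only [h, dif_neg, not_false_iff]
    exact Pl.const L.rho 1 _

variable {Λ} {p q k : ℕ} {ρ₁ : G →* UU p} {ρ₂ : G →* UU q}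

lemma rep_UR (h : Continuous ρ₁) (x : X) : UR fun c : X → G => (ρ₁ (c x) : Mat p) := by
  refine ⟨fun a b => ?_, fun a => ?_, fun i j => ?_⟩
  · show (ρ₁ (a x * b x) : Mat p) = _
    rw [map_mul]
    rfl
  · exact Matrix.mem_unitaryGroup_iff'.1 (ρ₁ (a x)).2
  · exact (ent_cont h i j).comp (continuous_apply x)

/-- the action on the links of `Λ` is compatible with the extension -/
lemma hol_ext {src tgt : E → X} {x : X} {w : List (E × Bool)} (hw : IsPath src tgt x w x)
    (hwΛ : ∀ e, NA.cnt e w ≠ 0 → Λ e) (c : X → G) (U : {e // Λ e} → G) :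
    hol w (ext Λ (la (ev G fun e : {e // Λ e} => src e) (ev G fun e : {e // Λ e} => tgt e)
      c U)) = c x * hol w (ext Λ U) * (c x)⁻¹ := by
  rw [← NA.hol_gt hw]
  refine NA.hol_congr fun e he => ?_
  have h := hwΛ e he
  unfold ext NA.gt
  rw [dif_pos h]
  show _ = c (src e) * (if h : Λ e then U ⟨e, h⟩ else 1) * (c (tgt e))⁻¹
  rw [dif_pos h]
  rfl

/-- **Comparison of the characters.** -/
theorem cmp_graph [PreconnectedSpace G] (h₁ : Continuous ρ₁) (h₂ : Continuous ρ₂)
    (μ₁ : Measure ({e // Λ e} → G)) [IsProbabilityMeasure μ₁] [μ₁.IsMulLeftInvariant]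
    [μ₁.IsMulRightInvariant] (Λ₁ : Ld L.rho μ₁)
    {src tgt : E → X} {x : X} {W : Fin k → List (E × Bool)} {ℓ : ℕ}
    (hW : ∀ s, IsPath src tgt x (W s) x) (hWΛ : ∀ s e, NA.cnt e (W s) ≠ 0 → Λ e)
    (hℓ : ∀ s, (W s).length ≤ ℓ) {h0 : Fin k → G} (hsurj : ∃ U : E → G, ∀ s, hol (W s) U = h0 s)
    {A : Type} [Fintype A] [DecidableEq A] {d : ℕ}
    {φ : A → (Fin k → G) → Matrix (Fin q) (Fin p) ℂ}
    (hφ : ∀ a i j, Pl L.rho d fun h => φ a h i j)
    (hφe : ∀ a (g : G) h, φ a (fun s => g * h s * g⁻¹) =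
      (ρ₂ g : Mat q) * φ a h * (ρ₁ g : Mat p)ᴴ)
    (hφi : ∀ᶠ h in 𝓝 h0, ∀ v : Fin p → ℂ, (∀ a i, ∑ j, φ a h i j * v j = 0) → v = 0) (m : ℕ) :
    Gm fun c : X → G => ((Fintype.card A : ℕ) : ℂ) *
      (Λ₁.τ (ev G fun e : {e // Λ e} => src e) (ev G fun e : {e // Λ e} => tgt e)
        (m + d * ℓ) c * trace (ρ₂ (c x) : Mat q)) -
      Λ₁.τ (ev G fun e : {e // Λ e} => src e) (ev G fun e : {e // Λ e} => tgt e) m c *
        trace (ρ₁ (c x) : Mat p) := by
  have hc : Continuous fun U : {e // Λ e} → G => fun s => hol (W s) (ext Λ U) :=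
    continuous_pi fun s => (hol_cont (W s)).comp (ext_cont Λ)
  have hhol : ∀ (s : Fin k) i j, Pl L.rho ℓ fun U : {e // Λ e} → G =>
      (L.rho (hol (W s) (ext Λ U)) : Mat N) i j := by
    intro s i j
    have h1 := Pl.comp L.rho (Pl.hol L.rho (W s) i j) (h := ext Λ) (l := 1)
      fun e i j => ext_ent L Λ e i j
    rw [mul_one] at h1
    exact h1.mono L.rho (hℓ s)
  refine compare μ₁ (ev_cont _) (ev_cont _) (Dm_UR L.rho L.cont m) (Λ₁.onb m)
    (Dm_UR L.rho L.cont (m + d * ℓ)) (Λ₁.onb (m + d * ℓ)) (rep_UR h₁ x) (rep_UR h₂ x)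
    (φ := fun a U => φ a fun s => hol (W s) (ext Λ U)) ?_ ?_ ?_
  · intro a c U
    show (φ a fun s => hol (W s) (ext Λ (la _ _ c U))) = _
    have h1 : (fun s => hol (W s) (ext Λ (la (ev G fun e : {e // Λ e} => src e)
        (ev G fun e : {e // Λ e} => tgt e) c U))) =
        fun s => c x * hol (W s) (ext Λ U) * (c x)⁻¹ :=
      funext fun s => hol_ext (hW s) (hWΛ s) c U
    rw [h1, hφe a (c x) fun s => hol (W s) (ext Λ U)]
  · intro a i j f hf
    have h1 := Pl.comp L.rho (hφ a i j) (h := fun U s => hol (W s) (ext Λ U)) hhol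
    have h2 := Pl.mul L.rho (show Pl L.rho m f from hf) h1
    have h3 : (fun U => φ a (fun s => hol (W s) (ext Λ U)) i j * f U) =
        fun U => f U * φ a (fun s => hol (W s) (ext Λ U)) i j := funext fun U => mul_comm _ _
    rw [h3]
    exact h2
  · intro F hF hz j
    obtain ⟨U0, hU0⟩ := hsurj
    set V0 : {e // Λ e} → G := fun e => U0 e with hV0
    have hV : (fun s => hol (W s) (ext Λ V0)) = h0 := by
      funext s
      rw [← hU0 s]
      refine NA.hol_congr fun e he => ?_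
      unfold ext
      rw [dif_pos (hWΛ s e he)]
    have h1 : ∀ᶠ U in 𝓝 V0, ∀ v : Fin p → ℂ,
        (∀ a i, ∑ j, φ a (fun s => hol (W s) (ext Λ U)) i j * v j = 0) → v = 0 := by
      have h2 : Tendsto (fun U : {e // Λ e} → G => fun s => hol (W s) (ext Λ U)) (𝓝 V0)
          (𝓝 h0) := by
        have := hc.tendsto V0
        rwa [hV] at this
      exact h2.eventually hφi
    obtain ⟨O, hOs, hO, hV0O⟩ := eventually_nhds_iff.1 h1
    refine ident2 (Dm_UR L.rho L.cont m) (hF j) hO ⟨V0, hV0O⟩ fun U hU => ?_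
    exact congrFun (hOs U hU (fun j => F j U) fun a i => hz a U i) j

/-! ### splitting of the links -/

section transfer

variable {Ω Ω' Γ : Type} [TopologicalSpace Ω] [MeasurableSpace Ω] [TopologicalSpace Ω']
  [MeasurableSpace Ω'] [MeasurableSpace Γ]

lemma it_map {ν : Measure Ω} {ν' : Measure Ω'} (Φ : Ω ≃ᵐ Ω') (hΦ : MeasurePreserving Φ ν ν')
    {K : Ω → Ω → ℂ} {K' : Ω' → Ω' → ℂ} (hK : ∀ U V, K U V = K' (Φ U) (Φ V)) {M : Ω → ℝ}
    {M' : Ω' → ℝ} (hM : ∀ U, M U = M' (Φ U)) (n : ℕ) (U V : Ω) :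
    it ν K M n U V = it ν' K' M' n (Φ U) (Φ V) := by
  induction n generalizing V with
  | zero => exact hK U V
  | succ n ih =>
    show ∫ W, it ν K M n U W * (M W : ℂ) * K W V ∂ν =
      ∫ W, it ν' K' M' n (Φ U) W * (M' W : ℂ) * K' W (Φ V) ∂ν'
    rw [← hΦ.integral_comp' (g := fun W => it ν' K' M' n (Φ U) W * (M' W : ℂ) * K' W (Φ V))]
    refine integral_congr_ae (Filter.Eventually.of_forall fun W => ?_)
    show it ν K M n U W * (M W : ℂ) * K W V = _
    rw [ih, hM, hK]

lemma Zg_map {ν : Measure Ω} {ν' : Measure Ω'} (μ : Measure Γ) (Φ : Ω ≃ᵐ Ω')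
    (hΦ : MeasurePreserving Φ ν ν')
    {K : Ω → Ω → ℂ} {K' : Ω' → Ω' → ℂ} (hK : ∀ U V, K U V = K' (Φ U) (Φ V)) {M : Ω → ℝ}
    {M' : Ω' → ℝ} (hM : ∀ U, M U = M' (Φ U)) {act : Γ → Ω → Ω} {act' : Γ → Ω' → Ω'}
    (ha : ∀ c U, Φ (act c U) = act' c (Φ U)) (g : Γ → ℂ) (n : ℕ) :
    Zg ν μ act g K M n = Zg ν' μ act' g K' M' n := by
  unfold Zg
  refine integral_congr_ae (Filter.Eventually.of_forall fun c => ?_)
  show g c * _ = g c * _
  congr 1
  rw [← hΦ.integral_comp' (g := fun U => (M' U : ℂ) * it ν' K' M' n U (act' c U))]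
  refine integral_congr_ae (Filter.Eventually.of_forall fun U => ?_)
  show (M U : ℂ) * it ν K M n U (act c U) = _
  rw [it_map Φ hΦ hK hM, hM, ha]

end transfer

lemma rt_split (π : G →* UU N) (Λ : E → Prop) [DecidablePred Λ] (U : E → G) :
    rt π U = rt π (fun e : {e // Λ e} => U e) + rt π (fun e : {e // ¬ Λ e} => U e) := by
  unfold rt
  rw [← Fintype.sum_subtype_add_sum_subtype Λ]

end

end Pool.Agent.X168.PK
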