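import Mathlib
import Pool.Agent.X168.PK.Grp

/-!
# The comparison theorem on a graph
-/

open MeasureTheory Filter Topology Matrix
open scoped ComplexOrder

namespace Pool.Agent.X168.PK

set_option linter.unusedSectionVars false

noncomputable section

open NA (UU Mat hol IsPath gt)

variable {G : Type} [Group G] [TopologicalSpace G] [IsTopologicalGroup G] [CompactSpace G]
  [T2Space G] [SecondCountableTopology G] [MeasurableSpace G] [BorelSpace G]
  {N : ℕ} (L : Emb G N) (μ : Measure G) [IsProbabilityMeasure μ] [μ.IsMulLeftInvariant]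
  [μ.IsMulRightInvariant] [μ.IsOpenPosMeasure]
  {E X : Type} [Fintype E] [DecidableEq E] [Fintype X] [DecidableEq X]

lemma pi_right {E : Type} [Fintype E] :
    (Measure.pi fun _ : E => μ).IsMulRightInvariant := by
  refine ⟨fun g => ?_⟩
  have h := measurePreserving_pi (fun _ : E => μ) (fun _ : E => μ)
    (f := fun e x => x * g e) fun e => measurePreserving_mul_right μ (g e)
  exact h.map_eq

lemma pi_left {E : Type} [Fintype E] :
    (Measure.pi fun _ : E => μ).IsMulLeftInvariant := by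
  refine ⟨fun g => ?_⟩
  have h := measurePreserving_pi (fun _ : E => μ) (fun _ : E => μ)
    (f := fun e x => g e * x) fun e => measurePreserving_mul_left μ (g e)
  exact h.map_eq

/-- the twisted traces on the graph -/
def zf (μ : Measure G) (src tgt : E → X) (g : (X → G) → ℂ) (M : (E → G) → ℝ) (β : ℝ) (n : ℕ) : ℝ :=
  (Zg (Measure.pi fun _ : E => μ) (Measure.pi fun _ : X => μ) (la (ev G src) (ev G tgt)) g
    (kE L.rho β) M n).re

/-- restriction to the complement of `Λ` -/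
def rs (Λ : E → Prop) (U : E → G) : {e // ¬ Λ e} → G := fun e => U e

/-- the two parts of a configuration -/
def jn (Λ : E → Prop) [DecidablePred Λ] (f : ({e // Λ e} → G) × ({e // ¬ Λ e} → G)) (e : E) : G :=
  if h : Λ e then f.1 ⟨e, h⟩ else f.2 ⟨e, h⟩

lemma jn_cont (Λ : E → Prop) [DecidablePred Λ] :
    Continuous (jn Λ : ({e // Λ e} → G) × ({e // ¬ Λ e} → G) → E → G) := by
  refine continuous_pi fun e => ?_
  unfold jn
  by_cases h : Λ e
  · simp only [h, dif_pos]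
    exact (continuous_apply _).comp continuous_fst
  · simp only [h, dif_neg, not_false_iff]
    exact (continuous_apply _).comp continuous_snd

lemma jn_left (Λ : E → Prop) [DecidablePred Λ] (U : E → G) :
    jn Λ ((fun e => U e), (fun e => U e)) = U := by
  funext e
  unfold jn
  split_ifs <;> rfl

lemma jn_rs (Λ : E → Prop) [DecidablePred Λ] (f : ({e // Λ e} → G) × ({e // ¬ Λ e} → G)) :
    rs Λ (jn Λ f) = f.2 := by
  funext e
  unfold rs jn
  rw [dif_neg e.2]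

lemma jn_fst (Λ : E → Prop) [DecidablePred Λ] (f : ({e // Λ e} → G) × ({e // ¬ Λ e} → G)) :
    (fun e : {e // Λ e} => jn Λ f e) = f.1 := by
  funext e
  unfold jn
  rw [dif_pos e.2]

/-- **Comparison on a graph.** -/
theorem graph_main [PreconnectedSpace G] {p q k kk : ℕ} {ρ₁ : G →* UU p} {ρ₂ : G →* UU q}
    (h₁ : Continuous ρ₁) (h₂ : Continuous ρ₂) {src tgt : E → X} {x : X}
    {W : Fin k → List (E × Bool)} {ℓ : ℕ} {Λ : E → Prop} [DecidablePred Λ]
    (hW : ∀ s, IsPath src tgt x (W s) x) (hWΛ : ∀ s e, NA.cnt e (W s) ≠ 0 → Λ e)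
    (hℓ : ∀ s, (W s).length ≤ ℓ) {h0 : Fin k → G} (hsurj : ∃ U : E → G, ∀ s, hol (W s) U = h0 s)
    {A : Type} [Fintype A] [DecidableEq A] {d : ℕ}
    {φ : A → (Fin k → G) → Matrix (Fin q) (Fin p) ℂ}
    (hφ : ∀ a i j, Pl L.rho d fun h => φ a h i j)
    (hφe : ∀ a (g : G) h, φ a (fun s => g * h s * g⁻¹) =
      (ρ₂ g : Mat q) * φ a h * (ρ₁ g : Mat p)ᴴ)
    (hφi : ∀ᶠ h in 𝓝 h0, ∀ v : Fin p → ℂ, (∀ a i, ∑ j, φ a h i j * v j = 0) → v = 0)
    {B : Type} [Fintype B] [DecidableEq B] {Q : (X → G) → Matrix B B ℂ} (hQ : UR Q)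
    {β R b : ℝ} (hβ : 0 < β) (hR : (Fintype.card (I1 {e // Λ e} N) : ℝ) ≤ R) (hb : 0 < b)
    {M : (E → G) → ℝ} (hM : Continuous M) (hMi : ∀ c U, M (gt src tgt c U) = M U)
    (hM0 : ∀ U, 0 ≤ M U) {M₂ : ({e // ¬ Λ e} → G) → ℝ} (hM₂ : Continuous M₂)
    (hMi₂ : ∀ c U, M₂ (gt (fun e : {e // ¬ Λ e} => src e) (fun e => tgt e) c U) = M₂ U)
    (hM₂0 : ∀ U, 0 ≤ M₂ U) (hle : ∀ U, M U ≤ b * M₂ (rs Λ U)) (hge : ∀ U, M₂ (rs Λ U) ≤ b * M U)
    {H : ℝ} (hH0 : 0 ≤ H) (hH : ∀ m : ℕ, ((2:ℝ) ^ (m + 1)) ^ (kk + 1) *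
      (BB β R m) ^ (kk + 1) * (UB β R b (Fintype.card A : ℕ) (d * ℓ) m) ^ kk *
        VB β R b (p * Fintype.card B : ℕ) m ≤ H) (n : ℕ) :
    (zf L μ src tgt (fun c => trace (ρ₁ (c x) : Mat p) * trace (Q c)) M β n) ^ (kk + 1) ≤
      (b ^ (kk + 1) * H) ^ (n + 1) *
        ((zf L μ src tgt (fun c => trace (ρ₂ (c x) : Mat q) * trace (Q c)) M β n) ^ kk *
          zf L μ src tgt (fun _ => 1) M β n) := by
  have r0 := pi_right μ (E := X)
  have l0 := pi_left μ (E := X)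
  have r1 := pi_right μ (E := {e // Λ e})
  have l1 := pi_left μ (E := {e // Λ e})
  have r2 := pi_right μ (E := {e // ¬ Λ e})
  have l2 := pi_left μ (E := {e // ¬ Λ e})
  obtain ⟨Λ₁⟩ := exists_Ld L.rho L.cont (Measure.pi fun _ : {e // Λ e} => μ)
  obtain ⟨Λ₂⟩ := exists_Ld L.rho L.cont (Measure.pi fun _ : {e // ¬ Λ e} => μ)
  set Φ := MeasurableEquiv.piEquivPiSubtypeProd (fun _ : E => G) Λ with hΦdef
  have hΦ : MeasurePreserving Φ (Measure.pi fun _ : E => μ)
      ((Measure.pi fun _ : {e // Λ e} => μ).prod (Measure.pi fun _ : {e // ¬ Λ e} => μ)) :=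
    measurePreserving_piEquivPiSubtypeProd (fun _ : E => μ) Λ
  have hΦv : ∀ U, Φ U = ((fun e : {e // Λ e} => U e), (fun e : {e // ¬ Λ e} => U e)) :=
    fun U => rfl
  have key : ∀ g : (X → G) → ℂ, zf L μ src tgt g M β n =
      zz (Measure.pi fun _ : X => μ) (Measure.pi fun _ : {e // Λ e} => μ)
        (Measure.pi fun _ : {e // ¬ Λ e} => μ) L.rho (ev G fun e : {e // Λ e} => src e)
        (ev G fun e : {e // Λ e} => tgt e) (ev G fun e : {e // ¬ Λ e} => src e)
        (ev G fun e : {e // ¬ Λ e} => tgt e) g (fun U => M (jn Λ U)) β n := by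
    intro g
    unfold zf zz
    rw [Zg_map (Measure.pi fun _ : X => μ) Φ hΦ (K' := pk (kE L.rho β) (kE L.rho β))
      (M' := fun U => M (jn Λ U)) (act' := pa (la (ev G fun e : {e // Λ e} => src e)
        (ev G fun e : {e // Λ e} => tgt e)) (la (ev G fun e : {e // ¬ Λ e} => src e)
        (ev G fun e : {e // ¬ Λ e} => tgt e))) ?_ ?_ ?_]
    · intro U V
      unfold pk kE
      rw [← Complex.ofReal_mul, ← Real.exp_add, rt_split L.rho Λ (U * V⁻¹), mul_add]
      rfl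
    · intro U
      rw [hΦv, jn_left]
    · intro c U
      rfl
  rw [key, key, key]
  refine main_abs (μ₁ := Measure.pi fun _ : {e // Λ e} => μ)
    (μ₂ := Measure.pi fun _ : {e // ¬ Λ e} => μ) L.cont (Measure.pi fun _ : X => μ)
    (ev_cont _) (ev_cont _) (ev_cont _) (ev_cont _) Λ₁ Λ₂ hM₂ hMi₂ hM₂0 hβ
    (P := fun c : X → G => (ρ₁ (c x) : Mat p)) (P' := fun c : X → G => (ρ₂ (c x) : Mat q))
    (rep_UR h₁ x) (rep_UR h₂ x) hQ hR hb (M := fun U => M (jn Λ U))
    (hM.comp (jn_cont Λ)) ?_ (fun U => hM0 _) ?_ ?_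
    (a := Fintype.card A) (d := d * ℓ) (q := p * Fintype.card B) ?_ ?_ hH0 hH n
  · intro c U
    show M (jn Λ (pa _ _ c U)) = M (jn Λ U)
    rw [← hMi c (jn Λ U)]
    congr 1
    funext e
    show (if h : Λ e then _ else _) = c (src e) * (if h : Λ e then _ else _) * (c (tgt e))⁻¹
    split_ifs <;> rfl
  · intro U
    have h := hle (jn Λ U)
    rwa [jn_rs] at h
  · intro U
    have h := hge (jn Λ U)
    rwa [jn_rs] at h
  · intro m
    exact cmp_graph L h₁ h₂ _ Λ₁ hW hWΛ hℓ hsurj hφ hφe hφi m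
  · rw [Fintype.card_fin]

end

end Pool.Agent.X168.PK
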