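import Mathlib
import Pool.Agent.X168.PK.Grp2

/-!
# The Wilson weight of a family of plaquettes
-/

open MeasureTheory Filter Topology Matrix
open scoped ComplexOrder

namespace Pool.Agent.X168.PK

set_option linter.unusedSectionVars false

noncomputable section

open NA (UU Mat hol IsPath gt)

variable {G : Type} [Group G] [TopologicalSpace G] [IsTopologicalGroup G] [CompactSpace G]
  [T2Space G] [SecondCountableTopology G] [MeasurableSpace G] [BorelSpace G]
  {N : ℕ} (L : Emb G N) (μ : Measure G) [IsProbabilityMeasure μ] [μ.IsMulLeftInvariant]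
  [μ.IsMulRightInvariant] [μ.IsOpenPosMeasure]
  {E X : Type} [Fintype E] [DecidableEq E] [Fintype X] [DecidableEq X]
  {Pq : Type} [Fintype Pq] [DecidableEq Pq]

/-- the character of the group element `g` -/
def ch (L : Emb G N) (g : G) : ℝ := (trace (L.rho g : Mat N)).re

lemma ch_cont : Continuous (ch L) := by
  unfold ch
  refine Complex.continuous_re.comp ?_
  simp only [Matrix.trace, Matrix.diag_apply]
  exact continuous_finsetSum _ fun i _ => ent_cont L.cont i i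

lemma ch_conj (g h : G) : ch L (g * h * g⁻¹) = ch L h := by
  unfold ch
  have h1 : (L.rho (g * h * g⁻¹) : Mat N) = (L.rho g : Mat N) * (L.rho h : Mat N) *
      (L.rho g⁻¹ : Mat N) := by
    rw [map_mul, map_mul]
    rfl
  have h2 : (L.rho g⁻¹ : Mat N) * (L.rho g : Mat N) = 1 := by
    have h3 : (L.rho g⁻¹ * L.rho g : UU N) = 1 := by rw [← map_mul, inv_mul_cancel, map_one]
    exact congrArg Subtype.val h3
  rw [h1, Matrix.trace_mul_comm, ← Matrix.mul_assoc, h2, Matrix.one_mul]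

lemma ch_bdd (g : G) : |ch L g| ≤ N := by
  have h1 := tr_norm (rep_UR L.cont ()) (fun _ : Unit => g)
  rw [Fintype.card_fin] at h1
  exact (Complex.abs_re_le_norm _).trans h1

/-- the Wilson weight -/
def mg (pq : Pq → List (E × Bool)) (β : ℝ) (U : E → G) : ℝ :=
  Real.exp (β * ∑ p, ch L (hol (pq p) U))

/-- the Wilson weight of the plaquettes outside `Λ` -/
def mg2 (Λ : E → Prop) [DecidablePred Λ] (pq : Pq → List (E × Bool)) (β : ℝ)
    (U : {e // ¬ Λ e} → G) : ℝ :=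
  Real.exp (β * ∑ p, if (∃ e, Λ e ∧ NA.cnt e (pq p) ≠ 0) then 0
    else ch L (hol (pq p) (ext (fun e => ¬ Λ e) U)))

lemma mg_cont (pq : Pq → List (E × Bool)) (β : ℝ) : Continuous (mg L pq β) := by
  unfold mg
  exact Real.continuous_exp.comp (continuous_const.mul (continuous_finsetSum _ fun p _ =>
    (ch_cont L).comp (hol_cont _)))

lemma mg2_cont (Λ : E → Prop) [DecidablePred Λ] (pq : Pq → List (E × Bool)) (β : ℝ) :
    Continuous (mg2 L Λ pq β) := by
  unfold mg2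
  refine Real.continuous_exp.comp (continuous_const.mul (continuous_finsetSum _ fun p _ => ?_))
  split_ifs
  · exact continuous_const
  · exact (ch_cont L).comp ((hol_cont _).comp (ext_cont _))

lemma mg_inv {src tgt : E → X} {pq : Pq → List (E × Bool)}
    (hpq : ∀ p, ∃ v, IsPath src tgt v (pq p) v) (β : ℝ) (c : X → G) (U : E → G) :
    mg L pq β (gt src tgt c U) = mg L pq β U := by
  unfold mg
  congr 2
  refine Finset.sum_congr rfl fun p _ => ?_
  obtain ⟨v, hv⟩ := hpq p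
  rw [NA.hol_gt hv, ch_conj]

lemma mg2_inv (Λ : E → Prop) [DecidablePred Λ] {src tgt : E → X} {pq : Pq → List (E × Bool)}
    (hpq : ∀ p, ∃ v, IsPath src tgt v (pq p) v) (β : ℝ) (c : X → G) (U : {e // ¬ Λ e} → G) :
    mg2 L Λ pq β (gt (fun e : {e // ¬ Λ e} => src e) (fun e => tgt e) c U) =
      mg2 L Λ pq β U := by
  unfold mg2
  congr 2
  refine Finset.sum_congr rfl fun p _ => ?_
  by_cases h : ∃ e, Λ e ∧ NA.cnt e (pq p) ≠ 0
  · rw [if_pos h, if_pos h]
  · rw [if_neg h, if_neg h]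
    push Not at h
    obtain ⟨v, hv⟩ := hpq p
    have h1 := hol_ext (Λ := fun e => ¬ Λ e) hv (fun e he hΛ => he (h e hΛ)) c U
    have h2 : hol (pq p) (ext (fun e => ¬ Λ e)
        (gt (fun e : {e // ¬ Λ e} => src e) (fun e => tgt e) c U)) =
        c v * hol (pq p) (ext (fun e => ¬ Λ e) U) * (c v)⁻¹ := h1
    rw [h2, ch_conj]

/-- comparison of the weights -/
lemma mg_cmp (Λ : E → Prop) [DecidablePred Λ] (pq : Pq → List (E × Bool)) {β : ℝ} (hβ : 0 < β)
    {t : ℕ} (ht : (Finset.univ.filter fun p => ∃ e, Λ e ∧ NA.cnt e (pq p) ≠ 0).card ≤ t)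
    (U : E → G) :
    mg L pq β U ≤ Real.exp (β * (N * t)) * mg2 L Λ pq β (rs Λ U) ∧
    mg2 L Λ pq β (rs Λ U) ≤ Real.exp (β * (N * t)) * mg L pq β U := by
  set S : ℝ := ∑ p, ch L (hol (pq p) U) with hS
  set S₂ : ℝ := ∑ p, (if (∃ e, Λ e ∧ NA.cnt e (pq p) ≠ 0) then 0
    else ch L (hol (pq p) (ext (fun e => ¬ Λ e) (rs Λ U)))) with hS₂
  have h1 : |S - S₂| ≤ N * t := by
    have h2 : S - S₂ = ∑ p, (if (∃ e, Λ e ∧ NA.cnt e (pq p) ≠ 0) then ch L (hol (pq p) U)
        else 0) := by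
      rw [hS, hS₂, ← Finset.sum_sub_distrib]
      refine Finset.sum_congr rfl fun p _ => ?_
      by_cases h : ∃ e, Λ e ∧ NA.cnt e (pq p) ≠ 0
      · rw [if_pos h, if_pos h, sub_zero]
      · rw [if_neg h, if_neg h]
        push Not at h
        have h3 : hol (pq p) (ext (fun e => ¬ Λ e) (rs Λ U)) = hol (pq p) U := by
          refine NA.hol_congr fun e he => ?_
          unfold ext rs
          rw [dif_pos fun hΛ => he (h e hΛ)]
        rw [h3, sub_self]
    rw [h2]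
    refine (Finset.abs_sum_le_sum_abs _ _).trans ?_
    have h4 : ∀ p ∈ (Finset.univ : Finset Pq),
        |if (∃ e, Λ e ∧ NA.cnt e (pq p) ≠ 0) then ch L (hol (pq p) U) else 0| ≤
        if (∃ e, Λ e ∧ NA.cnt e (pq p) ≠ 0) then (N : ℝ) else 0 := by
      intro p _
      split_ifs
      · exact ch_bdd L _
      · simp
    refine (Finset.sum_le_sum h4).trans ?_
    rw [← Finset.sum_filter, Finset.sum_const, nsmul_eq_mul, mul_comm]
    have h5 : ((Finset.univ.filter fun p => ∃ e, Λ e ∧ NA.cnt e (pq p) ≠ 0).card : ℝ) ≤ t := by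
      exact_mod_cast ht
    exact mul_le_mul_of_nonneg_left h5 (Nat.cast_nonneg N)
  rw [abs_le] at h1
  unfold mg mg2
  rw [← Real.exp_add, ← Real.exp_add, Real.exp_le_exp, Real.exp_le_exp, ← mul_add, ← mul_add]
  constructor
  · exact mul_le_mul_of_nonneg_left (by linarith [h1.1, h1.2]) hβ.le
  · exact mul_le_mul_of_nonneg_left (by linarith [h1.1, h1.2]) hβ.le

/-- **Comparison for the Wilson weight.** -/
theorem graph_wilson [PreconnectedSpace G] {p q k kk : ℕ} {ρ₁ : G →* UU p} {ρ₂ : G →* UU q}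
    (h₁ : Continuous ρ₁) (h₂ : Continuous ρ₂) {src tgt : E → X} {x : X}
    {W : Fin k → List (E × Bool)} {ℓ : ℕ} {Λ : E → Prop} [DecidablePred Λ]
    (hW : ∀ s, IsPath src tgt x (W s) x) (hWΛ : ∀ s e, NA.cnt e (W s) ≠ 0 → Λ e)
    (hℓ : ∀ s, (W s).length ≤ ℓ) {h0 : Fin k → G} (hsurj : ∃ U : E → G, ∀ s, hol (W s) U = h0 s)
    {A : Type} [Fintype A] [DecidableEq A] {d : ℕ}
    {φ : A → (Fin k → G) → Matrix (Fin q) (Fin p) ℂ}
    (hφ : ∀ a i j, Pl L.rho d fun h => φ a h i j)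
    (hφe : ∀ a (g : G) h, φ a (fun s => g * h s * g⁻¹) =
      (ρ₂ g : Mat q) * φ a h * (ρ₁ g : Mat p)ᴴ)
    (hφi : ∀ᶠ h in 𝓝 h0, ∀ v : Fin p → ℂ, (∀ a i, ∑ j, φ a h i j * v j = 0) → v = 0)
    {B : Type} [Fintype B] [DecidableEq B] {Q : (X → G) → Matrix B B ℂ} (hQ : UR Q)
    {β R : ℝ} (hβ : 0 < β) (hR : (Fintype.card (I1 {e // Λ e} N) : ℝ) ≤ R)
    {pq : Pq → List (E × Bool)} (hpq : ∀ p, ∃ v, IsPath src tgt v (pq p) v)
    {t : ℕ} (ht : (Finset.univ.filter fun p => ∃ e, Λ e ∧ NA.cnt e (pq p) ≠ 0).card ≤ t)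
    {H : ℝ} (hH0 : 0 ≤ H) (hH : ∀ m : ℕ, ((2:ℝ) ^ (m + 1)) ^ (kk + 1) *
      (BB β R m) ^ (kk + 1) * (UB β R (Real.exp (β * (N * t))) (Fintype.card A : ℕ) (d * ℓ) m) ^ kk *
        VB β R (Real.exp (β * (N * t))) (p * Fintype.card B : ℕ) m ≤ H) (n : ℕ) :
    (zf L μ src tgt (fun c => trace (ρ₁ (c x) : Mat p) * trace (Q c)) (mg L pq β) β n) ^ (kk + 1) ≤
      (Real.exp (β * (N * t)) ^ (kk + 1) * H) ^ (n + 1) *
        ((zf L μ src tgt (fun c => trace (ρ₂ (c x) : Mat q) * trace (Q c)) (mg L pq β) β n) ^ kk *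
          zf L μ src tgt (fun _ => 1) (mg L pq β) β n) :=
  graph_main L μ h₁ h₂ hW hWΛ hℓ hsurj hφ hφe hφi hQ hβ hR (Real.exp_pos _) (mg_cont L pq β)
    (fun c U => mg_inv L hpq β c U) (fun _ => (Real.exp_pos _).le) (mg2_cont L Λ pq β)
    (fun c U => mg2_inv L Λ hpq β c U) (fun _ => (Real.exp_pos _).le)
    (fun U => (mg_cmp L Λ pq hβ ht U).1) (fun U => (mg_cmp L Λ pq hβ ht U).2) hH0 hH n

end

end Pool.Agent.X168.PK
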