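import Mathlib
import Pool.Agent.X168.PK.Wil
import Pool.Agent.X168.NA.Lat

/-!
# The comparison theorem on the lattice
-/

open MeasureTheory Filter Topology Matrix
open scoped ComplexOrder

namespace Pool.Agent.X168.PK

set_option linter.unusedSectionVars false

noncomputable section

open NA (UU Mat hol IsPath gt Lk sr tg pls lps lks cp pl)

section geo

variable {D l : ℕ}

/-- plaquettes -/
abbrev Pqt (D l : ℕ) := {p : (Fin D → ZMod l) × Fin D × Fin D // p.2.1 < p.2.2}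

/-- the word of a plaquette -/
def pw (p : (Fin D → ZMod l) × Fin D × Fin D) : List (Lk D l × Bool) :=
  [((p.1, p.2.1), true), ((p.1 + Pi.single p.2.1 1, p.2.2), true),
   ((p.1 + Pi.single p.2.2 1, p.2.1), false), ((p.1, p.2.2), false)]

lemma pw_path (p : (Fin D → ZMod l) × Fin D × Fin D) : IsPath sr tg p.1 (pw p) p.1 := by
  refine ⟨rfl, rfl, ?_, rfl, rfl⟩
  show p.1 + Pi.single p.2.2 1 + Pi.single p.2.1 1 = p.1 + Pi.single p.2.1 1 + Pi.single p.2.2 1
  abel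

/-- possible base points -/
def bp (y : Lk D l × Fin 3 × Fin D × Fin D) : (Fin D → ZMod l) × Fin D × Fin D :=
  (match y.2.1 with
    | 0 => y.1.1
    | 1 => y.1.1 - Pi.single y.2.2.1 1
    | 2 => y.1.1 - Pi.single y.2.2.2 1, y.2.2.1, y.2.2.2)

lemma touch [NeZero l] (S : Finset (Lk D l)) (Λ : Lk D l → Prop) (hΛ : ∀ e, Λ e → e ∈ S)
    [DecidablePred fun p : Pqt D l => ∃ e, Λ e ∧ NA.cnt e (pw p.1) ≠ 0] :
    (Finset.univ.filter fun p : Pqt D l => ∃ e, Λ e ∧ NA.cnt e (pw p.1) ≠ 0).card ≤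
      S.card * (3 * (D * D)) := by
  classical
  rw [← Finset.card_map (Function.Embedding.subtype _)]
  have h1 : (Finset.univ.filter fun p : Pqt D l => ∃ e, Λ e ∧ NA.cnt e (pw p.1) ≠ 0).map
      (Function.Embedding.subtype _) ⊆
      (S ×ˢ (Finset.univ : Finset (Fin 3 × Fin D × Fin D))).image bp := by
    intro p hp
    rw [Finset.mem_map] at hp
    obtain ⟨p', hp', rfl⟩ := hp
    obtain ⟨e, he, hc⟩ := (Finset.mem_filter.1 hp').2
    have hm := NA.mem_of_cnt hc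
    have heS := hΛ e he
    obtain ⟨⟨x, i, j⟩, hij⟩ := p'
    have hm' : e = (x, i) ∨ e = (x + Pi.single i 1, j) ∨ e = (x + Pi.single j 1, i) ∨
        e = (x, j) := by
      simpa [pw] using hm
    rw [Finset.mem_image]
    rcases hm' with h | h | h | h
    · exact ⟨(e, 0, i, j), Finset.mem_product.2 ⟨heS, Finset.mem_univ _⟩, by rw [h]; rfl⟩
    · refine ⟨(e, 1, i, j), Finset.mem_product.2 ⟨heS, Finset.mem_univ _⟩, ?_⟩
      rw [h]
      show (x + Pi.single i 1 - Pi.single i 1, i, j) = (x, i, j)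
      rw [add_sub_cancel_right]
    · refine ⟨(e, 2, i, j), Finset.mem_product.2 ⟨heS, Finset.mem_univ _⟩, ?_⟩
      rw [h]
      show (x + Pi.single j 1 - Pi.single j 1, i, j) = (x, i, j)
      rw [add_sub_cancel_right]
    · exact ⟨(e, 0, i, j), Finset.mem_product.2 ⟨heS, Finset.mem_univ _⟩, by rw [h]; rfl⟩
  refine (Finset.card_le_card h1).trans (Finset.card_image_le.trans (le_of_eq ?_))
  rw [Finset.card_product, Finset.card_univ, Fintype.card_prod, Fintype.card_prod,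
    Fintype.card_fin, Fintype.card_fin]

lemma hol_one {G : Type} [Group G] {E : Type} [DecidableEq E] {w : List (E × Bool)} {U : E → G}
    (h : ∀ e, NA.cnt e w ≠ 0 → U e = 1) : hol w U = 1 := by
  induction w with
  | nil => rfl
  | cons x w ih =>
    obtain ⟨e, b⟩ := x
    have h1 := ih fun e' he' => h e' (by rw [NA.cnt_cons]; omega)
    have h2 : U e = 1 := h e (by rw [NA.cnt_cons]; simp)
    cases b
    · simp only [hol, h1, h2, inv_one, mul_one]
    · simp only [hol, h1, h2, mul_one]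

/-- the loops realise every tuple -/
lemma surj {G : Type} [Group G] {k : ℕ} {a b : Fin D} (hab : a ≠ b) (x : Fin D → ZMod l)
    (hk : k < l) (h0 : Fin k → G) :
    ∃ U : Lk D l → G, ∀ s, hol (lps (m := 1) (k := k) a b x (0, 0) s) U = h0 s := by
  classical
  have hl1 : 1 ≤ l := by omega
  have hinj : Function.Injective fun s : Fin k => pls (m := 1) (k := k) a b x ((0, 0), s) := by
    intro s s' hss
    have h1 := NA.pls_inj (m := 1) (k := k) hab x hl1 (by omega) hss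
    exact (Prod.mk.injEq _ _ _ _ |>.mp h1).2
  set U : Lk D l → G := Function.extend (fun s : Fin k => pls (m := 1) (k := k) a b x ((0, 0), s))
    h0 (fun _ => 1) with hU
  refine ⟨U, fun s => ?_⟩
  have hcp : ∀ i j, hol (cp a b x i j) U = 1 := by
    intro i j
    refine hol_one fun e he => ?_
    rw [hU, Function.extend_apply']
    rintro ⟨s', hs'⟩
    apply he
    have hh := NA.ht_le (m := 1) (k := k) ((0 : Fin 1), (0 : Fin 1)) s'
    have h2 : NA.ht (m := 1) (k := k) ((0 : Fin 1), (0 : Fin 1)) s' < l := by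
      have := hh.2
      omega
    rw [← hs']
    exact NA.cp_pl hab x (i' := ((0 : Fin 1) : ℕ)) hh.1 h2
  have hpl : U (pl a b x ((0 : Fin 1) : ℕ) (NA.ht (m := 1) ((0 : Fin 1), (0 : Fin 1)) s)) =
      h0 s := hinj.extend_apply h0 (fun _ => 1) s
  show hol (NA.lp a b x ((0 : Fin 1) : ℕ) (NA.ht (m := 1) ((0 : Fin 1), (0 : Fin 1)) s)) U = h0 s
  unfold NA.lp
  rw [NA.hol_append, NA.hol_append, NA.hol_rev, hcp, hcp, inv_one, mul_one, one_mul]
  show U (pl a b x _ _) * 1 = _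
  rw [mul_one, hpl]

/-- the loops at a site -/
lemma loops {G : Type} [Group G] {k : ℕ} (hD : 2 ≤ D) (x : Fin D → ZMod l)
    (hk : k < l) (h0 : Fin k → G) :
    ∃ (W : Fin k → List (Lk D l × Bool)) (S : Finset (Lk D l)),
      (∀ s, IsPath sr tg x (W s) x) ∧ (∀ s e, NA.cnt e (W s) ≠ 0 → e ∈ S) ∧
      (∀ s, (W s).length ≤ 2 * (k + 1)) ∧ (∃ U : Lk D l → G, ∀ s, hol (W s) U = h0 s) ∧
      S.card ≤ 2 * k * (k + 1) * 1 := by
  obtain ⟨a, b, hab⟩ : ∃ a b : Fin D, a ≠ b := by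
    refine ⟨⟨0, by omega⟩, ⟨1, by omega⟩, fun h => ?_⟩
    have := congrArg Fin.val h
    simp at this
  refine ⟨fun s : Fin k => lps (m := 1) (k := k) a b x (0, 0) s,
    lks (m := 1) (k := k) a b x (0, 0), fun s => NA.lp_path a b x _ _, fun s e he => ?_,
    fun s => ?_, surj hab x hk h0, NA.lks_card a b x (0, 0)⟩
  · by_contra hcon
    exact he (NA.lks_cnt (m := 1) (k := k) a b x (0, 0) hcon s)
  · show (NA.lp a b x ((0 : Fin 1) : ℕ)
      (NA.ht (m := 1) (k := k) ((0 : Fin 1), (0 : Fin 1)) s)).length ≤ 2 * (k + 1)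
    rw [NA.lp_length]
    have h1 := NA.ht_le (m := 1) (k := k) ((0 : Fin 1), (0 : Fin 1)) s
    have h2 : NA.ht (m := 1) (k := k) ((0 : Fin 1), (0 : Fin 1)) s ≤ k := by
      have := h1.2
      omega
    have h3 : ((0 : Fin 1) : ℕ) = 0 := rfl
    omega

end geo

variable {G : Type} [Group G] [TopologicalSpace G] [IsTopologicalGroup G] [CompactSpace G]
  [T2Space G] [SecondCountableTopology G] [MeasurableSpace G] [BorelSpace G]
  {N : ℕ} (L : Emb G N) (μ : Measure G) [IsProbabilityMeasure μ] [μ.IsHaarMeasure]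
  [μ.IsMulRightInvariant]

/-- **The comparison theorem on the lattice.** -/
theorem lattice_main [PreconnectedSpace G] {D : ℕ} (hD : 2 ≤ D) {p q : ℕ} [NeZero q]
    {ρ₁ : G →* UU p} {ρ₂ : G →* UU q} (h₁ : Continuous ρ₁) (h₂ : Continuous ρ₂)
    (hcen : ∀ z ∈ Subgroup.center G, ∃ c : ℂ, (ρ₁ z : Mat p) = c • 1 ∧ (ρ₂ z : Mat q) = c • 1)
    {β : ℝ} (hβ : 0 < β) (kk nB : ℕ) :
    ∃ (C : ℝ) (l₀ : ℕ), 0 < C ∧ ∀ (l : ℕ) [NeZero l], l₀ ≤ l → ∀ (x : Fin D → ZMod l)
      (B : Type) [Fintype B] [DecidableEq B], Fintype.card B = nB →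
      ∀ (Q : ((Fin D → ZMod l) → G) → Matrix B B ℂ), UR Q → ∀ n,
      (zf L μ (sr : Lk D l → _) tg (fun c => trace (ρ₁ (c x) : Mat p) * trace (Q c))
        (mg L (fun p : Pqt D l => pw p.1) β) β n) ^ (kk + 1) ≤
      C ^ (n + 1) *
        ((zf L μ (sr : Lk D l → _) tg (fun c => trace (ρ₂ (c x) : Mat q) * trace (Q c))
          (mg L (fun p : Pqt D l => pw p.1) β) β n) ^ kk *
          zf L μ (sr : Lk D l → _) tg (fun _ => 1) (mg L (fun p : Pqt D l => pw p.1) β) β n) := by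
  classical
  -- a generic tuple
  obtain ⟨k, h0, hh0⟩ : ∃ (k : ℕ) (h0 : Fin k → G), ∀ g : G, (∀ s, g * h0 s = h0 s * g) →
      g ∈ Subgroup.center G := by
    refine ⟨N * N, ?_⟩
    by_contra hcon
    push Not at hcon
    have h3 := generic L μ
    have h4 : {h : Fin (N * N) → G | ∃ g : G, (∀ s, g * h s = h s * g) ∧
        g ∉ Subgroup.center G} = Set.univ := Set.eq_univ_of_forall hcon
    rw [h4, measure_univ] at h3
    exact one_ne_zero h3
  obtain ⟨A, _, _, d, φ, hφ, hφe, hφi⟩ := family2 L μ h₁ h₂ hcen hh0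
  obtain ⟨K₀, hK₀⟩ : ∃ K₀ : ℕ, K₀ = 2 * k * (k + 1) * 1 := ⟨_, rfl⟩
  obtain ⟨t, ht⟩ : ∃ t : ℕ, t = K₀ * (3 * (D * D)) := ⟨_, rfl⟩
  obtain ⟨ℓ, hℓ⟩ : ∃ ℓ : ℕ, ℓ = 2 * (k + 1) := ⟨_, rfl⟩
  obtain ⟨R, hR⟩ : ∃ R : ℝ, R = ((1 + 2 * (N * K₀) : ℕ) : ℝ) := ⟨_, rfl⟩
  have hR1 : 1 ≤ R := by
    rw [hR]
    exact_mod_cast Nat.le_add_right 1 _
  obtain ⟨H, hH1, hH⟩ := hbound (b := Real.exp (β * (N * t))) hβ hR1 (Real.exp_pos _).le
    (a := (Fintype.card A : ℕ)) (q := (p * nB : ℕ)) (Nat.cast_nonneg _) (Nat.cast_nonneg _)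
    (d * ℓ) kk
  refine ⟨Real.exp (β * (N * t)) ^ (kk + 1) * H, k + 1,
    mul_pos (pow_pos (Real.exp_pos _) _) (by linarith), ?_⟩
  intro l _ hl x B _ _ hB Q hQ n
  obtain ⟨W, S, hW, hWS, hWl, hWU, hS⟩ := loops hD x (show k < l by omega) h0
  obtain ⟨Λ, hΛ⟩ : ∃ Λ : Lk D l → Prop, ∀ e, Λ e ↔ e ∈ S := ⟨fun e => e ∈ S, fun _ => Iff.rfl⟩
  have hdec : DecidablePred Λ := Classical.decPred Λ
  have hcard : (Fintype.card (I1 {e // Λ e} N) : ℝ) ≤ R := by
    rw [card_I1, hR]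
    have h1 : Fintype.card {e // Λ e} ≤ K₀ := by
      rw [Fintype.card_of_subtype S (fun e => (hΛ e).symm), hK₀]
      exact hS
    have h2 : 1 + 2 * (N * Fintype.card {e // Λ e}) ≤ 1 + 2 * (N * K₀) := by
      gcongr
    exact_mod_cast h2
  have htouch : (Finset.univ.filter fun p : Pqt D l => ∃ e, Λ e ∧ NA.cnt e (pw p.1) ≠ 0).card ≤
      t := by
    have h1 := touch S Λ (fun e he => (hΛ e).1 he)
    refine h1.trans ?_
    rw [ht, hK₀]
    exact Nat.mul_le_mul_right _ hS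
  subst hB
  exact graph_wilson L μ (kk := kk) h₁ h₂ (src := (sr : Lk D l → _)) (tgt := tg) (x := x)
    (W := W) (ℓ := ℓ) (Λ := Λ) hW (fun s e he => (hΛ e).2 (hWS s e he))
    (fun s => by rw [hℓ]; exact hWl s) hWU hφ hφe hφi hQ hβ (R := R) hcard
    (pq := fun p : Pqt D l => pw p.1) (fun p => ⟨p.1.1, pw_path p.1⟩) (t := t)
    htouch (by linarith) hH n

end

end Pool.Agent.X168.PK
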