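import Mathlib
import Pool.Agent.X168.PK.Ker4

/-!
# The path integral
-/

open MeasureTheory Filter Topology

namespace Pool.Agent.X168.PK

set_option linter.unusedSectionVars false

noncomputable section

/-- peel off the last variable -/
lemma peel {α : Type} [TopologicalSpace α] [CompactSpace α] [T2Space α]
    [SecondCountableTopology α] [MeasurableSpace α] [BorelSpace α] (m : Measure α)
    [IsFiniteMeasure m] {n : ℕ} {F : (Fin (n + 1) → α) → ℂ} (hF : Continuous F) :
    ∫ U, F U ∂(Measure.pi fun _ : Fin (n + 1) => m) =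
      ∫ U, ∫ w, F (Fin.snoc (α := fun _ => α) U w) ∂m ∂(Measure.pi fun _ : Fin n => m) := by
  have h := measurePreserving_piFinSuccAbove (fun _ : Fin (n + 1) => m) (Fin.last n)
  set e := MeasurableEquiv.piFinSuccAbove (fun _ : Fin (n + 1) => α) (Fin.last n) with he
  have h1 := (h.symm e).integral_comp' (g := F)
  rw [← h1]
  have h2 : ∀ p : α × (Fin n → α), e.symm p = Fin.snoc (α := fun _ => α) p.2 p.1 := by
    intro p
    show (Fin.last n).insertNth (α := fun _ => α) p.1 p.2 = _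
    exact Fin.insertNth_last' _ _
  simp only [h2]
  have hc : Continuous fun p : α × (Fin n → α) => F (Fin.snoc (α := fun _ => α) p.2 p.1) :=
    hF.comp (Continuous.finSnoc continuous_snd continuous_fst)
  exact integral_prod_symm _ (ic (m.prod (Measure.pi fun _ : Fin n => m)) hc)

lemma int_fin0 {α : Type} [MeasurableSpace α] [TopologicalSpace α] [BorelSpace α]
    [SecondCountableTopology α] (m : Measure α) [IsFiniteMeasure m] (F : (Fin 0 → α) → ℂ) :
    ∫ U, F U ∂(Measure.pi fun _ : Fin 0 => m) = F (fun i => i.elim0) := by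
  rw [Measure.pi_of_empty _ (fun i : Fin 0 => i.elim0), integral_dirac]

variable {Ω : Type} [TopologicalSpace Ω] [CompactSpace Ω] [T2Space Ω]
  [SecondCountableTopology Ω] [MeasurableSpace Ω] [BorelSpace Ω]
  (ν : Measure Ω) [IsFiniteMeasure ν]
  {Γ : Type} [Group Γ] [TopologicalSpace Γ] [IsTopologicalGroup Γ] [CompactSpace Γ] [T2Space Γ]
  [SecondCountableTopology Γ] [MeasurableSpace Γ] [BorelSpace Γ]
  (μ : Measure Γ) [IsProbabilityMeasure μ] [μ.IsMulLeftInvariant]
  (act : Γ → Ω → Ω) (K : Ω → Ω → ℂ) (M : Ω → ℝ)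

/-- ordered product -/
def pr {n : ℕ} (V : Fin n → Γ) : Γ := (List.ofFn V).prod

lemma pr_cont {n : ℕ} : Continuous (pr : (Fin n → Γ) → Γ) := by
  induction n with
  | zero =>
    have : (pr : (Fin 0 → Γ) → Γ) = fun _ => 1 := by
      funext V
      simp [pr]
    rw [this]
    exact continuous_const
  | succ n ih =>
    have : (pr : (Fin (n + 1) → Γ) → Γ) = fun V => V 0 * pr fun i => V i.succ := by
      funext V
      simp [pr, List.ofFn_succ]
    rw [this]
    exact (continuous_apply 0).mul (ih.comp (continuous_pi fun i => continuous_apply _))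

lemma pr_snoc {n : ℕ} (V : Fin n → Γ) (v : Γ) :
    pr (Fin.snoc (α := fun _ => Γ) V v : Fin (n + 1) → Γ) = pr V * v := by
  unfold pr
  rw [List.ofFn_succ']
  simp

lemma c3 {H : Ω → Ω → Γ → ℂ} (hH : Continuous fun p : Ω × Ω × Γ => H p.1 p.2.1 p.2.2)
    {Z : Type} [TopologicalSpace Z] {a b : Z → Ω} {c : Z → Γ} (ha : Continuous a)
    (hb : Continuous b) (hc : Continuous c) : Continuous fun z => H (a z) (b z) (c z) :=
  hH.comp (ha.prodMk (hb.prodMk hc))

lemma ck {K : Ω → Ω → ℂ} (hK : C2 K) {Z : Type} [TopologicalSpace Z] {a b : Z → Ω}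
    (ha : Continuous a) (hb : Continuous b) : Continuous fun z => K (a z) (b z) :=
  Continuous.comp (g := fun p : Ω × Ω => K p.1 p.2) hK (ha.prodMk hb)

lemma cA {act : Γ → Ω → Ω} (hact : Act ν act) {Z : Type} [TopologicalSpace Z] {c : Z → Γ}
    {a : Z → Ω} (hc : Continuous c) (ha : Continuous a) : Continuous fun z => act (c z) (a z) :=
  hact.cont.comp (hc.prodMk ha)

lemma cM {M : Ω → ℝ} (hM : Continuous M) {Z : Type} [TopologicalSpace Z] {a : Z → Ω}
    (ha : Continuous a) : Continuous fun z => ((M (a z) : ℝ) : ℂ) :=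
  Complex.continuous_ofReal.comp (hM.comp ha)

/-- the open chain -/
def lhs (n : ℕ) (H : Ω → Ω → Γ → ℂ) : ℂ :=
  ∫ U, ∫ V, H (U 0) (U (Fin.last n)) (pr V) * ∏ t : Fin n,
    ((M (U t.castSucc) : ℂ) * K (U t.castSucc) (act (V t) (U t.succ)))
      ∂(Measure.pi fun _ : Fin n => μ) ∂(Measure.pi fun _ : Fin (n + 1) => ν)

variable {act K M}

lemma chain_cont (hact : Act ν act) (hK : C2 K) (hM : Continuous M) {n : ℕ}
    {H : Ω → Ω → Γ → ℂ} (hH : Continuous fun p : Ω × Ω × Γ => H p.1 p.2.1 p.2.2) :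
    Continuous fun p : (Fin (n + 1) → Ω) × (Fin n → Γ) =>
      H (p.1 0) (p.1 (Fin.last n)) (pr p.2) * ∏ t : Fin n,
        ((M (p.1 t.castSucc) : ℂ) * K (p.1 t.castSucc) (act (p.2 t) (p.1 t.succ))) := by
  have c1 : ∀ t : Fin (n + 1), Continuous fun p : (Fin (n + 1) → Ω) × (Fin n → Γ) => p.1 t :=
    fun t => (continuous_apply t).comp continuous_fst
  have c2 : ∀ t : Fin n, Continuous fun p : (Fin (n + 1) → Ω) × (Fin n → Γ) => p.2 t :=
    fun t => (continuous_apply t).comp continuous_snd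
  refine Continuous.mul ?_ (continuous_finsetProd _ fun t _ => ?_)
  · exact hH.comp ((c1 0).prodMk ((c1 _).prodMk (pr_cont.comp continuous_snd)))
  · refine (Complex.continuous_ofReal.comp (hM.comp (c1 _))).mul ?_
    exact hK.comp ((c1 _).prodMk (hact.cont.comp ((c2 t).prodMk (c1 _))))

lemma step (hact : Act ν act) (hK : C2 K) (hM : Continuous M) (n : ℕ)
    {H : Ω → Ω → Γ → ℂ} (hH : Continuous fun p : Ω × Ω × Γ => H p.1 p.2.1 p.2.2) :
    lhs ν μ act K M (n + 1) H = lhs ν μ act K M n (fun u w' c =>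
      ∫ w, ∫ v, H u w (c * v) * ((M w' : ℂ) * K w' (act v w)) ∂μ ∂ν) := by
  unfold lhs
  have hc := chain_cont ν hact hK hM (n := n + 1) hH
  have h1 : ∀ U : Fin (n + 2) → Ω, ∫ V, H (U 0) (U (Fin.last (n + 1))) (pr V) *
      ∏ t : Fin (n + 1), ((M (U t.castSucc) : ℂ) * K (U t.castSucc) (act (V t) (U t.succ)))
        ∂(Measure.pi fun _ : Fin (n + 1) => μ) =
      ∫ V, ∫ v, H (U 0) (U (Fin.last (n + 1))) (pr (Fin.snoc (α := fun _ => Γ) V v)) *
        ∏ t : Fin (n + 1), ((M (U t.castSucc) : ℂ) * K (U t.castSucc)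
          (act ((Fin.snoc (α := fun _ => Γ) V v : Fin (n + 1) → Γ) t) (U t.succ)))
            ∂μ ∂(Measure.pi fun _ : Fin n => μ) := by
    intro U
    exact peel μ (F := fun V => H (U 0) (U (Fin.last (n + 1))) (pr V) *
      ∏ t : Fin (n + 1), ((M (U t.castSucc) : ℂ) * K (U t.castSucc) (act (V t) (U t.succ))))
      (hc.comp (continuous_const.prodMk continuous_id))
  rw [peel ν (F := fun U : Fin (n + 2) → Ω => ∫ V, H (U 0) (U (Fin.last (n + 1))) (pr V) *
      ∏ t : Fin (n + 1), ((M (U t.castSucc) : ℂ) * K (U t.castSucc) (act (V t) (U t.succ)))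
        ∂(Measure.pi fun _ : Fin (n + 1) => μ)) (cpi (Measure.pi fun _ : Fin (n + 1) => μ) hc)]
  refine integral_congr_ae (Filter.Eventually.of_forall fun U => ?_)
  show ∫ w, _ ∂ν = _
  simp only [h1]
  -- swap
  have hc2 : Continuous fun p : ((Ω × (Fin n → Γ)) × Γ) =>
      H ((Fin.snoc (α := fun _ => Ω) U p.1.1 : Fin (n + 2) → Ω) 0)
        ((Fin.snoc (α := fun _ => Ω) U p.1.1 : Fin (n + 2) → Ω) (Fin.last (n + 1)))
        (pr (Fin.snoc (α := fun _ => Γ) p.1.2 p.2)) *
      ∏ t : Fin (n + 1), ((M ((Fin.snoc (α := fun _ => Ω) U p.1.1 : Fin (n + 2) → Ω) t.castSucc) : ℂ) *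
        K ((Fin.snoc (α := fun _ => Ω) U p.1.1 : Fin (n + 2) → Ω) t.castSucc)
          (act ((Fin.snoc (α := fun _ => Γ) p.1.2 p.2 : Fin (n + 1) → Γ) t)
            ((Fin.snoc (α := fun _ => Ω) U p.1.1 : Fin (n + 2) → Ω) t.succ))) := by
    have e1 : Continuous fun p : ((Ω × (Fin n → Γ)) × Γ) =>
        (Fin.snoc (α := fun _ => Ω) U p.1.1 : Fin (n + 2) → Ω) :=
      Continuous.finSnoc continuous_const (continuous_fst.comp continuous_fst)
    have e2 : Continuous fun p : ((Ω × (Fin n → Γ)) × Γ) =>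
        (Fin.snoc (α := fun _ => Γ) p.1.2 p.2 : Fin (n + 1) → Γ) :=
      Continuous.finSnoc (continuous_snd.comp continuous_fst) continuous_snd
    exact hc.comp (e1.prodMk e2)
  rw [sw ν (Measure.pi fun _ : Fin n => μ) (cpi (X := Ω × (Fin n → Γ)) μ hc2)]
  refine integral_congr_ae (Filter.Eventually.of_forall fun V => ?_)
  show ∫ w, ∫ v, _ ∂μ ∂ν = (∫ w, ∫ v, H (U 0) w (pr V * v) *
    ((M (U (Fin.last n)) : ℂ) * K (U (Fin.last n)) (act v w)) ∂μ ∂ν) * _
  rw [← integral_mul_const]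
  refine integral_congr_ae (Filter.Eventually.of_forall fun w => ?_)
  show _ = (∫ v, _ ∂μ) * _
  rw [← integral_mul_const]
  refine integral_congr_ae (Filter.Eventually.of_forall fun v => ?_)
  show H _ _ _ * _ = _
  rw [Fin.prod_univ_castSucc]
  have s0 : (Fin.snoc (α := fun _ => Ω) U w : Fin (n + 2) → Ω) 0 = U 0 := by
    rw [← Fin.castSucc_zero, Fin.snoc_castSucc]
  have s1 : (Fin.snoc (α := fun _ => Ω) U w : Fin (n + 2) → Ω) (Fin.last (n + 1)) = w := by
    rw [Fin.snoc_last]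
  have s2 : ∀ t : Fin n, (Fin.snoc (α := fun _ => Ω) U w : Fin (n + 2) → Ω) t.castSucc.succ =
      U t.succ := by
    intro t
    rw [Fin.succ_castSucc, Fin.snoc_castSucc]
  simp only [Fin.snoc_castSucc, s0, s1, s2, Fin.succ_last, Fin.snoc_last, pr_snoc]
  ring

/-- substitution -/
lemma subst1 (hact : Act ν act) {Ψ : Ω → Γ → ℂ} (hΨ : Continuous fun p : Ω × Γ => Ψ p.1 p.2) :
    ∫ c, ∫ w', ∫ v, Ψ (act c w') (c * v) ∂μ ∂ν ∂μ = ∫ c, ∫ w', Ψ w' c ∂ν ∂μ := by
  have h1 : ∀ c, ∫ w', ∫ v, Ψ (act c w') (c * v) ∂μ ∂ν = ∫ c, ∫ w', Ψ w' c ∂ν ∂μ := by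
    intro c
    have hc1 : Continuous fun p : Ω × Γ => Ψ p.1 (c * p.2) :=
      hΨ.comp (continuous_fst.prodMk (continuous_const.mul continuous_snd))
    have hc2 : Continuous fun w => ∫ v, Ψ w (c * v) ∂μ := cpi μ hc1
    rw [int_act ν hact c hc2, sw ν μ hc1,
      integral_mul_left_eq_self (fun v => ∫ w', Ψ w' v ∂ν) c]
  simp only [h1]
  simp

/-- the value of the open chain -/
lemma lhs_eq (hact : Act ν act) (hK : C2 K) (hinv : ∀ c U V, K (act c U) (act c V) = K U V)
    (hM : Continuous M) (hMi : ∀ c U, M (act c U) = M U) (n : ℕ)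
    {H : Ω → Ω → Γ → ℂ} (hH : Continuous fun p : Ω × Ω × Γ => H p.1 p.2.1 p.2.2) :
    lhs ν μ act K M (n + 1) H = ∫ u, ∫ c, ∫ w, H u w c *
      ((M u : ℂ) * it ν K M n u (act c w)) ∂ν ∂μ ∂ν := by
  induction n generalizing H with
  | zero =>
    rw [step ν μ hact hK hM 0 hH]
    unfold lhs
    rw [peel ν]
    · rw [int_fin0]
      refine integral_congr_ae (Filter.Eventually.of_forall fun u => ?_)
      show ∫ V, _ ∂_ = _
      rw [int_fin0]
      have hc1 : Continuous fun p : Ω × Γ => H u p.1 (1 * p.2) *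
          ((M u : ℂ) * K u (act p.2 p.1)) :=
        (c3 hH (by fun_prop) (by fun_prop) (by fun_prop)).mul (continuous_const.mul
          (ck hK (by fun_prop) (cA ν hact (by fun_prop) (by fun_prop))))
      have e0 : pr (fun i : Fin 0 => (i.elim0 : Γ)) = 1 := rfl
      simp only [Finset.univ_eq_empty, Finset.prod_empty, mul_one, e0]
      show ∫ w, ∫ v, H u w (1 * v) * ((M u : ℂ) * K u (act v w)) ∂μ ∂ν = _
      rw [sw ν μ hc1]
      refine integral_congr_ae (Filter.Eventually.of_forall fun v => ?_)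
      show ∫ w, H u w (1 * v) * ((M u : ℂ) * K u (act v w)) ∂ν = _
      simp only [one_mul]
      rfl
    · refine cpi (Measure.pi fun _ : Fin 0 => μ) (chain_cont ν hact hK hM (n := 0)
        (H := fun u w' c => ∫ w, ∫ v, H u w (c * v) * ((M w' : ℂ) * K w' (act v w)) ∂μ ∂ν) ?_)
      refine cpi (X := Ω × Ω × Γ) ν (f := fun p w => ∫ v, H p.1 w (p.2.2 * v) *
        ((M p.2.1 : ℂ) * K p.2.1 (act v w)) ∂μ) ?_
      refine cpi (X := (Ω × Ω × Γ) × Ω) μ (f := fun p v => H p.1.1 p.2 (p.1.2.2 * v) *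
        ((M p.1.2.1 : ℂ) * K p.1.2.1 (act v p.2))) ?_
      exact (c3 hH (by fun_prop) (by fun_prop) (by fun_prop)).mul ((cM hM (by fun_prop)).mul
        (ck hK (by fun_prop) (cA ν hact (by fun_prop) (by fun_prop))))
  | succ n ih =>
    have hH' : Continuous fun p : Ω × Ω × Γ => (fun u w' c =>
        ∫ w, ∫ v, H u w (c * v) * ((M w' : ℂ) * K w' (act v w)) ∂μ ∂ν) p.1 p.2.1 p.2.2 := by
      refine cpi (X := Ω × Ω × Γ) ν (f := fun p w => ∫ v, H p.1 w (p.2.2 * v) *
        ((M p.2.1 : ℂ) * K p.2.1 (act v w)) ∂μ) ?_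
      refine cpi (X := (Ω × Ω × Γ) × Ω) μ (f := fun p v => H p.1.1 p.2 (p.1.2.2 * v) *
        ((M p.1.2.1 : ℂ) * K p.1.2.1 (act v p.2))) ?_
      exact (c3 hH (by fun_prop) (by fun_prop) (by fun_prop)).mul ((cM hM (by fun_prop)).mul
        (ck hK (by fun_prop) (cA ν hact (by fun_prop) (by fun_prop))))
    have hit := it_cont ν hK hM n
    rw [step ν μ hact hK hM (n + 1) hH, ih hH']
    refine integral_congr_ae (Filter.Eventually.of_forall fun u => ?_)
    show ∫ c, ∫ w', (∫ w, ∫ v, H u w (c * v) * ((M w' : ℂ) * K w' (act v w)) ∂μ ∂ν) *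
      ((M u : ℂ) * it ν K M n u (act c w')) ∂ν ∂μ = _
    -- the function to substitute in
    set Ψ : Ω → Γ → ℂ := fun w'' c' => ∫ w, H u w c' * ((M w'' : ℂ) * K w'' (act c' w)) *
      ((M u : ℂ) * it ν K M n u w'') ∂ν with hΨ
    have hΨc : Continuous fun p : Ω × Γ => Ψ p.1 p.2 := by
      refine cpi (X := Ω × Γ) ν (f := fun p w => H u w p.2 * ((M p.1 : ℂ) * K p.1 (act p.2 w)) *
        ((M u : ℂ) * it ν K M n u p.1)) ?_
      exact ((c3 hH (by fun_prop) (by fun_prop) (by fun_prop)).mul ((cM hM (by fun_prop)).mul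
        (ck hK (by fun_prop) (cA ν hact (by fun_prop) (by fun_prop))))).mul
        (continuous_const.mul (ck hit (by fun_prop) (by fun_prop)))
    have h1 : ∀ c w', (∫ w, ∫ v, H u w (c * v) * ((M w' : ℂ) * K w' (act v w)) ∂μ ∂ν) *
        ((M u : ℂ) * it ν K M n u (act c w')) = ∫ v, Ψ (act c w') (c * v) ∂μ := by
      intro c w'
      have hc1 : Continuous fun p : Ω × Γ => H u p.1 (c * p.2) *
          ((M w' : ℂ) * K w' (act p.2 p.1)) := by
        exact (c3 hH (by fun_prop) (by fun_prop) (by fun_prop)).mul (continuous_const.mul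
          (ck hK (by fun_prop) (cA ν hact (by fun_prop) (by fun_prop))))
      rw [sw ν μ hc1, ← integral_mul_const]
      refine integral_congr_ae (Filter.Eventually.of_forall fun v => ?_)
      show (∫ w, H u w (c * v) * ((M w' : ℂ) * K w' (act v w)) ∂ν) *
        ((M u : ℂ) * it ν K M n u (act c w')) = ∫ w, H u w (c * v) *
          ((M (act c w') : ℂ) * K (act c w') (act (c * v) w)) *
            ((M u : ℂ) * it ν K M n u (act c w')) ∂ν
      rw [← integral_mul_const]
      refine integral_congr_ae (Filter.Eventually.of_forall fun w => ?_)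
      beta_reduce
      rw [hMi, hact.mul, hinv]
    simp only [h1]
    rw [subst1 ν μ hact hΨc]
    refine integral_congr_ae (Filter.Eventually.of_forall fun c => ?_)
    show ∫ w', ∫ w, H u w c * ((M w' : ℂ) * K w' (act c w)) *
      ((M u : ℂ) * it ν K M n u w') ∂ν ∂ν = ∫ w, H u w c * ((M u : ℂ) *
        ∫ w', it ν K M n u w' * (M w' : ℂ) * K w' (act c w) ∂ν) ∂ν
    have hc2 : Continuous fun p : Ω × Ω => H u p.2 c * ((M p.1 : ℂ) * K p.1 (act c p.2)) *
        ((M u : ℂ) * it ν K M n u p.1) := by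
      exact ((c3 hH (by fun_prop) (by fun_prop) (by fun_prop)).mul ((cM hM (by fun_prop)).mul
        (ck hK (by fun_prop) (cA ν hact (by fun_prop) (by fun_prop))))).mul
        (continuous_const.mul (ck hit (by fun_prop) (by fun_prop)))
    rw [sw ν ν hc2]
    refine integral_congr_ae (Filter.Eventually.of_forall fun w => ?_)
    show ∫ w', H u w c * ((M w' : ℂ) * K w' (act c w)) * ((M u : ℂ) * it ν K M n u w') ∂ν =
      H u w c * ((M u : ℂ) * ∫ w', it ν K M n u w' * (M w' : ℂ) * K w' (act c w) ∂ν)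
    rw [← integral_const_mul, ← integral_const_mul]
    refine integral_congr_ae (Filter.Eventually.of_forall fun w' => ?_)
    beta_reduce
    ring

/-- **The path integral.** -/
theorem path_int (hact : Act ν act) (hK : C2 K)
    (hinv : ∀ c U V, K (act c U) (act c V) = K U V)
    (hM : Continuous M) (hMi : ∀ c U, M (act c U) = M U) {g : Γ → ℂ} (hg : Continuous g) (n : ℕ) :
    ∫ U, ∫ V, g (pr V) * ∏ t : Fin (n + 1),
      ((M (U t) : ℂ) * K (U t) (act (V t) (U (t + 1))))
        ∂(Measure.pi fun _ : Fin (n + 1) => μ) ∂(Measure.pi fun _ : Fin (n + 1) => ν) =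
      Zg ν μ act g K M n := by
  -- the closed chain as an open chain
  have hH : Continuous fun p : Ω × Ω × Γ => (fun (u w' : Ω) (c : Γ) =>
      ∫ v, g (c * v) * ((M w' : ℂ) * K w' (act v u)) ∂μ) p.1 p.2.1 p.2.2 := by
    refine cpi (X := Ω × Ω × Γ) μ (f := fun p v => g (p.2.2 * v) *
      ((M p.2.1 : ℂ) * K p.2.1 (act v p.1))) ?_
    exact (hg.comp (by fun_prop)).mul ((cM hM (by fun_prop)).mul
      (ck hK (by fun_prop) (cA ν hact (by fun_prop) (by fun_prop))))
  have h0 : ∫ U, ∫ V, g (pr V) * ∏ t : Fin (n + 1),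
      ((M (U t) : ℂ) * K (U t) (act (V t) (U (t + 1))))
        ∂(Measure.pi fun _ : Fin (n + 1) => μ) ∂(Measure.pi fun _ : Fin (n + 1) => ν) =
      lhs ν μ act K M n (fun u w' c => ∫ v, g (c * v) * ((M w' : ℂ) * K w' (act v u)) ∂μ) := by
    unfold lhs
    refine integral_congr_ae (Filter.Eventually.of_forall fun U => ?_)
    show ∫ V, _ ∂_ = ∫ V, _ ∂_
    have hc : Continuous fun V : Fin (n + 1) → Γ => g (pr V) * ∏ t : Fin (n + 1),
        ((M (U t) : ℂ) * K (U t) (act (V t) (U (t + 1)))) := by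
      exact Continuous.mul (hg.comp pr_cont) (continuous_finsetProd _ fun t _ =>
        continuous_const.mul (ck hK continuous_const (cA ν hact (continuous_apply t)
          continuous_const)))
    rw [peel μ hc]
    refine integral_congr_ae (Filter.Eventually.of_forall fun V => ?_)
    show ∫ v, _ ∂μ = (∫ v, g (pr V * v) * ((M (U (Fin.last n)) : ℂ) *
      K (U (Fin.last n)) (act v (U 0))) ∂μ) * _
    rw [← integral_mul_const]
    refine integral_congr_ae (Filter.Eventually.of_forall fun v => ?_)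
    show g _ * _ = _
    rw [Fin.prod_univ_castSucc]
    simp only [Fin.snoc_castSucc, Fin.snoc_last, pr_snoc, Fin.coeSucc_eq_succ, Fin.last_add_one]
    ring
  rw [h0]
  cases n with
  | zero =>
    unfold lhs Zg
    rw [peel ν]
    · rw [int_fin0]
      have h1 : ∀ u : Ω, ∫ V, (∫ v, g (pr V * v) *
          ((M ((Fin.snoc (α := fun _ => Ω) (fun i : Fin 0 => (i.elim0 : Ω)) u : Fin 1 → Ω)
            (Fin.last 0)) : ℂ) * K ((Fin.snoc (α := fun _ => Ω) (fun i : Fin 0 => (i.elim0 : Ω)) u :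
              Fin 1 → Ω) (Fin.last 0)) (act v ((Fin.snoc (α := fun _ => Ω)
                (fun i : Fin 0 => (i.elim0 : Ω)) u : Fin 1 → Ω) 0))) ∂μ) *
          ∏ t : Fin 0, ((M ((Fin.snoc (α := fun _ => Ω) (fun i : Fin 0 => (i.elim0 : Ω)) u :
            Fin 1 → Ω) t.castSucc) : ℂ) * K ((Fin.snoc (α := fun _ => Ω)
              (fun i : Fin 0 => (i.elim0 : Ω)) u : Fin 1 → Ω) t.castSucc) (act (V t)
                ((Fin.snoc (α := fun _ => Ω) (fun i : Fin 0 => (i.elim0 : Ω)) u : Fin 1 → Ω)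
                  t.succ))) ∂(Measure.pi fun _ : Fin 0 => μ) =
          ∫ v, g v * ((M u : ℂ) * K u (act v u)) ∂μ := by
        intro u
        rw [int_fin0]
        have e0 : pr (fun i : Fin 0 => (i.elim0 : Γ)) = 1 := rfl
        simp only [Finset.univ_eq_empty, Finset.prod_empty, mul_one, e0, one_mul]
        rfl
      refine Eq.trans (integral_congr_ae (Filter.Eventually.of_forall fun u => h1 u)) ?_
      have hc1 : Continuous fun p : Ω × Γ => g p.2 * ((M p.1 : ℂ) * K p.1 (act p.2 p.1)) := by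
        exact (hg.comp (by fun_prop)).mul ((cM hM (by fun_prop)).mul
          (ck hK (by fun_prop) (cA ν hact (by fun_prop) (by fun_prop))))
      rw [sw ν μ hc1]
      refine integral_congr_ae (Filter.Eventually.of_forall fun c => ?_)
      show ∫ u, g c * ((M u : ℂ) * K u (act c u)) ∂ν = _
      rw [integral_const_mul]
      rfl
    · exact cpi (Measure.pi fun _ : Fin 0 => μ) (chain_cont ν hact hK hM (n := 0)
        (H := fun u w' c => ∫ v, g (c * v) * ((M w' : ℂ) * K w' (act v u)) ∂μ) hH)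
  | succ n =>
    have hit := it_cont ν hK hM n
    have hit1 := it_cont ν hK hM (n + 1)
    rw [lhs_eq ν μ hact hK hinv hM hMi n hH]
    have h2 : ∀ u, ∫ c, ∫ w, (∫ v, g (c * v) * ((M w : ℂ) * K w (act v u)) ∂μ) *
        ((M u : ℂ) * it ν K M n u (act c w)) ∂ν ∂μ =
        ∫ c, g c * ((M u : ℂ) * it ν K M (n + 1) u (act c u)) ∂μ := by
      intro u
      set Ψ : Ω → Γ → ℂ := fun w'' c' => g c' * ((M w'' : ℂ) * K w'' (act c' u)) *
        ((M u : ℂ) * it ν K M n u w'') with hΨ
      have hΨc : Continuous fun p : Ω × Γ => Ψ p.1 p.2 := by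
        exact ((hg.comp (by fun_prop)).mul ((cM hM (by fun_prop)).mul
          (ck hK (by fun_prop) (cA ν hact (by fun_prop) (by fun_prop))))).mul
          (continuous_const.mul (ck hit (by fun_prop) (by fun_prop)))
      have h1 : ∀ c w', (∫ v, g (c * v) * ((M w' : ℂ) * K w' (act v u)) ∂μ) *
          ((M u : ℂ) * it ν K M n u (act c w')) = ∫ v, Ψ (act c w') (c * v) ∂μ := by
        intro c w'
        rw [← integral_mul_const]
        refine integral_congr_ae (Filter.Eventually.of_forall fun v => ?_)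
        show g (c * v) * ((M w' : ℂ) * K w' (act v u)) * ((M u : ℂ) * it ν K M n u (act c w')) =
          g (c * v) * ((M (act c w') : ℂ) * K (act c w') (act (c * v) u)) *
            ((M u : ℂ) * it ν K M n u (act c w'))
        rw [hMi, hact.mul, hinv]
      simp only [h1]
      rw [subst1 ν μ hact hΨc]
      refine integral_congr_ae (Filter.Eventually.of_forall fun c => ?_)
      show ∫ w', g c * ((M w' : ℂ) * K w' (act c u)) * ((M u : ℂ) * it ν K M n u w') ∂ν =
        g c * ((M u : ℂ) * ∫ w', it ν K M n u w' * (M w' : ℂ) * K w' (act c u) ∂ν)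
      rw [← integral_const_mul, ← integral_const_mul]
      refine integral_congr_ae (Filter.Eventually.of_forall fun w' => ?_)
      beta_reduce
      ring
    simp only [h2]
    have hc1 : Continuous fun p : Ω × Γ => g p.2 * ((M p.1 : ℂ) *
        it ν K M (n + 1) p.1 (act p.2 p.1)) := by
      exact (hg.comp (by fun_prop)).mul ((cM hM (by fun_prop)).mul
        (ck hit1 (by fun_prop) (cA ν hact (by fun_prop) (by fun_prop))))
    rw [sw ν μ hc1]
    unfold Zg
    refine integral_congr_ae (Filter.Eventually.of_forall fun c => ?_)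
    show ∫ u, g c * ((M u : ℂ) * it ν K M (n + 1) u (act c u)) ∂ν = _
    rw [integral_const_mul]

end

end Pool.Agent.X168.PK
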