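import Mathlib
import Pool.Agent.X168.PK.Ltc
import Pool.Agent.X168.PK.Pth

/-!
# The comparison of the correlations of Polyakov loops
-/

open MeasureTheory Filter Topology Matrix
open scoped ComplexOrder

namespace Pool.Agent.X168.PK

set_option linter.unusedSectionVars false

noncomputable section

open NA (UU Mat hol IsPath gt Lk sr tg)

section conj

variable {Γ A : Type} [Group Γ] [TopologicalSpace Γ] [Fintype A] [DecidableEq A]
  {R : Γ → Matrix A A ℂ}

/-- the conjugate representation -/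
lemma conj_UR (hR : UR R) : UR fun c => (R c).map (starRingEnd ℂ) := by
  refine ⟨fun a b => ?_, fun a => ?_, fun i j => ?_⟩
  · rw [hR.mul, Matrix.map_mul]
  · have h3 : ((R a).map (starRingEnd ℂ))ᴴ = ((R a)ᴴ).map (starRingEnd ℂ) := by
      ext i j
      rfl
    rw [h3, ← Matrix.map_mul, hR.uni, Matrix.map_one _ (map_zero _) (map_one _)]
  · exact cj_cont.comp (hR.cont i j)

lemma conj_tr (M : Matrix A A ℂ) : trace (M.map (starRingEnd ℂ)) = cj (trace M) := by
  rw [Matrix.trace, Matrix.trace, show cj (∑ i, M.diag i) = ∑ i, cj (M.diag i) from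
    map_sum _ _ _]
  rfl

end conj

variable {G : Type} [Group G] [TopologicalSpace G] [IsTopologicalGroup G] [CompactSpace G]
  [T2Space G] [SecondCountableTopology G] [MeasurableSpace G] [BorelSpace G]
  {N : ℕ} (L : Emb G N) (μ : Measure G) [IsProbabilityMeasure μ] [μ.IsHaarMeasure]
  [μ.IsMulRightInvariant]

section graph

variable {E X : Type} [Fintype E] [DecidableEq E] [Fintype X] [DecidableEq X] {src tgt : E → X}
  {M : (E → G) → ℝ} {β : ℝ}

lemma zf_cj (hM0 : ∀ U, 0 ≤ M U) (g : (X → G) → ℂ) (n : ℕ) :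
    zf L μ src tgt (fun c => cj (g c)) M β n = zf L μ src tgt g M β n := by
  have h1 : Zg (Measure.pi fun _ : E => μ) (Measure.pi fun _ : X => μ) (la (ev G src) (ev G tgt))
      (fun c => cj (g c)) (kE L.rho β) M n =
      cj (Zg (Measure.pi fun _ : E => μ) (Measure.pi fun _ : X => μ) (la (ev G src) (ev G tgt))
      g (kE L.rho β) M n) := by
    unfold Zg
    rw [cj_int]
    refine integral_congr_ae (Filter.Eventually.of_forall fun c => ?_)
    show cj (g c) * _ = cj (g c * _)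
    obtain ⟨r, _, hr⟩ := nn_int (Measure.pi fun _ : E => μ)
      (f := fun U => (M U : ℂ) * it (Measure.pi fun _ : E => μ) (kE L.rho β) M n U
        (la (ev G src) (ev G tgt) c U))
      (fun U => nn_mul ⟨M U, hM0 U, rfl⟩ (it_nn (Measure.pi fun _ : E => μ) (kE_nk β) hM0 n U _))
    rw [hr, cj_mul, show cj (r : ℂ) = (r : ℂ) from Complex.conj_ofReal r]
  unfold zf
  rw [h1]
  exact Complex.conj_re _

lemma zf_nn (hβ : 0 < β) (hM : Continuous M) (hMi : ∀ c U, M (gt src tgt c U) = M U)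
    (hM0 : ∀ U, 0 ≤ M U) {A : Type} [Fintype A] [DecidableEq A] {R : (X → G) → Matrix A A ℂ}
    (hR : UR R) (n : ℕ) : 0 ≤ zf L μ src tgt (fun c => trace (R c)) M β n := by
  have r0 := pi_right μ (E := X)
  have l0 := pi_left μ (E := X)
  have r1 := pi_right μ (E := E)
  have l1 := pi_left μ (E := E)
  obtain ⟨Λ⟩ := exists_Ld L.rho L.cont (Measure.pi fun _ : E => μ)
  exact pos_L (Measure.pi fun _ : E => μ) (Measure.pi fun _ : X => μ)
    (la_act _ (ev_cont src) (ev_cont tgt)) (Gm.tr1 hR) (kE_lk L.cont Λ hβ) hM hMi hM0 n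

lemma zf_bdd (hM : Continuous M) (hM0 : ∀ U, 0 ≤ M U) {g : (X → G) → ℂ} (hg : Continuous g)
    {C : ℝ} (hC : ∀ c, ‖g c‖ ≤ C) (n : ℕ) :
    zf L μ src tgt g M β n ≤ C * zf L μ src tgt (fun _ => 1) M β n := by
  have r1 := pi_right μ (E := E)
  have l1 := pi_left μ (E := E)
  exact Zg_triv (Measure.pi fun _ : E => μ) (Measure.pi fun _ : X => μ)
    (la_act (Measure.pi fun _ : E => μ) (ev_cont src) (ev_cont tgt)).cont
    (kE_cont L.cont β) (kE_nk β) hM hM0 n hg hC

end graph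

/-- **Comparison of the correlations of Polyakov loops.** -/
theorem pk_main [PreconnectedSpace G] {D : ℕ} (hD : 2 ≤ D) {p q : ℕ} [NeZero q]
    {ρ' : G →* UU p} {ρ : G →* UU q} (h' : Continuous ρ') (h : Continuous ρ)
    (hcen : ∀ z ∈ Subgroup.center G, ∃ c : ℂ, (ρ' z : Mat p) = c • 1 ∧ (ρ z : Mat q) = c • 1)
    {β : ℝ} (hβ : 0 < β) (k : ℕ) :
    ∃ (C : ℝ) (l₀ : ℕ), 0 < C ∧ ∀ (l : ℕ) [NeZero l], l₀ ≤ l → ∀ (x y : Fin D → ZMod l) (n : ℕ),
      (zf L μ (sr : Lk D l → _) tg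
        (fun c => trace (ρ' (c x) : Mat p) * cj (trace (ρ' (c y) : Mat p)))
        (mg L (fun p : Pqt D l => pw p.1) β) β n) ^ ((k + 1) ^ 2) ≤
      C ^ (n + 1) * (zf L μ (sr : Lk D l → _) tg
        (fun c => trace (ρ (c x) : Mat q) * cj (trace (ρ (c y) : Mat q)))
          (mg L (fun p : Pqt D l => pw p.1) β) β n) ^ (k ^ 2) *
        (zf L μ (sr : Lk D l → _) tg (fun _ => 1) (mg L (fun p : Pqt D l => pw p.1) β) β n) ^
          (2 * k + 1) := by
  obtain ⟨C₁, l₁, hC₁, H₁⟩ := lattice_main L μ hD h' h hcen hβ k p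
  obtain ⟨C₂, l₂, hC₂, H₂⟩ := lattice_main L μ hD h' h hcen hβ k q
  refine ⟨C₁ ^ (k + 1) * C₂ ^ k, max l₁ l₂, by positivity, ?_⟩
  intro l _ hl x y n
  have hM : Continuous (mg L (fun p : Pqt D l => pw p.1) β) := mg_cont L _ β
  have hMi : ∀ c U, mg L (fun p : Pqt D l => pw p.1) β (gt sr tg c U) =
      mg L (fun p : Pqt D l => pw p.1) β U :=
    fun c U => mg_inv L (fun p : Pqt D l => ⟨p.1.1, pw_path p.1⟩) β c U
  have hM0 : ∀ U, 0 ≤ mg L (fun p : Pqt D l => pw p.1) β U := fun U => (Real.exp_pos _).le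
  set z := zf L μ (sr : Lk D l → _) tg (fun _ => 1) (mg L (fun p : Pqt D l => pw p.1) β) β n
    with hz
  set a := zf L μ (sr : Lk D l → _) tg
    (fun c => trace (ρ' (c x) : Mat p) * cj (trace (ρ' (c y) : Mat p)))
      (mg L (fun p : Pqt D l => pw p.1) β) β n with ha
  set b := zf L μ (sr : Lk D l → _) tg
    (fun c => trace (ρ (c x) : Mat q) * cj (trace (ρ' (c y) : Mat p)))
      (mg L (fun p : Pqt D l => pw p.1) β) β n with hb
  set c' := zf L μ (sr : Lk D l → _) tg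
    (fun c => trace (ρ (c x) : Mat q) * cj (trace (ρ (c y) : Mat q)))
      (mg L (fun p : Pqt D l => pw p.1) β) β n with hc
  have e1 : a ^ (k + 1) ≤ C₁ ^ (n + 1) * (b ^ k * z) := by
    have h1 := H₁ l (le_trans (le_max_left _ _) hl) x (Fin p) (Fintype.card_fin p)
      (fun c => ((ρ' (c y) : Mat p)).map (starRingEnd ℂ)) (conj_UR (rep_UR h' y)) n
    simp only [conj_tr] at h1
    exact h1
  have e2 : b ^ (k + 1) ≤ C₂ ^ (n + 1) * (c' ^ k * z) := by
    have h1 := H₂ l (le_trans (le_max_right _ _) hl) y (Fin q) (Fintype.card_fin q)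
      (fun c => ((ρ (c x) : Mat q)).map (starRingEnd ℂ)) (conj_UR (rep_UR h x)) n
    simp only [conj_tr] at h1
    have f1 : zf L μ (sr : Lk D l → _) tg
        (fun c => trace (ρ' (c y) : Mat p) * cj (trace (ρ (c x) : Mat q)))
          (mg L (fun p : Pqt D l => pw p.1) β) β n = b := by
      rw [hb, ← zf_cj L μ hM0]
      congr 1
      funext c
      rw [cj_mul, cj_cj, mul_comm]
    have f2 : zf L μ (sr : Lk D l → _) tg
        (fun c => trace (ρ (c y) : Mat q) * cj (trace (ρ (c x) : Mat q)))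
          (mg L (fun p : Pqt D l => pw p.1) β) β n = c' := by
      rw [hc, ← zf_cj L μ hM0]
      congr 1
      funext c
      rw [cj_mul, cj_cj, mul_comm]
    rw [f1, f2] at h1
    exact h1
  have z0 : 0 ≤ z := by
    have h1 := zf_nn L μ (src := (sr : Lk D l → _)) (tgt := tg) hβ hM hMi hM0
      (UR.triv (Γ := (Fin D → ZMod l) → G) (E := Unit)) n
    have h2 : trace (1 : Matrix Unit Unit ℂ) = 1 := by
      rw [Matrix.trace_one]
      simp
    simp only [h2] at h1
    exact h1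
  have nn : ∀ {p₁ p₂ : ℕ} {σ₁ : G →* UU p₁} {σ₂ : G →* UU p₂}, Continuous σ₁ → Continuous σ₂ →
      0 ≤ zf L μ (sr : Lk D l → _) tg
        (fun c => trace (σ₁ (c x) : Mat p₁) * cj (trace (σ₂ (c y) : Mat p₂)))
          (mg L (fun p : Pqt D l => pw p.1) β) β n := by
    intro p₁ p₂ σ₁ σ₂ k1 k2
    have h1 := zf_nn L μ (src := (sr : Lk D l → _)) (tgt := tg) hβ hM hMi hM0
      ((rep_UR k1 x).kron (conj_UR (rep_UR k2 y))) n
    simp only [Matrix.trace_kronecker, conj_tr] at h1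
    exact h1
  have a0 : 0 ≤ a := nn h' h'
  have b0 : 0 ≤ b := nn h h'
  have c0 : 0 ≤ c' := nn h h
  calc a ^ ((k + 1) ^ 2) = (a ^ (k + 1)) ^ (k + 1) := by rw [← pow_mul, sq]
    _ ≤ (C₁ ^ (n + 1) * (b ^ k * z)) ^ (k + 1) := pow_le_pow_left₀ (by positivity) e1 _
    _ = (C₁ ^ (k + 1)) ^ (n + 1) * z ^ (k + 1) * (b ^ (k + 1)) ^ k := by
        rw [mul_pow, mul_pow, ← pow_mul, ← pow_mul, ← pow_mul, ← pow_mul,
          mul_comm (n + 1) (k + 1), mul_comm k (k + 1)]
        ring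
    _ ≤ (C₁ ^ (k + 1)) ^ (n + 1) * z ^ (k + 1) * (C₂ ^ (n + 1) * (c' ^ k * z)) ^ k := by
        refine mul_le_mul_of_nonneg_left ?_ (by positivity)
        exact pow_le_pow_left₀ (by positivity) e2 _
    _ = (C₁ ^ (k + 1) * C₂ ^ k) ^ (n + 1) * c' ^ (k ^ 2) * z ^ (2 * k + 1) := by
        rw [mul_pow _ (c' ^ k * z), mul_pow (c' ^ k) z, ← pow_mul c' k k, ← sq,
          mul_pow (C₁ ^ (k + 1)), ← pow_mul C₂, ← pow_mul C₂, mul_comm (n + 1) k,
          show 2 * k + 1 = (k + 1) + k by ring, pow_add z (k + 1) k]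
        ring

end

end Pool.Agent.X168.PK
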