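import Mathlib
import Pool.Agent.X168.PK.Fin

/-!
# Any number of sources
-/

open MeasureTheory Filter Topology Matrix
open scoped ComplexOrder

namespace Pool.Agent.X168.PK

set_option linter.unusedSectionVars false

noncomputable section

open NA (UU Mat hol IsPath gt Lk sr tg)

/-- a continuous unitary representation -/
structure Rp (G : Type) [Group G] [TopologicalSpace G] where
  dim : ℕ
  hom : G →* UU dim
  cont : Continuous hom

section prod

variable {G : Type} [Group G] [TopologicalSpace G] [IsTopologicalGroup G] [CompactSpace G]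
  [T2Space G] [SecondCountableTopology G] [MeasurableSpace G] [BorelSpace G]
  {X ι : Type} [Fintype X] [DecidableEq X] [DecidableEq ι]

/-- the character -/
def Rp.ct (R : Rp G) (g : G) : ℂ := trace (R.hom g : Mat R.dim)

lemma prodUR (R : ι → Rp G) (x : ι → X) (S : Finset ι) :
    ∃ (B : Type) (_ : Fintype B) (_ : DecidableEq B) (Q : (X → G) → Matrix B B ℂ), UR Q ∧
      Fintype.card B = ∏ i ∈ S, (R i).dim ∧ ∀ c, trace (Q c) = ∏ i ∈ S, (R i).ct (c (x i)) := by
  induction S using Finset.induction_on with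
  | empty =>
    refine ⟨Unit, inferInstance, inferInstance, fun _ => 1, UR.triv, by simp, fun c => ?_⟩
    rw [Matrix.trace_one]
    simp
  | insert a S ha ih =>
    obtain ⟨B, _, _, Q, hQ, hc, ht⟩ := ih
    refine ⟨Fin (R a).dim × B, inferInstance, inferInstance, _,
      (rep_UR (R a).cont (x a)).kron hQ, ?_, fun c => ?_⟩
    · rw [Fintype.card_prod, Fintype.card_fin, hc, Finset.prod_insert ha]
    · rw [Matrix.trace_kronecker, ht, Finset.prod_insert ha]
      rfl

end prod

variable {G : Type} [Group G] [TopologicalSpace G] [IsTopologicalGroup G] [CompactSpace G]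
  [T2Space G] [SecondCountableTopology G] [MeasurableSpace G] [BorelSpace G]
  {N : ℕ} (L : Emb G N) (μ : Measure G) [IsProbabilityMeasure μ] [μ.IsHaarMeasure]
  [μ.IsMulRightInvariant]

/-- the twisted trace of the product of the characters -/
def zm {D l : ℕ} [NeZero l] {ι : Type} [Fintype ι] (β : ℝ) (n : ℕ) (R : ι → Rp G)
    (x : ι → (Fin D → ZMod l)) : ℝ :=
  zf L μ (sr : Lk D l → _) tg (fun c => ∏ i, (R i).ct (c (x i)))
    (mg L (fun p : Pqt D l => pw p.1) β) β n

/-- the partition function -/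
def z1 (D l : ℕ) [NeZero l] (β : ℝ) (n : ℕ) : ℝ :=
  zf L μ (sr : Lk D l → _) tg (fun _ => 1) (mg L (fun p : Pqt D l => pw p.1) β) β n

lemma zm_nn {D l : ℕ} [NeZero l] {ι : Type} [Fintype ι] {β : ℝ} (hβ : 0 < β) (n : ℕ)
    (R : ι → Rp G) (x : ι → (Fin D → ZMod l)) : 0 ≤ zm L μ β n R x := by
  classical
  obtain ⟨B, _, _, Q, hQ, _, ht⟩ := prodUR R x Finset.univ
  have h1 := zf_nn L μ (src := (sr : Lk D l → _)) (tgt := tg) hβ
    (mg_cont L (fun p : Pqt D l => pw p.1) β)
    (fun c U => mg_inv L (fun p : Pqt D l => ⟨p.1.1, pw_path p.1⟩) β c U)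
    (fun U => (Real.exp_pos _).le) hQ n
  simp only [ht] at h1
  exact h1

/-- change of the representation of one source -/
theorem one_source [PreconnectedSpace G] {D : ℕ} (hD : 2 ≤ D) {ι : Type} [Fintype ι]
    [DecidableEq ι] (R R' : ι → Rp G) (i : ι) (hi : (R' i).dim ≠ 0)
    (hne : ∀ j, j ≠ i → R j = R' j)
    (hcen : ∀ z ∈ Subgroup.center G, ∃ c : ℂ, ((R i).hom z : Mat (R i).dim) = c • 1 ∧
      ((R' i).hom z : Mat (R' i).dim) = c • 1) {β : ℝ} (hβ : 0 < β) (k : ℕ) :
    ∃ (C : ℝ) (l₀ : ℕ), 0 < C ∧ ∀ (l : ℕ) [NeZero l], l₀ ≤ l → ∀ (x : ι → (Fin D → ZMod l))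
      (n : ℕ), (zm L μ β n R x) ^ (k + 1) ≤
        C ^ (n + 1) * ((zm L μ β n R' x) ^ k * z1 L μ D l β n) := by
  have : NeZero (R' i).dim := ⟨hi⟩
  obtain ⟨C, l₀, hC, H⟩ := lattice_main L μ hD (R i).cont (R' i).cont hcen hβ k
    (∏ j ∈ Finset.univ.erase i, (R j).dim)
  refine ⟨C, l₀, hC, ?_⟩
  intro l _ hl x n
  obtain ⟨B, _, _, Q, hQ, hcard, ht⟩ := prodUR R x (Finset.univ.erase i)
  have h1 := H l hl (x i) B hcard Q hQ n
  have e1 : (fun c : (Fin D → ZMod l) → G => trace ((R i).hom (c (x i)) : Mat (R i).dim) *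
      trace (Q c)) = fun c => ∏ j, (R j).ct (c (x j)) := by
    funext c
    rw [ht, ← Finset.mul_prod_erase Finset.univ _ (Finset.mem_univ i)]
    rfl
  have e2 : (fun c : (Fin D → ZMod l) → G => trace ((R' i).hom (c (x i)) : Mat (R' i).dim) *
      trace (Q c)) = fun c => ∏ j, (R' j).ct (c (x j)) := by
    funext c
    rw [ht, ← Finset.mul_prod_erase Finset.univ _ (Finset.mem_univ i)]
    congr 1
    refine Finset.prod_congr rfl fun j hj => ?_
    rw [hne j (Finset.ne_of_mem_erase hj)]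
  rw [e1, e2] at h1
  exact h1

/-- **Comparison for any number of sources.** -/
theorem ms_main [PreconnectedSpace G] {D : ℕ} (hD : 2 ≤ D) {ι : Type} [Fintype ι]
    [DecidableEq ι] (R R' : ι → Rp G) (hdim : ∀ i, (R' i).dim ≠ 0)
    (hcen : ∀ i, ∀ z ∈ Subgroup.center G, ∃ c : ℂ, ((R i).hom z : Mat (R i).dim) = c • 1 ∧
      ((R' i).hom z : Mat (R' i).dim) = c • 1) {β : ℝ} (hβ : 0 < β) (k : ℕ) (T : Finset ι) :
    ∃ (C : ℝ) (l₀ : ℕ), 0 < C ∧ ∀ (l : ℕ) [NeZero l], l₀ ≤ l → ∀ (x : ι → (Fin D → ZMod l))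
      (n : ℕ), ∃ e : ℕ, k ^ T.card + e = (k + 1) ^ T.card ∧
        (zm L μ β n R x) ^ ((k + 1) ^ T.card) ≤
        C ^ (n + 1) * ((zm L μ β n (fun i => if i ∈ T then R' i else R i) x) ^ (k ^ T.card) *
          (z1 L μ D l β n) ^ e) := by
  induction T using Finset.induction_on with
  | empty =>
    refine ⟨1, 0, one_pos, ?_⟩
    intro l _ _ x n
    refine ⟨0, by simp, ?_⟩
    simp
  | insert a T ha ih =>
    obtain ⟨C₁, l₁, hC₁, H₁⟩ := ih
    obtain ⟨C₂, l₂, hC₂, H₂⟩ := one_source L μ hD (fun i => if i ∈ T then R' i else R i)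
      (fun i => if i ∈ insert a T then R' i else R i) a
      (by rw [if_pos (Finset.mem_insert_self a T)]; exact hdim a)
      (fun j hj => by
        by_cases h : j ∈ T
        · rw [if_pos h, if_pos (Finset.mem_insert_of_mem h)]
        · rw [if_neg h, if_neg (fun h' => (Finset.mem_insert.1 h').elim hj h)])
      (by
        rw [if_neg ha, if_pos (Finset.mem_insert_self a T)]
        exact hcen a) hβ k
    refine ⟨C₁ ^ (k + 1) * C₂ ^ (k ^ T.card), max l₁ l₂, by positivity, ?_⟩
    intro l _ hl x n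
    obtain ⟨e, he, h1⟩ := H₁ l (le_trans (le_max_left _ _) hl) x n
    have h2 := H₂ l (le_trans (le_max_right _ _) hl) x n
    have a0 := zm_nn L μ hβ n R x
    have b0 := zm_nn L μ hβ n (fun i => if i ∈ T then R' i else R i) x
    have c0 := zm_nn L μ hβ n (fun i => if i ∈ insert a T then R' i else R i) x
    have z0 : 0 ≤ z1 L μ D l β n := by
      have h3 := zm_nn L μ (D := D) (l := l) hβ n (fun i : Empty => (i.elim : Rp G))
        (fun i => i.elim)
      have h4 : zm L μ (D := D) (l := l) β n (fun i : Empty => (i.elim : Rp G))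
          (fun i => i.elim) = z1 L μ D l β n := by
        unfold zm z1
        simp
      rwa [h4] at h3
    refine ⟨(k + 1) * e + k ^ T.card, ?_, ?_⟩
    · rw [Finset.card_insert_of_notMem ha, pow_succ, pow_succ, ← he]
      ring
    · rw [Finset.card_insert_of_notMem ha]
      set A := zm L μ β n R x
      set B := zm L μ β n (fun i => if i ∈ T then R' i else R i) x
      set C' := zm L μ β n (fun i => if i ∈ insert a T then R' i else R i) x
      set Z := z1 L μ D l β n
      set t := T.card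
      calc A ^ ((k + 1) ^ (t + 1)) = (A ^ ((k + 1) ^ t)) ^ (k + 1) := by
            rw [← pow_mul, pow_succ]
        _ ≤ (C₁ ^ (n + 1) * (B ^ (k ^ t) * Z ^ e)) ^ (k + 1) :=
            pow_le_pow_left₀ (by positivity) h1 _
        _ = (C₁ ^ (k + 1)) ^ (n + 1) * Z ^ ((k + 1) * e) * (B ^ (k + 1)) ^ (k ^ t) := by
            rw [mul_pow, mul_pow, ← pow_mul, ← pow_mul, ← pow_mul, ← pow_mul, ← pow_mul,
              mul_comm (n + 1) (k + 1), mul_comm (k ^ t) (k + 1), mul_comm e (k + 1)]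
            ring
        _ ≤ (C₁ ^ (k + 1)) ^ (n + 1) * Z ^ ((k + 1) * e) *
            (C₂ ^ (n + 1) * (C' ^ k * Z)) ^ (k ^ t) := by
            refine mul_le_mul_of_nonneg_left ?_ (by positivity)
            exact pow_le_pow_left₀ (by positivity) h2 _
        _ = (C₁ ^ (k + 1) * C₂ ^ (k ^ t)) ^ (n + 1) * (C' ^ (k ^ (t + 1)) *
            Z ^ ((k + 1) * e + k ^ t)) := by
            rw [mul_pow _ (C' ^ k * Z), mul_pow (C' ^ k) Z, ← pow_mul C' k, ← pow_succ',
              mul_pow (C₁ ^ (k + 1)), ← pow_mul C₂, ← pow_mul C₂, mul_comm (n + 1) (k ^ t),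
              pow_add Z]
            ring

end

end Pool.Agent.X168.PK
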