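import Mathlib
import Pool.Agent.X168.PK.Fin

/-!
# The path integral with real weights
-/

open MeasureTheory Filter Topology Matrix
open scoped ComplexOrder

namespace Pool.Agent.X168.PK

set_option linter.unusedSectionVars false

noncomputable section

open NA (UU Mat hol IsPath gt Lk sr tg)

variable {G : Type} [Group G] [TopologicalSpace G] [IsTopologicalGroup G] [CompactSpace G]
  [T2Space G] [SecondCountableTopology G] [MeasurableSpace G] [BorelSpace G]
  {N : ℕ} (L : Emb G N) (μ : Measure G) [IsProbabilityMeasure μ] [μ.IsHaarMeasure]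
  [μ.IsMulRightInvariant] {E X : Type} [Fintype E] [DecidableEq E] [Fintype X] [DecidableEq X]
  {Pq : Type} [Fintype Pq] [DecidableEq Pq] (src tgt : E → X) (pq : Pq → List (E × Bool))

/-- the action -/
def SS {n : ℕ} (U : Fin (n + 1) → E → G) (V : Fin (n + 1) → X → G) : ℝ :=
  ∑ t, ((∑ p, ch L (hol (pq p) (U t))) +
    rt L.rho (U t * (la (ev G src) (ev G tgt) (V t) (U (t + 1)))⁻¹))

lemma rt_cont : Continuous (rt L.rho : (E → G) → ℝ) := by
  unfold rt
  exact continuous_finsetSum _ fun e _ => (ch_cont L).comp (continuous_apply e)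

lemma SS_cont (n : ℕ) : Continuous fun p : (Fin (n + 1) → E → G) × (Fin (n + 1) → X → G) =>
    SS L src tgt pq p.1 p.2 := by
  unfold SS
  have c1 : ∀ t : Fin (n + 1), Continuous fun p : (Fin (n + 1) → E → G) × (Fin (n + 1) → X → G) =>
    p.1 t := fun t => (continuous_apply t).comp continuous_fst
  have c2 : ∀ t : Fin (n + 1), Continuous fun p : (Fin (n + 1) → E → G) × (Fin (n + 1) → X → G) =>
    p.2 t := fun t => (continuous_apply t).comp continuous_snd
  refine continuous_finsetSum _ fun t _ => Continuous.add ?_ ?_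
  · exact continuous_finsetSum _ fun p _ => (ch_cont L).comp ((hol_cont _).comp (c1 t))
  · refine (rt_cont L).comp ((c1 t).mul (Continuous.inv ?_))
    unfold la
    exact (((ev_cont src).comp (c2 t)).mul (c1 _)).mul ((ev_cont tgt).comp (c2 t)).inv

/-- **The path integral as a twisted trace.** -/
theorem out (hpq : ∀ p, ∃ v, IsPath src tgt v (pq p) v) (β : ℝ) {g : (X → G) → ℂ}
    (hg : Continuous g) (n : ℕ) :
    ∫ U, ∫ V, (g (pr V)).re * Real.exp (β * SS L src tgt pq U V)
      ∂(Measure.pi fun _ : Fin (n + 1) => Measure.pi fun _ : X => μ)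
      ∂(Measure.pi fun _ : Fin (n + 1) => Measure.pi fun _ : E => μ) =
    zf L μ src tgt g (mg L pq β) β n := by
  have r0 := pi_right μ (E := X)
  have l0 := pi_left μ (E := X)
  have r1 := pi_right μ (E := E)
  have l1 := pi_left μ (E := E)
  have hact := la_act (Measure.pi fun _ : E => μ) (ev_cont (G := G) src) (ev_cont (G := G) tgt)
  have h1 := path_int (Measure.pi fun _ : E => μ) (Measure.pi fun _ : X => μ) hact
    (kE_cont L.cont β) (fun c U V => kE_inv β c U V) (mg_cont L pq β)
    (fun c U => mg_inv L hpq β c U) hg n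
  unfold zf
  rw [← h1]
  have h2 : ∀ (U : Fin (n + 1) → E → G) (V : Fin (n + 1) → X → G),
      ∏ t : Fin (n + 1), ((mg L pq β (U t) : ℂ) *
        kE L.rho β (U t) (la (ev G src) (ev G tgt) (V t) (U (t + 1)))) =
      ((Real.exp (β * SS L src tgt pq U V) : ℝ) : ℂ) := by
    intro U V
    unfold SS
    rw [Finset.mul_sum, Real.exp_sum, Complex.ofReal_prod]
    refine Finset.prod_congr rfl fun t _ => ?_
    unfold mg kE
    rw [← Complex.ofReal_mul, ← Real.exp_add, ← mul_add]
  simp only [h2]
  have hc : Continuous fun p : (Fin (n + 1) → E → G) × (Fin (n + 1) → X → G) =>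
      g (pr p.2) * ((Real.exp (β * SS L src tgt pq p.1 p.2) : ℝ) : ℂ) :=
    (hg.comp (pr_cont.comp continuous_snd)).mul (Complex.continuous_ofReal.comp
      (Real.continuous_exp.comp (continuous_const.mul (SS_cont L src tgt pq n))))
  have h3 := integral_re (𝕜 := ℂ) (ic (Measure.pi fun _ : Fin (n + 1) =>
    Measure.pi fun _ : E => μ) (cpi (Measure.pi fun _ : Fin (n + 1) =>
      Measure.pi fun _ : X => μ) (f := fun U V => g (pr V) *
        ((Real.exp (β * SS L src tgt pq U V) : ℝ) : ℂ)) hc))
  refine Eq.trans ?_ h3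
  refine integral_congr_ae (Filter.Eventually.of_forall fun U => ?_)
  have hcU : Continuous fun V : Fin (n + 1) → X → G =>
      g (pr V) * ((Real.exp (β * SS L src tgt pq U V) : ℝ) : ℂ) :=
    hc.comp (continuous_const.prodMk continuous_id)
  have h4 := integral_re (𝕜 := ℂ) (ic (Measure.pi fun _ : Fin (n + 1) =>
    Measure.pi fun _ : X => μ) hcU)
  refine Eq.trans ?_ h4
  refine integral_congr_ae (Filter.Eventually.of_forall fun V => ?_)
  show (g (pr V)).re * Real.exp (β * SS L src tgt pq U V) =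
    (g (pr V) * ((Real.exp (β * SS L src tgt pq U V) : ℝ) : ℂ)).re
  rw [Complex.re_mul_ofReal]

lemma int_pos {Y : Type} [TopologicalSpace Y] [CompactSpace Y] [SecondCountableTopology Y]
    [MeasurableSpace Y] [BorelSpace Y] (m : Measure Y) [IsFiniteMeasure m] [m.IsOpenPosMeasure]
    {f : Y → ℝ} (hf : Continuous f) (hp : ∀ y, 0 < f y) (y0 : Y) : 0 < ∫ y, f y ∂m :=
  hf.integral_pos_of_hasCompactSupport_nonneg_nonzero
    (HasCompactSupport.of_compactSpace _) (fun y => (hp y).le) (x := y0) (hp y0).ne'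

lemma SS_cont2 {n : ℕ} (β : ℝ) (U : Fin (n + 1) → E → G) :
    Continuous fun V : Fin (n + 1) → X → G => Real.exp (β * SS L src tgt pq U V) := by
  have e1 : Continuous fun V : Fin (n + 1) → X → G =>
      ((U, V) : (Fin (n + 1) → E → G) × (Fin (n + 1) → X → G)) :=
    continuous_const.prodMk continuous_id
  have e2 := (SS_cont L src tgt pq n).comp e1
  have e3 : Continuous fun V : Fin (n + 1) → X → G => SS L src tgt pq U V := by
    exact e2
  exact (e3.const_mul β).rexp

lemma SS_int_pos {n : ℕ} (β : ℝ) (U : Fin (n + 1) → E → G) :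
    0 < ∫ V : Fin (n + 1) → X → G, Real.exp (β * SS L src tgt pq U V)
      ∂(Measure.pi fun _ : Fin (n + 1) => Measure.pi fun _ : X => μ) :=
  int_pos (Measure.pi fun _ : Fin (n + 1) => Measure.pi fun _ : X => μ)
    (SS_cont2 L src tgt pq β U) (fun _ => Real.exp_pos _) (fun _ _ => 1)

lemma SS_cont3 {n : ℕ} (β : ℝ) :
    Continuous fun U : Fin (n + 1) → E → G => ∫ V : Fin (n + 1) → X → G,
      Real.exp (β * SS L src tgt pq U V)
        ∂(Measure.pi fun _ : Fin (n + 1) => Measure.pi fun _ : X => μ) := by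
  have e2 : Continuous fun p : (Fin (n + 1) → E → G) × (Fin (n + 1) → X → G) =>
      Real.exp (β * SS L src tgt pq p.1 p.2) :=
    Real.continuous_exp.comp (continuous_const.mul (SS_cont L src tgt pq n))
  exact cpiR (Measure.pi fun _ : Fin (n + 1) => Measure.pi fun _ : X => μ)
    (f := fun U V => Real.exp (β * SS L src tgt pq U V)) e2

/-- the partition function -/
theorem out1 (hpq : ∀ p, ∃ v, IsPath src tgt v (pq p) v) (β : ℝ) (n : ℕ) :
    ∫ U : Fin (n + 1) → E → G, ∫ V : Fin (n + 1) → X → G, Real.exp (β * SS L src tgt pq U V)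
      ∂(Measure.pi fun _ : Fin (n + 1) => Measure.pi fun _ : X => μ)
      ∂(Measure.pi fun _ : Fin (n + 1) => Measure.pi fun _ : E => μ) =
    zf L μ src tgt (fun _ => 1) (mg L pq β) β n := by
  have h0 := out L μ src tgt pq hpq β (g := fun _ => (1:ℂ)) continuous_const n
  simp only [Complex.one_re, one_mul] at h0
  exact h0

/-- the partition function is positive -/
theorem zf_pos (hpq : ∀ p, ∃ v, IsPath src tgt v (pq p) v) (β : ℝ) (n : ℕ) :
    0 < zf L μ src tgt (fun _ => 1) (mg L pq β) β n := by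
  rw [← out1 L μ src tgt pq hpq β n]
  exact int_pos (Measure.pi fun _ : Fin (n + 1) => Measure.pi fun _ : E => μ)
    (SS_cont3 L μ src tgt pq β) (fun U => SS_int_pos L μ src tgt pq β U) (fun _ _ => 1)

lemma pr_apply {n : ℕ} (V : Fin n → X → G) (x : X) :
    pr V x = (List.ofFn fun t => V t x).prod := by
  unfold pr
  have h := map_list_prod (Pi.evalMonoidHom (fun _ : X => G) x) (List.ofFn V)
  have h2 : (Pi.evalMonoidHom (fun _ : X => G) x) (List.ofFn V).prod = (List.ofFn V).prod x := rfl
  rw [← h2, h, List.map_ofFn]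
  rfl

end

end Pool.Agent.X168.PK
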