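import Mathlib
import Pool.Agent.X168.PK.Pol

/-!
# The identity theorem for polynomials on a connected group
-/

open MeasureTheory Filter Topology Matrix
open scoped Matrix.Norms.Frobenius

namespace Pool.Agent.X168.PK

set_option linter.unusedSectionVars false

noncomputable section

open NA (UU Mat)

variable {G : Type} [Group G] [TopologicalSpace G] [IsTopologicalGroup G] [CompactSpace G]
  {N n : ℕ} (L : NA.GD G N n) {E : Type} [Fintype E] [DecidableEq E]

lemma an_exp (Y M : Mat N) (i j : Fin N) (t : ℝ) :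
    AnalyticAt ℝ (fun t : ℝ => (NormedSpace.exp (t • Y) * M) i j) t := by
  have : CompleteSpace (Mat N) := FiniteDimensional.complete ℝ (Mat N)
  let T : Mat N →L[ℝ] ℂ := LinearMap.toContinuousLinearMap
    { toFun := fun Z => (Z * M) i j
      map_add' := fun Z W => by rw [Matrix.add_mul]; rfl
      map_smul' := fun c Z => by rw [Matrix.smul_mul]; rfl }
  have h1 : AnalyticAt ℝ (fun t : ℝ => t • Y) t :=
    (((ContinuousLinearMap.id ℝ ℝ).smulRight Y).analyticAt t)
  have h2 : AnalyticAt ℝ (NormedSpace.exp : Mat N → Mat N) (t • Y) :=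
    NormedSpace.exp_analytic (𝕂 := ℝ) _
  have h3 : AnalyticAt ℝ (fun t : ℝ => NormedSpace.exp (t • Y)) t :=
    AnalyticAt.comp (g := (NormedSpace.exp : Mat N → Mat N)) (f := fun t : ℝ => t • Y) h2 h1
  exact AnalyticAt.comp (g := fun Z => T Z) (f := fun t : ℝ => NormedSpace.exp (t • Y))
    (T.analyticAt _) h3

lemma an_D1 {γ : ℝ → G} {Y : Mat N}
    (hγ : ∀ t, (L.rho (γ t) : Mat N) = NormedSpace.exp (t • Y)) (e : E) (V : E → G)
    (i j : I1 E N) (t : ℝ) :
    AnalyticAt ℝ (fun t : ℝ => D1 L.rho (Pi.mulSingle e (γ t) * V) i j) t := by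
  have key : ∀ (e' : E) (a b : Fin N),
      AnalyticAt ℝ (fun t : ℝ => (L.rho ((Pi.mulSingle e (γ t) * V : E → G) e') : Mat N) a b) t := by
    intro e' a b
    by_cases he : e' = e
    · subst he
      have h1 : (fun t : ℝ => (L.rho ((Pi.mulSingle e' (γ t) * V : E → G) e') : Mat N) a b) =
          fun t : ℝ => (NormedSpace.exp (t • Y) * (L.rho (V e') : Mat N)) a b := by
        funext t
        rw [Pi.mul_apply, Pi.mulSingle_eq_same, map_mul, ← hγ]
        rfl
      rw [h1]
      exact an_exp Y _ a b t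
    · have h1 : (fun t : ℝ => (L.rho ((Pi.mulSingle e (γ t) * V : E → G) e') : Mat N) a b) =
          fun _ : ℝ => (L.rho (V e') : Mat N) a b := by
        funext t
        rw [Pi.mul_apply, Pi.mulSingle_eq_of_ne he, one_mul]
      rw [h1]
      exact analyticAt_const
  rcases i with i | i | i <;> rcases j with j | j | j
  · exact analyticAt_const
  · exact analyticAt_const
  · exact analyticAt_const
  · exact analyticAt_const
  · show AnalyticAt ℝ (fun t : ℝ => if i.2 = j.2 then
      (L.rho ((Pi.mulSingle e (γ t) * V : E → G) i.2) : Mat N) i.1 j.1 else 0) t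
    split_ifs
    · exact key _ _ _
    · exact analyticAt_const
  · exact analyticAt_const
  · exact analyticAt_const
  · exact analyticAt_const
  · show AnalyticAt ℝ (fun t : ℝ => if i.2 = j.2 then
      cj ((L.rho ((Pi.mulSingle e (γ t) * V : E → G) i.2) : Mat N) i.1 j.1) else 0) t
    split_ifs
    · exact (Complex.conjCLE.toContinuousLinearMap.analyticAt _).comp (key _ _ _)
    · exact analyticAt_const

lemma an_Pl {m : ℕ} {f : (E → G) → ℂ} (hf : Pl L.rho m f) {γ : ℝ → G} {Y : Mat N}
    (hγ : ∀ t, (L.rho (γ t) : Mat N) = NormedSpace.exp (t • Y)) (e : E) (V : E → G) (t : ℝ) :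
    AnalyticAt ℝ (fun t : ℝ => f (Pi.mulSingle e (γ t) * V)) t := by
  obtain ⟨C, hC⟩ := hf
  have h1 : (fun t : ℝ => f (Pi.mulSingle e (γ t) * V)) = ∑ q : (Fin m → I1 E N) × (Fin m → I1 E N),
      fun t : ℝ => C q * ∏ s, D1 L.rho (Pi.mulSingle e (γ t) * V) (q.1 s) (q.2 s) := by
    funext t
    rw [Finset.sum_apply, hC]
    rfl
  rw [h1]
  refine Finset.analyticAt_sum _ fun q _ => analyticAt_const.mul ?_
  exact Finset.analyticAt_fun_prod _ fun s _ => an_D1 L hγ e V _ _ t

/-- **Identity theorem.** -/
theorem ident [PreconnectedSpace G] {m : ℕ} {f : (E → G) → ℂ} (hf : Pl L.rho m f)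
    {O : Set (E → G)} (hO : IsOpen O) (hne : O.Nonempty) (h0 : ∀ U ∈ O, f U = 0) (U : E → G) :
    f U = 0 := by
  have hemb : IsEmbedding L.rho := (L.cont.isClosedEmbedding L.inj).isEmbedding
  set Z : Set (E → G) := interior {U | f U = 0} with hZ
  have hZO : IsOpen Z := isOpen_interior
  have hZf : ∀ U ∈ Z, f U = 0 := fun U hU => by
    have h : U ∈ {U | f U = 0} := interior_subset hU
    exact h
  have hOZ : O ⊆ Z := interior_maximal h0 hO
  -- one-parameter curves
  have step : ∀ (e : E) (γ : ℝ → G) (Y : Mat N),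
      (∀ t, (L.rho (γ t) : Mat N) = NormedSpace.exp (t • Y)) →
      ∀ V ∈ Z, f (Pi.mulSingle e (γ 1) * V) = 0 := by
    intro e γ Y hγ V hV
    have hγc : Continuous γ := by
      rw [hemb.continuous_iff]
      refine Continuous.subtype_mk (f := fun t => (L.rho (γ t) : Mat N)) ?_ _
      simp only [hγ]
      exact continuous_iff_continuousAt.2 fun t => (NA.exp_deriv Y t).continuousAt
    have hγ0 : γ 0 = 1 := by
      apply L.inj
      rw [map_one]
      apply Subtype.ext
      rw [hγ, zero_smul, NormedSpace.exp_zero]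
      rfl
    have hcc : Continuous fun t : ℝ => (Pi.mulSingle e (γ t) * V : E → G) := by
      have hc1 : Continuous fun t : ℝ => (Pi.mulSingle e (γ t) : E → G) := by
        refine continuous_pi fun e' => ?_
        by_cases he : e' = e
        · subst he
          simpa using hγc
        · simp only [Pi.mulSingle_eq_of_ne he]
          exact continuous_const
      exact hc1.mul continuous_const
    have h1 : ∀ᶠ t in 𝓝 (0:ℝ), (Pi.mulSingle e (γ t) * V : E → G) ∈ Z := by
      refine hcc.continuousAt.eventually (hZO.mem_nhds ?_)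
      show (Pi.mulSingle e (γ 0) * V : E → G) ∈ Z
      rw [hγ0, Pi.mulSingle_one, one_mul]
      exact hV
    have h2 : (fun t : ℝ => f (Pi.mulSingle e (γ t) * V)) =ᶠ[𝓝 0] 0 := by
      filter_upwards [h1] with t ht
      exact hZf _ ht
    have h3 := AnalyticOnNhd.eqOn_zero_of_preconnected_of_eventuallyEq_zero
      (f := fun t : ℝ => f (Pi.mulSingle e (γ t) * V)) (U := Set.univ) (z₀ := 0)
      (fun t _ => an_Pl L hf hγ e V t) isPreconnected_univ (Set.mem_univ _) h2
    exact h3 (Set.mem_univ 1)
  -- translations by elements near the identity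
  have near : ∀ᶠ g in 𝓝 (1 : G), ∀ (e : E), ∀ V ∈ Z, (Pi.mulSingle e g * V : E → G) ∈ Z := by
    filter_upwards [L.nb 1 one_pos] with g hg e V hV
    obtain ⟨c, γ, _, hγ, h1⟩ := hg
    have hopen : IsOpen ((fun W : E → G => (Pi.mulSingle e g)⁻¹ * W) ⁻¹' Z) :=
      hZO.preimage (continuous_const.mul continuous_id)
    refine interior_maximal ?_ hopen ?_
    · intro W hW
      have h2 := step e γ _ hγ _ hW
      rw [h1, mul_inv_cancel_left] at h2
      exact h2
    · show (Pi.mulSingle e g)⁻¹ * (Pi.mulSingle e g * V) ∈ Z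
      rw [inv_mul_cancel_left]
      exact hV
  let S : Subgroup G :=
    { carrier := {g | ∀ (e : E) V, V ∈ Z ↔ (Pi.mulSingle e g * V : E → G) ∈ Z}
      mul_mem' := by
        intro a b ha hb e V
        rw [hb e V, ha e, ← mul_assoc, ← Pi.mulSingle_mul]
      one_mem' := by
        intro e V
        rw [Pi.mulSingle_one, one_mul]
      inv_mem' := by
        intro a ha e V
        have h := ha e (Pi.mulSingle e a⁻¹ * V)
        rw [← mul_assoc, ← Pi.mulSingle_mul, mul_inv_cancel, Pi.mulSingle_one, one_mul] at h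
        exact h.symm }
  have hSn : (S : Set G) ∈ 𝓝 (1 : G) := by
    have hinv : ∀ᶠ g in 𝓝 (1 : G), ∀ (e : E), ∀ V ∈ Z, (Pi.mulSingle e g⁻¹ * V : E → G) ∈ Z := by
      have h1 : Tendsto (fun g : G => g⁻¹) (𝓝 1) (𝓝 1) := by
        have := (continuous_inv (G := G)).tendsto 1
        rwa [inv_one] at this
      exact h1.eventually near
    filter_upwards [near, hinv] with g hg hg' e V
    refine ⟨hg e V, fun h => ?_⟩
    have h1 := hg' e _ h
    rwa [← mul_assoc, ← Pi.mulSingle_mul, inv_mul_cancel, Pi.mulSingle_one, one_mul] at h1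
  have hSo : IsOpen (S : Set G) := Subgroup.isOpen_of_mem_nhds S hSn
  have hSu : (S : Set G) = Set.univ :=
    IsClopen.eq_univ ⟨Subgroup.isClosed_of_isOpen S hSo, hSo⟩ ⟨1, S.one_mem⟩
  have hall : ∀ (g : G) (e : E) V, V ∈ Z → (Pi.mulSingle e g * V : E → G) ∈ Z := by
    intro g e V hV
    have hg : g ∈ (S : Set G) := by rw [hSu]; trivial
    exact (hg e V).1 hV
  obtain ⟨U0, hU0⟩ := hne
  have hU0Z := hOZ hU0
  -- change the coordinates one by one
  have hind : ∀ (T : Finset E), (fun e => if e ∈ T then U e else U0 e) ∈ Z := by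
    intro T
    induction T using Finset.induction_on with
    | empty => simpa using hU0Z
    | insert e T he ih =>
      have h1 := hall (U e * (U0 e)⁻¹) e _ ih
      have h2 : (Pi.mulSingle e (U e * (U0 e)⁻¹) * fun e' => if e' ∈ T then U e' else U0 e') =
          fun e' => if e' ∈ insert e T then U e' else U0 e' := by
        funext e'
        by_cases h : e' = e
        · subst h
          rw [Pi.mul_apply, Pi.mulSingle_eq_same]
          simp [he]
        · rw [Pi.mul_apply, Pi.mulSingle_eq_of_ne h, one_mul]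
          simp [Finset.mem_insert, h]
      rw [h2] at h1
      exact h1
  have h1 := hind Finset.univ
  simp only [Finset.mem_univ, if_true] at h1
  exact hZf _ h1

end

end Pool.Agent.X168.PK
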